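import Pool.Agent.Work.MP_8c679b_co.Six.Cut

-- merged part: Pool.Agent.Work.MP_8c679b_co.TK
section
set_option autoImplicit false

namespace Pool.Agent.Work.MP_8c679b_co

open Finset

namespace SG

variable {V E : Type} [Fintype V] [DecidableEq V] [DecidableEq E] {G : SG V E}

lemma tk_sub {W U : Finset V} {Q : Finset E} (hQ : Q ⊆ G.ins W) (d : Disjoint U (G.vs Q)) :
    Q ⊆ G.ins (W \ U) :=
  sub_ins_iff.2 ⟨hQ.trans ins_sub_A, subset_sdiff.2 ⟨(sub_ins_iff.1 hQ).2, d.symm⟩⟩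

lemma tk_vertex {H : Finset E} (cH : G.Cc H) : ∃ v, v ∈ G.vs H := by
  obtain ⟨e, he⟩ := cH.1
  exact ⟨_, s_mem_vs he⟩

/-- an odd circuit is isolated after the removal of a disjoint odd circuit -/
lemma tk_iso {W : Finset V} (hD : G.DecH W) (nF : ¬ G.Flex W) {H Q : Finset E}
    (hH : H ⊆ G.ins W) (cH : G.Cc H) (pH : G.par H = 1) (hQ : Q ⊆ G.ins W) (cQ : G.Cc Q)
    (pQ : G.par Q = 1) (d : Disjoint (G.vs H) (G.vs Q)) : G.Iso (W \ G.vs H) Q := by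
  rcases hD (W \ G.vs H) (sdiff_ssubset (sub_ins_iff.1 hH).2 (tk_vertex cH)) Q (tk_sub hQ d) cQ pQ
    with h | h
  · exact absurd (flex_of_ne (abs_odd hH cH pH h.1) (by simpa using abs_odd hH cH pH h.2)) nF
  · exact h.1

lemma tk_ne {W : Finset V} {H Q : Finset E} (hH : H ⊆ G.ins W) (cH : G.Cc H)
    (d : Disjoint (G.vs H) (G.vs Q)) : G.vs Q ≠ W := by
  obtain ⟨v, hv⟩ := tk_vertex cH
  exact fun k => disjoint_left.1 d hv (k ▸ (sub_ins_iff.1 hH).2 hv)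

/-- the case of a balanced remainder -/
lemma tk_a (hc : G.Cub) (hA : G.Adm1) {W : Finset V} (h2 : G.Two W (G.ins W)) (hD : G.DecH W)
    (nF : ¬ G.Flex W) {H Q : Finset E} (hH : H ⊆ G.ins W) (cH : G.Cc H) (pH : G.par H = 1)
    (hQ : Q ⊆ G.ins W) (cQ : G.Cc Q) (pQ : G.par Q = 1) (d : Disjoint (G.vs H) (G.vs Q))
    (hY : G.Bal (G.ins ((W \ G.vs H) \ G.vs Q))) : False := by
  have hQ' := tk_sub hQ d
  have hHA := hH.trans ins_sub_A
  have hQA := hQ.trans ins_sub_A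
  have s0 : G.Sol W 0 := by
    simpa [z2_add_self] using abs_odd hH cH pH (abs_odd hQ' cQ pQ (sol_of_bal hA hY))
  have iQ := tk_iso hD nF hH cH pH hQ cQ pQ d
  have iH := tk_iso hD nF hQ cQ pQ hH cH pH d.symm
  obtain ⟨a, P, r1, r2⟩ := exists_rungs hc h2 hH cH hQ' cQ iQ
  obtain ⟨v, v', A0, b1, b2, a1, a2, -, a4, -⟩ := exists_min_arc hc hQA cQ (G.Br W Q)
    (fun _ h => h.1) (two_br hc h2 hQ cQ (tk_ne hH cH d)) G.n pQ
  have jA := cQ.compl hc hQA a1 a2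
  have dP := r2 v v' b1 b2 a2.1
  have R1 := r1 v b1
  have R2 := r1 v' b2
  have hne : a v ≠ a v' := fun k =>
    disjoint_left.1 dP R1.2.2.1.right_mem (k ▸ R2.2.2.1.right_mem)
  have ex : ∃ B ⊆ H, G.Jn B (a v) (a v') ∧ G.par (((Q \ A0) ∪ P v') ∪ (P v ∪ B)) = 1 := by
    obtain ⟨B, k1, k2⟩ := cH.arc R1.1 R2.1 hne
    rcases z2 (G.par (((Q \ A0) ∪ P v') ∪ (P v ∪ B))) with k | k
    · refine ⟨H \ B, sdiff_subset, cH.compl hc hHA k1 k2, ?_⟩
      have e1 := (ring_cc hH hQ' R1 R2 dP sdiff_subset jA k1 k2).2.2 G.n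
      have e2 := (ring_cc hH hQ' R1 R2 dP sdiff_subset jA sdiff_subset
        (cH.compl hc hHA k1 k2)).2.2 G.n
      have e3 := sum_sdiff2 k1 G.n
      unfold par at k pH ⊢
      rw [e2, e3, pH]
      rw [e1] at k
      linear_combination k
    · exact ⟨B, k1, k2, k⟩
  obtain ⟨B, k1, k2, k3⟩ := ex
  obtain ⟨cR, sR, -⟩ := ring_cc hH hQ' R1 R2 dP sdiff_subset jA k1 k2
  set R := ((Q \ A0) ∪ P v') ∪ (P v ∪ B) with hR
  have sA : Q \ A0 ⊆ R := subset_union_left.trans subset_union_left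
  have sP : P v ⊆ R := subset_union_left.trans subset_union_right
  have bR : G.Bal (G.ins (W \ G.vs R)) := by
    by_contra k
    obtain ⟨C, c1, c2, c3⟩ := exists_odd_cc k
    have cW : C ⊆ G.ins W := c1.trans (ins_mono sdiff_subset)
    have nR : ∀ u ∈ G.vs C, u ∉ G.vs R := fun u hu =>
      (mem_sdiff.1 ((sub_ins_iff.1 c1).2 hu)).2
    have dQ : Disjoint (G.vs C) (G.vs Q) := by
      refine cQ.avoid hc hQA c2.2.1 (fun e he u hu hu' => ?_) b1.1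
        fun k => nR v k (vs_mono sA jA.left_mem)
      by_contra k
      have h3 := nR u (mem_vs.2 ⟨e, he, hu'⟩)
      have h4 := ((vs_split a1).1 hu).resolve_right fun k => h3 (vs_mono sA k)
      rcases a4 u h4 ⟨hu, e, cW he, k, hu'⟩ with rfl | rfl
      exacts [h3 (vs_mono sA jA.left_mem), h3 (vs_mono sA jA.right_mem)]
    have dH : Disjoint (G.vs C) (G.vs H) :=
      cH.avoid hc hHA c2.2.1 (iH C (tk_sub cW dQ.symm) c2.2.1) R1.1
        fun k => nR _ k (vs_mono sP R1.2.2.1.right_mem)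
    exact c2.not_bal c3 (tk_sub (tk_sub cW dH.symm) dQ.symm) hY
  exact nF ⟨s0, by simpa using abs_odd sR cR k3 (sol_of_bal hA bR)⟩

/-- rungs with the information on reachability -/
lemma tk_br3 (hc : G.Cub) {W : Finset V} (h2 : G.Two W (G.ins W)) {H Q Q2 : Finset E}
    (hH : H ⊆ G.ins W) (cH : G.Cc H) (hQ : Q ⊆ G.ins W) (cQ : G.Cc Q) (hQ2 : Q2 ⊆ G.ins W)
    (cQ2 : G.Cc Q2) (d : Disjoint (G.vs H) (G.vs Q)) (d2 : Disjoint (G.vs H) (G.vs Q2))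
    (d3 : Disjoint (G.vs Q2) (G.vs Q)) (i1 : G.Iso (W \ G.vs H) Q) (i2 : G.Iso (W \ G.vs Q2) Q)
    {v1 v2 v3 : V} (b1 : G.Br W Q v1) (b2 : G.Br W Q v2) (b3 : G.Br W Q v3) (n12 : v1 ≠ v2)
    (n13 : v1 ≠ v3) (n23 : v2 ≠ v3) : False := by
  have hQ' := tk_sub hQ d
  have hQ'' := tk_sub hQ d3
  choose! a P h3 h4 using fun v hv => exists_rung1 (v := v) hc h2 hH cH hQ' cQ i1 hv
  have k1 : ∀ x y, G.Br W Q x → G.Br W Q y → ¬ Disjoint (G.vs (P x)) (G.vs Q2) →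
      ¬ Disjoint (G.vs (P y)) (G.vs Q2) → x = y := by
    intro x y hx hy kx ky
    obtain ⟨u, u1, u2⟩ := not_disjoint_iff.1 kx
    obtain ⟨w, w1, w2⟩ := not_disjoint_iff.1 ky
    have s2 : Q2 ⊆ G.ins (W \ G.vs H) \ Q :=
      subset_sdiff.2 ⟨tk_sub hQ2 d2, disjoint_of_vs d3⟩
    obtain ⟨R, r1, r2⟩ := (((h4 x hx u u1 fun k => disjoint_left.1 d2 (k ▸ (h3 x hx).1) u2).trans
      ((cQ2.2.2 u u2 w w2).mono s2)).trans
      (h4 y hy w w1 fun k => disjoint_left.1 d2 (k ▸ (h3 y hy).1) w2).symm).od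
    exact i1.eq_of_od hQ' cQ hx.1 hy.1 (r1.trans sdiff_subset) (sdiff_disjoint.mono_left r1) r2
  have k2 : ∀ x y, G.Br W Q x → G.Br W Q y → Disjoint (G.vs (P x)) (G.vs Q2) →
      Disjoint (G.vs (P y)) (G.vs Q2) → x = y := by
    intro x y hx hy kx ky
    have sP : ∀ z, G.Br W Q z → Disjoint (G.vs (P z)) (G.vs Q2) →
        G.Rch (G.ins (W \ G.vs Q2) \ Q) z (a z) := fun z hz kz =>
      ((h3 z hz).2.2.1.2.2 _ (h3 z hz).2.2.1.left_mem _ (h3 z hz).2.2.1.right_mem).mono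
        (subset_sdiff.2 ⟨tk_sub (h3 z hz).2.1 kz.symm, (h3 z hz).2.2.2.2.1⟩)
    have sH : H ⊆ G.ins (W \ G.vs Q2) \ Q :=
      subset_sdiff.2 ⟨tk_sub hH d2.symm, disjoint_of_vs d⟩
    obtain ⟨R, r1, r2⟩ := (((sP x hx kx).trans
      ((cH.2.2 _ (h3 x hx).1 _ (h3 y hy).1).mono sH)).trans (sP y hy ky).symm).od
    exact i2.eq_of_od hQ'' cQ hx.1 hy.1 (r1.trans sdiff_subset) (sdiff_disjoint.mono_left r1) r2
  by_cases c1 : Disjoint (G.vs (P v1)) (G.vs Q2) <;>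
    by_cases c2 : Disjoint (G.vs (P v2)) (G.vs Q2) <;>
    by_cases c3 : Disjoint (G.vs (P v3)) (G.vs Q2)
  exacts [n12 (k2 _ _ b1 b2 c1 c2), n12 (k2 _ _ b1 b2 c1 c2), n13 (k2 _ _ b1 b3 c1 c3),
    n23 (k1 _ _ b2 b3 c2 c3), n23 (k2 _ _ b2 b3 c2 c3), n13 (k1 _ _ b1 b3 c1 c3),
    n12 (k1 _ _ b1 b2 c1 c2), n12 (k1 _ _ b1 b2 c1 c2)]

variable (G) in
/-- an odd circuit with exactly two branch vertices -/
def TkTB (W : Finset V) (X : Finset E) (v v' : V) : Prop :=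
  X ⊆ G.ins W ∧ G.Cc X ∧ G.par X = 1 ∧ v ≠ v' ∧ G.Br W X v ∧ G.Br W X v' ∧
    ∀ u, G.Br W X u → u = v ∨ u = v'

variable (G) in
/-- the set `C` leaves `X` at a vertex of `X` -/
def TkLv (C X : Finset E) : Prop := ∃ e ∈ C, e ∉ X ∧ ∃ u ∈ G.vs X, G.At e u

variable (G) in
/-- the unused arc is an edge or the used arc has an inner vertex -/
def TkGd (W : Finset V) (C X : Finset E) : Prop :=
  (∃ e, X \ C = {e}) ∨ ∃ u ∈ G.vs (C ∩ X), ¬ G.Br W X u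

lemma tk_tb (hc : G.Cub) {W : Finset V} (h2 : G.Two W (G.ins W)) (hD : G.DecH W)
    (nF : ¬ G.Flex W) {H Q Q2 : Finset E} (hH : H ⊆ G.ins W) (cH : G.Cc H) (pH : G.par H = 1)
    (hQ : Q ⊆ G.ins W) (cQ : G.Cc Q) (pQ : G.par Q = 1) (hQ2 : Q2 ⊆ G.ins W) (cQ2 : G.Cc Q2)
    (pQ2 : G.par Q2 = 1) (d : Disjoint (G.vs H) (G.vs Q)) (d2 : Disjoint (G.vs H) (G.vs Q2))
    (d3 : Disjoint (G.vs Q2) (G.vs Q)) : ∃ v v', G.TkTB W Q v v' := by
  obtain ⟨v, v', h3, h4, h5⟩ := two_br hc h2 hQ cQ (tk_ne hH cH d)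
  refine ⟨v, v', hQ, cQ, pQ, h3, h4, h5, fun u hu => ?_⟩
  by_contra k
  push Not at k
  exact tk_br3 hc h2 hH cH hQ cQ hQ2 cQ2 d d2 d3 (tk_iso hD nF hH cH pH hQ cQ pQ d)
    (tk_iso hD nF hQ2 cQ2 pQ2 hQ cQ pQ d3) h4 h5 hu h3 (Ne.symm k.1) (Ne.symm k.2)

lemma tk_od (hc : G.Cub) {W : Finset V} {X C : Finset E} {v v' : V} (t : G.TkTB W X v v')
    (hC : C ⊆ G.ins W) (eC : G.Ev C) (l : G.TkLv C X) : G.Od (C ∩ X) v v' := by
  obtain ⟨hX, cX, -, hne, -, -, hb⟩ := t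
  have hXA := hX.trans ins_sub_A
  have k0 : ∀ u, G.dg (C ∩ X) u = G.dg (C \ X) u := fun u => by
    have := dg_sdiff (G := G) (v := u) (inter_subset_left (s₁ := C) (s₂ := X))
    rw [sdiff_inter_self_left, eC u, zero_add] at this
    exact this.symm
  have k1 : ∀ u, u ≠ v → u ≠ v' → G.dg (C ∩ X) u = 0 := fun u h1 h2 => by
    by_cases k : u ∈ G.vs X
    · rw [k0]
      refine dg_of_not_mem fun k2 => ?_
      obtain ⟨e, k3, k4⟩ := mem_vs.1 k2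
      exact (hb u ⟨k, e, hC (mem_sdiff.1 k3).1, (mem_sdiff.1 k3).2, k4⟩).elim h1 h2
    · exact dg_of_not_mem fun k2 => k (vs_mono inter_subset_right k2)
  have k2 : G.dg (C ∩ X) v = G.dg (C ∩ X) v' := by
    have h1 := sum_dg (G := G) (C ∩ X) univ
    rw [show G.crs (C ∩ X) univ = ∅ from filter_eq_empty_iff.2 fun e _ => by simp,
      sum_eq_add v v' hne (fun u _ hu => k1 u hu.1 hu.2) (by simp) (by simp)] at h1
    exact z2_eq_of_add (by simpa using h1)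
  have k3 : G.dg (C ∩ X) v = 1 := by
    obtain ⟨e, h1, h3, u, h4, h5⟩ := l
    have h6 : G.dg (C ∩ X) u = 1 := by
      rw [k0, dg_eq]
      have h7 := deg_pos.2 (mem_vs.2 ⟨e, mem_sdiff.2 ⟨h1, h3⟩, h5⟩)
      have h8 := deg_mono (G := G) (v := u)
        (sdiff_subset_sdiff (hC.trans ins_sub_A) (Subset.refl X))
      rw [deg_third hc hXA h4 (cX.2.1 u)] at h8
      rw [show G.deg (C \ X) u = 1 by omega, Nat.cast_one]
    rcases hb u ⟨h4, e, hC h1, h3, h5⟩ with rfl | rfl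
    exacts [h6, k2.trans h6]
  intro u
  by_cases h1 : u = v
  · subst h1
    simp [iv, hne, k3]
  · by_cases h2 : u = v'
    · subst h2
      simp [iv, h1, ← k2, k3]
    · simp [iv, h1, h2, k1 u h1 h2]

lemma tk_used (hc : G.Cub) {W : Finset V} {X C : Finset E} {v v' : V} (t : G.TkTB W X v v')
    (hC : C ⊆ G.ins W) (eC : G.Ev C) (l : G.TkLv C X) : G.Jn (C ∩ X) v v' :=
  t.2.1.jn hc (t.1.trans ins_sub_A) inter_subset_right (tk_od hc t hC eC l) t.2.2.2.1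

lemma tk_unused (hc : G.Cub) {W : Finset V} {X C : Finset E} {v v' : V} (t : G.TkTB W X v v')
    (hC : C ⊆ G.ins W) (eC : G.Ev C) (l : G.TkLv C X) : G.Jn (X \ C) v v' := by
  have := t.2.1.compl hc (t.1.trans ins_sub_A) inter_subset_right (tk_used hc t hC eC l)
  rwa [sdiff_inter_self_right] at this

lemma tk_toggle (hc : G.Cub) {W : Finset V} {X C : Finset E} {v v' : V} (t : G.TkTB W X v v')
    (hC : C ⊆ G.ins W) (cC : G.Cc C) (l : G.TkLv C X) :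
    symmDiff C X ⊆ G.ins W ∧ G.Cc (symmDiff C X) ∧ G.TkLv (symmDiff C X) X := by
  refine ⟨symmDiff_subset_union.trans (union_subset hC t.1), ?_, ?_⟩
  · have j1 : G.Jn (C \ X) v v' := by
      have := cC.jn hc (hC.trans ins_sub_A) sdiff_subset
        (cC.2.1.sdiff (tk_od hc t hC cC.2.1 l) inter_subset_left) t.2.2.2.1
      rwa [sdiff_inter_self_left] at this
    rw [symmDiff_def, sup_eq_union]
    exact j1.cc (tk_unused hc t hC cC.2.1 l) disjoint_sdiff_sdiff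
  · obtain ⟨e, h1, h3, h4⟩ := l
    exact ⟨e, mem_symmDiff.2 (Or.inl ⟨h1, h3⟩), h3, h4⟩

lemma tk_lv_other {X Y C : Finset E} (l : G.TkLv C Y) (d : Disjoint (G.vs X) (G.vs Y)) :
    G.TkLv (symmDiff C X) Y := by
  obtain ⟨e, h1, h3, u, h4, h5⟩ := l
  exact ⟨e, mem_symmDiff.2 (Or.inl ⟨h1, fun k => disjoint_left.1 d (mem_vs.2 ⟨e, k, h5⟩) h4⟩),
    h3, u, h4, h5⟩

lemma tk_gd_other {W : Finset V} {X Y C : Finset E} (g : G.TkGd W C Y)
    (d : Disjoint (G.vs X) (G.vs Y)) : G.TkGd W (symmDiff C X) Y := by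
  have d' := disjoint_left.1 (disjoint_of_vs d)
  have e1 : Y \ symmDiff C X = Y \ C := by
    ext e
    simp only [mem_sdiff, mem_symmDiff]
    have := @d' e
    tauto
  have e2 : symmDiff C X ∩ Y = C ∩ Y := by
    ext e
    simp only [mem_inter, mem_symmDiff]
    have := @d' e
    tauto
  rw [TkGd, e1, e2]
  exact g

lemma tk_gd (hc : G.Cub) {W : Finset V} {X C : Finset E} {v v' : V} (t : G.TkTB W X v v')
    (hC : C ⊆ G.ins W) (eC : G.Ev C) (l : G.TkLv C X) :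
    G.TkGd W C X ∨ G.TkGd W (symmDiff C X) X := by
  by_cases k : ∃ u ∈ G.vs X, ¬ G.Br W X u
  · obtain ⟨u, h1, h3⟩ := k
    rcases (vs_split (inter_subset_right (s₁ := C))).1 h1 with h4 | h4
    · exact Or.inl (Or.inr ⟨u, h4, h3⟩)
    · refine Or.inr (Or.inr ⟨u, ?_, h3⟩)
      have e1 : symmDiff C X ∩ X = X \ (C ∩ X) := by
        ext e
        simp only [mem_inter, mem_sdiff, mem_symmDiff]
        tauto
      rwa [e1]
  · push Not at k
    have j := tk_unused hc t hC eC l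
    have hXA := t.1.trans ins_sub_A
    have g1 := t.2.1.deg_end hc hXA sdiff_subset j
    have g2 := t.2.1.deg_end hc hXA sdiff_subset j.symm
    have k1 : ∀ e ∈ X \ C, G.At e v := fun e he => by
      have he' := (mem_sdiff.1 he).1
      rcases t.2.2.2.2.2.2 _ (k _ (s_mem_vs he')) with h1 | h1
      · exact Or.inl h1
      · rcases t.2.2.2.2.2.2 _ (k _ (t_mem_vs he')) with h3 | h3
        · exact Or.inr h3
        · exact absurd (h1.trans h3.symm) (ne_of_deg_le_one g2.le he (Or.inl h1))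
    obtain ⟨e, he⟩ := j.nonempty
    exact Or.inl (Or.inl ⟨e, eq_singleton_iff_unique_mem.2 ⟨he, fun x hx =>
      eq_of_deg_le_one g1.le he hx (k1 e he) (k1 x hx)⟩⟩)

lemma tk_fl (hc : G.Cub) {W : Finset V} {X C : Finset E} {v v' : V} (t : G.TkTB W X v v')
    (hC : C ⊆ G.ins W) (eC : G.Ev C) (l : G.TkLv C X) (g : G.TkGd W C X) {p : V → ZMod 2}
    (hp : ∀ e ∈ C, G.sw p e = 0) : ∃ e, G.Fl p W (G.vs C) C e ∧ (∃ u ∈ G.vs X, G.At e u) ∧
      ∀ u ∈ W, G.At e u → u ∈ G.vs X := by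
  have j1 := tk_used hc t hC eC l
  have j2 := tk_unused hc t hC eC l
  rcases g with ⟨e, he⟩ | ⟨u, h1, h3⟩
  · have eX : e ∈ X := (mem_sdiff.1 (he ▸ mem_singleton_self e : e ∈ X \ C)).1
    refine ⟨e, fl_chord (mem_ins.2 ⟨ins_sub_A (t.1 eX), ?_⟩) hp ?_, ⟨_, s_mem_vs eX, Or.inl rfl⟩,
      fun u _ hu => mem_vs.2 ⟨e, eX, hu⟩⟩
    · rw [he] at j2
      obtain ⟨x, x1, x2⟩ := mem_vs.1 j2.left_mem
      obtain ⟨y, y1, y2⟩ := mem_vs.1 j2.right_mem
      rw [mem_singleton] at x1 y1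
      subst x1
      subst y1
      have m1 := vs_mono inter_subset_left j1.left_mem
      have m2 := vs_mono inter_subset_left j1.right_mem
      have hne := j1.1
      rcases x2 with x2 | x2 <;> rcases y2 with y2 | y2
      · exact absurd (x2.symm.trans y2) hne
      · exact ⟨x2 ▸ m1, y2 ▸ m2⟩
      · exact ⟨y2 ▸ m2, x2 ▸ m1⟩
      · exact absurd (x2.symm.trans y2) hne
    · have h1 := t.2.1.2.1.par_eq p
      rw [t.2.2.1, ← sdiff_union_inter X C, sum_union (disjoint_sdiff_inter _ _), he,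
        sum_singleton, sum_eq_zero fun x hx => hp x (mem_inter.1 hx).2, add_zero] at h1
      exact h1.symm
  · have uX := vs_mono inter_subset_right h1
    obtain ⟨uW, e, h4, h5⟩ := ex_of_not_br hc t.1 t.2.1.2.1 uX h3
    refine ⟨e, fl_cut (sub_ins_iff.1 hC).2 (sub_ins_vs (hC.trans ins_sub_A)) h4
      (vs_mono inter_subset_left h1) h5, ⟨u, uX, h5⟩, fun w hw hw' => ?_⟩
    have h6 := (mem_cut.1 h4).2
    rcases h5 with rfl | rfl <;> rcases hw' with rfl | rfl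
    exacts [uX, absurd (iff_of_true uW hw) h6, absurd (iff_of_true hw uW) h6, uX]

lemma tk_avoid (hc : G.Cub) {W : Finset V} {X C D : Finset E} {v v' : V} (t : G.TkTB W X v v')
    (hC : C ⊆ G.ins W) (eC : G.Ev C) (l : G.TkLv C X) (hD : D ⊆ G.ins (W \ G.vs C))
    (eD : G.Ev D) : Disjoint (G.vs X) (G.vs D) := by
  have j1 := tk_used hc t hC eC l
  have m1 := vs_mono inter_subset_left j1.left_mem
  have m2 := vs_mono inter_subset_left j1.right_mem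
  have nC : ∀ u ∈ G.vs D, u ∉ G.vs C := fun u hu => (mem_sdiff.1 ((sub_ins_iff.1 hD).2 hu)).2
  refine (t.2.1.avoid hc (t.1.trans ins_sub_A) eD (fun e he u hu hu' => ?_) t.2.2.2.2.1.1
    fun k => nC v k m1).symm
  by_contra k
  have h3 := nC u (mem_vs.2 ⟨e, he, hu'⟩)
  rcases t.2.2.2.2.2.2 u ⟨hu, e, ins_mono sdiff_subset (hD he), k, hu'⟩ with rfl | rfl
  exacts [h3 m1, h3 m2]

lemma tk_lv {C X Y : Finset E} (cC : G.Cc C) {x y : V} (hx : x ∈ G.vs C) (hx' : x ∈ G.vs X)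
    (hy : y ∈ G.vs C) (hy' : y ∈ G.vs Y) (d : Disjoint (G.vs X) (G.vs Y)) : G.TkLv C X := by
  by_contra k
  have k1 : ∀ e ∈ C, ∀ u ∈ G.vs X, G.At e u → e ∈ X := fun e he u hu hu' => by
    by_contra k2
    exact k ⟨e, he, k2, u, hu, hu'⟩
  exact disjoint_left.1 d ((cC.2.2 x hx y hy).closed (P := fun u => u ∈ G.vs X)
    (fun e he => ⟨fun k2 => t_mem_vs (k1 e he _ k2 (Or.inl rfl)),
      fun k2 => s_mem_vs (k1 e he _ k2 (Or.inr rfl))⟩) hx') hy'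

/-- the case of three disjoint odd circuits -/
lemma tk_b (hc : G.Cub) (hA : G.Adm1) {W : Finset V} (h2 : G.Two W (G.ins W)) (hD : G.DecH W)
    (nF : ¬ G.Flex W) {H Q Q2 : Finset E} (hH : H ⊆ G.ins W) (cH : G.Cc H) (pH : G.par H = 1)
    (hQ : Q ⊆ G.ins W) (cQ : G.Cc Q) (pQ : G.par Q = 1) (hQ2 : Q2 ⊆ G.ins W) (cQ2 : G.Cc Q2)
    (pQ2 : G.par Q2 = 1) (d : Disjoint (G.vs H) (G.vs Q)) (d2 : Disjoint (G.vs H) (G.vs Q2))
    (d3 : Disjoint (G.vs Q2) (G.vs Q)) : False := by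
  obtain ⟨q, q', tQ⟩ := tk_tb hc h2 hD nF hH cH pH hQ cQ pQ hQ2 cQ2 pQ2 d d2 d3
  obtain ⟨r, r', tR⟩ := tk_tb hc h2 hD nF hH cH pH hQ2 cQ2 pQ2 hQ cQ pQ d2 d d3.symm
  obtain ⟨h, h', tH⟩ := tk_tb hc h2 hD nF hQ cQ pQ hH cH pH hQ2 cQ2 pQ2 d.symm d3.symm d2.symm
  have mq := tQ.2.2.2.2.1.1
  have mh := tH.2.2.2.2.1.1
  obtain ⟨C0, s0, c0, m1, m2⟩ := h2.cc_through Subset.rfl ((sub_ins_iff.1 hQ).2 mq)
    ((sub_ins_iff.1 hH).2 mh) fun k => disjoint_left.1 d mh (k ▸ mq)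
  have lQ0 := tk_lv c0 m1 mq m2 mh d.symm
  have lH0 := tk_lv c0 m2 mh m1 mq d
  have lR0 : G.TkLv C0 Q2 := by
    by_cases k : Disjoint (G.vs Q2) (G.vs C0)
    · obtain ⟨e, k1, k2, u, k3, k4⟩ := lQ0
      exact absurd (tk_iso hD nF hQ2 cQ2 pQ2 hQ cQ pQ d3 C0 (tk_sub s0 k) c0.2.1 e k1 u k3 k4) k2
    · obtain ⟨u, k1, k2⟩ := not_disjoint_iff.1 k
      exact tk_lv c0 k2 k1 m1 mq d3
  have st1 : ∃ C ⊆ G.ins W, G.Cc C ∧ G.TkLv C H ∧ G.TkLv C Q ∧ G.TkLv C Q2 ∧ G.TkGd W C Q := by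
    rcases tk_gd hc tQ s0 c0.2.1 lQ0 with g | g
    · exact ⟨C0, s0, c0, lH0, lQ0, lR0, g⟩
    · obtain ⟨k1, k2, k3⟩ := tk_toggle hc tQ s0 c0 lQ0
      exact ⟨_, k1, k2, tk_lv_other lH0 d.symm, k3, tk_lv_other lR0 d3.symm, g⟩
  obtain ⟨C1, s1, c1, lH1, lQ1, lR1, g1⟩ := st1
  have st2 : ∃ C ⊆ G.ins W, G.Cc C ∧ G.TkLv C H ∧ G.TkLv C Q ∧ G.TkLv C Q2 ∧ G.TkGd W C Q ∧
      G.TkGd W C Q2 := by
    rcases tk_gd hc tR s1 c1.2.1 lR1 with g | g
    · exact ⟨C1, s1, c1, lH1, lQ1, lR1, g1, g⟩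
    · obtain ⟨k1, k2, k3⟩ := tk_toggle hc tR s1 c1 lR1
      exact ⟨_, k1, k2, tk_lv_other lH1 d2.symm, tk_lv_other lQ1 d3, k3, tk_gd_other g1 d3, g⟩
  obtain ⟨C, s, c, lH, lQ, lR, gQ, gR⟩ := st2
  obtain ⟨ε, hε⟩ := greedy hA (((W \ G.vs (C ∪ H)) \ G.vs Q) \ G.vs Q2)
  have key : ∀ C' ⊆ G.ins W, G.Cc C' → G.TkLv C' H → G.TkLv C' Q → G.TkLv C' Q2 →
      G.TkGd W C' Q → G.TkGd W C' Q2 → C' ∪ H = C ∪ H → G.Sol W (ε + G.par C') := by
    intro C' s' c' l1 l2 l3 g2 g3 hu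
    have so : G.Sol (W \ G.vs C') ε := by
      refine hε _ (sdiff_subset.trans (sdiff_subset.trans (sdiff_subset_sdiff Subset.rfl
        (vs_mono (hu ▸ subset_union_left))))) fun D k1 k2 _ => ?_
      refine tk_sub (tk_sub (tk_sub (k1.trans (ins_mono sdiff_subset)) ?_)
        (tk_avoid hc tQ s' c'.2.1 l2 k1 k2.2.1)) (tk_avoid hc tR s' c'.2.1 l3 k1 k2.2.1)
      rw [← hu, vs_union]
      exact disjoint_union_left.2 ⟨(subset_sdiff.1 (sub_ins_iff.1 k1).2).2.symm,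
        tk_avoid hc tH s' c'.2.1 l1 k1 k2.2.1⟩
    rcases z2 (G.par C') with k | k
    · obtain ⟨p, hp⟩ := c'.bal hc (s'.trans ins_sub_A) k
      obtain ⟨e1, f1, ⟨u, u1, u2⟩, -⟩ := tk_fl hc tQ s' c'.2.1 l2 g2 hp
      obtain ⟨e2, f2, -, w⟩ := tk_fl hc tR s' c'.2.1 l3 g3 hp
      rw [k, add_zero]
      refine abs_two (sub_ins_iff.1 s').2 (sub_ins_vs (s'.trans ins_sub_A)) c'.2.1 c'.2.2 hp
        (fun k1 => ?_) f1 f2 so
      exact disjoint_left.1 d3 (w u ((sub_ins_iff.1 hQ).2 u1) (k1 ▸ u2)) u1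
    · rw [k]
      exact abs_odd s' c' k so
  obtain ⟨k1, k2, k3⟩ := tk_toggle hc tH s c lH
  have a1 := key C s c lH lQ lR gQ gR rfl
  have a2 := key _ k1 k2 k3 (tk_lv_other lQ d) (tk_lv_other lR d2) (tk_gd_other gQ d)
    (tk_gd_other gR d2) (by
      ext e
      simp only [mem_union, mem_symmDiff]
      (clear * -; tauto))
  rw [par_symmDiff, pH, ← add_assoc] at a2
  exact nF (flex_of_ne a1 a2)

/-- two disjoint odd circuits -/
theorem tk (hc : G.Cub) (hA : G.Adm1) {W : Finset V} (h2 : G.Two W (G.ins W)) (hD : G.DecH W)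
    {H Q : Finset E} (hH : H ⊆ G.ins W) (cH : G.Cc H) (pH : G.par H = 1) (hQ : Q ⊆ G.ins W)
    (cQ : G.Cc Q) (pQ : G.par Q = 1) (d : Disjoint (G.vs H) (G.vs Q)) : G.Flex W := by
  by_contra nF
  by_cases hY : G.Bal (G.ins ((W \ G.vs H) \ G.vs Q))
  · exact tk_a hc hA h2 hD nF hH cH pH hQ cQ pQ d hY
  · obtain ⟨Q2, k1, k2, k3⟩ := exists_odd_cc hY
    have k4 := (sub_ins_iff.1 k1).2
    exact tk_b hc hA h2 hD nF hH cH pH hQ cQ pQ
      (k1.trans (ins_mono (sdiff_subset.trans sdiff_subset))) k2 k3 d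
      (subset_sdiff.1 (k4.trans sdiff_subset)).2.symm (subset_sdiff.1 k4).2

end SG

end Pool.Agent.Work.MP_8c679b_co
end

-- merged part: Pool.Agent.Work.MP_8c679b_co.T1
section
set_option autoImplicit false

namespace Pool.Agent.Work.MP_8c679b_co

open Finset

namespace SG

variable {V E : Type} [Fintype V] [DecidableEq V] [DecidableEq E] {G : SG V E}

/-- absorbing an even circuit with two exit vertices -/
lemma t1_two (hc : G.Cub) {W : Finset V} {R : Finset E} {ε : ZMod 2} (hR : R ⊆ G.ins W)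
    (cR : G.Cc R) (pR : G.par R = 0) {z1 z2 : V} (hne : z1 ≠ z2) (m1 : z1 ∈ G.vs R)
    (m2 : z2 ∈ G.vs R) (x1 : G.Ex W z1) (x2 : G.Ex W z2) (h : G.Sol (W \ G.vs R) ε) :
    G.Sol W ε := by
  have hA := hR.trans ins_sub_A
  obtain ⟨p, hp⟩ := cR.bal hc hA pR
  obtain ⟨w1, e1, c1, a1⟩ := x1
  obtain ⟨w2, e2, c2, a2⟩ := x2
  have hU := (sub_ins_iff.1 hR).2
  refine abs_two hU (sub_ins_vs hA) cR.2.1 cR.2.2 hp (e1 := e1) (e2 := e2) ?_
    (fl_cut hU (sub_ins_vs hA) c1 m1 a1) (fl_cut hU (sub_ins_vs hA) c2 m2 a2) h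
  rintro rfl
  rcases a1 with rfl | rfl <;> rcases a2 with h2 | h2
  · exact hne h2
  · exact (mem_cut.1 c1).2 (iff_of_true w1 (h2 ▸ w2))
  · exact (mem_cut.1 c1).2 (iff_of_true (h2 ▸ w2) w1)
  · exact hne h2

/-- a potential for which only edges of `Q` can be inconsistent -/
lemma t1_pot (hc : G.Cub) {W : Finset V} {Q : Finset E} (hQ : Q ⊆ G.ins W) (cQ : G.Cc Q)
    (hB : G.Bal (G.ins (W \ G.vs Q)))
    (hout : ∀ x ∈ G.ins W, x ∉ Q → G.s x ∈ G.vs Q → G.t x ∉ G.vs Q) :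
    ∃ p, ∀ x ∈ G.ins W, x ∉ Q → G.sw p x = 0 := by
  classical
  obtain ⟨p0, h0⟩ := hB
  have hA := hQ.trans ins_sub_A
  have k : ∀ x ∈ G.ins W, x ∉ Q → ∀ u ∈ G.vs Q, G.At x u →
      ∑ y ∈ (G.ins W \ Q).filter (fun y => G.At y u), G.sw p0 y = G.sw p0 x := by
    intro x hx hx' u hu ha
    refine sum_eq_single_of_mem x (mem_filter.2 ⟨mem_sdiff.2 ⟨hx, hx'⟩, ha⟩) fun y hy hne => ?_
    obtain ⟨h1, h2⟩ := mem_filter.1 hy
    obtain ⟨h3, h4⟩ := mem_sdiff.1 h1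
    exact absurd (third_unique hc hA hu (cQ.2.1 u) (ins_sub_A hx) (ins_sub_A h3) hx' h4 ha h2) hne
  refine ⟨fun u => p0 u + if u ∈ G.vs Q then
    ∑ y ∈ (G.ins W \ Q).filter (fun y => G.At y u), G.sw p0 y else 0, fun x hx hx' => ?_⟩
  by_cases h1 : G.s x ∈ G.vs Q
  · have h2 := hout x hx hx' h1
    rw [sw, if_pos h1, if_neg h2, k x hx hx' _ h1 (Or.inl rfl)]
    have := z2_add_self (G.sw p0 x)
    rw [sw] at this ⊢
    linear_combination this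
  · by_cases h2 : G.t x ∈ G.vs Q
    · rw [sw, if_neg h1, if_pos h2, k x hx hx' _ h2 (Or.inr rfl)]
      have := z2_add_self (G.sw p0 x)
      rw [sw] at this ⊢
      linear_combination this
    · rw [sw, if_neg h1, if_neg h2, add_zero, add_zero]
      exact h0 x (mem_ins.2 ⟨(mem_ins.1 hx).1, mem_sdiff.2 ⟨(mem_ins.1 hx).2.1, h1⟩,
        mem_sdiff.2 ⟨(mem_ins.1 hx).2.2, h2⟩⟩)

/-- an even set that uses an edge of an arc without inner branch vertices passes its ends -/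
lemma t1_pass (hc : G.Cub) {W : Finset V} {Q B C : Finset E} {v v' : V} {x : E}
    (hQ : Q ⊆ G.ins W) (cQ : G.Cc Q) (hB : B ⊆ Q) (jB : G.Jn B v v')
    (hin : ∀ u ∈ G.vs B, G.Br W Q u → u = v ∨ u = v') (hC : C ⊆ G.ins W) (eC : G.Ev C)
    (h1 : x ∈ C) (h2 : x ∈ B) : v ∈ G.vs C := by
  by_contra k
  have hA := hQ.trans ins_sub_A
  have k1 : ∀ u, u ≠ v' → G.dg (C ∩ B) u = 0 := fun u hu => by
    by_cases k2 : u ∈ G.vs (C ∩ B)
    · have k3 : u ≠ v := fun k4 => k (k4 ▸ vs_mono inter_subset_left k2)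
      have k4 : u ∈ G.vs B := vs_mono inter_subset_right k2
      rw [← eC u, ← sdiff_union_inter C B, dg_union (disjoint_sdiff_inter _ _),
        sdiff_union_inter, dg_of_not_mem (S := C \ B), zero_add]
      intro k5
      obtain ⟨y, k6, k7⟩ := mem_vs.1 k5
      obtain ⟨k8, k9⟩ := mem_sdiff.1 k6
      by_cases k10 : y ∈ Q
      · exact (cQ.ends hc hA hB jB.2.1 k4 (mem_vs.2 ⟨y, mem_sdiff.2 ⟨k10, k9⟩, k7⟩)).elim k3 hu
      · exact (hin u k4 ⟨vs_mono hB k4, y, hC k8, k10, k7⟩).elim k3 hu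
    · exact dg_of_not_mem k2
  have k2 : G.Ev (C ∩ B) := fun u => by
    by_cases k3 : u = v'
    · have k4 := sum_dg (G := G) (C ∩ B) univ
      rw [sum_eq_single_of_mem v' (mem_univ _) fun y _ hy => k1 y hy,
        show G.crs (C ∩ B) univ = ∅ from filter_eq_empty_iff.2 fun y _ => by simp] at k4
      rw [k3, k4]
      simp
    · exact k1 u k3
  have k3 := cQ.min hc hA (inter_subset_right.trans hB) k2 ⟨x, mem_inter.2 ⟨h1, h2⟩⟩
  exact k (vs_mono inter_subset_left (k3.symm ▸ vs_mono hB jB.left_mem))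

/-- a circuit with two different vertices has no loop -/
lemma t1_noloop (hc : G.Cub) {Q : Finset E} {v v' : V} {x : E} (hA : Q ⊆ G.A) (cQ : G.Cc Q)
    (h1 : v ∈ G.vs Q) (h2 : v' ∈ G.vs Q) (hne : v ≠ v') (hx : x ∈ Q) : G.s x ≠ G.t x := by
  intro k
  have k1 := cQ.min hc hA (singleton_subset_iff.2 hx)
    (od_self.1 (od_edge (a := G.s x) (b := G.s x) (Or.inl ⟨rfl, k.symm⟩))) (singleton_nonempty x)
  rw [← k1] at h1 h2
  obtain ⟨y, h3, h4⟩ := mem_vs.1 h1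
  obtain ⟨z, h5, h6⟩ := mem_vs.1 h2
  rw [mem_singleton] at h3 h5
  subst h3 h5
  rcases h4 with rfl | rfl <;> rcases h6 with h6 | h6
  exacts [hne h6, hne (k.trans h6), hne (k.symm.trans h6), hne h6]

/-- an arc with an edge joining its ends is this edge -/
lemma t1_single (hc : G.Cub) {Q B : Finset E} {v v' : V} {x : E} (hA : Q ⊆ G.A) (cQ : G.Cc Q)
    (hB : B ⊆ Q) (jB : G.Jn B v v') (hx : x ∈ B) (h1 : G.s x = v ∨ G.s x = v')
    (h2 : G.t x = v ∨ G.t x = v') : B = {x} := by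
  have k0 := t1_noloop hc hA cQ (vs_mono hB jB.left_mem) (vs_mono hB jB.right_mem) jB.1 (hB hx)
  have k1 : G.Od {x} v v' := od_edge (by
    rcases h1 with h1 | h1 <;> rcases h2 with h2 | h2
    exacts [absurd (h1.trans h2.symm) k0, Or.inl ⟨h1, h2⟩, Or.inr ⟨h1, h2⟩,
      absurd (h1.trans h2.symm) k0])
  have k2 := singleton_subset_iff.2 hx
  rcases (B \ {x}).eq_empty_or_nonempty with k | k
  · exact Subset.antisymm (sdiff_eq_empty_iff_subset.1 k) k2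
  · have k3 := cQ.min hc hA (sdiff_subset.trans hB) (od_self.1 (jB.2.1.sdiff k1 k2)) k
    exact absurd (mem_singleton_self x) (mem_sdiff.1 (k3 ▸ hB hx)).2

lemma t1_kap_sq {p : V → ZMod 2} {v : V} {x : E} (h : G.At x v) (hne : G.s x ≠ G.t x) :
    (G.kap p {v} x : ZMod 3) * G.kap p {v} x = 1 := by
  rcases h with rfl | rfl
  · simp only [kap, iv, mem_singleton, hne.symm, if_true, if_false, one_mul, zero_mul, sub_zero]
    exact chi_mul_self _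
  · simp only [kap, iv, mem_singleton, hne, if_true, if_false, one_mul, zero_mul, zero_sub]
    linear_combination (chi (G.n x) * chi (G.n x) : ZMod 3) *
      chi_mul_self (R := ZMod 3) (p (G.t x)) + chi_mul_self (R := ZMod 3) (G.n x)

lemma t1_kap_zero {p : V → ZMod 2} {v : V} {x : E} (h : ¬ G.At x v) :
    (G.kap p {v} x : ZMod 3) = 0 :=
  kap_out (fun k => h (Or.inl (mem_singleton.1 k))) fun k => h (Or.inr (mem_singleton.1 k))

lemma t1_kap_pair {p : V → ZMod 2} {v v' : V} (hne : v ≠ v') (x : E) :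
    (G.kap p {v, v'} x : ZMod 3) = G.kap p {v} x + G.kap p {v'} x := by
  have k : ∀ u, (iv (u ∈ ({v, v'} : Finset V)) : ZMod 3) =
      iv (u ∈ ({v} : Finset V)) + iv (u ∈ ({v'} : Finset V)) := fun u => by
    by_cases h1 : u = v
    · subst h1
      simp [iv, hne]
    · by_cases h2 : u = v'
      · subst h2
        simp [iv, h1]
      · simp [iv, h1, h2]
  simp only [kap, k]
  ring

lemma t1_bd {p : V → ZMod 2} {v : V} {ψ : E → ZMod 3}
    (h : ∑ x ∈ G.A, G.kap p {v} x * ψ x = 0) : G.bd ψ v = 0 := by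
  rw [← sum_bd, sum_singleton] at h
  linear_combination (chi (p v) : ZMod 3) * h - G.bd ψ v * chi_mul_self (R := ZMod 3) (p v)

/-- the three edges at an end of the long arc -/
lemma t1_end (hc : G.Cub) {W I : Finset V} {Q B : Finset E} {v v' : V} {e : E}
    (hQ : Q ⊆ G.ins W) (cQ : G.Cc Q) (hB : B ⊆ Q) (jB : G.Jn B v v') (hn : ∀ x, B ≠ {x})
    (he : Q \ B = {e}) (hv : G.Br W Q v)
    (hout : ∀ x ∈ G.ins W, x ∉ Q → G.s x ∈ G.vs Q → G.t x ∉ G.vs Q)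
    (hI : ∀ u, u ∈ I ↔ u ∈ G.vs Q ∧ u ≠ v ∧ u ≠ v') (p : V → ZMod 2) :
    ∃ f h, f ∈ G.tch I ∧ h ∉ G.tch I ∧ h ≠ e ∧ G.At h v ∧ ¬ G.At h v' ∧
      (∀ x ∈ G.A, G.At x v → x = e ∨ x = f ∨ x = h) ∧
      (G.kap p {v} f : ZMod 3) * G.kap p {v} f = 1 ∧
      (G.kap p {v} h : ZMod 3) * G.kap p {v} h = 1 ∧
      (∀ ψ : E → ZMod 3, ∑ x ∈ G.tch I, G.kap p {v} x * ψ x = G.kap p {v} f * ψ f) ∧
      ∀ ψ : E → ZMod 3, ∑ x ∈ G.A, G.kap p {v} x * ψ x =
        G.kap p {v} e * ψ e + G.kap p {v} f * ψ f + G.kap p {v} h * ψ h := by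
  have hA := hQ.trans ins_sub_A
  obtain ⟨f, f1, f2⟩ := mem_vs.1 jB.left_mem
  obtain ⟨m1, h, h1, h2, h3⟩ := hv
  have m2 := vs_mono hB jB.right_mem
  have d1 := cQ.deg_end hc hA hB jB
  have e1 := mem_sdiff.1 (he ▸ mem_singleton_self e : e ∈ Q \ B)
  have nf := t1_noloop hc hA cQ m1 m2 jB.1 (hB f1)
  have nh := third_ne hc hA m1 (cQ.2.1 v) (ins_sub_A h1) h2 h3
  have kh : ∀ u ∈ G.vs Q, G.At h u → u = v := fun u hu ha => by
    rcases h3 with rfl | rfl <;> rcases ha with rfl | rfl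
    exacts [rfl, absurd hu (hout h h1 h2 m1), absurd m1 (hout h h1 h2 hu), rfl]
  have ke : ∀ u, G.At e u → u = v ∨ u = v' := fun u ha => by
    have k1 := cQ.compl hc hA hB jB
    rw [he] at k1
    by_contra k2
    push Not at k2
    have k3 := k1.2.1.other k2.1 k2.2
    have k4 := t1_noloop hc hA cQ m1 m2 jB.1 e1.1
    rw [dg_singleton] at k3
    rcases ha with rfl | rfl
    · simp [iv, k4.symm] at k3
    · simp [iv, k4] at k3
  have tf : f ∈ G.tch I := by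
    refine mem_tch.2 ⟨hA (hB f1), ?_⟩
    by_contra k
    rw [hI, hI] at k
    have k1 := s_mem_vs (G := G) (hB f1)
    have k2 := t_mem_vs (G := G) (hB f1)
    refine hn f (t1_single hc hA cQ hB jB f1 ?_ ?_) <;> (clear * - e1 k k1 k2; tauto)
  have th : h ∉ G.tch I := fun k => by
    rcases (mem_tch.1 k).2 with k1 | k1
    · exact ((hI _).1 k1).2.1 (kh _ ((hI _).1 k1).1 (Or.inl rfl))
    · exact ((hI _).1 k1).2.1 (kh _ ((hI _).1 k1).1 (Or.inr rfl))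
  have te : e ∉ G.tch I := fun k => by
    rcases (mem_tch.1 k).2 with k1 | k1
    · exact (ke _ (Or.inl rfl)).elim ((hI _).1 k1).2.1 ((hI _).1 k1).2.2
    · exact (ke _ (Or.inr rfl)).elim ((hI _).1 k1).2.1 ((hI _).1 k1).2.2
  have all : ∀ x ∈ G.A, G.At x v → x = e ∨ x = f ∨ x = h := fun x hx ha => by
    by_cases k1 : x ∈ Q
    · by_cases k2 : x ∈ B
      · exact Or.inr (Or.inl (eq_of_deg_le_one d1.le f1 k2 f2 ha))
      · exact Or.inl (mem_singleton.1 (he ▸ mem_sdiff.2 ⟨k1, k2⟩))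
    · exact Or.inr (Or.inr (third_unique hc hA m1 (cQ.2.1 v) (ins_sub_A h1) hx h2 k1 h3 ha))
  have n1 : h ≠ e := fun k => h2 (k ▸ e1.1)
  have n2 : e ≠ f := fun k => e1.2 (k ▸ f1)
  have n3 : f ≠ h := fun k => h2 (k ▸ hB f1)
  refine ⟨f, h, tf, th, n1, h3, fun k => jB.1 (kh _ m2 k).symm, all, t1_kap_sq f2 nf,
    t1_kap_sq h3 nh, fun ψ => ?_, fun ψ => ?_⟩
  · refine sum_eq_single_of_mem f tf fun x hx hne => ?_
    rw [t1_kap_zero, zero_mul]
    intro k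
    rcases all x (mem_tch.1 hx).1 k with rfl | rfl | rfl
    exacts [te hx, hne rfl, th hx]
  · rw [← sum_subset (s₁ := {e, f, h}), sum_insert (by simp [n2, n1.symm]), sum_pair n3, add_assoc]
    · intro x hx
      simp only [mem_insert, mem_singleton] at hx
      rcases hx with rfl | rfl | rfl
      exacts [hA e1.1, hA (hB f1), ins_sub_A h1]
    · intro x hx hx'
      rw [t1_kap_zero, zero_mul]
      intro k
      simp only [mem_insert, mem_singleton] at hx'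
      exact hx' (all x hx k)

lemma t1_z3 (a b : ZMod 3) (h : a * a = 1) (hb : b ≠ 0) : a * b ≠ 0 := by
  revert a b
  decide

/-- the vanishing case: the vertices of the odd circuit have an even solution -/
lemma t1_tight (hc : G.Cub) {W I : Finset V} {Q B : Finset E} {v v' : V} {e : E}
    (hQ : Q ⊆ G.ins W) (cQ : G.Cc Q) (hB : B ⊆ Q) (jB : G.Jn B v v') (hn : ∀ x, B ≠ {x})
    (he : Q \ B = {e}) (hv : G.Br W Q v) (hv' : G.Br W Q v')
    (hout : ∀ x ∈ G.ins W, x ∉ Q → G.s x ∈ G.vs Q → G.t x ∉ G.vs Q)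
    (hI : ∀ u, u ∈ I ↔ u ∈ G.vs Q ∧ u ≠ v ∧ u ≠ v') {p : V → ZMod 2} (hp : G.sw p e = 0)
    {φ : E → ZMod 3} (h1 : ∀ u ∈ I, G.bd φ u = 0) (h2 : ∀ x ∈ G.tch I, φ x ≠ 0)
    (h3 : ∑ x ∈ G.tch I, G.kap p {v, v'} x * φ x = 0) : G.Sol (G.vs Q) 0 := by
  classical
  have hA := hQ.trans ins_sub_A
  obtain ⟨f, h, a1, a2, a3, a4, a5, a6, a7, a8, a9, a10⟩ :=
    t1_end hc hQ cQ hB jB hn he hv hout hI p
  obtain ⟨f', h', b1, b2, b3, b4, b5, b6, b7, b8, b9, b10⟩ :=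
    t1_end hc hQ cQ hB jB.symm hn he hv' hout (fun u => by rw [hI]; tauto) p
  have jA := cQ.compl hc hA hB jB
  rw [he] at jA
  have e1 : e ∈ Q := (mem_sdiff.1 (he ▸ mem_singleton_self e : e ∈ Q \ B)).1
  have ne := t1_noloop hc hA cQ hv.1 hv'.1 jB.1 e1
  have at1 : ∀ u ∈ G.vs {e}, G.At e u := fun u hu => by
    obtain ⟨y, k1, k2⟩ := mem_vs.1 hu
    exact mem_singleton.1 k1 ▸ k2
  have ev := at1 _ jA.left_mem
  have ev' := at1 _ jA.right_mem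
  have en : G.s e ∈ ({v, v'} : Finset V) ∧ G.t e ∈ ({v, v'} : Finset V) := by
    have := jB.1
    rcases ev with k | k <;> rcases ev' with k' | k'
    · exact absurd (k.symm.trans k') this
    · simp [k, k']
    · simp [k, k']
    · exact absurd (k.symm.trans k') this
  have te : e ∉ G.tch I := fun k => by
    obtain ⟨k1, k2⟩ := en
    simp only [mem_insert, mem_singleton] at k1 k2
    rcases (mem_tch.1 k).2 with k3 | k3
    · exact k1.elim ((hI _).1 k3).2.1 ((hI _).1 k3).2.2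
    · exact k2.elim ((hI _).1 k3).2.1 ((hI _).1 k3).2.2
  have c1 : (G.kap p {v} e : ZMod 3) + G.kap p {v'} e = 0 := by
    rw [← t1_kap_pair jB.1, kap_ins en.1 en.2, hp, chi_zero, sub_self, mul_zero]
  have c2 := t1_kap_sq (p := p) ev ne
  have c3 : G.kap p {v} f * φ f + G.kap p {v'} f' * φ f' = 0 := by
    rw [← a9, ← b9, ← sum_add_distrib, ← h3]
    exact sum_congr rfl fun x _ => by rw [t1_kap_pair jB.1, add_mul]
  have c4 := t1_z3 _ _ a7 (h2 f a1)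
  set m := G.kap p {v} f * φ f with hm
  have n1 : h ≠ h' := fun k => a5 (k ▸ b4)
  let ψ : E → ZMod 3 := fun x => if x ∈ G.tch I then φ x else if x = e then G.kap p {v} e * m
    else if x = h then G.kap p {v} h * m else G.kap p {v'} h' * (-m)
  have p1 : ∀ x ∈ G.tch I, ψ x = φ x := fun x hx => if_pos hx
  have p2 : ψ e = G.kap p {v} e * m := by simp only [ψ, if_neg te, if_true]
  have p3 : ψ h = G.kap p {v} h * m := by simp only [ψ, if_neg a2, if_neg a3, if_true]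
  have p4 : ψ h' = G.kap p {v'} h' * (-m) := by
    simp only [ψ, if_neg b2, if_neg b3, if_neg n1.symm]
  have z3 : (3 : ZMod 3) = 0 := rfl
  refine ⟨∅, empty_subset _, ev_empty, sum_empty, ψ, fun u hu => ?_, fun x _ _ => ?_⟩
  · by_cases k1 : u = v
    · subst k1
      refine t1_bd (p := p) ?_
      rw [a10, p1 f a1, p2, p3]
      linear_combination m * c2 + m * a8 + m * z3
    · by_cases k2 : u = v'
      · subst k2
        refine t1_bd (p := p) ?_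
        rw [b10, p1 f' b1, p2, p4]
        linear_combination G.kap p {v} e * m * c1 - m * c2 - m * b8 + c3 - m * z3
      · have k3 := (hI u).2 ⟨hu, k1, k2⟩
        rw [← h1 u k3]
        refine bd_congr fun x hx ha => p1 x (mem_tch.2 ⟨hx, ?_⟩)
        rcases ha with rfl | rfl
        exacts [Or.inl k3, Or.inr k3]
  · simp only [ψ]
    split_ifs with k1
    exacts [h2 x k1, t1_z3 _ _ c2 c4, t1_z3 _ _ a8 c4, t1_z3 _ _ b8 (neg_ne_zero.2 c4)]

/-- the case in which the complement of the long arc is one edge -/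
lemma t1_edge (hc : G.Cub) (hA : G.Adm1) {W : Finset V} {Q B R : Finset E} {v v' y : V} {e : E}
    (hQ : Q ⊆ G.ins W) (cQ : G.Cc Q) (hB : B ⊆ Q) (jB : G.Jn B v v') (hn : ∀ x, B ≠ {x})
    (he : Q \ B = {e}) (hv : G.Br W Q v) (hv' : G.Br W Q v')
    (hin : ∀ u ∈ G.vs B, G.Br W Q u → u = v ∨ u = v')
    (hout : ∀ x ∈ G.ins W, x ∉ Q → G.s x ∈ G.vs Q → G.t x ∉ G.vs Q)
    {p : V → ZMod 2} (hp : G.sw p e = 0) (hN : ¬ G.Sol (G.vs Q) 0) (hR : R ⊆ G.ins W)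
    (cR : G.Cc R) (pR : ∀ x ∈ R, G.sw p x = 0)
    (hRQ : ∀ u ∈ G.vs Q, u ∈ G.vs R ↔ u = v ∨ u = v') (m1 : y ∈ G.vs R) (x1 : G.Ex W y)
    (hS : G.Sol (W \ G.vs R) 0) : G.Sol W 0 := by
  classical
  have hQA := hQ.trans ins_sub_A
  have hRA := hR.trans ins_sub_A
  have hU := (sub_ins_iff.1 hR).2
  have hQW := (sub_ins_iff.1 hQ).2
  obtain ⟨O, o1, o2, o3, φ, o4, o5⟩ := hS
  obtain ⟨I, hI⟩ : ∃ I : Finset V, ∀ u, u ∈ I ↔ u ∈ G.vs Q ∧ u ≠ v ∧ u ≠ v' :=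
    ⟨(G.vs Q).filter fun u => u ≠ v ∧ u ≠ v', fun u => mem_filter⟩
  have i1 : ∀ u ∈ I, u ∈ W \ G.vs R := fun u hu => mem_sdiff.2 ⟨hQW ((hI u).1 hu).1, fun k =>
    ((hRQ u ((hI u).1 hu).1).1 k).elim ((hI u).1 hu).2.1 ((hI u).1 hu).2.2⟩
  have i2 : ∀ u ∈ I, ∀ x ∈ G.ins W, G.At x u → x ∈ Q := fun u hu x hx ha => by
    by_contra k
    obtain ⟨k1, k2, k3⟩ := (hI u).1 hu
    rcases (vs_split hB).1 k1 with k4 | k4
    · exact (hin u k4 ⟨k1, x, hx, k, ha⟩).elim k2 k3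
    · have jA := cQ.compl hc hQA hB jB
      have k5 := deg2_of_dg hc (sdiff_subset.trans hQA) k4 (jA.2.1.other k2 k3)
      have k6 := t1_noloop hc hQA cQ hv.1 hv'.1 jB.1
        (mem_sdiff.1 (he ▸ mem_singleton_self e : e ∈ Q \ B)).1
      rw [he, deg, sum_singleton, inc] at k5
      by_cases k7 : G.s e = u <;> by_cases k8 : G.t e = u
      · exact k6 (k7.trans k8.symm)
      all_goals simp [iv, k7, k8] at k5
  have i3 : ∀ x ∈ G.tch I, ∀ w ∈ W, G.At x w → w ∈ G.vs Q := fun x hx w hw ha => by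
    obtain ⟨k1, k2⟩ := mem_tch.1 hx
    rcases ha with rfl | rfl <;> rcases k2 with k2 | k2
    · exact ((hI _).1 k2).1
    · exact s_mem_vs (i2 _ k2 x (mem_ins.2 ⟨k1, hw, (mem_sdiff.1 (i1 _ k2)).1⟩) (Or.inr rfl))
    · exact t_mem_vs (i2 _ k2 x (mem_ins.2 ⟨k1, (mem_sdiff.1 (i1 _ k2)).1, hw⟩) (Or.inl rfl))
    · exact ((hI _).1 k2).1
  have i4 : ∀ x ∈ G.tch I, x ∈ G.tch (W \ G.vs R) := fun x hx =>
    mem_tch.2 ⟨(mem_tch.1 hx).1, (mem_tch.1 hx).2.imp (i1 _) (i1 _)⟩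
  have i5 : ∀ u ∈ G.vs Q, u ∉ G.vs R → u ∈ I := fun u hu hu' =>
    (hI u).2 ⟨hu, fun k => hu' ((hRQ u hu).2 (Or.inl k)), fun k => hu' ((hRQ u hu).2 (Or.inr k))⟩
  have oW := (sub_ins_iff.1 o1).2
  have d1 : Disjoint (G.vs O) (G.vs Q) := cQ.avoid hc hQA o2 (fun x hx u hu ha =>
    i2 u (i5 u hu (mem_sdiff.1 (oW (mem_vs.2 ⟨x, hx, ha⟩))).2) x
      (ins_mono sdiff_subset (o1 hx)) ha) hv.1
    fun k => (mem_sdiff.1 (oW k)).2 ((hRQ v hv.1).2 (Or.inl rfl))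
  have i6 : ∀ x ∈ G.tch I, φ x ≠ 0 := fun x hx => o5 x (i4 x hx) fun k =>
    disjoint_left.1 d1 (s_mem_vs k) (i3 x hx _ (mem_sdiff.1 (oW (s_mem_vs k))).1 (Or.inl rfl))
  have i7 : ∀ x ∈ G.tch I, (G.kap p (G.vs R) x : ZMod 3) = G.kap p {v, v'} x := fun x hx => by
    have k : ∀ w, G.At x w → (w ∈ G.vs R ↔ w ∈ ({v, v'} : Finset V)) := fun w ha => by
      rw [mem_insert, mem_singleton]
      refine ⟨fun k => (hRQ w (i3 x hx w (hU k) ha)).1 k, fun k => (hRQ w ?_).2 k⟩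
      rcases k with rfl | rfl
      exacts [hv.1, hv'.1]
    simp only [kap, k _ (Or.inl rfl), k _ (Or.inr rfl)]
  have n0 : ∑ x ∈ G.tch I, G.kap p (G.vs R) x * φ x ≠ 0 := fun k =>
    hN (t1_tight hc hQ cQ hB jB hn he hv hv' hout hI hp (fun u hu => o4 u (i1 u hu)) i6
      (by rw [← k]; exact sum_congr rfl fun x hx => by rw [i7 x hx]))
  obtain ⟨-, e1, c1, a1⟩ := x1
  have f1 : G.Fl p W (G.vs R) R e1 := fl_cut hU (sub_ins_vs hRA) c1 m1 a1
  let ψ : ZMod 3 → E → ZMod 3 := fun c x => if x ∈ G.tch I then c * φ x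
    else if x ∈ G.tch (W \ G.vs R) then φ x else 1
  have key : ∀ c : ZMod 3, c ≠ 0 → ∑ x ∈ G.A.erase e1, G.kap p (G.vs R) x * ψ c x ≠ 0 →
      G.Sol W 0 := fun c hc0 hs => by
    rw [← o3]
    refine abs_one hU (sub_ins_vs hRA) cR.2.1 cR.2.2 o1 o2 (ψ c) (fun u hu => ?_)
      (fun x _ hx _ => ?_) pR f1 hs
    · have tm : ∀ {Z : Finset V}, u ∈ Z → ∀ x ∈ G.A, G.At x u → x ∈ G.tch Z := by
        intro Z hZ x hx ha
        refine mem_tch.2 ⟨hx, ?_⟩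
        rcases ha with rfl | rfl
        exacts [Or.inl hZ, Or.inr hZ]
      by_cases k : u ∈ I
      · rw [bd_congr (g := fun x => c * φ x) fun x hx ha => if_pos (tm k x hx ha), bd_mul,
          o4 u hu, mul_zero]
      · rw [← o4 u hu]
        refine bd_congr fun x hx ha => ?_
        simp only [ψ]
        rw [if_neg fun k1 => k (i5 u (i3 x k1 u (mem_sdiff.1 hu).1 ha) (mem_sdiff.1 hu).2),
          if_pos (tm hu x hx ha)]
    · simp only [ψ]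
      split_ifs with k1 k2
      exacts [mul_ne_zero hc0 (i6 x k1), o5 x k2 hx, one_ne_zero]
  have sub : G.tch I ⊆ G.A.erase e1 := fun x hx =>
    mem_erase.2 ⟨fun k => f1.2.2.1 (k ▸ i4 x hx), (mem_tch.1 hx).1⟩
  have dec : ∀ c : ZMod 3, ∑ x ∈ G.A.erase e1, G.kap p (G.vs R) x * ψ c x =
      ∑ x ∈ G.A.erase e1 \ G.tch I, G.kap p (G.vs R) x * ψ 0 x +
        c * ∑ x ∈ G.tch I, G.kap p (G.vs R) x * φ x := fun c => by
    rw [← sum_sdiff sub, mul_sum]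
    congr 1
    · refine sum_congr rfl fun x hx => ?_
      simp only [ψ, if_neg (mem_sdiff.1 hx).2]
    · refine sum_congr rfl fun x hx => ?_
      simp only [ψ, if_pos hx]
      ring
  by_cases k : ∑ x ∈ G.A.erase e1, G.kap p (G.vs R) x * ψ 1 x = 0
  · refine key (-1) (by decide) fun k1 => n0 ?_
    rw [dec] at k k1
    have z3 : (3 : ZMod 3) = 0 := rfl
    linear_combination k1 - k + (∑ x ∈ G.tch I, G.kap p (G.vs R) x * φ x) * z3
  · exact key 1 one_ne_zero k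

lemma t1_php {a1 a2 a3 b1 b2 b3 c : Prop} (h : (a1 → ¬ a2) ∧ (a1 → ¬ a3) ∧ (a2 → ¬ a3))
    (h' : (b1 → ¬ b2) ∧ (b1 → ¬ b3) ∧ (b2 → ¬ b3)) (f1 : ¬ a1 → ¬ b1 → c)
    (f2 : ¬ a2 → ¬ b2 → c) (f3 : ¬ a3 → ¬ b3 → c) : c := by
  by_contra hc
  have k1 : a1 ∨ b1 := by_contra fun k => hc (f1 (fun x => k (Or.inl x)) fun x => k (Or.inr x))
  have k2 : a2 ∨ b2 := by_contra fun k => hc (f2 (fun x => k (Or.inl x)) fun x => k (Or.inr x))
  have k3 : a3 ∨ b3 := by_contra fun k => hc (f3 (fun x => k (Or.inl x)) fun x => k (Or.inr x))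
  rcases k1 with x | x <;> rcases k2 with y | y <;> rcases k3 with z | z
  exacts [h.1 x y, h.1 x y, h.2.1 x z, h'.2.2 y z, h.2.2 y z, h'.2.1 x z, h'.1 x y, h'.1 x y]

/-- an even circuit through two exit vertices -/
theorem t1 (hc : G.Cub) (hA : G.Adm1) {W : Finset V} (h2 : G.Two W (G.ins W)) (hD : G.DecH W)
    (hK : G.K1 W) {H : Finset E} (hH : H ⊆ G.ins W) (cH : G.Cc H) (pH : G.par H = 0) {y1 y2 : V}
    (hne : y1 ≠ y2) (m1 : y1 ∈ G.vs H) (m2 : y2 ∈ G.vs H) (x1 : G.Ex W y1) (x2 : G.Ex W y2) :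
    G.Sol W 0 := by
  classical
  by_cases hb : G.Bal (G.ins (W \ G.vs H))
  · exact t1_two hc hH cH pH hne m1 m2 x1 x2 (sol_of_bal hA hb)
  obtain ⟨Q, hQ', cQ, pQ⟩ := exists_odd_cc hb
  have hHA := hH.trans ins_sub_A
  have hQ : Q ⊆ G.ins W := hQ'.trans (ins_mono sdiff_subset)
  have hQA := hQ.trans ins_sub_A
  have qW := (sub_ins_iff.1 hQ').2
  rcases hD _ (sdiff_ssubset (sub_ins_iff.1 hH).2 ⟨y1, m1⟩) Q hQ' cQ pQ with hF | ⟨hI, hN⟩
  · exact t1_two hc hH cH pH hne m1 m2 x1 x2 hF.1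
  have hB : G.Bal (G.ins (W \ G.vs Q)) := by
    by_contra k
    obtain ⟨C, k1, k2, k3⟩ := exists_odd_cc k
    exact hK C (k1.trans (ins_mono sdiff_subset)) Q hQ k2 k3 cQ pQ
      (disjoint_left.2 fun u hu => (mem_sdiff.1 ((sub_ins_iff.1 k1).2 hu)).2)
  have hout : ∀ x ∈ G.ins W, x ∉ Q → G.s x ∈ G.vs Q → G.t x ∉ G.vs Q := fun x hx hx' k1 k2 =>
    third_ne hc hQA k1 (cQ.2.1 _) (ins_sub_A hx) hx' (Or.inl rfl)
      (hI.eq_of_od hQ' cQ k1 k2 (singleton_subset_iff.2 (mem_ins.2 ⟨ins_sub_A hx, qW k1, qW k2⟩))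
        (disjoint_singleton_left.2 hx') (od_edge (Or.inl ⟨rfl, rfl⟩)))
  obtain ⟨p, hp⟩ := t1_pot hc hQ cQ hB hout
  have sQ : ∑ x ∈ Q, G.sw p x = 1 := (cQ.2.1.par_eq p).symm.trans pQ
  obtain ⟨v, v', A0, bv, bv', s0, j0, g0, in0, mn⟩ := exists_min_arc hc hQA cQ (G.Br W Q)
    (fun _ h => h.1) (two_br hc h2 hQ cQ fun k => (mem_sdiff.1 (qW (k ▸ x1.1))).2 m1) _ sQ
  have jA := cQ.compl hc hQA s0 j0
  have gA : ∑ x ∈ Q \ A0, G.sw p x = 0 := by rw [sum_sdiff2 s0, sQ, g0, z2_add_self]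
  obtain ⟨a, P, rg, dj⟩ := exists_rungs hc h2 hH cH hQ' cQ hI
  have dHQ : ∀ x ∈ H, x ∉ Q := fun x hx hx' => (mem_sdiff.1 (qW (s_mem_vs hx'))).2 (s_mem_vs hx)
  have am : ∀ r, G.Br W Q r → a r ∈ G.vs H := fun r hr => (rg r hr).1
  have an : ∀ r r', G.Br W Q r → G.Br W Q r' → r ≠ r' → a r ≠ a r' := fun r r' hr hr' k k1 =>
    disjoint_left.1 (dj r r' hr hr' k) (rg r hr).2.2.1.right_mem
      (k1 ▸ (rg r' hr').2.2.1.right_mem)
  have ay : ∀ r, G.Br W Q r → ∀ y, G.Ex W y → y ≠ a r := fun r hr y hy k => by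
    obtain ⟨r1, r2, r3, r4, -⟩ := rg r hr
    obtain ⟨x, k1, k2⟩ := mem_vs.1 r3.right_mem
    exact not_br_of_ex hc hH cH.2.1 hy (k ▸ ⟨r1, x, r2 k1, disjoint_left.1 r4 k1, k2⟩)
  have ring : ∀ r r' A B, G.Br W Q r → G.Br W Q r' → A ⊆ Q → G.Jn A r r' →
      ∑ x ∈ A, G.sw p x = 0 → B ⊆ H → G.Jn B (a r) (a r') → ∃ R, R ⊆ G.ins W ∧ G.Cc R ∧
      G.par R = 0 ∧ A ⊆ R ∧ B ⊆ R ∧ (∀ x ∈ R, x ∈ Q → x ∈ A) ∧
      ∀ u ∈ G.vs Q, u ∈ G.vs R → u ∈ G.vs A := by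
    intro r r' A B hr hr' k1 k2 k3 k4 k5
    obtain ⟨c1, c2, c3⟩ := ring_cc hH hQ' (rg r hr) (rg r' hr') (dj r r' hr hr' k2.1) k1 k2 k4 k5
    obtain ⟨-, r2, -, -, r5, r6, -⟩ := rg r hr
    obtain ⟨-, r2', -, -, r5', r6', -⟩ := rg r' hr'
    refine ⟨_, c2, c1, ?_, subset_union_left.trans subset_union_left,
      subset_union_right.trans subset_union_right, fun x hx hx' => ?_, fun u hu hu' => ?_⟩
    · rw [c1.2.1.par_eq p, c3, k3,
        sum_eq_zero fun x hx => hp x (r2' hx) (disjoint_left.1 r5' hx),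
        sum_eq_zero fun x hx => hp x (r2 hx) (disjoint_left.1 r5 hx),
        sum_eq_zero fun x hx => hp x (hH (k4 hx)) (dHQ x (k4 hx))]
      simp
    · simp only [mem_union] at hx
      rcases hx with (hx | hx) | hx | hx
      exacts [hx, absurd hx' (disjoint_left.1 r5' hx), absurd hx' (disjoint_left.1 r5 hx),
        absurd hx' (dHQ x (k4 hx))]
    · simp only [vs_union, mem_union] at hu'
      rcases hu' with (k | k) | k | k
      exacts [k, r6' u k hu ▸ k2.right_mem, r6 u k hu ▸ k2.left_mem,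
        absurd (vs_mono k4 k) (mem_sdiff.1 (qW hu)).2]
  have bal : ∀ R : Finset E, (v ∈ G.vs R ∨ v' ∈ G.vs R) →
      (∀ x ∈ Q \ A0, x ∉ R → G.sw p x = 0) → G.Sol (W \ G.vs R) 0 := by
    intro R k1 k2
    refine sol_of_bal hA ?_
    by_contra k
    obtain ⟨C, c1, c2, c3⟩ := exists_odd_cc k
    have c4 := (sub_ins_iff.1 c1).2
    have c5 : C ⊆ G.ins W := c1.trans (ins_mono sdiff_subset)
    obtain ⟨x, c6, c7⟩ := exists_ne_zero_of_sum_ne_zero (s := C) (f := G.sw p) (by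
      rw [← c2.2.1.par_eq p, c3]; exact one_ne_zero)
    have c8 : x ∈ A0 := by
      by_contra k3
      by_cases k4 : x ∈ Q
      · exact c7 (k2 x (mem_sdiff.2 ⟨k4, k3⟩) fun k5 =>
          (mem_sdiff.1 (c4 (s_mem_vs c6))).2 (s_mem_vs k5))
      · exact c7 (hp x (c5 c6) k4)
    rcases k1 with k1 | k1
    · exact (mem_sdiff.1 (c4 (t1_pass hc hQ cQ s0 j0 in0 c5 c2.2.1 c6 c8))).2 k1
    · exact (mem_sdiff.1 (c4 (t1_pass hc hQ cQ s0 j0.symm (fun u hu hu' => (in0 u hu hu').symm)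
        c5 c2.2.1 c6 c8))).2 k1
  obtain ⟨B, b1, b2, b3⟩ := cH.arc_mem hc hHA (am v bv) (am v' bv') (an v v' bv bv' j0.1) m1
  obtain ⟨R, r1, r2, r3, r4, r5, r6, r7⟩ := ring v v' _ B bv bv' sdiff_subset jA gA b1 b2
  have hS := bal R (Or.inl (vs_mono r4 jA.left_mem)) fun x hx hx' => absurd (r4 hx) hx'
  have yR := vs_mono r5 b3
  by_cases ca : ∃ x, A0 = {x}
  · obtain ⟨x, rfl⟩ := ca
    have hRA := r1.trans ins_sub_A
    have hU := (sub_ins_iff.1 r1).2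
    obtain ⟨q, hq⟩ := r2.bal hc hRA r3
    obtain ⟨-, e1, c1, a1⟩ := x1
    have xQ := s0 (mem_singleton_self x)
    have k1 : ∀ u, G.At x u → u ∈ G.vs R := fun u hu => by
      refine vs_mono r4 (mem_vs_of_dg ?_)
      have k2 := t1_noloop hc hQA cQ bv.1 bv'.1 j0.1 xQ
      rw [dg_sdiff s0, cQ.2.1 u, zero_add, dg_singleton]
      rcases hu with rfl | rfl
      · simp [iv, k2.symm]
      · simp [iv, k2]
    have k2 : G.sw q x = 1 := by
      rw [← pQ, cQ.2.1.par_eq q, ← sum_sdiff s0, sum_singleton,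
        sum_eq_zero fun y hy => hq y (r4 hy), zero_add]
    refine abs_two hU (sub_ins_vs hRA) r2.2.1 r2.2.2 hq (e1 := e1) (e2 := x) ?_
      (fl_cut hU (sub_ins_vs hRA) c1 yR a1)
      (fl_chord (mem_ins.2 ⟨hQA xQ, k1 _ (Or.inl rfl), k1 _ (Or.inr rfl)⟩) hq k2) hS
    rintro rfl
    exact (mem_cut.1 c1).2 (iff_of_true (mem_ins.1 (hQ xQ)).2.1 (mem_ins.1 (hQ xQ)).2.2)
  by_cases cb : ∃ u ∈ G.vs (Q \ A0), ¬ G.Br W Q u
  · obtain ⟨u, u1, u2⟩ := cb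
    have u3 := vs_mono sdiff_subset u1
    exact t1_two hc r1 r2 r3 (fun k : y1 = u => (mem_sdiff.1 (qW u3)).2 (k ▸ m1)) yR
      (vs_mono r4 u1) x1 (ex_of_not_br hc hQ cQ.2.1 u3 u2) hS
  push Not at ca cb
  have g1 : ∀ x ∈ Q \ A0, G.sw p x = 0 := fun x hx => by
    by_contra k
    have k1 := mn _ _ {x} (cb _ (s_mem_vs hx)) (cb _ (t_mem_vs hx))
      (singleton_subset_iff.2 (mem_sdiff.1 hx).1)
      (jn_edge (t1_noloop hc hQA cQ bv.1 bv'.1 j0.1 (mem_sdiff.1 hx).1))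
      (by rw [sum_singleton]; exact (z2_ne _).1 k)
    rw [card_singleton] at k1
    obtain ⟨y, hy⟩ := card_eq_one.1 (le_antisymm k1 j0.nonempty.card_pos)
    exact ca y hy
  by_cases cc : ∃ r ∈ G.vs (Q \ A0), r ≠ v ∧ r ≠ v'
  · obtain ⟨r, u1, u2, u3⟩ := cc
    have br := cb r u1
    obtain ⟨A1, s1, j1, j2, -, -⟩ := cQ.split hc hQA sdiff_subset jA u1 u2 u3
    have fin : ∀ t t' A D, G.Br W Q t → G.Br W Q t' → A ⊆ Q \ A0 → G.Jn A t t' →
        (t = v ∨ t' = v') → D ⊆ H → G.Jn D (a t) (a t') → y1 ∉ G.vs D → y2 ∉ G.vs D →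
        G.Sol W 0 := by
      intro t t' A D k1 k2 k3 k4 k5 k6 k7 k8 k9
      obtain ⟨R', q1, q2, q3, q4, q5, -⟩ := ring t t' A _ k1 k2 (k3.trans sdiff_subset) k4
        (sum_eq_zero fun x hx => g1 x (k3 hx)) sdiff_subset (cH.compl hc hHA k6 k7)
      exact t1_two hc q1 q2 q3 hne (vs_mono q5 (((vs_split k6).1 m1).resolve_left k8))
        (vs_mono q5 (((vs_split k6).1 m2).resolve_left k9)) x1 x2
        (bal R' (k5.imp (fun k : t = v => k ▸ vs_mono q4 k4.left_mem)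
          fun k : t' = v' => k ▸ vs_mono q4 k4.right_mem) fun x hx _ => g1 x hx)
    obtain ⟨D1, d1, d2, d3⟩ := cH.arc_avoid hc hHA (am v bv) (am v' bv') (an v v' bv bv' j0.1)
      (an r v br bv u2) (an r v' br bv' u3)
    obtain ⟨D2, d4, d5, d6, -, -⟩ := cH.split hc hHA sdiff_subset (cH.compl hc hHA d1 d2)
      (((vs_split d1).1 (am r br)).resolve_left d3) (an r v br bv u2) (an r v' br bv' u3)
    have one : ∀ y, G.Ex W y → (y ∈ G.vs D1 → y ∉ G.vs D2) ∧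
        (y ∈ G.vs D1 → y ∉ G.vs ((H \ D1) \ D2)) ∧ (y ∈ G.vs D2 → y ∉ G.vs ((H \ D1) \ D2)) :=
      fun y hy => ⟨fun k k' => (cH.ends hc hHA d1 d2.2.1 k (vs_mono d4 k')).elim (ay v bv y hy)
        (ay v' bv' y hy), fun k k' => (cH.ends hc hHA d1 d2.2.1 k (vs_mono sdiff_subset k')).elim
          (ay v bv y hy) (ay v' bv' y hy), fun k k' => (cH.ends hc hHA (d4.trans sdiff_subset)
            d5.2.1 k (vs_mono (sdiff_subset_sdiff sdiff_subset Subset.rfl) k')).elim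
              (ay v bv y hy) (ay r br y hy)⟩
    have f1 := fin v v' _ D1 bv bv' Subset.rfl jA (Or.inl rfl) d1 d2
    have f2 := fin v r A1 D2 bv br s1 j1 (Or.inl rfl) (d4.trans sdiff_subset) d5
    have f3 := fin r v' _ _ br bv' sdiff_subset j2 (Or.inr rfl)
      (sdiff_subset.trans sdiff_subset) d6
    exact t1_php (one y1 x1) (one y2 x2) f1 f2 f3
  push Not at cc
  have cc' : ∀ u ∈ G.vs (Q \ A0), u = v ∨ u = v' := fun u hu => by
    by_contra k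
    push Not at k
    exact k.2 (cc u hu k.1)
  obtain ⟨e, he⟩ := jA.nonempty
  have he' := t1_single hc hQA cQ sdiff_subset jA he (cc' _ (s_mem_vs he)) (cc' _ (t_mem_vs he))
  refine t1_edge hc hA hQ cQ s0 j0 ca he' bv bv' in0 hout (g1 e he) hN r1 r2 (fun x hx => ?_)
    (fun u hu => ⟨fun k => cc' u (r7 u hu k), ?_⟩) yR x1 hS
  · by_cases k : x ∈ Q
    exacts [g1 x (r6 x hx k), hp x (r1 hx) k]
  · rintro (rfl | rfl)
    exacts [vs_mono r4 jA.left_mem, vs_mono r4 jA.right_mem]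

end SG

end Pool.Agent.Work.MP_8c679b_co
end

-- merged part: Pool.Agent.Work.MP_8c679b_co.T2a
section
set_option autoImplicit false

namespace Pool.Agent.Work.MP_8c679b_co

open Finset

namespace SG

variable {V E : Type} [Fintype V] [DecidableEq V] [DecidableEq E] {G : SG V E}

variable (G) in
/-- the hypotheses of the last case -/
structure Cx (W : Finset V) : Prop where
  hc : G.Cub
  hA : G.Adm1
  h2 : G.Two W (G.ins W)
  hK : G.K1 W
  hU : ¬ G.Bal (G.ins W)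
  hN : ∃ v ∈ W, G.deg (G.ins W) v = 3
  hS : G.S3 W
  h1 : (G.cut W).card ≠ 1
  hz : G.cut W = ∅ → ∀ z, ¬ G.Bal ((G.ins W).erase z)
  hno : ∀ H ⊆ G.ins W, G.Cc H → G.par H = 0 → ∀ y1 ∈ G.vs H, ∀ y2 ∈ G.vs H,
      G.Ex W y1 → G.Ex W y2 → y1 = y2

variable (G) in
/-- edges inside `W` with switched sign `a` -/
def sg (p : V → ZMod 2) (a : ZMod 2) (W : Finset V) : Finset E :=
  (G.ins W).filter fun e => G.sw p e = a

variable {W X Y : Finset V} {S : Finset E} {p : V → ZMod 2} {e : E} {v : V}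

lemma mem_sg {a : ZMod 2} : e ∈ G.sg p a W ↔ e ∈ G.ins W ∧ G.sw p e = a := mem_filter

lemma sg_sub {a : ZMod 2} : G.sg p a W ⊆ G.ins W := filter_subset _ _

lemma card_crs_le_deg : (G.crs S {v}).card ≤ G.deg S v := by
  rw [card_eq_sum_ones]
  refine le_trans (sum_le_sum fun e he => ?_) (deg_mono (filter_subset _ _))
  refine inc_pos.2 ?_
  by_contra k
  exact (mem_crs.1 he).2 (iff_of_false (fun k1 => k (Or.inl (mem_singleton.1 k1)))
    fun k1 => k (Or.inr (mem_singleton.1 k1)))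

lemma card_crs_loop (he : e ∈ S) (h1 : G.s e = v) (h2 : G.t e = v) :
    (G.crs S {v}).card + 2 ≤ G.deg S v := by
  have h3 : G.crs S {v} = G.crs (S \ {e}) {v} := by
    ext x
    simp only [mem_crs, mem_sdiff, mem_singleton]
    refine ⟨fun k => ⟨⟨k.1, ?_⟩, k.2⟩, fun k => ⟨k.1.1, k.2⟩⟩
    rintro rfl
    exact k.2 (iff_of_true h1 h2)
  have h4 := deg_sdiff (G := G) (v := v) (singleton_subset_iff.2 he)
  have h5 : G.deg {e} v = 2 := by simp [deg, inc, iv, h1, h2]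
  have h6 := card_crs_le_deg (G := G) (S := S \ {e}) (v := v)
  rw [h3]
  omega

lemma deg_le_crs (h : ∀ e ∈ S, G.At e v → G.s e ≠ G.t e) : G.deg S v ≤ (G.crs S {v}).card := by
  rw [deg, crs, card_filter]
  refine sum_le_sum fun e he => ?_
  have := h e he
  unfold At at this
  simp only [inc, iv, mem_singleton]
  by_cases h1 : G.s e = v <;> by_cases h2 : G.t e = v <;> simp_all

lemma crs_inter (h : S ⊆ G.ins W) (X : Finset V) : G.crs S (X ∩ W) = G.crs S X :=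
  filter_congr fun e he => by
    simp [(mem_ins.1 (h he)).2.1, (mem_ins.1 (h he)).2.2]

lemma crs_compl (h : S ⊆ G.ins W) (X : Finset V) : G.crs S (W \ X) = G.crs S X :=
  filter_congr fun e he => by
    simp [(mem_ins.1 (h he)).2.1, (mem_ins.1 (h he)).2.2, not_iff_not]

lemma crs_split (p : V → ZMod 2) (X : Finset V) : (G.crs (G.ins W) X).card =
    (G.crs (G.sg p 0 W) X).card + (G.crs (G.sg p 1 W) X).card := by
  simp only [crs, sg, card_filter, sum_filter, ← sum_add_distrib]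
  refine sum_congr rfl fun e _ => ?_
  rcases z2 (G.sw p e) with k | k <;> simp [k]

lemma Two.cn (h : G.Two W S) (hS : S ⊆ G.ins W) : G.Cn W S := fun a ha b hb => by
  by_cases k : a = b
  · exact k ▸ Rch.refl _ _
  · obtain ⟨C, h1, h2, h3, h4⟩ := h.cc_through hS ha hb k
    exact (h2.2.2 a h3 b h4).mono h1

lemma deg_cut (he : e ∈ G.cut W) (h : G.At e v) (hc : G.Cub) : G.deg (G.ins W) v ≤ 2 := by
  have h1 : e ∉ G.ins W := fun k => (mem_cut.1 he).2 (iff_of_true (mem_ins.1 k).2.1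
    (mem_ins.1 k).2.2)
  have h2 := deg_sdiff (G := G) (v := v) (ins_sub_A (G := G) (W := W))
  have h3 := deg_pos.2 (mem_vs.2 ⟨e, mem_sdiff.2 ⟨(mem_cut.1 he).1, h1⟩, h⟩)
  have h4 := hc.le3 Subset.rfl v
  omega

lemma cut_end (he : e ∈ G.cut W) : ∃ v ∈ W, G.At e v := by
  by_cases k : G.s e ∈ W
  · exact ⟨_, k, Or.inl rfl⟩
  · refine ⟨_, ?_, Or.inr rfl⟩
    by_contra k1
    exact (mem_cut.1 he).2 (iff_of_false k k1)

namespace Cx

variable (h : G.Cx W)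
include h

lemma ne_single (v : V) : {v} ≠ W := by
  rintro rfl
  obtain ⟨u, h1, h3⟩ := h.hN
  obtain rfl := mem_singleton.1 h1
  have h4 := sum_dg (G := G) (G.ins {u}) {u}
  rw [sum_singleton, dg_eq, h3, show G.crs (G.ins {u}) {u} = ∅ from
    filter_eq_empty_iff.2 fun e he => not_not.2 (iff_of_true (mem_ins.1 he).2.1
      (mem_ins.1 he).2.2), card_empty] at h4
  exact absurd h4 (by decide)

lemma two_le (hv : v ∈ W) : 2 ≤ (G.crs (G.ins W) {v}).card :=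
  h.h2 _ (singleton_subset_iff.2 hv) (singleton_nonempty _) (h.ne_single v)

lemma no_loop (he : e ∈ G.ins W) : G.s e ≠ G.t e := fun k => by
  have h1 := card_crs_loop he rfl k.symm
  have h3 := h.two_le (mem_ins.1 he).2.1
  have h4 := h.hc.le3 (ins_sub_A (W := W)) (G.s e)
  omega

lemma deg_ex (hv : G.Ex W v) : G.deg (G.ins W) v = 2 := by
  obtain ⟨h1, e, h3, h4⟩ := hv
  exact le_antisymm (deg_cut h3 h4 h.hc) ((h.two_le h1).trans card_crs_le_deg)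

lemma d3_or (hv : v ∈ W) : G.deg (G.ins W) v = 3 ∨ G.Ex W v := by
  have h1 := (h.two_le hv).trans card_crs_le_deg
  have h3 := deg_sdiff (G := G) (v := v) (ins_sub_A (G := G) (W := W))
  have h4 := h.hc.deg3 (vs_mono ins_sub_A (deg_pos.1 (lt_of_lt_of_le two_pos h1)))
  by_cases k : 0 < G.deg (G.A \ G.ins W) v
  · obtain ⟨e, h5, h6⟩ := mem_vs.1 (deg_pos.1 k)
    refine Or.inr ⟨hv, e, mem_cut.2 ⟨(mem_sdiff.1 h5).1, fun k1 => (mem_sdiff.1 h5).2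
      (mem_ins.2 ⟨(mem_sdiff.1 h5).1, ?_⟩)⟩, h6⟩
    rcases h6 with rfl | rfl
    exacts [⟨hv, k1.1 hv⟩, ⟨k1.2 hv, hv⟩]
  · left
    omega

lemma cut_unique (hv : v ∈ W) {e e' : E} (he : e ∈ G.cut W) (he' : e' ∈ G.cut W) (h1 : G.At e v)
    (h1' : G.At e' v) : e' = e := by
  have h3 := deg_sdiff (G := G) (v := v) (ins_sub_A (G := G) (W := W))
  have h4 := h.deg_ex ⟨hv, e, he, h1⟩
  have h5 := h.hc.le3 Subset.rfl v
  have k : ∀ e ∈ G.cut W, e ∈ G.A \ G.ins W := fun e he => mem_sdiff.2 ⟨(mem_cut.1 he).1,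
    fun k => (mem_cut.1 he).2 (iff_of_true (mem_ins.1 k).2.1 (mem_ins.1 k).2.2)⟩
  exact eq_of_deg_le_one (by omega) (k e he) (k e' he') h1 h1'

lemma no_two {e e' : E} {y y' : V} (hY : Y ⊆ W) (hS : S ⊆ G.sg p 0 Y) (h2 : G.Two Y S)
    (he : e ∈ G.cut W) (he' : e' ∈ G.cut W) (hne : e ≠ e') (hy : y ∈ Y) (hy' : y' ∈ Y)
    (h1 : G.At e y) (h1' : G.At e' y') : False := by
  have k : y ≠ y' := fun k => hne (h.cut_unique (hY hy') he' he h1' (k ▸ h1))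
  obtain ⟨C, h3, h4, h5, h6⟩ := h2.cc_through (hS.trans sg_sub) hy hy' k
  exact k (h.hno C (h3.trans (hS.trans (sg_sub.trans (ins_mono hY)))) h4
    (Bal.par_zero ⟨p, fun e he => (mem_sg.1 (hS he)).2⟩ h3 h4.2.1) y h5 y' h6
    ⟨hY hy, e, he, h1⟩ ⟨hY hy', e', he', h1'⟩)

lemma three_le (q : V → ZMod 2) (Y : Finset V) (hY : Y ⊆ W)
    (hv : ∃ v ∈ Y, G.deg (G.ins W) v = 3) :
    3 ≤ (G.crs (G.ins W) Y).card + 2 * (G.sg q 1 Y).card := by
  induction Y using Finset.strongInduction with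
  | H Y ih =>
  by_contra k
  obtain ⟨v, hv, hv3⟩ := hv
  have tw : G.Two Y (G.sg q 0 Y) := by
    intro Y1 k1 k2 k3
    by_contra k4
    have id : (G.crs (G.ins W) Y1).card + 2 * (G.sg q 1 Y1).card +
        ((G.crs (G.ins W) (Y \ Y1)).card + 2 * (G.sg q 1 (Y \ Y1)).card) =
        (G.crs (G.ins W) Y).card + 2 * (G.sg q 1 Y).card + 2 * (G.crs (G.sg q 0 Y) Y1).card := by
      simp only [crs, sg, ins, card_filter, sum_filter, mul_sum, ← sum_add_distrib]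
      refine sum_congr rfl fun e _ => ?_
      have cl : ∀ v, (v ∈ Y1 ∧ v ∈ Y ∧ v ∈ W) ∨ (v ∉ Y1 ∧ v ∈ Y ∧ v ∈ W) ∨
          (v ∉ Y1 ∧ v ∉ Y ∧ v ∈ W) ∨ (v ∉ Y1 ∧ v ∉ Y ∧ v ∉ W) := fun v => by
        have a1 := @k1 v
        have a2 := @hY v
        (clear * - a1 a2; grind)
      rcases z2 (G.sw q e) with a5 | a5 <;>
        rcases cl (G.s e) with ⟨b1, b2, b3⟩ | ⟨b1, b2, b3⟩ | ⟨b1, b2, b3⟩ | ⟨b1, b2, b3⟩ <;>
        rcases cl (G.t e) with ⟨b4, b5, b6⟩ | ⟨b4, b5, b6⟩ | ⟨b4, b5, b6⟩ | ⟨b4, b5, b6⟩ <;>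
        simp [a5, b1, b2, b3, b4, b5, b6]
    have k5 : Y1 ⊂ Y := Finset.ssubset_iff_subset_ne.2 ⟨k1, k3⟩
    have k6 : Y \ Y1 ⊂ Y := sdiff_ssubset k1 k2
    have k7 := h.h2 Y1 (k1.trans hY) k2 (k5.trans_subset hY).ne
    have k8 := h.h2 (Y \ Y1) (k6.subset.trans hY) (sdiff_nonempty.2 k5.not_subset)
      (k6.trans_subset hY).ne
    by_cases k9 : v ∈ Y1
    · have := ih Y1 k5 (k1.trans hY) ⟨v, k9, hv3⟩
      omega
    · have := ih _ k6 (k6.subset.trans hY) ⟨v, mem_sdiff.2 ⟨hv, k9⟩, hv3⟩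
      omega
  rcases (G.sg q 1 Y).eq_empty_or_nonempty with k1 | ⟨z, hz⟩
  · have b1 : ∀ e ∈ G.ins Y, G.sw q e = 0 := fun e he => (z2 _).resolve_right fun k2 =>
      notMem_empty e (k1 ▸ mem_sg.2 ⟨he, k2⟩)
    rw [k1, card_empty] at k
    have b2 : 2 ≤ Y.card := by
      by_contra k2
      have k3 : Y = {v} := eq_singleton_iff_unique_mem.2
        ⟨hv, fun u hu => card_le_one.1 (by omega) u hu v hv⟩
      have := deg_le_crs (G := G) (S := G.ins W) (v := v) fun e he _ => h.no_loop he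
      rw [k3] at k
      omega
    have b3 := h.hS Y hY b2 (fun a ha b hb => (tw.cn sg_sub a ha b hb).mono sg_sub) ⟨q, b1⟩
    have b4 : G.cut Y ⊆ G.crs (G.ins W) Y ∪ (G.cut W ∩ G.cut Y) := fun e he => by
      by_cases k2 : e ∈ G.ins W
      · exact mem_union_left _ (mem_crs.2 ⟨k2, (mem_cut.1 he).2⟩)
      · refine mem_union_right _ (mem_inter.2 ⟨mem_cut.2 ⟨(mem_cut.1 he).1, fun k3 => k2 ?_⟩, he⟩)
        obtain ⟨u, k4, rfl | rfl⟩ := cut_end he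
        exacts [mem_ins.2 ⟨(mem_cut.1 he).1, hY k4, k3.1 (hY k4)⟩,
          mem_ins.2 ⟨(mem_cut.1 he).1, k3.2 (hY k4), hY k4⟩]
    have b5 := (card_le_card b4).trans (card_union_le _ _)
    obtain ⟨e, he, e', he', hne⟩ := one_lt_card.1 (show 1 < (G.cut W ∩ G.cut Y).card by omega)
    obtain ⟨y, k2, k3⟩ := cut_end (mem_inter.1 he).2
    obtain ⟨y', k4, k5⟩ := cut_end (mem_inter.1 he').2
    exact h.no_two hY Subset.rfl tw (mem_inter.1 he).1 (mem_inter.1 he').1 hne k2 k4 k3 k5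
  · have b1 := card_pos.2 ⟨z, hz⟩
    obtain rfl : Y = W := by
      by_contra k2
      have := h.h2 Y hY ⟨v, hv⟩ k2
      omega
    by_cases k2 : G.cut Y = ∅
    · refine h.hz k2 z ⟨q, fun e he => (z2 _).resolve_right fun k3 => (mem_erase.1 he).1 ?_⟩
      exact card_le_one.1 (by omega) e (mem_sg.2 ⟨(mem_erase.1 he).2, k3⟩) z hz
    · have b2 := card_pos.2 (nonempty_iff_ne_empty.2 k2)
      have b3 := h.h1
      obtain ⟨e, he, e', he', hne⟩ := one_lt_card.1 (show 1 < (G.cut Y).card by omega)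
      obtain ⟨y, k2, k3⟩ := cut_end he
      obtain ⟨y', k4, k5⟩ := cut_end he'
      exact h.no_two hY Subset.rfl tw he he' hne k2 k4 k3 k5

lemma two_neg (q : V → ZMod 2) : 2 ≤ (G.sg q 1 W).card := by
  have h1 := h.three_le q W Subset.rfl h.hN
  rw [show G.crs (G.ins W) W = ∅ from filter_eq_empty_iff.2 fun e he =>
    not_not.2 (iff_of_true (mem_ins.1 he).2.1 (mem_ins.1 he).2.2), card_empty] at h1
  omega

lemma not_bal_erase (z : E) : ¬ G.Bal ((G.ins W).erase z) := by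
  rintro ⟨q, hq⟩
  obtain ⟨e, he, e', he', hne⟩ := one_lt_card.1 (h.two_neg q)
  have k : ∀ e ∈ G.sg q 1 W, e = z := fun e he => by
    by_contra k
    exact zero_ne_one ((hq e (mem_erase.2 ⟨k, (mem_sg.1 he).1⟩)).symm.trans (mem_sg.1 he).2)
  exact hne ((k e he).trans (k e' he').symm)

/-- exit vertices are not adjacent -/
lemma indep (he : e ∈ G.ins W) (h1 : G.Ex W (G.s e)) (h1' : G.Ex W (G.t e)) : False := by
  obtain ⟨C, c1, c2, c3⟩ := exists_odd_cc (h.not_bal_erase e)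
  have c4 : C ⊆ G.ins W := c1.trans (erase_subset _ _)
  have c5 : ∀ y, G.Ex W y → G.At e y → y ∉ G.vs C := fun y k1 k2 k3 =>
    notMem_erase e _ (c1 (mem_of_deg_le c4 (by
      rw [h.deg_ex k1, deg2_of_dg h.hc (c4.trans ins_sub_A) k3 (c2.2.1 y)]) he k2))
  obtain ⟨a, b, F, f1, f2, f3, f4, f5, f6, f7, -⟩ := fan h.hc (c4.trans ins_sub_A) c2
    ((erase_subset e _).trans (ins_sub_A (W := W))) (od_edge (e := e) (Or.inl ⟨rfl, rfl⟩))
    (disjoint_singleton_left.2 (notMem_erase _ _))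
    (disjoint_left.2 fun y k1 => by
      obtain ⟨x, k2, k3⟩ := mem_vs.1 k1
      rw [mem_singleton.1 k2] at k3
      refine c5 y ?_ k3
      rcases k3 with rfl | rfl
      exacts [h1, h1'])
    (c5 _ h1 (Or.inl rfl)) (c5 _ h1' (Or.inr rfl)) fun X hX => by
      obtain ⟨x, hx⟩ := c2.1
      have k1 : ∀ y ∈ X, y ∈ W → 2 ≤ (G.crs (G.ins W) X).card := fun y k1 k2 => by
        rw [← crs_inter Subset.rfl X]
        exact h.h2 _ inter_subset_right ⟨y, mem_inter.2 ⟨k1, k2⟩⟩ fun k3 =>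
          disjoint_left.1 hX (mem_inter.1 (k3.symm ▸ (mem_ins.1 (c4 hx)).2.1)).1 (s_mem_vs hx)
      have k2 : G.crs ((G.ins W).erase e) X = (G.crs (G.ins W) X).erase e := filter_erase _ _ _
      have k3 := pred_card_le_card_erase (s := G.crs (G.ins W) X) (a := e)
      rw [k2]
      by_cases a1 : G.s e ∈ X <;> by_cases a2 : G.t e ∈ X <;> simp only [iv, a1, a2, if_true,
        if_false]
      · rw [erase_eq_of_notMem fun k4 => (mem_crs.1 k4).2 (iff_of_true a1 a2)]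
        exact k1 _ a1 h1.1
      · have := k1 _ a1 h1.1
        omega
      · have := k1 _ a2 h1'.1
        omega
      · omega
  have f8 : F ⊆ G.ins W := f4.trans (union_subset (erase_subset _ _) (singleton_subset_iff.2 he))
  have key : ∀ B ⊆ C, G.Jn B a b → G.par B = G.par F → False := fun B k1 k2 k3 =>
    h.no_loop he (h.hno (B ∪ F) (union_subset (k1.trans c4) f8)
      (k2.cc f3 (f5.symm.mono_left k1))
      (by rw [par_union (f5.symm.mono_left k1), k3, z2_add_self]) _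
      (vs_mono subset_union_right f6) _ (vs_mono subset_union_right f7) h1 h1')
  obtain ⟨B, b1, b2⟩ := c2.arc f1 f2 f3.1
  by_cases k : G.par B = G.par F
  · exact key B b1 b2 k
  · refine key _ sdiff_subset (c2.compl h.hc (c4.trans ins_sub_A) b1 b2) ?_
    rw [par_sdiff b1, c3]
    revert k
    generalize G.par B = x
    generalize G.par F = y
    revert x y
    decide

end Cx

variable (G) in
/-- no switching decreases the number of negative edges inside `W` -/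
def Mn (W : Finset V) (p : V → ZMod 2) : Prop :=
  ∀ X : Finset V, (G.crs (G.sg p 1 W) X).card ≤ (G.crs (G.sg p 0 W) X).card

lemma exists_mn (W : Finset V) : ∃ p, G.Mn W p := by
  obtain ⟨p, -, hp⟩ := exists_min_image univ (fun p => (G.sg p 1 W).card) univ_nonempty
  refine ⟨p, fun X => ?_⟩
  have h1 := hp (fun v => p v + iv (v ∈ X)) (mem_univ _)
  have h2 : (G.sg (fun v => p v + iv (v ∈ X)) 1 W).card + (G.crs (G.sg p 1 W) X).card =
      (G.sg p 1 W).card + (G.crs (G.sg p 0 W) X).card := by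
    simp only [crs, sg, card_filter, sum_filter, ← sum_add_distrib]
    refine sum_congr rfl fun e _ => ?_
    have h3 : G.sw (fun v => p v + iv (v ∈ X)) e = G.sw p e + (iv (G.s e ∈ X) + iv (G.t e ∈ X)) := by
      simp only [sw]
      ring
    rw [h3]
    rcases z2 (G.sw p e) with a | a <;> by_cases b1 : G.s e ∈ X <;> by_cases b2 : G.t e ∈ X <;>
      simp [a, b1, b2, iv, z2_add_self]
  omega

lemma Cx.bridge (h : G.Cx W) (hm : G.Mn W p) {c c' : V} (hc : c ∈ W) (hc' : c' ∈ W) (h1 : c ∈ X)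
    (h1' : c' ∉ X) (h3 : (G.crs (G.sg p 0 W) X).card < 2) : ∃ Y ⊆ W, (c ∈ Y ∨ c' ∈ Y) ∧
      (∀ v ∈ Y, G.Ex W v) ∧ (G.crs (G.sg p 0 W) Y).card < 2 := by
  have k : ∀ Y ⊆ W, G.Bal (G.ins Y) → G.crs (G.ins W) Y = G.crs (G.ins W) X →
      ∀ v ∈ Y, G.Ex W v := by
    rintro Y k1 ⟨q, hq⟩ k2 v hv
    refine (h.d3_or (k1 hv)).resolve_left fun k3 => ?_
    have k4 := h.three_le q Y k1 ⟨v, hv, k3⟩
    have k5 : G.sg q 1 Y = ∅ := filter_eq_empty_iff.2 fun e he => by simp [hq e he]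
    have k6 := hm X
    rw [k2, k5, card_empty, crs_split p] at k4
    omega
  by_cases b1 : G.Bal (G.ins (X ∩ W))
  · exact ⟨_, inter_subset_right, Or.inl (mem_inter.2 ⟨h1, hc⟩),
      k _ inter_subset_right b1 (crs_inter Subset.rfl X), by rwa [crs_inter sg_sub]⟩
  by_cases b2 : G.Bal (G.ins (W \ X))
  · exact ⟨_, sdiff_subset, Or.inr (mem_sdiff.2 ⟨hc', h1'⟩),
      k _ sdiff_subset b2 (crs_compl Subset.rfl X), by rwa [crs_compl sg_sub]⟩
  obtain ⟨C, c1, c2, c3⟩ := exists_odd_cc b1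
  obtain ⟨D, d1, d2, d3⟩ := exists_odd_cc b2
  exact absurd (disjoint_left.2 fun v k1 k2 => (mem_sdiff.1 ((sub_ins_iff.1 d1).2 k2)).2
    (mem_inter.1 ((sub_ins_iff.1 c1).2 k1)).1) (h.hK C (c1.trans (ins_mono inter_subset_right)) D
      (d1.trans (ins_mono sdiff_subset)) c2 c3 d2 d3)

lemma Cx.sep (h : G.Cx W) (hm : G.Mn W p) {c c' : V} (hc : G.deg (G.ins W) c = 3)
    (hc' : G.deg (G.ins W) c' = 3) (X : Finset V) (h1 : c ∈ X) (h1' : c' ∉ X) :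
    2 ≤ (G.crs (G.sg p 0 W) X).card := by
  by_contra k
  have m : ∀ c, G.deg (G.ins W) c = 3 → c ∈ W := fun c hc =>
    (sub_ins_iff.1 Subset.rfl).2 (deg_pos.1 (hc ▸ three_pos))
  obtain ⟨Y, -, k1 | k1, k2, -⟩ := h.bridge hm (m c hc) (m c' hc') h1 h1' (not_le.1 k)
  · exact absurd ((h.deg_ex (k2 _ k1)).symm.trans hc) (by decide)
  · exact absurd ((h.deg_ex (k2 _ k1)).symm.trans hc') (by decide)

/-- at most one exit vertex meets no negative edge -/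
lemma Cx.ex_unique (h : G.Cx W) (hm : G.Mn W p) {y y' : V} (hy : G.Ex W y) (hy' : G.Ex W y')
    (h1 : y ∉ G.vs (G.sg p 1 W)) (h1' : y' ∉ G.vs (G.sg p 1 W)) : y = y' := by
  by_contra k
  obtain ⟨C, c1, c2, c3, c4⟩ := cc_through (G := G) (G.sg p 0 W) k fun X k1 k2 => by
    by_contra k3
    obtain ⟨Y, k4, k5, k6, k7⟩ := h.bridge hm hy.1 hy'.1 k1 k2 (not_le.1 k3)
    have key : ∀ u ∈ Y, u ∈ G.vs (G.sg p 1 W) := fun u hu => by
      by_contra k8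
      have k9 : G.crs (G.ins W) {u} ⊆ G.crs (G.sg p 0 W) Y := fun e he => by
        obtain ⟨a1, a2⟩ := mem_crs.1 he
        have a3 : G.At e u := by
          by_contra a3
          exact a2 (iff_of_false (fun a4 => a3 (Or.inl (mem_singleton.1 a4)))
            fun a4 => a3 (Or.inr (mem_singleton.1 a4)))
        refine mem_crs.2 ⟨mem_sg.2 ⟨a1, (z2 _).resolve_right fun a4 =>
          k8 (mem_vs.2 ⟨e, mem_sg.2 ⟨a1, a4⟩, a3⟩)⟩, fun a4 => ?_⟩
        rcases a3 with rfl | rfl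
        exacts [h.indep a1 (k6 _ hu) (k6 _ (a4.1 hu)), h.indep a1 (k6 _ (a4.2 hu)) (k6 _ hu)]
      have := (h.two_le (k4 hu)).trans (card_le_card k9)
      omega
    exact k5.elim (fun a => h1 (key _ a)) fun a => h1' (key _ a)
  exact k (h.hno C (c1.trans sg_sub) c2
    (Bal.par_zero ⟨p, fun e he => (mem_sg.1 he).2⟩ c1 c2.2.1) y c3 y' c4 hy hy')

end SG

end Pool.Agent.Work.MP_8c679b_co
end

-- merged part: Pool.Agent.Work.MP_8c679b_co.T2
section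
set_option autoImplicit false

namespace Pool.Agent.Work.MP_8c679b_co

open Finset

namespace SG

variable {V E : Type} [Fintype V] [DecidableEq V] [DecidableEq E] {G : SG V E}
  {W : Finset V} {p : V → ZMod 2} {e z z' : E} {u v x y a b a' b' : V} {R R' J C P : Finset E}

variable (G) in
/-- `e` joins `a` and `b` -/
def Jo (e : E) (a b : V) : Prop := (G.s e = a ∧ G.t e = b) ∨ (G.s e = b ∧ G.t e = a)

lemma At.jo (h : G.At e v) : ∃ w, G.Jo e v w := by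
  rcases h with rfl | rfl
  exacts [⟨_, Or.inl ⟨rfl, rfl⟩⟩, ⟨_, Or.inr ⟨rfl, rfl⟩⟩]

lemma Jo.symm (h : G.Jo e a b) : G.Jo e b a := Or.symm h

lemma Jo.left (h : G.Jo e a b) : G.At e a := h.elim (fun k => Or.inl k.1) fun k => Or.inr k.2

lemma Jo.at (h : G.Jo e a b) (hu : G.At e u) : u = a ∨ u = b := by
  rcases h with ⟨rfl, rfl⟩ | ⟨rfl, rfl⟩ <;> rcases hu with rfl | rfl <;> simp

lemma Jo.ne (h : G.Jo e a b) (k : G.s e ≠ G.t e) : a ≠ b := by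
  rcases h with ⟨rfl, rfl⟩ | ⟨rfl, rfl⟩
  exacts [k, k.symm]

lemma At.mem (h : G.At e v) (he : e ∈ G.ins W) : v ∈ W := by
  rcases h with rfl | rfl
  exacts [(mem_ins.1 he).2.1, (mem_ins.1 he).2.2]

lemma mem_vs_single : u ∈ G.vs {e} ↔ G.At e u := by simp [mem_vs]

lemma dg_one_of_le (h : G.deg J v ≤ 1) (hv : v ∈ G.vs J) : G.dg J v = 1 := by
  have := deg_pos.2 hv
  rw [dg_eq, show G.deg J v = 1 by omega, Nat.cast_one]

lemma Od.end_of_le (h : G.Od J a b) (h1 : G.deg J v ≤ 1) (hv : v ∈ G.vs J) : v = a ∨ v = b := by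
  by_contra k
  push Not at k
  exact zero_ne_one ((h.other k.1 k.2).symm.trans (dg_one_of_le h1 hv))

variable (G) in
/-- a negative edge together with the second edge at an exit vertex on it -/
structure Ear (W : Finset V) (p : V → ZMod 2) (z : E) (a b : V) (R : Finset E) : Prop where
  da : G.deg (G.ins W) a = 3
  db : G.deg (G.ins W) b = 3
  jn : G.Jn R a b
  sub : R ⊆ G.ins W
  mem : z ∈ R
  neg : G.sw p z = 1
  vert : ∀ u ∈ G.vs R, u = a ∨ u = b ∨ (G.Ex W u ∧ G.At z u ∧ ∀ e ∈ G.ins W, G.At e u → e ∈ R)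
  edge : ∀ e ∈ R, e = z ∨ (G.sw p e = 0 ∧ ∃ y, G.Ex W y ∧ G.At z y ∧ G.At e y)

lemma Ear.symm (h : G.Ear W p z a b R) : G.Ear W p z b a R :=
  ⟨h.db, h.da, h.jn.symm, h.sub, h.mem, h.neg, fun u hu => by have := h.vert u hu; tauto, h.edge⟩

lemma Ear.sum (h : G.Ear W p z a b R) : ∑ e ∈ R, G.sw p e = 1 := by
  rw [sum_eq_single_of_mem z h.mem fun e he k => ((h.edge e he).resolve_left k).1, h.neg]

lemma sum_sg (h : J ⊆ G.sg p 0 W) : ∑ e ∈ J, G.sw p e = 0 :=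
  sum_eq_zero fun _ he => (mem_sg.1 (h he)).2

namespace Cx

variable (h : G.Cx W)
include h

lemma ne_d3 (hy : G.Ex W y) (ha : G.deg (G.ins W) a = 3) : y ≠ a := by
  rintro rfl
  exact absurd ((h.deg_ex hy).symm.trans ha) (by decide)

lemma indep' (he : e ∈ G.ins W) (hj : G.Jo e a b) (ha : G.Ex W a) (hb : G.Ex W b) : False := by
  rcases hj with ⟨rfl, rfl⟩ | ⟨rfl, rfl⟩
  exacts [h.indep he ha hb, h.indep he hb ha]

lemma at_pair (hy : G.Ex W y) (hz : z ∈ G.ins W) (hz' : z' ∈ G.ins W) (hne : z ≠ z')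
    (h1 : G.At z y) (h1' : G.At z' y) (he : e ∈ G.ins W) (h3 : G.At e y) : e = z ∨ e = z' := by
  have k := mem_of_deg_le (D := {z, z'}) (insert_subset hz (singleton_subset_iff.2 hz')) (by
    rw [h.deg_ex hy, deg, sum_pair hne]
    have := inc_pos.2 h1
    have := inc_pos.2 h1'
    omega) he h3
  simpa using k

lemma two_neg_ex (hm : G.Mn W p) (hy : G.Ex W y) (hz : z ∈ G.sg p 1 W) (hz' : z' ∈ G.sg p 1 W)
    (h1 : G.At z y) (h1' : G.At z' y) : z = z' := by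
  by_contra hne
  have k1 : G.crs (G.sg p 0 W) {y} = ∅ := filter_eq_empty_iff.2 fun e he k => by
    obtain ⟨u, k1, k2⟩ := cut_end (mem_cut.2 ⟨ins_sub_A (sg_sub he), k⟩)
    rcases h.at_pair hy (sg_sub hz) (sg_sub hz') hne h1 h1' (sg_sub he) (mem_singleton.1 k1 ▸ k2)
      with rfl | rfl
    · exact zero_ne_one ((mem_sg.1 he).2.symm.trans (mem_sg.1 hz).2)
    · exact zero_ne_one ((mem_sg.1 he).2.symm.trans (mem_sg.1 hz').2)
  have k2 := hm {y}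
  rw [k1, card_empty, Nat.le_zero, card_eq_zero] at k2
  refine notMem_empty z (k2 ▸ mem_crs.2 ⟨hz, ?_⟩)
  have k3 := h.no_loop (sg_sub hz)
  rcases h1 with rfl | rfl <;> simp [k3, k3.symm]

lemma deg_pos_ex (hy : G.Ex W y) (hz : z ∈ G.ins W) (hn : G.sw p z = 1) (h1 : G.At z y)
    (hJ : J ⊆ G.sg p 0 W) : G.deg J y ≤ 1 := by
  have k1 := deg_sdiff (G := G) (v := y) (singleton_subset_iff.2 hz)
  have k2 := deg_pos.2 (mem_vs_single.2 h1)
  have k3 := deg_mono (G := G) (v := y) (show J ⊆ G.ins W \ {z} from fun e he =>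
    mem_sdiff.2 ⟨sg_sub (hJ he), fun k => zero_ne_one
      ((mem_sg.1 (hJ he)).2.symm.trans (mem_singleton.1 k ▸ hn))⟩)
  have k4 := h.deg_ex hy
  omega

lemma exists_ear (hm : G.Mn W p) (hz : z ∈ G.sg p 1 W) : ∃ a b R, G.Ear W p z a b R := by
  obtain ⟨z1, z2'⟩ := mem_sg.1 hz
  by_cases k : ∃ y, G.Ex W y ∧ G.At z y
  swap
  · push Not at k
    refine ⟨_, _, {z}, (h.d3_or (mem_ins.1 z1).2.1).resolve_right fun k1 => k _ k1 (Or.inl rfl),
      (h.d3_or (mem_ins.1 z1).2.2).resolve_right fun k1 => k _ k1 (Or.inr rfl),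
      jn_edge (h.no_loop z1), singleton_subset_iff.2 z1, mem_singleton_self _, z2',
      fun u hu => ?_, fun e he => Or.inl (mem_singleton.1 he)⟩
    rcases mem_vs_single.1 hu with rfl | rfl <;> simp
  obtain ⟨y, y1, y2⟩ := k
  obtain ⟨b, b1⟩ := y2.jo
  have b2 := b1.ne (h.no_loop z1)
  have b3 := (h.d3_or (b1.symm.left.mem z1)).resolve_right (h.indep' z1 b1 y1)
  obtain ⟨e, e1, e2⟩ := mem_vs.1 (deg_pos.1 (show 0 < G.deg (G.ins W \ {z}) y by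
    have k1 := deg_sdiff (G := G) (v := y) (singleton_subset_iff.2 z1)
    have k2 := h.deg_ex y1
    have k3 : G.deg {z} y = 1 := by
      rcases b1 with ⟨k4, k5⟩ | ⟨k4, k5⟩ <;> simp [deg, inc, iv, k4, k5, b2.symm]
    omega))
  obtain ⟨e3, e4⟩ := mem_sdiff.1 e1
  rw [mem_singleton] at e4
  obtain ⟨a, a1⟩ := e2.jo
  have a2 := a1.ne (h.no_loop e3)
  have a3 := (h.d3_or (a1.symm.left.mem e3)).resolve_right (h.indep' e3 a1 y1)
  have e5 : G.sw p e = 0 := (z2 _).resolve_right fun k =>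
    e4 (h.two_neg_ex hm y1 (mem_sg.2 ⟨e3, k⟩) hz e2 y2)
  have j1 : G.Jn {e} a y := ⟨a2.symm, od_edge a1.symm, cn_edge⟩
  have j2 : G.Jn {z} y b := ⟨b2, od_edge b1, cn_edge⟩
  have d : Disjoint ({e} : Finset E) {z} := disjoint_singleton.2 e4
  have r1 : ({e} ∪ {z} : Finset E) ⊆ G.ins W :=
    union_subset (singleton_subset_iff.2 e3) (singleton_subset_iff.2 z1)
  have r2 : ∀ u ∈ G.vs ({e} ∪ {z}), u = a ∨ u = b ∨ u = y := fun u hu => by
    rw [vs_union, mem_union, mem_vs_single, mem_vs_single] at hu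
    have := hu.imp a1.at b1.at
    (clear * - hu this; tauto)
  have r3 : ∀ x ∈ G.ins W, G.At x y → x ∈ ({e} ∪ {z} : Finset E) := fun x k1 k2 => by
    simpa using h.at_pair y1 e3 z1 e4 e2 y2 k1 k2
  have ab : a ≠ b := by
    rintro rfl
    have c1 := j1.cc j2.symm d
    by_cases k : G.vs ({e} ∪ {z}) = W
    · have k0 := vs_mono (G := G) (subset_union_left (s₂ := {z})) j1.left_mem
      obtain ⟨g, g1, g2, g3⟩ := third_exists h.hc (r1.trans ins_sub_A) k0 (c1.2.1 a)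
      have g4 := mem_of_deg_le ins_sub_A ((h.hc.le3 Subset.rfl a).trans a3.ge) g1 g3
      obtain ⟨w, w1⟩ := g3.jo
      have w2 := r2 w (k ▸ w1.symm.left.mem g4)
      have w3 := (w1.ne (h.no_loop g4)).symm
      exact g2 (r3 g g4 ((show w = y by tauto) ▸ w1.symm.left))
    · obtain ⟨v, v', k1, k2, k3⟩ := two_br h.hc h.h2 r1 c1 k
      have k4 := not_br_of_ex h.hc r1 c1.2.1 y1
      have k5 : ∀ v, G.Br W ({e} ∪ {z}) v → v = a := fun v hv => by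
        rcases r2 v hv.1 with k6 | k6 | rfl
        exacts [k6, k6, absurd hv k4]
      exact k1 ((k5 v k2).trans (k5 v' k3).symm)
  refine ⟨a, b, _, a3, b3, j1.union j2 d ab, r1, mem_union_right _ (mem_singleton_self _), z2',
    fun u hu => ?_, fun x hx => ?_⟩
  · rcases r2 u hu with k | k | rfl
    exacts [Or.inl k, Or.inr (Or.inl k), Or.inr (Or.inr ⟨y1, y2, r3⟩)]
  · rcases mem_union.1 hx with k | k <;> rw [mem_singleton.1 k]
    exacts [Or.inr ⟨e5, y, y1, y2, e2⟩, Or.inl rfl]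

lemma ear_avoid (r : G.Ear W p z a b R) (hJ : J ⊆ G.sg p 0 W) (h0 : ∀ y, G.Ex W y → G.dg J y = 0) :
    Disjoint R J ∧ ∀ u ∈ G.vs R, u ∈ G.vs J → u = a ∨ u = b := by
  have k : ∀ y, G.Ex W y → G.At z y → y ∉ G.vs J := fun y k1 k2 k3 => zero_ne_one
    ((h0 y k1).symm.trans (dg_one_of_le (h.deg_pos_ex k1 (r.sub r.mem) r.neg k2 hJ) k3))
  refine ⟨disjoint_left.2 fun e he he' => ?_, fun u hu hu' => ?_⟩
  · rcases r.edge e he with rfl | ⟨-, y, k1, k2, k3⟩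
    · exact zero_ne_one ((mem_sg.1 (hJ he')).2.symm.trans r.neg)
    · exact k y k1 k2 (mem_vs.2 ⟨e, he', k3⟩)
  · rcases r.vert u hu with k1 | k1 | k1
    exacts [Or.inl k1, Or.inr k1, absurd hu' (k u k1.1 k1.2.1)]

lemma ear_circ (hm : G.Mn W p) (r : G.Ear W p z a b R) :
    ∃ C ⊆ G.sg p 0 W, G.Cc C ∧ a ∈ G.vs C ∧ b ∈ G.vs C :=
  cc_through _ r.jn.1 (h.sep hm r.da r.db)

lemma ear_disj (hm : G.Mn W p) (r : G.Ear W p z a b R) (r' : G.Ear W p z' a' b' R')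
    (hne : z ≠ z') : Disjoint (G.vs R) (G.vs R') := by
  have k0 : ∀ y, G.Ex W y → G.At z y → G.At z' y → False := fun y k1 k2 k3 => hne
    (h.two_neg_ex hm k1 (mem_sg.2 ⟨r.sub r.mem, r.neg⟩) (mem_sg.2 ⟨r'.sub r'.mem, r'.neg⟩) k2 k3)
  refine disjoint_left.2 fun u hu hu' => ?_
  obtain ⟨C, c1, c2, c3, c4⟩ := h.ear_circ hm r
  by_cases k : G.Ex W u
  · have k1 := ((r.vert u hu).resolve_left (h.ne_d3 k r.da)).resolve_left (h.ne_d3 k r.db)
    have k2 := ((r'.vert u hu').resolve_left (h.ne_d3 k r'.da)).resolve_left (h.ne_d3 k r'.db)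
    exact k0 u k k1.2.1 k2.2.1
  have k1 : u ∈ G.vs C := by
    rcases r.vert u hu with rfl | rfl | k1
    exacts [c3, c4, absurd k1.1 k]
  obtain ⟨e, e1, e2⟩ := mem_vs.1 hu
  obtain ⟨e', e3, e4⟩ := mem_vs.1 hu'
  obtain rfl := third_unique h.hc (c1.trans (sg_sub.trans ins_sub_A)) k1 (c2.2.1 u)
    (ins_sub_A (r.sub e1)) (ins_sub_A (r'.sub e3))
    (disjoint_left.1 (h.ear_avoid r c1 fun y _ => c2.2.1 y).1 e1)
    (disjoint_left.1 (h.ear_avoid r' c1 fun y _ => c2.2.1 y).1 e3) e2 e4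
  rcases r.edge _ e1 with k2 | ⟨k2, y, k3, k4, k5⟩ <;>
    rcases r'.edge _ e3 with k6 | ⟨k6, y', k7, k8, k9⟩
  · exact hne (k2.symm.trans k6)
  · exact zero_ne_one (k6.symm.trans (k2 ▸ r.neg))
  · exact zero_ne_one (k2.symm.trans (k6 ▸ r'.neg))
  · obtain ⟨w, hw⟩ := e2.jo
    have a1 := (hw.at k5).resolve_left fun a => k (a ▸ k3)
    have a2 := (hw.at k9).resolve_left fun a => k (a ▸ k7)
    exact k0 y k3 k4 (a1 ▸ a2 ▸ k8)

lemma ear_odd (r : G.Ear W p z a b R) (hJ : J ⊆ G.sg p 0 W) (j : G.Jn J a b) :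
    R ∪ J ⊆ G.ins W ∧ G.Cc (R ∪ J) ∧ G.par (R ∪ J) = 1 := by
  have d := (h.ear_avoid r hJ fun y hy => j.2.1.other (h.ne_d3 hy r.da) (h.ne_d3 hy r.db)).1
  have c := r.jn.cc j d
  exact ⟨union_subset r.sub (hJ.trans sg_sub), c,
    by rw [c.2.1.par_eq p, sum_union d, r.sum, sum_sg hJ, add_zero]⟩

lemma nolink (hm : G.Mn W p) (r : G.Ear W p z a b R) (r' : G.Ear W p z' a' b' R') (hne : z ≠ z')
    {J' : Finset E} (hJ : J ⊆ G.sg p 0 W) (j : G.Jn J a b) (hJ' : J' ⊆ G.sg p 0 W)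
    (j' : G.Jn J' a' b') (d : Disjoint (G.vs J) (G.vs J')) : False := by
  obtain ⟨c1, c2, c3⟩ := h.ear_odd r hJ j
  obtain ⟨d1, d2, d3⟩ := h.ear_odd r' hJ' j'
  refine h.hK _ c1 _ d1 c2 c3 d2 d3 ?_
  rw [vs_union, vs_union, disjoint_union_left, disjoint_union_right, disjoint_union_right]
  refine ⟨⟨h.ear_disj hm r r' hne, disjoint_left.2 fun u hu hu' => ?_⟩,
    disjoint_left.2 fun u hu hu' => ?_, d⟩
  · rcases (h.ear_avoid r hJ' fun y hy => j'.2.1.other (h.ne_d3 hy r'.da)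
      (h.ne_d3 hy r'.db)).2 u hu hu' with rfl | rfl
    exacts [disjoint_left.1 d j.left_mem hu', disjoint_left.1 d j.right_mem hu']
  · rcases (h.ear_avoid r' hJ fun y hy => j.2.1.other (h.ne_d3 hy r.da)
      (h.ne_d3 hy r.db)).2 u hu' hu with rfl | rfl
    exacts [disjoint_left.1 d hu j'.left_mem, disjoint_left.1 d hu j'.right_mem]

lemma att_ne (hm : G.Mn W p) (r : G.Ear W p z a b R) (r' : G.Ear W p z' a' b' R') (hne : z ≠ z')
    (c1 : C ⊆ G.sg p 0 W) (c2 : G.Cc C) (ha : a ∈ G.vs C) (hb : b ∈ G.vs C)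
    (hu : G.Rch (G.sg p 0 W \ C) a' u) : u ≠ a ∧ u ≠ b := by
  have k : ∀ e ∈ G.sg p 0 W \ C, ∀ v ∈ G.vs R, G.At e v → e ∈ R := fun e he v hv hv' => by
    obtain ⟨k1, k2⟩ := mem_sdiff.1 he
    have k3 : v ∈ G.vs C → e ∈ R := fun k3 => by
      obtain ⟨x, x1, x2⟩ := mem_vs.1 hv
      exact third_unique h.hc (c1.trans (sg_sub.trans ins_sub_A)) k3 (c2.2.1 v)
        (ins_sub_A (r.sub x1)) (ins_sub_A (sg_sub k1))
        (disjoint_left.1 (h.ear_avoid r c1 fun y _ => c2.2.1 y).1 x1) k2 x2 hv' ▸ x1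
    rcases r.vert v hv with rfl | rfl | k4
    exacts [k3 ha, k3 hb, k4.2.2 e (sg_sub k1) hv']
  have k1 : u ∉ G.vs R := fun k1 => disjoint_left.1 (h.ear_disj hm r r' hne)
    (hu.symm.closed (P := fun v => v ∈ G.vs R) (fun e he =>
      ⟨fun k2 => t_mem_vs (k e he _ k2 (Or.inl rfl)), fun k2 => s_mem_vs (k e he _ k2 (Or.inr rfl))⟩)
      k1) r'.jn.left_mem
  exact ⟨fun k2 => k1 (k2 ▸ r.jn.left_mem), fun k2 => k1 (k2 ▸ r.jn.right_mem)⟩

lemma att_join (r' : G.Ear W p z' a' b' R') (c1 : C ⊆ G.sg p 0 W) (c2 : G.Cc C)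
    (hu : G.Rch (G.sg p 0 W \ C) a' u) (hu' : u ∈ G.vs C) (hne : a' ≠ u) :
    ∃ J ⊆ G.sg p 0 W, G.Jn J a' u ∧ ∀ w ∈ G.vs J, w ∈ G.vs C → w = u := by
  obtain ⟨J, j1, j2⟩ := hu.jn hne
  have cA := c1.trans (sg_sub.trans ins_sub_A)
  have j3 := j1.trans sdiff_subset
  refine ⟨J, j3, j2, fun w hw hw' => ?_⟩
  refine (j2.2.1.end_of_le (le_trans (deg_mono (j1.trans (sdiff_subset_sdiff
    (sg_sub.trans ins_sub_A) Subset.rfl))) (deg_third h.hc cA hw' (c2.2.1 w)).le) hw).resolve_left ?_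
  rintro rfl
  obtain ⟨e, e1, e2⟩ := mem_vs.1 hw
  obtain ⟨x, x1, x2⟩ := mem_vs.1 r'.jn.left_mem
  have av := h.ear_avoid r' c1 fun y _ => c2.2.1 y
  obtain rfl := third_unique h.hc cA hw' (c2.2.1 w) (ins_sub_A (r'.sub x1))
    (ins_sub_A (sg_sub (j3 e1))) (disjoint_left.1 av.1 x1) (mem_sdiff.1 (j1 e1)).2 x2 e2
  rcases r'.edge e x1 with rfl | ⟨-, y, k1, k2, k3⟩
  · exact zero_ne_one ((mem_sg.1 (j3 e1)).2.symm.trans r'.neg)
  · rcases j2.2.1.end_of_le (h.deg_pos_ex k1 (r'.sub r'.mem) r'.neg k2 j3)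
      (mem_vs.2 ⟨e, e1, k3⟩) with k4 | rfl
    · exact h.ne_d3 k1 r'.da k4
    · exact (av.2 y (mem_vs.2 ⟨e, x1, k3⟩) hu').elim (h.ne_d3 k1 r'.da) (h.ne_d3 k1 r'.db)

lemma att_both (hm : G.Mn W p) (r : G.Ear W p z a b R) (r' : G.Ear W p z' a' b' R') (hne : z ≠ z')
    (c1 : C ⊆ G.sg p 0 W) (c2 : G.Cc C) (hP : P ⊆ C) (j : G.Jn P a b) {u' : V}
    (hu : G.Rch (G.sg p 0 W \ C) a' u) (hu' : G.Rch (G.sg p 0 W \ C) b' u') (m : u ∈ G.vs P)
    (m' : u' ∈ G.vs P) : False := by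
  have cA := c1.trans (sg_sub.trans ins_sub_A)
  have ha := vs_mono hP j.left_mem
  have hb := vs_mono hP j.right_mem
  set T := (G.sg p 0 W).filter fun e => G.s e ∉ G.vs (C \ P) ∧ G.t e ∉ G.vs (C \ P) with hT
  have k0 : ∀ J ⊆ G.sg p 0 W, (∀ w ∈ G.vs J, w ∉ G.vs (C \ P)) → J ⊆ T := fun J k1 k2 e he =>
    mem_filter.2 ⟨k1 he, k2 _ (s_mem_vs he), k2 _ (t_mem_vs he)⟩
  have k1 : ∀ {a' b' u : V}, G.Ear W p z' a' b' R' → G.Rch (G.sg p 0 W \ C) a' u → u ∈ G.vs P →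
      G.Rch T a' u := fun {a' b' u} r' hu m => by
    by_cases k : a' = u
    · exact k ▸ Rch.refl _ _
    obtain ⟨J, j1, j2, j3⟩ := h.att_join r' c1 c2 hu (vs_mono hP m) k
    refine (j2.2.2 _ j2.left_mem _ j2.right_mem).mono (k0 J j1 fun w hw hw' => ?_)
    obtain rfl := j3 w hw (vs_mono sdiff_subset hw')
    have k2 := h.att_ne hm r r' hne c1 c2 ha hb hu
    exact (c2.ends h.hc cA hP j.2.1 m hw').elim k2.1 k2.2
  have k2 : G.Rch T u u' := by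
    by_cases k : u = u'
    · exact k ▸ Rch.refl _ _
    obtain ⟨K, j1, j2⟩ := (j.2.2 u m u' m').jn k
    refine (j2.2.2 _ j2.left_mem _ j2.right_mem).mono
      (k0 K (j1.trans (hP.trans c1)) fun w hw hw' => ?_)
    have k3 := h.att_ne hm r r' hne c1 c2 ha hb hu
    have k4 := h.att_ne hm r r'.symm hne c1 c2 ha hb hu'
    rcases c2.ends h.hc cA hP j.2.1 (vs_mono j1 hw) hw' with rfl | rfl
    · exact (j2.2.1.end_of_le ((deg_mono j1).trans (c2.deg_end h.hc cA hP j).le) hw).elim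
        k3.1.symm k4.1.symm
    · exact (j2.2.1.end_of_le ((deg_mono j1).trans (c2.deg_end h.hc cA hP j.symm).le) hw).elim
        k3.2.symm k4.2.symm
  obtain ⟨J, j1, j2⟩ := (((k1 r' hu m).trans k2).trans (k1 r'.symm hu' m').symm).jn r'.jn.1
  refine h.nolink hm r r' hne (sdiff_subset.trans c1) (c2.compl h.hc cA hP j)
    (j1.trans (filter_subset _ _)) j2 (disjoint_left.2 fun w hw hw' => ?_)
  obtain ⟨e, e1, rfl | rfl⟩ := mem_vs.1 hw'
  exacts [(mem_filter.1 (j1 e1)).2.1 hw, (mem_filter.1 (j1 e1)).2.2 hw]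

lemma att_fan (hm : G.Mn W p) (hx : G.deg (G.ins W) x = 3) (ha : G.deg (G.ins W) a = 3)
    (c1 : C ⊆ G.sg p 0 W) (c2 : G.Cc C) (ha' : a ∈ G.vs C) (hx' : x ∉ G.vs C) :
    ∃ u u' F, u ∈ G.vs C ∧ u' ∈ G.vs C ∧ G.Jn F u u' ∧ F ⊆ G.sg p 0 W \ C ∧ x ∈ G.vs F := by
  obtain ⟨u, u', F, f1, f2, f3, f4, f5, f6, -⟩ := fan h.hc (c1.trans (sg_sub.trans ins_sub_A)) c2
    (sg_sub.trans (ins_sub_A (W := W))) (od_self.2 ev_empty) (disjoint_empty_left _)
    (by simp [vs]) hx' hx' fun X hX => by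
      by_cases k : x ∈ X
      · simpa [iv, k] using h.sep hm hx ha X k fun k1 => disjoint_left.1 hX k1 ha'
      · simp [iv, k]
  exact ⟨u, u', F, f1, f2, f3, subset_sdiff.2 ⟨by simpa using f4, f5⟩, f6⟩

lemma step (hm : G.Mn W p) (hx : G.deg (G.ins W) x = 3) (ha : G.deg (G.ins W) a = 3)
    (c1 : C ⊆ G.sg p 0 W) (c2 : G.Cc C) (hP : P ⊆ C) (j : G.Jn P a b)
    (hu : ∀ u ∈ G.vs C, G.Rch (G.sg p 0 W \ C) x u → u ∈ G.vs P) :
    ∃ C' ⊆ G.sg p 0 W, G.Cc C' ∧ ∃ P' ⊆ C', G.Jn P' a b ∧ C' \ P' = C \ P ∧ x ∈ G.vs P' := by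
  by_cases k : x ∈ G.vs C
  · exact ⟨C, c1, c2, P, hP, j, rfl, hu x k (Rch.refl _ _)⟩
  obtain ⟨u, u', F, f1, f2, f3, f4, f5⟩ := h.att_fan hm hx ha c1 c2 (vs_mono hP j.left_mem) k
  obtain ⟨J, j1, j2⟩ := (j.2.2 u (hu u f1 ((f3.2.2 x f5 u f3.left_mem).mono f4)) u'
    (hu u' f2 ((f3.2.2 x f5 u' f3.right_mem).mono f4))).jn f3.1
  have d : Disjoint F C := sdiff_disjoint.mono_left f4
  have c3 := c2.reroute h.hc (c1.trans (sg_sub.trans ins_sub_A)) (j1.trans hP) j2 f3 d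
  have c4 : C \ J ∪ F ⊆ G.sg p 0 W :=
    union_subset (sdiff_subset.trans c1) (f4.trans sdiff_subset)
  have c5 : P \ J ∪ F ⊆ C \ J ∪ F := union_subset_union_left (sdiff_subset_sdiff hP Subset.rfl)
  refine ⟨_, c4, c3, _, c5, c3.jn h.hc (c4.trans (sg_sub.trans ins_sub_A)) c5 (fun v => ?_) j.1,
    ?_, vs_mono subset_union_right f5⟩
  · rw [dg_union (d.symm.mono_left (sdiff_subset.trans hP)), dg_sdiff j1, j2.2.1 v, f3.2.1 v,
      add_assoc, z2_add_self, add_zero, j.2.1 v]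
  · ext e
    have k1 := @j1 e
    have k2 := @disjoint_left.1 d e
    simp only [mem_sdiff, mem_union]
    (clear * - k1 k2; tauto)

lemma four (hm : G.Mn W p) (r : G.Ear W p z a b R) (r' : G.Ear W p z' a' b' R') (hne : z ≠ z') :
    ∃ H ⊆ G.sg p 0 W, G.Cc H ∧ ∃ P ⊆ H, G.Jn P a b ∧ a' ∈ G.vs P ∧ b' ∈ G.vs (H \ P) := by
  obtain ⟨C, c1, c2, c3, c4⟩ := h.ear_circ hm r
  have cA := c1.trans (sg_sub.trans ins_sub_A)
  have ex : ∀ x, G.deg (G.ins W) x = 3 → ∃ u ∈ G.vs C, G.Rch (G.sg p 0 W \ C) x u := fun x hx => by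
    by_cases k : x ∈ G.vs C
    · exact ⟨x, k, Rch.refl _ _⟩
    · obtain ⟨u, u', F, f1, -, f3, f4, f5⟩ := h.att_fan hm hx r.da c1 c2 c3 k
      exact ⟨u, f1, (f3.2.2 x f5 u f3.left_mem).mono f4⟩
  obtain ⟨u, u1, u2⟩ := ex a' r'.da
  obtain ⟨u', u3, u4⟩ := ex b' r'.db
  obtain ⟨P, p1, p2, p3⟩ := c2.arc_mem h.hc cA c3 c4 r.jn.1 u1
  have u5 := ((vs_split p1).1 u3).resolve_left (h.att_both hm r r' hne c1 c2 p1 p2 u2 u4 p3)
  obtain ⟨C1, d1, d2, P1, d3, d4, -, d5⟩ := h.step hm r'.da r.da c1 c2 p1 p2 fun v v1 v2 =>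
    ((vs_split p1).1 v1).resolve_right fun k =>
      h.att_both hm r r' hne c1 c2 sdiff_subset (c2.compl h.hc cA p1 p2) v2 u4 k u5
  obtain ⟨C2, e1, e2, P2, e3, e4, e5, e6⟩ := h.step hm r'.db r.da d1 d2 sdiff_subset
    (d2.compl h.hc (d1.trans (sg_sub.trans ins_sub_A)) d3 d4) fun v v1 v2 =>
    ((vs_split d3).1 v1).resolve_left
      (h.att_both hm r r' hne d1 d2 d3 d4 (Rch.refl _ _) v2 d5)
  refine ⟨C2, e1, e2, C2 \ P2, sdiff_subset,
    e2.compl h.hc (e1.trans (sg_sub.trans ins_sub_A)) e3 e4, ?_, ?_⟩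
  · rwa [e5, Finset.sdiff_sdiff_eq_self d3]
  · rwa [Finset.sdiff_sdiff_eq_self e3]

lemma rest_bal (r : G.Ear W p z a b R) (c1 : C ⊆ G.sg p 0 W) (hP : P ⊆ C) (j : G.Jn P a b) :
    G.Bal (G.ins (W \ G.vs C)) := by
  by_contra k
  obtain ⟨D, d1, d2, d3⟩ := exists_odd_cc k
  obtain ⟨c3, c4, c5⟩ := h.ear_odd r (hP.trans c1) j
  have d4 := d1.trans (ins_mono sdiff_subset)
  have d5 : ∀ u ∈ G.vs P, u ∉ G.vs D := fun u hu hu' =>
    (mem_sdiff.1 ((sub_ins_iff.1 d1).2 hu')).2 (vs_mono hP hu)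
  refine h.hK _ c3 _ d4 c4 c5 d2 d3 (disjoint_left.2 fun u hu hu' => ?_)
  rw [vs_union, mem_union] at hu
  rcases r.vert u (hu.resolve_right fun k => d5 u k hu') with rfl | rfl | ⟨k1, k2, -⟩
  · exact d5 _ j.left_mem hu'
  · exact d5 _ j.right_mem hu'
  have k3 := mem_of_deg_le d4 (by
    rw [h.deg_ex k1, deg2_of_dg h.hc (d4.trans ins_sub_A) hu' (d2.2.1 u)]) (r.sub r.mem) k2
  obtain ⟨w, hw⟩ := k2.jo
  have k4 := mem_vs.2 ⟨z, k3, hw.symm.left⟩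
  rcases r.vert w (mem_vs.2 ⟨z, r.mem, hw.symm.left⟩) with rfl | rfl | ⟨k5, -⟩
  exacts [d5 _ j.left_mem k4, d5 _ j.right_mem k4, h.indep' (r.sub r.mem) hw k1 k5]

lemma two_sub (hm : G.Mn W p) (r : G.Ear W p z a b R) (r' : G.Ear W p z' a' b' R') (hne : z ≠ z')
    {y' : V} (hy : G.Ex W y) (hy' : G.Ex W y') (h1 : G.At z y) (h1' : G.At z' y') : False := by
  obtain ⟨H, c1, c2, P, p1, p2, p3, p4⟩ := h.four hm r r' hne
  have cA := c1.trans (sg_sub.trans ins_sub_A)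
  have d := h.ear_disj hm r r' hne
  have n : ∀ u ∈ G.vs R', ∀ v ∈ G.vs R, u ≠ v := fun u hu v hv k =>
    disjoint_left.1 d hv (k ▸ hu)
  obtain ⟨B, b1, -, b2, -⟩ := c2.split h.hc cA p1 p2 p3 (n _ r'.jn.left_mem _ r.jn.left_mem)
    (n _ r'.jn.left_mem _ r.jn.right_mem)
  obtain ⟨D, d1, d2, -⟩ := c2.split h.hc cA sdiff_subset (c2.compl h.hc cA p1 p2) p4
    (n _ r'.jn.right_mem _ r.jn.left_mem) (n _ r'.jn.right_mem _ r.jn.right_mem)
  have e1 := (h.ear_avoid r c1 fun y _ => c2.2.1 y).1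
  have e2 := (h.ear_avoid r' c1 fun y _ => c2.2.1 y).1
  have s1 : P \ B ⊆ H := sdiff_subset.trans p1
  have s2 : D ⊆ H := d1.trans sdiff_subset
  have ne := (n _ r'.jn.left_mem _ r.jn.left_mem).symm
  have f1 := e1.mono_right s1
  have f2 := (e2.mono_right s2).symm
  have f3 : Disjoint (R ∪ (P \ B)) (D ∪ R') := disjoint_union_left.2
    ⟨disjoint_union_right.2 ⟨e1.mono_right s2, disjoint_of_vs d⟩,
      disjoint_union_right.2 ⟨(disjoint_sdiff.mono sdiff_subset d1), (e2.mono_right s1).symm⟩⟩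
  have c3 := (r.jn.union b2.symm f1 ne).cc (d2.union r'.jn.symm f2 ne) f3
  have y1 := mem_vs.2 ⟨z, r.mem, h1⟩
  have y2 := mem_vs.2 ⟨z', r'.mem, h1'⟩
  refine n _ y2 _ y1 (h.hno _ (union_subset (union_subset r.sub (s1.trans (c1.trans sg_sub)))
    (union_subset (s2.trans (c1.trans sg_sub)) r'.sub)) c3 ?_ _
    (vs_mono (subset_union_right.trans subset_union_right) y2) _
    (vs_mono (subset_union_left.trans subset_union_left) y1) hy' hy)
  rw [c3.2.1.par_eq p, sum_union f3, sum_union f1, sum_union f2, r.sum, r'.sum,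
    sum_sg (s1.trans c1), sum_sg (s2.trans c1)]
  decide

lemma chord (r : G.Ear W p z a b R) (hz : ∀ y, G.Ex W y → ¬ G.At z y) (ha : a ∈ G.vs C)
    (hb : b ∈ G.vs C) : z ∈ G.ins (G.vs C) := by
  have k : ∀ u, G.At z u → u ∈ G.vs C := fun u hu => by
    rcases r.vert u (mem_vs.2 ⟨z, r.mem, hu⟩) with rfl | rfl | k
    exacts [ha, hb, absurd hu (hz u k.1)]
  exact mem_ins.2 ⟨ins_sub_A (r.sub r.mem), k _ (Or.inl rfl), k _ (Or.inr rfl)⟩

end Cx

lemma kap_sdiff {U : Finset V} (h : U ⊆ W) :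
    (G.kap p W e : ZMod 3) = G.kap p U e + G.kap p (W \ U) e := by
  have k : ∀ v, (iv (v ∈ W) : ZMod 3) = iv (v ∈ U) + iv (v ∈ W \ U) := fun v => by
    have := @h v
    by_cases k1 : v ∈ U <;> by_cases k2 : v ∈ W <;> simp_all [iv]
  simp only [kap, k]
  ring

lemma kap_ne (h : G.At e y) (hl : G.s e ≠ G.t e) : (G.kap p {y} e : ZMod 3) ≠ 0 := by
  rcases h with rfl | rfl <;> simp only [kap, iv, mem_singleton, hl, hl.symm, if_true, if_false] <;>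
    rcases z2 (p (G.s e)) with k1 | k1 <;> rcases z2 (p (G.t e)) with k2 | k2 <;>
    rcases z2 (G.n e) with k3 | k3 <;> simp [k1, k2, k3]

lemma kap_cut (he : e ∈ G.cut W) (h : G.At e y) (hy : y ∈ W) :
    (G.kap p W e : ZMod 3) = G.kap p {y} e := by
  have k := (mem_cut.1 he).2
  rcases h with rfl | rfl
  · have k1 : G.t e ∉ W := fun k1 => k (iff_of_true hy k1)
    have k2 : G.t e ≠ G.s e := fun k2 => k1 (k2 ▸ hy)
    simp [kap, iv, hy, k1, k2]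
  · have k1 : G.s e ∉ W := fun k1 => k (iff_of_true k1 hy)
    have k2 : G.s e ≠ G.t e := fun k2 => k1 (k2 ▸ hy)
    simp [kap, iv, hy, k1, k2]

lemma kap_neg (he : e ∈ G.ins W) (hn : G.sw p e = 1) (h : G.At e y) (hl : G.s e ≠ G.t e) :
    (G.kap p W e : ZMod 3) = 2 * G.kap p {y} e := by
  have k1 := (mem_ins.1 he).2.1
  have k2 := (mem_ins.1 he).2.2
  unfold sw at hn
  rcases h with rfl | rfl <;>
    simp only [kap, iv, mem_singleton, hl, hl.symm, if_true, if_false, k1, k2] <;>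
    rcases z2 (p (G.s e)) with k3 | k3 <;> rcases z2 (p (G.t e)) with k4 | k4 <;>
    rcases z2 (G.n e) with k5 | k5 <;> rw [k3, k4, k5] at hn <;>
    first | exact absurd hn (by decide) | (simp only [k3, k4, k5]; decide)

/-- no even circuit passes through two exit vertices -/
theorem t2 (hc : G.Cub) (hA : G.Adm1) {W : Finset V} (h2 : G.Two W (G.ins W)) (hK : G.K1 W)
    (hU : ¬ G.Bal (G.ins W)) (hN : ∃ v ∈ W, G.deg (G.ins W) v = 3) (hS : G.S3 W)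
    (h1 : (G.cut W).card ≠ 1) (hz : G.cut W = ∅ → ∀ z, ¬ G.Bal ((G.ins W).erase z))
    (hno : ∀ H ⊆ G.ins W, G.Cc H → G.par H = 0 → ∀ y1 ∈ G.vs H, ∀ y2 ∈ G.vs H,
      G.Ex W y1 → G.Ex W y2 → y1 = y2) : G.Sol W 0 := by
  classical
  have h : G.Cx W := ⟨hc, hA, h2, hK, hU, hN, hS, h1, hz, hno⟩
  obtain ⟨p, hm⟩ := exists_mn (G := G) W
  choose! a b R r using fun z hz => h.exists_ear (z := z) hm hz
  have sb : ∀ z ∈ G.sg p 1 W, ∀ z' ∈ G.sg p 1 W, ∀ y y', G.Ex W y → G.Ex W y' → G.At z y →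
      G.At z' y' → z = z' := fun z hz z' hz' y y' k1 k2 k3 k4 => by
    by_contra k
    exact h.two_sub hm (r z hz) (r z' hz') k k1 k2 k3 k4
  obtain ⟨z, hz, z', hz', hne, f2⟩ : ∃ z ∈ G.sg p 1 W, ∃ z' ∈ G.sg p 1 W, z ≠ z' ∧
      (∀ y, G.Ex W y → ¬ G.At z' y) ∧ ((∀ y, G.Ex W y → ¬ G.At z y) ∨
        ((∃ y, G.Ex W y ∧ G.At z y) ∧ ∀ e ∈ G.sg p 1 W, e = z ∨ e = z')) := by
    by_cases k : ∃ z ∈ G.sg p 1 W, ∃ z' ∈ G.sg p 1 W, z ≠ z' ∧ (∀ y, G.Ex W y → ¬ G.At z' y) ∧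
        ∀ y, G.Ex W y → ¬ G.At z y
    · obtain ⟨z, hz, z', hz', k1, k2, k3⟩ := k
      exact ⟨z, hz, z', hz', k1, k2, Or.inl k3⟩
    push Not at k
    have key : ∀ z ∈ G.sg p 1 W, ∀ z' ∈ G.sg p 1 W, z ≠ z' → (∀ y, G.Ex W y → ¬ G.At z' y) →
        (∃ y, G.Ex W y ∧ G.At z y) ∧ ∀ e ∈ G.sg p 1 W, e = z ∨ e = z' := by
      intro z hz z' hz' k1 k2
      obtain ⟨y, k3, k4⟩ := k z hz z' hz' k1 k2
      refine ⟨⟨y, k3, k4⟩, fun e he => or_iff_not_imp_right.2 fun k5 => ?_⟩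
      obtain ⟨y', k6, k7⟩ := k e he z' hz' k5 k2
      exact sb e he z hz y' y k6 k3 k7 k4
    obtain ⟨z, hz, z', hz', hne⟩ := one_lt_card.1 (h.two_neg p)
    by_cases k1 : ∀ y, G.Ex W y → ¬ G.At z' y
    · exact ⟨z, hz, z', hz', hne, k1, Or.inr (key z hz z' hz' hne k1)⟩
    · push Not at k1
      obtain ⟨y', k2, k3⟩ := k1
      have k4 : ∀ y, G.Ex W y → ¬ G.At z y := fun y k4 k5 => hne (sb z hz z' hz' y y' k4 k2 k5 k3)
      exact ⟨z', hz', z, hz, hne.symm, k4, Or.inr (key z' hz' z hz hne.symm k4)⟩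
  obtain ⟨H, c1, c2, P, p1, p2, p3, p4⟩ := h.four hm (r z hz) (r z' hz') hne
  have hH := c1.trans sg_sub
  have hU' := (sub_ins_iff.1 hH).2
  have hH' := sub_ins_vs (hH.trans ins_sub_A)
  have hp : ∀ e ∈ H, G.sw p e = 0 := fun e he => (mem_sg.1 (c1 he)).2
  have s0 := sol_of_bal hA (h.rest_bal (r z hz) c1 p1 p2)
  have m2 := h.chord (r z' hz') f2.1 (vs_mono p1 p3) (vs_mono sdiff_subset p4)
  have fl2 : G.Fl p W (G.vs H) H z' := fl_chord m2 hp (r z' hz').neg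
  rcases f2.2 with f3 | ⟨⟨y, y1, y2⟩, f3⟩
  · exact abs_two hU' hH' c2.2.1 c2.2.2 hp hne (fl_chord (h.chord (r z hz) f3
      (vs_mono p1 p2.left_mem) (vs_mono p1 p2.right_mem)) hp (r z hz).neg) fl2 s0
  obtain ⟨yW, x, x1, x2⟩ := id y1
  obtain ⟨x', x3, x4⟩ := exists_mem_ne (show 1 < (G.cut W).card by
    have := card_pos.2 ⟨x, x1⟩
    omega) x
  have oth : ∀ e ∈ G.cut W, e ≠ x → ∀ u ∈ W, G.At e u → u ∉ G.vs (G.sg p 1 W) := by
    intro e he k u hu hu' k1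
    obtain ⟨g, g1, g2⟩ := mem_vs.1 k1
    rcases f3 g g1 with rfl | rfl
    · obtain ⟨w, hw⟩ := y2.jo
      rcases hw.at g2 with rfl | rfl
      exacts [k (h.cut_unique hu x1 he x2 hu'), h.indep' (sg_sub g1) hw y1 ⟨hu, e, he, hu'⟩]
    · exact f2.1 u ⟨hu, e, he, hu'⟩ g2
  obtain ⟨y', y3, y4⟩ := cut_end x3
  have nc : ∀ e ∈ G.cut W, e ∉ G.ins W := fun e he k =>
    (mem_cut.1 he).2 (iff_of_true (mem_ins.1 k).2.1 (mem_ins.1 k).2.2)
  by_cases k : y' ∈ G.vs H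
  · exact abs_two hU' hH' c2.2.1 c2.2.2 hp (fun k1 : z' = x' => nc x' x3 (k1 ▸ sg_sub hz')) fl2
      (fl_cut hU' hH' x3 k y4) s0
  obtain ⟨O, o1, o2, o3, φ, o4, o5⟩ := s0
  set ψ : E → ZMod 3 := fun e => if e ∈ G.tch (W \ G.vs H) then φ e else 1 with hψ
  have q1 : ∀ v ∈ W \ G.vs H, G.bd ψ v = 0 := fun v hv => by
    rw [← o4 v hv]
    refine bd_congr fun e he k => if_pos (mem_tch.2 ⟨he, ?_⟩)
    rcases k with rfl | rfl
    exacts [Or.inl hv, Or.inr hv]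
  have q2 : ∀ e, e ∉ O → ψ e ≠ 0 := fun e he => by
    simp only [hψ]
    split_ifs with k1
    exacts [o5 e k1 he, one_ne_zero]
  rw [← o3]
  refine abs_one hU' hH' c2.2.1 c2.2.2 o1 o2 ψ q1 (fun e _ he _ => q2 e he) hp fl2 ?_
  have zA := ins_sub_A (sg_sub hz)
  have yH : y ∉ G.vs H := fun k1 => ((h.ear_avoid (r z hz) c1 fun y _ => c2.2.1 y).2 y
    (mem_vs.2 ⟨z, (r z hz).mem, y2⟩) k1).elim (h.ne_d3 y1 (r z hz).da) (h.ne_d3 y1 (r z hz).db)
  have zO : z ∉ G.ins (W \ G.vs H) := fun k1 => by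
    obtain ⟨w, hw⟩ := y2.jo
    have k2 := (mem_sdiff.1 (hw.symm.left.mem k1)).2
    rcases (r z hz).vert w (mem_vs.2 ⟨z, (r z hz).mem, hw.symm.left⟩) with rfl | rfl | k3
    exacts [k2 (vs_mono p1 p2.left_mem), k2 (vs_mono p1 p2.right_mem),
      h.indep' (sg_sub hz) hw y1 k3.1]
  have yO : y ∉ G.vs O := fun k1 => zO (o1 (mem_of_deg_le (o1.trans (ins_mono sdiff_subset)) (by
    rw [h.deg_ex y1, deg2_of_dg hc (o1.trans ins_sub_A) k1 (o2 y)]) (sg_sub hz) y2))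
  have t1 : ∑ e ∈ G.A, G.kap p (W \ G.vs H) e * ψ e = 0 := by
    rw [← sum_bd]
    exact sum_eq_zero fun v hv => by rw [q1 v hv, mul_zero]
  have t2 : ∑ e ∈ G.A.erase z', G.kap p (G.vs H) e * ψ e =
      ∑ e ∈ G.A.erase z', G.kap p W e * ψ e := by
    simp only [kap_sdiff hU', add_mul, sum_add_distrib]
    rw [sum_erase (f := fun e => G.kap p (W \ G.vs H) e * ψ e) _ (by
      rw [kap_out (fun k1 => (mem_sdiff.1 k1).2 (mem_ins.1 m2).2.1)
        (fun k1 => (mem_sdiff.1 k1).2 (mem_ins.1 m2).2.2), zero_mul]), t1, add_zero]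
  have zx : z ≠ x := fun k1 => nc x x1 (k1 ▸ sg_sub hz)
  have zx' : z ≠ x' := fun k1 => nc x' x3 (k1 ▸ sg_sub hz)
  have t3 : ∑ e ∈ G.A.erase z', G.kap p W e * ψ e =
      G.kap p W z * ψ z + (G.kap p W x * ψ x + G.kap p W x' * ψ x') := by
    rw [← sum_pair (f := fun e => G.kap p W e * ψ e) x4.symm,
      ← sum_insert (f := fun e => G.kap p W e * ψ e) (by simp [zx, zx'])]
    refine (sum_subset (fun e he => ?_) fun e he k1 => ?_).symm
    · simp only [mem_insert, mem_singleton] at he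
      rcases he with rfl | rfl | rfl
      exacts [mem_erase.2 ⟨hne, zA⟩,
        mem_erase.2 ⟨fun k1 => nc _ x1 (k1 ▸ sg_sub hz'), (mem_cut.1 x1).1⟩,
        mem_erase.2 ⟨fun k1 => nc _ x3 (k1 ▸ sg_sub hz'), (mem_cut.1 x3).1⟩]
    · simp only [mem_insert, mem_singleton, not_or] at k1
      obtain ⟨k2, k3⟩ := mem_erase.1 he
      have k4 : e ∉ G.cut W := fun k4 => by
        obtain ⟨u, u1, u2⟩ := cut_end k4
        obtain rfl := h.ex_unique hm ⟨u1, e, k4, u2⟩ ⟨y3, x', x3, y4⟩ (oth e k4 k1.2.1 u u1 u2)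
          (oth x' x3 x4 y' y3 y4)
        exact k1.2.2 (h.cut_unique u1 x3 k4 y4 u2)
      have k5 : G.s e ∈ W ↔ G.t e ∈ W := not_not.1 fun k5 => k4 (mem_cut.2 ⟨k3, k5⟩)
      by_cases k6 : G.s e ∈ W
      · rw [kap_ins k6 (k5.1 k6), (z2 (G.sw p e)).resolve_right fun k7 =>
          (f3 e (mem_sg.2 ⟨mem_ins.2 ⟨k3, k6, k5.1 k6⟩, k7⟩)).elim k1.1 k2]
        simp
      · rw [kap_out k6 fun k7 => k6 (k5.2 k7), zero_mul]
  have lp : ∀ e ∈ G.cut W, G.s e ≠ G.t e := fun e he k1 => (mem_cut.1 he).2 (by rw [k1])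
  have t4 : G.kap p {y} z * ψ z = G.kap p {y} x * ψ x := by
    obtain ⟨g, g1, g2⟩ := mem_vs.1 (deg_pos.1 (show 0 < G.deg (G.ins W \ {z}) y by
      have k1 := deg_sdiff (G := G) (v := y) (singleton_subset_iff.2 (sg_sub hz))
      have k2 := h.deg_ex y1
      have k3 : G.deg {z} y ≤ 1 := by
        have k4 := h.no_loop (sg_sub hz)
        rcases y2 with rfl | rfl <;> simp [deg, inc, iv, k4, k4.symm]
      omega))
    obtain ⟨g3, g4⟩ := mem_sdiff.1 g1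
    rw [mem_singleton] at g4
    have gx : g ≠ x := fun k1 => nc x x1 (k1 ▸ g3)
    have k1 : ∑ e ∈ G.A, G.kap p {y} e * ψ e = 0 := by
      rw [← sum_bd, sum_singleton, q1 y (mem_sdiff.2 ⟨yW, yH⟩), mul_zero]
    rw [← sum_subset (s₁ := {z, g, x}) (insert_subset zA (insert_subset (ins_sub_A g3)
      (singleton_subset_iff.2 (mem_cut.1 x1).1))) fun e he k2 => ?_, sum_insert
        (by simp [Ne.symm g4, zx]), sum_pair gx] at k1
    · have k2 : ∀ e, G.At e y → G.s e ≠ G.t e → G.kap p {y} e * ψ e ≠ 0 := fun e k2 k3 =>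
        mul_ne_zero (kap_ne k2 k3) (q2 e fun k4 => yO (mem_vs.2 ⟨e, k4, k2⟩))
      have k3 := k2 z y2 (h.no_loop (sg_sub hz))
      have k4 := k2 g g2 (h.no_loop g3)
      have k5 := k2 x x2 (lp x x1)
      revert k1 k3 k4 k5
      generalize G.kap p {y} z * ψ z = c1
      generalize G.kap p {y} g * ψ g = c2
      generalize G.kap p {y} x * ψ x = c3
      revert c1 c2 c3
      decide
    · simp only [mem_insert, mem_singleton, not_or] at k2
      have k3 : ¬ G.At e y := fun k3 => by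
        by_cases k4 : e ∈ G.ins W
        · exact (h.at_pair y1 (sg_sub hz) g3 (Ne.symm g4) y2 g2 k4 k3).elim k2.1 k2.2.1
        · refine k2.2.2 (h.cut_unique yW x1 (mem_cut.2 ⟨he, fun k5 => k4 (mem_ins.2 ⟨he, ?_⟩)⟩)
            x2 k3)
          rcases k3 with rfl | rfl
          exacts [⟨yW, k5.1 yW⟩, ⟨k5.2 yW, yW⟩]
      rw [kap_out (fun k4 => k3 (Or.inl (mem_singleton.1 k4)))
        (fun k4 => k3 (Or.inr (mem_singleton.1 k4))), zero_mul]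
  rw [t2, t3, kap_neg (sg_sub hz) (r z hz).neg y2 (h.no_loop (sg_sub hz)), kap_cut x1 x2 yW,
    kap_cut x3 y4 y3, mul_assoc, t4]
  have k2 := mul_ne_zero (kap_ne (p := p) y4 (lp x' x3))
    (q2 x' fun k4 => nc x' x3 (ins_mono sdiff_subset (o1 k4)))
  revert k2
  generalize G.kap p {y} x * ψ x = c1
  generalize G.kap p {y'} x' * ψ x' = c2
  revert c1 c2
  decide

end SG

end Pool.Agent.Work.MP_8c679b_co
end
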