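import Pool.Agent.Work.MP_8c679b_co.Six.AGad
import Pool.Agent.Work.MP_8c679b_co.Six.Z3
import Pool.Agent.Work.MP_8c679b_co.Six.GNorm
import Pool.Agent.Work.MP_8c679b_co.T2
import Pool.Agent.Work.MP_8c679b_co.Six.Cut
import Pool.Agent.Work.MP_8c679b_co.K1.GT1

-- merged part: Pool.Agent.Work.MP_8c679b_co.Six.PRun
section
-- merged part: Pool.Agent.Work.MP_8c679b_co.Six.Run
section
/-!
Runs: composing the passes of a sequence of disjoint regions along links.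
`run_open` is an induction on `n` with `Pa.comp` and `St.union`; `run_closed` applies `run_open`
to the regions `0, …, n-1` and closes with region `n` by `Pa.close`.
-/

set_option autoImplicit false
set_option linter.unusedSectionVars false

namespace Pool.Agent.Work.MP_8c679b_co

open Finset

theorem Run_mem_bu {α : Type} [DecidableEq α] {n : ℕ} {A : ℕ → Finset α} {x : α} :
    x ∈ bu n A ↔ ∃ i ≤ n, x ∈ A i := by
  simp [bu]

theorem Run_bu_zero {α : Type} [DecidableEq α] (A : ℕ → Finset α) : bu 0 A = A 0 := by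
  simp [bu]

theorem Run_bu_succ {α : Type} [DecidableEq α] (n : ℕ) (A : ℕ → Finset α) :
    bu (n + 1) A = bu n A ∪ A (n + 1) := by
  rw [bu, range_add_one, biUnion_insert, union_comm, bu]

theorem Run_bu_empty {α : Type} [DecidableEq α] (n : ℕ) :
    bu n (fun _ => (∅ : Finset α)) = ∅ := by
  ext x
  simp [Run_mem_bu]

theorem Run_bu_update {α : Type} [DecidableEq α] {n j : ℕ} {A : ℕ → Finset α} (hj : j ≤ n)
    (h : A j = ∅) (B : Finset α) : bu n (Function.update A j B) = bu n A ∪ B := by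
  ext x
  simp only [Run_mem_bu, mem_union]
  constructor
  · rintro ⟨i, hi, hx⟩
    by_cases hij : i = j
    · subst hij
      exact Or.inr (by simpa using hx)
    · exact Or.inl ⟨i, hi, by simpa [hij] using hx⟩
  · rintro (⟨i, hi, hx⟩ | hx)
    · have hij : i ≠ j := by
        rintro rfl
        simp [h] at hx
      exact ⟨i, hi, by simpa [hij] using hx⟩
    · exact ⟨j, hj, by simpa using hx⟩

theorem Run_ku_zero {α : Type} (A : ℕ → Set α) : ku 0 A = A 0 := by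
  ext x
  simp [ku]

theorem Run_ku_succ {α : Type} (n : ℕ) (A : ℕ → Set α) : ku (n + 1) A = ku n A ∪ A (n + 1) := by
  ext x
  simp only [ku, Set.mem_ofPred_eq, Set.mem_union]
  constructor
  · rintro ⟨i, hi, hx⟩
    rcases hi.eq_or_lt with rfl | h
    · exact Or.inr hx
    · exact Or.inl ⟨i, by omega, hx⟩
  · rintro (⟨i, hi, hx⟩ | hx)
    · exact ⟨i, by omega, hx⟩
    · exact ⟨_, le_rfl, hx⟩

theorem Run_ku_update {α : Type} {n j : ℕ} {A : ℕ → Set α} (hj : j ≤ n)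
    (h : A j = ∅) (B : Set α) : ku n (Function.update A j B) = ku n A ∪ B := by
  ext x
  simp only [ku, Set.mem_ofPred_eq, Set.mem_union]
  constructor
  · rintro ⟨i, hi, hx⟩
    by_cases hij : i = j
    · subst hij
      exact Or.inr (by simpa using hx)
    · exact Or.inl ⟨i, hi, by simpa [hij] using hx⟩
  · rintro (⟨i, hi, hx⟩ | hx)
    · have hij : i ≠ j := by
        rintro rfl
        simp [h] at hx
      exact ⟨i, hi, by simpa [hij] using hx⟩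
    · exact ⟨j, hj, by simpa using hx⟩

theorem Run_chain_update (τ : ℕ → ZMod 2) (Rs : ℕ → Rl) (n : ℕ) (R : Rl) :
    Rl.chain τ (Function.update Rs (n + 1) R) (n + 1) =
      fun x z => ∃ y, Rl.chain τ Rs n x y ∧ R (-(chi (τ (n + 1))) * y) z := by
  rw [Rl.chain, Function.update_self,
    Rl.chain_congr (Rs' := Rs) (τ' := τ) (fun i hi => Function.update_of_ne (by omega) _ _)
      fun _ _ => rfl]

namespace SG

variable {V E : Type} [Fintype V] [DecidableEq V] [DecidableEq E] {G : SG V E}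
  {Y : Finset V} {L : Finset E} {n : ℕ} {X : ℕ → Finset V} {O Fr Z : ℕ → Finset E}
  {K : ℕ → Set (Finset E)} {e : ℕ → E}

theorem Run_tch_bu {f : E} : f ∈ G.tch (bu n X) ↔ ∃ i ≤ n, f ∈ G.tch (X i) := by
  simp only [mem_tch, Run_mem_bu]
  constructor
  · rintro ⟨h, ⟨i, hi, hx⟩ | ⟨i, hi, hx⟩⟩
    · exact ⟨i, hi, h, Or.inl hx⟩
    · exact ⟨i, hi, h, Or.inr hx⟩
  · rintro ⟨i, hi, h, hx | hx⟩
    · exact ⟨h, Or.inl ⟨i, hi, hx⟩⟩
    · exact ⟨h, Or.inr ⟨i, hi, hx⟩⟩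

theorem Run_two {A B W : Finset V} {f : E} (hd : Disjoint A B) (hA : A ⊆ W) (hB : B ⊆ W)
    (h1 : f ∈ G.tch A) (h2 : f ∈ G.tch B) : f ∈ G.ins W ∧ f ∉ G.ins A := by
  rw [mem_tch] at h1 h2
  rw [mem_ins, mem_ins]
  have h := disjoint_left.1 hd
  rcases h1 with ⟨h0, h1 | h1⟩ <;> rcases h2 with ⟨-, h2 | h2⟩
  · exact absurd h2 (h h1)
  · exact ⟨⟨h0, hA h1, hB h2⟩, fun h3 => h h3.2.2 h2⟩
  · exact ⟨⟨h0, hB h2, hA h1⟩, fun h3 => h h3.2.1 h2⟩
  · exact absurd h2 (h h1)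

theorem Run_three {A B D : Finset V} {f : E} (h1 : Disjoint A B) (h2 : Disjoint A D)
    (h3 : Disjoint B D) (hA : f ∈ G.tch A) (hB : f ∈ G.tch B) : f ∉ G.tch D := by
  have h := (mem_ins.1 (Run_two h1 subset_union_left subset_union_right hA hB).1).2
  have h4 := disjoint_left.1 (disjoint_union_left.2 ⟨h2, h3⟩)
  intro hD
  rcases (mem_tch.1 hD).2 with hD | hD
  · exact h4 h.1 hD
  · exact h4 h.2 hD

theorem Run_J {A : Finset V} {P J : Finset E} (h : G.St A P J) {f : E} (hf : f ∈ J) :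
    f ∈ P ∧ f ∈ G.cut A := mem_inter.1 (h.2.2 ▸ hf)

theorem Run_disj (hd : ∀ i ≤ n + 1, ∀ j ≤ n + 1, i ≠ j → Disjoint (X i) (X j)) :
    Disjoint (bu n X) (X (n + 1)) := by
  refine disjoint_left.2 fun v hv => ?_
  obtain ⟨i, hi, hv⟩ := Run_mem_bu.1 hv
  exact disjoint_left.1 (hd i (by omega) _ le_rfl (by omega)) hv

theorem Run_sub {i : ℕ} (hi : i ≤ n) : X i ⊆ bu n X := fun _ hv => Run_mem_bu.2 ⟨i, hi, hv⟩

/-- the links touch only their two regions -/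
theorem Run_link (hd : ∀ i ≤ n, ∀ j ≤ n, i ≠ j → Disjoint (X i) (X j))
    (hS : ∀ i ≤ n, G.St (X i) (O i) (insert (e i) (insert (e (i + 1)) (Z i))))
    {i k : ℕ} (h1 : 1 ≤ i) (hi : i ≤ n) (hk : k ≤ n) (h : e i ∈ G.tch (X k)) :
    k = i ∨ k + 1 = i := by
  obtain ⟨i, rfl⟩ : ∃ i', i = i' + 1 := ⟨i - 1, by omega⟩
  by_contra hc
  exact Run_three (hd i (by omega) (i + 1) hi (by omega)) (hd i (by omega) k hk (by omega))
    (hd (i + 1) hi k hk (by omega)) (cut_sub_tch (Run_J (hS i (by omega)) (by simp)).2)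
    (cut_sub_tch (Run_J (hS (i + 1) hi) (by simp)).2) h

theorem Run_link_ins (hd : ∀ i ≤ n, ∀ j ≤ n, i ≠ j → Disjoint (X i) (X j))
    (hS : ∀ i ≤ n, G.St (X i) (O i) (insert (e i) (insert (e (i + 1)) (Z i))))
    {i : ℕ} (h1 : 1 ≤ i) (hi : i ≤ n) : e i ∈ G.ins (bu n X) := by
  obtain ⟨i, rfl⟩ : ∃ i', i = i' + 1 := ⟨i - 1, by omega⟩
  exact (Run_two (hd i (by omega) (i + 1) hi (by omega)) (Run_sub (by omega)) (Run_sub hi)
    (cut_sub_tch (Run_J (hS i (by omega)) (by simp)).2)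
    (cut_sub_tch (Run_J (hS (i + 1) hi) (by simp)).2)).1

theorem Run_free (hY : ∀ i ≤ n, X i ⊆ Y)
    (hd : ∀ i ≤ n, ∀ j ≤ n, i ≠ j → Disjoint (X i) (X j)) (hL : L ⊆ G.cut Y)
    (hF : ∀ i ≤ n, Fr i ⊆ G.fr (X i) (insert (e i) (insert (e (i + 1)) L))) :
    ∀ i ≤ n, ∀ k ≤ n, k ≠ i → ∀ f ∈ Fr i, f ∈ G.tch (X k) → f = e i ∨ f = e (i + 1) := by
  intro i hi k hk hki f hf h
  have h1 := hF i hi hf
  have h2 := Run_two (hd i hi k hk hki.symm) (hY i hi) (hY k hk) (fr_sub_tch h1) h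
  simp only [fr, mem_union, mem_inter, mem_insert] at h1
  rcases h1 with h1 | ⟨-, h1 | h1 | h1⟩
  · exact absurd h1 h2.2
  · exact Or.inl h1
  · exact Or.inr h1
  · exact absurd h2.1 (not_ins_of_cut (hL h1))

theorem Run_core {C : ℕ → (E → ZMod 3) → Rl → Prop}
    (hd : ∀ i ≤ n, ∀ j ≤ n, i ≠ j → Disjoint (X i) (X j))
    (hS : ∀ i ≤ n, G.St (X i) (O i) (insert (e i) (insert (e (i + 1)) (Z i))))
    (hne : ∀ i ≤ n, e i ≠ e (i + 1))
    (hZ : ∀ i ≤ n, ∀ z ∈ Z i, ∀ k ≤ n, k ≠ i → z ∉ G.tch (X k))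
    (hT : ∀ i ≤ n, ∀ k ≤ n, k ≠ i → ∀ f ∈ Fr i, f ∈ G.tch (X k) → f = e i ∨ f = e (i + 1))
    (hP : ∀ i ≤ n, G.Pa (X i) (O i) (Fr i) (K i) (e i) (e (i + 1)) (C i))
    (hE : ∀ i ≤ n + 1, ∀ k ≤ n, e i ∈ G.tch (X k) → k = i ∨ k + 1 = i) :
    G.St (bu n X) (bu n O) (insert (e 0) (insert (e (n + 1)) (bu n Z))) ∧
      (∀ i ≤ n, ∀ f ∈ G.tch (X i), f ∈ bu n O ↔ f ∈ O i) ∧
      G.par (bu n O ∩ G.ins (bu n X)) =
        ∑ i ∈ range (n + 1), G.par (O i ∩ G.ins (X i)) + ∑ i ∈ range n, G.n (e (i + 1)) ∧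
      G.Pa (bu n X) (bu n O) (bu n Fr) (ku n K) (e 0) (e (n + 1)) fun ψ R =>
        ∃ Rs : ℕ → Rl, (∀ i ≤ n, C i ψ (Rs i)) ∧ R = Rl.chain (fun i => G.n (e i)) Rs n := by
  induction n with
  | zero =>
    simp only [Run_bu_zero, Run_ku_zero]
    refine ⟨hS 0 le_rfl, fun i hi f _ => by rw [Nat.le_zero.1 hi], by simp,
      (hP 0 le_rfl).imp fun ψ R _ h => ⟨R, ⟨fun _ => R, fun i hi => ?_, rfl⟩, fun _ _ h => h⟩⟩
    rwa [Nat.le_zero.1 hi]
  | succ n ih =>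
    obtain ⟨s1, s2, s3, s4⟩ := ih (fun i hi j hj => hd i (by omega) j (by omega))
      (fun i hi => hS i (by omega)) (fun i hi => hne i (by omega))
      (fun i hi z hz k hk => hZ i (by omega) z hz k (by omega))
      (fun i hi k hk => hT i (by omega) k (by omega)) (fun i hi => hP i (by omega))
      (fun i hi k hk => hE i (by omega) k (by omega))
    have t1 := hS (n + 1) le_rfl
    have hD := Run_disj hd
    have m1 := Run_J s1 (f := e (n + 1)) (by simp)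
    have m2 := Run_J t1 (f := e (n + 1)) (by simp)
    have m0 := cut_sub_tch (Run_J (hS n (by omega)) (f := e (n + 1)) (by simp)).2
    have a2 : e 0 ∉ G.tch (X (n + 1)) := fun h => by have := hE 0 (by omega) _ le_rfl h; omega
    have b1 : e (n + 1 + 1) ∉ G.tch (bu n X) := fun h => by
      obtain ⟨k, hk, h⟩ := Run_tch_bu.1 h
      have := hE _ le_rfl k (by omega) h
      omega
    have j1 : ∀ f ∈ insert (e 0) (insert (e (n + 1)) (bu n Z)), f ∈ G.tch (X (n + 1)) →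
        f = e (n + 1) := by
      intro f hf h
      simp only [mem_insert, Run_mem_bu] at hf
      rcases hf with rfl | hf | ⟨i, hi, hf⟩
      · exact absurd h a2
      · exact hf
      · exact absurd h (hZ i (by omega) f hf _ le_rfl (by omega))
    have j2 : ∀ f ∈ insert (e (n + 1)) (insert (e (n + 1 + 1)) (Z (n + 1))),
        f ∈ G.tch (bu n X) → f = e (n + 1) := by
      intro f hf h
      simp only [mem_insert] at hf
      rcases hf with hf | rfl | hf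
      · exact hf
      · exact absurd h b1
      · obtain ⟨k, hk, h⟩ := Run_tch_bu.1 h
        exact absurd h (hZ _ le_rfl f hf k (by omega) (by omega))
    obtain ⟨u1, u2, u3, u4⟩ := St.union s1 t1 hD fun f h1 h2 =>
      ⟨fun h => by rw [j1 f h h2]; simp, fun h => by rw [j2 f h h1]; simp⟩
    have hI : insert (e 0) (insert (e (n + 1)) (bu n Z)) ∩
        insert (e (n + 1)) (insert (e (n + 1 + 1)) (Z (n + 1))) = {e (n + 1)} := by
      ext f
      rw [mem_inter, mem_singleton]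
      exact ⟨fun h => j1 f h.1 (cut_sub_tch (Run_J t1 h.2).2), fun h => by rw [h]; simp⟩
    rw [hI] at u1 u4
    simp only [Run_bu_succ, Run_ku_succ]
    refine ⟨?_, fun i hi f hf => ?_, ?_, ?_⟩
    · convert u1 using 1
      have z1 : e (n + 1) ∉ bu n Z := fun h => by
        obtain ⟨i, hi, h⟩ := Run_mem_bu.1 h
        exact hZ i (by omega) _ h _ le_rfl (by omega) (cut_sub_tch m2.2)
      have z2 : e (n + 1) ∉ Z (n + 1) := fun h => hZ _ le_rfl _ h n (by omega) (by omega) m0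
      have z3 : e (n + 1) ≠ e 0 := fun h => a2 (h ▸ cut_sub_tch m2.2)
      have z4 := hne (n + 1) le_rfl
      ext f
      simp only [mem_insert, mem_union, mem_sdiff, mem_singleton]
      by_cases hf : f = e (n + 1)
      · subst hf
        simp [z1, z2, z3, z4]
      · clear * - hf
        tauto
    · rcases hi.eq_or_lt with rfl | h
      · exact u3 f hf
      · rw [u2 f (tch_mono (Run_sub (by omega)) hf), s2 i (by omega) f hf]
    · rw [u4, s3, sum_range_succ _ (n + 1), sum_range_succ (fun i => G.n (e (i + 1))) n,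
        show G.par {e (n + 1)} = G.n (e (n + 1)) from sum_singleton _ _]
      ring
    · refine (Pa.comp (s4.congrO u2) ((hP _ le_rfl).congrO u3) hD m1.2 m2.2
        (mem_union_left _ m1.1) (fun f hf h => ?_) (fun f hf h => ?_)
        ⟨(Run_J s1 (by simp)).2, a2⟩ ⟨(Run_J t1 (by simp)).2, b1⟩).imp ?_
      · obtain ⟨i, hi, hf⟩ := Run_mem_bu.1 hf
        rcases hT i (by omega) _ le_rfl (by omega) f hf h with rfl | rfl
        · have := hE i (by omega) _ le_rfl h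
          omega
        · have := hE (i + 1) (by omega) _ le_rfl h
          congr 1
          omega
      · obtain ⟨k, hk, h'⟩ := Run_tch_bu.1 h
        rcases hT _ le_rfl k (by omega) (by omega) f hf h' with rfl | rfl
        · rfl
        · exact absurd h b1
      · rintro ψ R - ⟨R1, R2, ⟨Rs, h1, rfl⟩, h2, rfl⟩
        refine ⟨_, ⟨Function.update Rs (n + 1) R2, fun i hi => ?_, rfl⟩, ?_⟩
        · rcases hi.eq_or_lt with rfl | h
          · rwa [Function.update_self]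
          · rw [Function.update_of_ne h.ne]
            exact h1 i (by omega)
        · rw [Run_chain_update]
          exact fun _ _ h => h

/-- the general open run -/
theorem run_open {C : ℕ → (E → ZMod 3) → Rl → Prop} (hY : ∀ i ≤ n, X i ⊆ Y)
    (hd : ∀ i ≤ n, ∀ j ≤ n, i ≠ j → Disjoint (X i) (X j)) (hL : L ⊆ G.cut Y)
    (hS : ∀ i ≤ n, G.St (X i) (O i) (insert (e i) (insert (e (i + 1)) (Z i))))
    (hne : ∀ i ≤ n, e i ≠ e (i + 1))
    (hZ : ∀ i ≤ n, ∀ z ∈ Z i, ∀ k ≤ n, k ≠ i → z ∉ G.tch (X k))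
    (hF : ∀ i ≤ n, Fr i ⊆ G.fr (X i) (insert (e i) (insert (e (i + 1)) L)))
    (hP : ∀ i ≤ n, G.Pa (X i) (O i) (Fr i) (K i) (e i) (e (i + 1)) (C i))
    (h0 : e 0 ∈ G.cut Y) (h1 : e (n + 1) ∈ G.cut Y) :
    G.St (bu n X) (bu n O) (insert (e 0) (insert (e (n + 1)) (bu n Z))) ∧
      (∀ i ≤ n, ∀ f ∈ G.tch (X i), f ∈ bu n O ↔ f ∈ O i) ∧
      G.par (bu n O ∩ G.ins (bu n X)) =
        ∑ i ∈ range (n + 1), G.par (O i ∩ G.ins (X i)) + ∑ i ∈ range n, G.n (e (i + 1)) ∧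
      G.Pa (bu n X) (bu n O) (bu n Fr) (ku n K) (e 0) (e (n + 1)) fun ψ R =>
        ∃ Rs : ℕ → Rl, (∀ i ≤ n, C i ψ (Rs i)) ∧ R = Rl.chain (fun i => G.n (e i)) Rs n := by
  have key : ∀ f ∈ G.cut Y, ∀ i ≤ n, ∀ k ≤ n, f ∈ G.tch (X i) → f ∈ G.tch (X k) → k = i := by
    intro f hf i hi k hk h1 h2
    by_contra hc
    exact not_ins_of_cut hf (Run_two (hd k hk i hi hc) (hY k hk) (hY i hi) h2 h1).1
  refine Run_core hd hS hne hZ (Run_free hY hd hL hF) hP fun i hi k hk h => ?_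
  rcases Nat.eq_zero_or_pos i with rfl | hi0
  · exact Or.inl (key _ h0 0 (by omega) k hk
      (cut_sub_tch (Run_J (hS 0 (by omega)) (by simp)).2) h)
  · rcases hi.eq_or_lt with rfl | hi1
    · rw [key _ h1 n le_rfl k hk (cut_sub_tch (Run_J (hS n le_rfl) (by simp)).2) h]
      exact Or.inr rfl
    · exact Run_link hd hS hi0 (by omega) hk h

/-- the general closed run -/
theorem run_closed {C : ℕ → (E → ZMod 3) → Rl → Prop} (hY : ∀ i ≤ n, X i ⊆ Y)
    (hd : ∀ i ≤ n, ∀ j ≤ n, i ≠ j → Disjoint (X i) (X j)) (hL : L ⊆ G.cut Y)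
    (hS : ∀ i ≤ n, G.St (X i) (O i) (insert (e i) (insert (e (i + 1)) (Z i))))
    (hne : ∀ i ≤ n, e i ≠ e (i + 1))
    (hZ : ∀ i ≤ n, ∀ z ∈ Z i, ∀ k ≤ n, k ≠ i → z ∉ G.tch (X k))
    (hF : ∀ i ≤ n, Fr i ⊆ G.fr (X i) (insert (e i) (insert (e (i + 1)) L)))
    (hP : ∀ i ≤ n, G.Pa (X i) (O i) (Fr i) (K i) (e i) (e (i + 1)) (C i))
    (hn : 1 ≤ n) (h0 : e (n + 1) = e 0) :
    G.St (bu n X) (bu n O) (bu n Z) ∧
      (∀ i ≤ n, ∀ f ∈ G.tch (X i), f ∈ bu n O ↔ f ∈ O i) ∧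
      G.par (bu n O ∩ G.ins (bu n X)) =
        ∑ i ∈ range (n + 1), G.par (O i ∩ G.ins (X i)) + ∑ i ∈ range (n + 1), G.n (e i) ∧
      G.Ab (bu n X) (bu n O) (bu n Fr) (ku n K) fun ψ =>
        ∀ Rs : ℕ → Rl, (∀ i ≤ n, C i ψ (Rs i)) → Rl.Cl (fun i => G.n (e i)) Rs n := by
  obtain ⟨n, rfl⟩ : ∃ m, n = m + 1 := ⟨n - 1, by omega⟩
  have hT := Run_free hY hd hL hF
  have t1 := hS (n + 1) le_rfl
  have t2 := hP (n + 1) le_rfl
  have z4 := hne (n + 1) le_rfl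
  rw [h0] at t1 t2 z4
  have a0 := cut_sub_tch (Run_J (hS 0 (by omega)) (f := e 0) (by simp)).2
  have a2 := Run_J t1 (f := e 0) (by simp)
  have m2 := Run_J t1 (f := e (n + 1)) (by simp)
  have m0 := cut_sub_tch (Run_J (hS n (by omega)) (f := e (n + 1)) (by simp)).2
  obtain ⟨s1, s2, s3, s4⟩ := Run_core (n := n) (C := C)
    (fun i hi j hj => hd i (by omega) j (by omega))
    (fun i hi => hS i (by omega)) (fun i hi => hne i (by omega))
    (fun i hi z hz k hk => hZ i (by omega) z hz k (by omega))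
    (fun i hi k hk => hT i (by omega) k (by omega)) (fun i hi => hP i (by omega))
    (fun i hi k hk h => by
      rcases Nat.eq_zero_or_pos i with rfl | hi0
      · by_contra hc
        exact Run_three (hd 0 (by omega) (n + 1) le_rfl (by omega))
          (hd 0 (by omega) k (by omega) (by omega)) (hd (n + 1) le_rfl k (by omega) (by omega))
          a0 (cut_sub_tch a2.2) h
      · exact Run_link hd hS hi0 hi (by omega) h)
  have hD := Run_disj hd
  have a1 := Run_J s1 (f := e 0) (by simp)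
  have m1 := Run_J s1 (f := e (n + 1)) (by simp)
  have j1 : ∀ f ∈ bu n Z, f ∉ G.tch (X (n + 1)) := by
    intro f hf
    obtain ⟨i, hi, hf⟩ := Run_mem_bu.1 hf
    exact hZ i (by omega) f hf _ le_rfl (by omega)
  have j2 : ∀ f ∈ Z (n + 1), f ∉ G.tch (bu n X) := by
    intro f hf h
    obtain ⟨k, hk, h⟩ := Run_tch_bu.1 h
    exact hZ _ le_rfl f hf k (by omega) (by omega) h
  obtain ⟨u1, u2, u3, u4⟩ := St.union s1 t1 hD fun f h1 h2 => by
    have g1 := j1 f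
    have g2 := j2 f
    simp only [mem_insert]
    clear * - g1 g2 h1 h2
    tauto
  have hI : insert (e 0) (insert (e (n + 1)) (bu n Z)) ∩
      insert (e (n + 1)) (insert (e 0) (Z (n + 1))) = {e (n + 1), e 0} := by
    ext f
    rw [mem_inter]
    constructor
    · intro h
      have h1 := j1 f
      have h2 := cut_sub_tch (Run_J t1 h.2).2
      have h3 := h.1
      simp only [mem_insert, mem_singleton] at h3 ⊢
      clear * - h1 h2 h3
      tauto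
    · simp only [mem_insert, mem_singleton]
      clear * -
      tauto
  rw [hI] at u1 u4
  simp only [Run_bu_succ, Run_ku_succ]
  refine ⟨?_, fun i hi f hf => ?_, ?_, ?_⟩
  · convert u1 using 1
    have z1 : e (n + 1) ∉ bu n Z := fun h => j1 _ h (cut_sub_tch m2.2)
    have z2 : e (n + 1) ∉ Z (n + 1) := fun h => j2 _ h (cut_sub_tch m1.2)
    have z3 : e 0 ∉ bu n Z := fun h => j1 _ h (cut_sub_tch a2.2)
    have z5 : e 0 ∉ Z (n + 1) := fun h => j2 _ h (cut_sub_tch a1.2)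
    ext f
    simp only [mem_insert, mem_union, mem_sdiff, mem_singleton]
    by_cases hf : f = e (n + 1)
    · subst hf
      simp [z1, z2]
    · by_cases hf' : f = e 0
      · subst hf'
        simp [z3, z5]
      · clear * - hf hf'
        tauto
  · rcases hi.eq_or_lt with rfl | h
    · exact u3 f hf
    · rw [u2 f (tch_mono (Run_sub (by omega)) hf), s2 i (by omega) f hf]
  · rw [u4, s3, sum_range_succ _ (n + 1), sum_range_succ (fun i => G.n (e i)) (n + 1),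
      sum_range_succ' (fun i => G.n (e i)) n,
      show G.par {e (n + 1), e 0} = G.n (e (n + 1)) + G.n (e 0) from sum_pair z4]
    ring
  · refine (Pa.close (s4.congrO u2) (t2.congrO u3) hD m1.2 m2.2
      (mem_union_left _ m1.1) a1.2 a2.2 (mem_union_left _ a1.1) (fun f hf h => ?_)
      (fun f hf h => ?_)).imp ?_
    · obtain ⟨i, hi, hf⟩ := Run_mem_bu.1 hf
      rcases hT i (by omega) _ le_rfl (by omega) f hf h with rfl | rfl
      · rcases Nat.eq_zero_or_pos i with rfl | hi0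
        · exact Or.inr rfl
        · have := Run_link hd hS hi0 (by omega) le_rfl h
          omega
      · have := Run_link hd hS (i := i + 1) (by omega) (by omega) le_rfl h
        left
        congr 1
        omega
    · obtain ⟨k, hk, h'⟩ := Run_tch_bu.1 h
      rw [← h0]
      exact hT _ le_rfl k (by omega) (by omega) f hf h'
    · rintro ψ - hI R1 R2 ⟨Rs, h1, rfl⟩ h2
      obtain ⟨x, z, h3, h4⟩ := hI (Function.update Rs (n + 1) R2) fun i hi => by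
        rcases hi.eq_or_lt with rfl | h
        · rwa [Function.update_self]
        · rw [Function.update_of_ne h.ne]
          exact h1 i (by omega)
      rw [Run_chain_update] at h3
      obtain ⟨y, h5, h6⟩ := h3
      exact ⟨x, y, z, h5, h6, h4⟩

theorem Run_fr (hd : ∀ i ≤ n, ∀ j ≤ n, i ≠ j → Disjoint (X i) (X j))
    (hS : ∀ i ≤ n, G.St (X i) (O i) (insert (e i) (insert (e (i + 1)) (Z i))))
    (hF : ∀ i ≤ n, Fr i ⊆ G.fr (X i) (insert (e i) (insert (e (i + 1)) L))) {L' : Finset E}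
    (hL : L ⊆ L') (h0 : e 0 ∈ G.cut (bu n X) → e 0 ∈ L')
    (h1 : e (n + 1) ∈ G.cut (bu n X) → e (n + 1) ∈ L') : bu n Fr ⊆ G.fr (bu n X) L' := by
  intro f hf
  obtain ⟨i, hi, hf⟩ := Run_mem_bu.1 hf
  have h2 := hF i hi hf
  rcases mem_tch_iff.1 (tch_mono (Run_sub hi) (fr_sub_tch h2)) with h3 | h3
  · exact mem_union_left _ h3
  · refine mem_union_right _ (mem_inter.2 ⟨h3, ?_⟩)
    have key : ∀ j ≤ n + 1, e j ∈ G.cut (bu n X) → e j ∈ L' := by
      intro j hj h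
      rcases Nat.eq_zero_or_pos j with rfl | hj0
      · exact h0 h
      · rcases hj.eq_or_lt with rfl | hj1
        · exact h1 h
        · exact absurd (Run_link_ins hd hS hj0 (by omega)) (not_ins_of_cut h)
    simp only [fr, mem_union, mem_inter, mem_insert] at h2
    rcases h2 with h2 | ⟨-, rfl | rfl | h2⟩
    · rw [mem_ins] at h2
      exact absurd (mem_ins.2 ⟨h2.1, Run_sub hi h2.2.1, Run_sub hi h2.2.2⟩) (not_ins_of_cut h3)
    · exact key _ (by omega) h3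
    · exact key _ (by omega) h3
    · exact hL h2

theorem Run_openG {C : ℕ → Rl → Prop} {C0 : Rl → Prop} (hY : ∀ i ≤ n, X i ⊆ Y)
    (hd : ∀ i ≤ n, ∀ j ≤ n, i ≠ j → Disjoint (X i) (X j)) (hL : L ⊆ G.cut Y)
    (hS : ∀ i ≤ n, G.St (X i) (O i) (insert (e i) (insert (e (i + 1)) (Z i))))
    (hne : ∀ i ≤ n, e i ≠ e (i + 1))
    (hZ : ∀ i ≤ n, ∀ z ∈ Z i, ∀ k ≤ n, k ≠ i → z ∉ G.tch (X k))
    (hF : ∀ i ≤ n, Fr i ⊆ G.fr (X i) (insert (e i) (insert (e (i + 1)) L)))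
    (hP : ∀ i ≤ n, G.Pa (X i) (O i) (Fr i) (K i) (e i) (e (i + 1)) fun _ => C i)
    (h0 : e 0 ∈ G.cut Y) (h1 : e (n + 1) ∈ G.cut Y)
    (hC : ∀ Rs : ℕ → Rl, (∀ i ≤ n, C i (Rs i)) → C0 (Rl.chain (fun i => G.n (e i)) Rs n)) :
    G.PasG (bu n X) (bu n O) (insert (e 0) (insert (e (n + 1)) (bu n Z)))
        (insert (e 0) (insert (e (n + 1)) L)) (ku n K) (e 0) (e (n + 1)) C0 ∧
      G.par (bu n O ∩ G.ins (bu n X)) =
        ∑ i ∈ range (n + 1), G.par (O i ∩ G.ins (X i)) + ∑ i ∈ range n, G.n (e (i + 1)) := by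
  obtain ⟨s1, -, s3, s4⟩ := run_open hY hd hL hS hne hZ hF hP h0 h1
  refine ⟨⟨s1, Pa.mono (s4.imp ?_) (Run_fr hd hS hF (fun f hf => by simp [hf])
    (fun _ => by simp) fun _ => by simp) fr_sub_tch⟩, s3⟩
  rintro ψ R - ⟨Rs, h, rfl⟩
  exact ⟨_, hC Rs h, fun _ _ h => h⟩

theorem Run_closedG {C : ℕ → Rl → Prop} (hY : ∀ i ≤ n, X i ⊆ Y)
    (hd : ∀ i ≤ n, ∀ j ≤ n, i ≠ j → Disjoint (X i) (X j)) (hL : L ⊆ G.cut Y)
    (hS : ∀ i ≤ n, G.St (X i) (O i) (insert (e i) (insert (e (i + 1)) (Z i))))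
    (hne : ∀ i ≤ n, e i ≠ e (i + 1))
    (hZ : ∀ i ≤ n, ∀ z ∈ Z i, ∀ k ≤ n, k ≠ i → z ∉ G.tch (X k))
    (hF : ∀ i ≤ n, Fr i ⊆ G.fr (X i) (insert (e i) (insert (e (i + 1)) L)))
    (hP : ∀ i ≤ n, G.Pa (X i) (O i) (Fr i) (K i) (e i) (e (i + 1)) fun _ => C i)
    (hn : 1 ≤ n) (h0 : e (n + 1) = e 0)
    (hC : ∀ Rs : ℕ → Rl, (∀ i ≤ n, C i (Rs i)) → Rl.Cl (fun i => G.n (e i)) Rs n) :
    G.St (bu n X) (bu n O) (bu n Z) ∧
      (G.Ab (bu n X) (bu n O) (G.fr (bu n X) L) (ku n K) fun _ => True) ∧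
      G.par (bu n O ∩ G.ins (bu n X)) =
        ∑ i ∈ range (n + 1), G.par (O i ∩ G.ins (X i)) + ∑ i ∈ range (n + 1), G.n (e i) := by
  obtain ⟨s1, -, s3, s4⟩ := run_closed hY hd hL hS hne hZ hF hP hn h0
  have h2 : e 0 ∉ G.cut (bu n X) := fun h => not_ins_of_cut h
    (Run_two (hd 0 (by omega) n le_rfl (by omega)) (Run_sub (by omega)) (Run_sub le_rfl)
      (cut_sub_tch (Run_J (hS 0 (by omega)) (by simp)).2)
      (cut_sub_tch (Run_J (hS n le_rfl) (by simp [← h0])).2)).1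
  exact ⟨s1, Ab.mono (s4.imp fun _ _ _ => hC) (Run_fr hd hS hF subset_rfl (fun h => absurd h h2)
    fun h => absurd (h0 ▸ h) h2) fr_sub_tch, s3⟩

/-- the open run of standard passes -/
theorem run_pas {C : ℕ → Rl → Prop} {C0 : Rl → Prop} (hY : ∀ i ≤ n, X i ⊆ Y)
    (hd : ∀ i ≤ n, ∀ j ≤ n, i ≠ j → Disjoint (X i) (X j)) (hL : L ⊆ G.cut Y)
    (hP : ∀ i ≤ n, G.Pas0 (X i) (O i) (e i) (e (i + 1)) L (K i) (C i))
    (h0 : e 0 ∈ G.cut Y) (h1 : e (n + 1) ∈ G.cut Y) (h01 : e 0 ≠ e (n + 1))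
    (hC : ∀ Rs : ℕ → Rl, (∀ i ≤ n, C i (Rs i)) → C0 (Rl.chain (fun i => G.n (e i)) Rs n)) :
    G.Pas0 (bu n X) (bu n O) (e 0) (e (n + 1)) L (ku n K) C0 ∧
      G.par (bu n O ∩ G.ins (bu n X)) =
        ∑ i ∈ range (n + 1), G.par (O i ∩ G.ins (X i)) + ∑ i ∈ range n, G.n (e (i + 1)) := by
  obtain ⟨s1, s2⟩ := Run_openG (Z := fun _ => ∅) hY hd hL (fun i hi => (hP i hi).2.1)
    (fun i hi => (hP i hi).1) (by simp) (fun i _ => subset_rfl) (fun i hi => (hP i hi).2.2) h0 h1 hC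
  rw [Run_bu_empty] at s1
  exact ⟨⟨h01, s1⟩, s2⟩

/-- the closed run of standard passes -/
theorem run_abs {C : ℕ → Rl → Prop} (hY : ∀ i ≤ n, X i ⊆ Y)
    (hd : ∀ i ≤ n, ∀ j ≤ n, i ≠ j → Disjoint (X i) (X j)) (hL : L ⊆ G.cut Y)
    (hP : ∀ i ≤ n, G.Pas0 (X i) (O i) (e i) (e (i + 1)) L (K i) (C i))
    (hn : 1 ≤ n) (h0 : e (n + 1) = e 0)
    (hC : ∀ Rs : ℕ → Rl, (∀ i ≤ n, C i (Rs i)) → Rl.Cl (fun i => G.n (e i)) Rs n) :
    G.Abs0 (bu n X) (bu n O) L (ku n K) ∧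
      G.par (bu n O) =
        ∑ i ∈ range (n + 1), G.par (O i ∩ G.ins (X i)) + ∑ i ∈ range (n + 1), G.n (e i) := by
  obtain ⟨s1, s2, s3⟩ := Run_closedG (Z := fun _ => ∅) hY hd hL (fun i hi => (hP i hi).2.1)
    (fun i hi => (hP i hi).1) (by simp) (fun i _ => subset_rfl) (fun i hi => (hP i hi).2.2) hn h0 hC
  rw [Run_bu_empty] at s1
  rw [inter_eq_left.2 s1.sub_ins] at s3
  exact ⟨⟨s1, s2⟩, s3⟩

/-- closing two passes with the same two links -/
theorem close_two {X1 X2 : Finset V} {O1 O2 : Finset E} {K1 K2 : Set (Finset E)} {a b : E}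
    {C1 C2 : Rl → Prop} (h1 : G.Pas0 X1 O1 a b L K1 C1) (h2 : G.Pas0 X2 O2 b a L K2 C2)
    (hd : Disjoint X1 X2) (hL : L ⊆ G.cut Y) (hY1 : X1 ⊆ Y) (hY2 : X2 ⊆ Y)
    (hC : ∀ R1 R2, C1 R1 → C2 R2 →
      ∃ x y z, R1 x y ∧ R2 (-(chi (G.n b)) * y) z ∧ x = -(chi (G.n a)) * z) :
    G.Abs0 (X1 ∪ X2) (O1 ∪ O2) L (K1 ∪ K2) ∧
      G.par (O1 ∪ O2) = G.par (O1 ∩ G.ins X1) + G.par (O2 ∩ G.ins X2) + (G.n a + G.n b) := by
  have h := run_abs (G := G) (Y := Y) (L := L) (n := 1) (X := fun i => if i = 0 then X1 else X2)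
    (O := fun i => if i = 0 then O1 else O2) (K := fun i => if i = 0 then K1 else K2)
    (e := fun i => if i = 1 then b else a) (C := fun i => if i = 0 then C1 else C2)
    (fun i _ => by split_ifs <;> assumption)
    (fun i hi j hj hij => by
      interval_cases i <;> interval_cases j
      · exact absurd rfl hij
      · exact hd
      · exact hd.symm
      · exact absurd rfl hij) hL
    (fun i hi => by
      interval_cases i
      · exact h1
      · exact h2) le_rfl rfl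
    (fun Rs h => by
      obtain ⟨x, y, z, g1, g2, g3⟩ := hC _ _ (h 0 (by omega)) (h 1 le_rfl)
      exact ⟨x, z, ⟨y, g1, g2⟩, g3⟩)
  simpa [Run_bu_succ, Run_bu_zero, Run_ku_succ, Run_ku_zero, sum_range_succ] using h

/-- the data of a run with a filled hole -/
theorem Run_hole {C : ℕ → Rl → Prop} {j : ℕ} {w : Finset V}
    (hw : w ⊆ Y) (hO : O j = ∅) (hj : j ≤ n) (hY : ∀ i ≤ n, X i ⊆ Y)
    (hd : ∀ i ≤ n, ∀ k ≤ n, i ≠ k → Disjoint (X i) (X k)) (hdw : ∀ i ≤ n, Disjoint (X i) w)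
    (hne : e j ≠ e (j + 1))
    (hP : ∀ i ≤ n, i ≠ j → G.Pas0 (X i) (O i) (e i) (e (i + 1)) L (K i) (C i))
    {Xw : Finset V} {Ow Zw : Finset E} {Kw : Set (Finset E)} (h1 : Xw ⊆ w)
    (h2 : ∀ f ∈ Zw, f ∉ G.tch (bu n X))
    (h3 : G.PasG Xw Ow (insert (e j) (insert (e (j + 1)) Zw)) {e j, e (j + 1)} Kw (e j) (e (j + 1))
      Rl.PX) :
    (∀ i ≤ n, Function.update X j Xw i ⊆ Y) ∧
    (∀ i ≤ n, ∀ k ≤ n, i ≠ k → Disjoint (Function.update X j Xw i) (Function.update X j Xw k)) ∧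
    (∀ i ≤ n, G.St (Function.update X j Xw i) (Function.update O j Ow i)
      (insert (e i) (insert (e (i + 1)) (Function.update (fun _ => (∅ : Finset E)) j Zw i)))) ∧
    (∀ i ≤ n, e i ≠ e (i + 1)) ∧
    (∀ i ≤ n, ∀ z ∈ Function.update (fun _ => (∅ : Finset E)) j Zw i, ∀ k ≤ n, k ≠ i →
      z ∉ G.tch (Function.update X j Xw k)) ∧
    (∀ i ≤ n, G.Pa (Function.update X j Xw i) (Function.update O j Ow i)
      (G.fr (Function.update X j Xw i) (insert (e i) (insert (e (i + 1)) L)))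
      (Function.update K j Kw i) (e i) (e (i + 1)) fun _ => Function.update C j Rl.PX i) ∧
    ∑ i ∈ range (n + 1), G.par (Function.update O j Ow i ∩ G.ins (Function.update X j Xw i)) =
      ∑ i ∈ range (n + 1), G.par (O i ∩ G.ins (X i)) + G.par (Ow ∩ G.ins Xw) := by
  refine ⟨fun i hi => ?_, fun i hi k hk hik => ?_, fun i hi => ?_, fun i hi => ?_,
    fun i hi z hz k hk hki => ?_, fun i hi => ?_, ?_⟩
  · by_cases h : i = j
    · rw [h, Function.update_self]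
      exact h1.trans hw
    · rw [Function.update_of_ne h]
      exact hY i hi
  · by_cases h : i = j
    · subst h
      rw [Function.update_self, Function.update_of_ne hik.symm]
      exact ((hdw k hk).mono_right h1).symm
    · rw [Function.update_of_ne h]
      by_cases h' : k = j
      · rw [h', Function.update_self]
        exact (hdw i hi).mono_right h1
      · rw [Function.update_of_ne h']
        exact hd i hi k hk hik
  · by_cases h : i = j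
    · subst h
      simp only [Function.update_self]
      exact h3.1
    · simp only [Function.update_of_ne h]
      exact (hP i hi h).2.1
  · by_cases h : i = j
    · rwa [h]
    · exact (hP i hi h).1
  · by_cases h : i = j
    · subst h
      rw [Function.update_self] at hz
      rw [Function.update_of_ne hki]
      exact fun h => h2 z hz (tch_mono (Run_sub hk) h)
    · simp [Function.update_of_ne h] at hz
  · by_cases h : i = j
    · subst h
      simp only [Function.update_self]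
      refine (h3.monoL fun f _ hf => ?_).2
      simp only [mem_insert, mem_singleton] at hf ⊢
      clear * - hf
      tauto
    · simp only [Function.update_of_ne h]
      exact (hP i hi h).2.2
  · have hj' : j ∈ range (n + 1) := mem_range.2 (by omega)
    rw [← add_sum_erase _ _ hj', ← add_sum_erase _ _ hj', hO, empty_inter,
      sum_congr rfl fun i hi => by
        rw [Function.update_of_ne (ne_of_mem_erase hi), Function.update_of_ne (ne_of_mem_erase hi)]]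
    simp only [Function.update_self, par, sum_empty]
    ring

/-- An open run with a hole at index `j` (the data at index `j` are empty).
HINT: `run_open` with the data updated at `j`, then `Pa.imp`, `Pa.mono`. -/
theorem hole_open {C : ℕ → Rl → Prop} {C0 : Rl → Prop} {j : ℕ} {w : Finset V} (hj : j ≤ n)
    (hw : w ⊆ Y) (hX : X j = ∅ ∧ O j = ∅ ∧ K j = ∅) (hY : ∀ i ≤ n, X i ⊆ Y)
    (hd : ∀ i ≤ n, ∀ k ≤ n, i ≠ k → Disjoint (X i) (X k)) (hdw : ∀ i ≤ n, Disjoint (X i) w)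
    (hL : L ⊆ G.cut Y) (hne : e j ≠ e (j + 1))
    (hP : ∀ i ≤ n, i ≠ j → G.Pas0 (X i) (O i) (e i) (e (i + 1)) L (K i) (C i))
    (h0 : e 0 ∈ G.cut Y) (h1 : e (n + 1) ∈ G.cut Y)
    (hC : ∀ Rs : ℕ → Rl, (∀ i ≤ n, i ≠ j → C i (Rs i)) → (Rs j).PX →
      C0 (Rl.chain (fun i => G.n (e i)) Rs n)) :
    ∃ δ, G.Hole w (bu n X) (bu n O) {e 0, e (n + 1)} (insert (e 0) (insert (e (n + 1)) L))
      (ku n K) (e j) (e (j + 1)) (e 0) (e (n + 1)) C0 δ := by
  refine ⟨∑ i ∈ range (n + 1), G.par (O i ∩ G.ins (X i)) + ∑ i ∈ range n, G.n (e (i + 1)),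
    fun Xw Ow Zw Kw g1 g2 g3 => ?_⟩
  obtain ⟨r1, r2, r3, r4, r5, r6, r7⟩ := Run_hole hw hX.2.1 hj hY hd hdw hne hP g1 g2 g3
  obtain ⟨s1, s2⟩ := Run_openG (C0 := C0) r1 r2 hL r3 r4 r5 (fun _ _ => subset_rfl) r6 h0 h1
    fun Rs h => hC Rs (fun i hi hij => by simpa [hij] using h i hi) (by simpa using h j hj)
  rw [Run_bu_update hj hX.1, Run_bu_update hj hX.2.1] at s1 s2
  rw [Run_bu_update hj rfl, Run_bu_empty, empty_union, Run_ku_update hj hX.2.2] at s1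
  refine ⟨?_, by rw [s2, r7]; ring⟩
  convert s1 using 1
  simp

/-- a closed run with a hole at index `j` -/
theorem hole_closed {C : ℕ → Rl → Prop} {j : ℕ} {w : Finset V} (hj : j ≤ n)
    (hw : w ⊆ Y) (hX : X j = ∅ ∧ O j = ∅ ∧ K j = ∅) (hY : ∀ i ≤ n, X i ⊆ Y)
    (hd : ∀ i ≤ n, ∀ k ≤ n, i ≠ k → Disjoint (X i) (X k)) (hdw : ∀ i ≤ n, Disjoint (X i) w)
    (hL : L ⊆ G.cut Y) (hne : e j ≠ e (j + 1))
    (hP : ∀ i ≤ n, i ≠ j → G.Pas0 (X i) (O i) (e i) (e (i + 1)) L (K i) (C i))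
    (hn : 1 ≤ n) (h0 : e (n + 1) = e 0)
    (hC : ∀ Rs : ℕ → Rl, (∀ i ≤ n, i ≠ j → C i (Rs i)) → (Rs j).PX →
      Rl.Cl (fun i => G.n (e i)) Rs n) :
    ∃ δ, G.Hole w (bu n X) (bu n O) ∅ L (ku n K) (e j) (e (j + 1)) (e j) (e j) Rl.Nv δ := by
  refine ⟨∑ i ∈ range (n + 1), G.par (O i ∩ G.ins (X i)) + ∑ i ∈ range (n + 1), G.n (e i),
    fun Xw Ow Zw Kw g1 g2 g3 => ?_⟩
  obtain ⟨r1, r2, r3, r4, r5, r6, r7⟩ := Run_hole hw hX.2.1 hj hY hd hdw hne hP g1 g2 g3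
  obtain ⟨s1, s2, s3⟩ := Run_closedG r1 r2 hL r3 r4 r5 (fun _ _ => subset_rfl) r6 hn h0
    fun Rs h => hC Rs (fun i hi hij => by simpa [hij] using h i hi) (by simpa using h j hj)
  rw [Run_bu_update hj hX.1, Run_bu_update hj hX.2.1] at s1 s2 s3
  rw [Run_bu_update hj rfl, Run_bu_empty] at s1
  rw [Run_ku_update hj hX.2.2] at s2
  exact ⟨⟨s1, ab_iff_pa.1 s2⟩, by rw [s3, r7]; ring⟩

end SG

end Pool.Agent.Work.MP_8c679b_co
end

-- merged part: Pool.Agent.Work.MP_8c679b_co.Six.KTrk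
section
/-!
Runs along a path or a circuit of the quotient, with bookkeeping.  One node `j` may be passed by
a special pass (take `j = n + 1` if there is none).
-/

set_option autoImplicit false

namespace Pool.Agent.Work.MP_8c679b_co

open Finset

namespace SG

variable {V E : Type} [Fintype V] [DecidableEq V] [DecidableEq E] {G : SG V E}
  {T S W X : Finset V} {a b c d : E} {Bs Ds : Finset (Finset V)}
  {L : Finset E} {n : ℕ} {w : ℕ → Finset V} {g : ℕ → E}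

theorem KTrk_bu {Y : ℕ → Finset V} (h : ∀ i ≤ n, Y i ⊆ W) : bu n Y ⊆ W := by
  intro x hx
  obtain ⟨i, hi, hx⟩ := Run_mem_bu.1 hx
  exact h i hi hx

theorem KTrk_np {K : Set (Finset E)} (h : G.NP W Bs Ds S a b X K) (hS : S ∉ Bs) : S ⊆ X := by
  rcases h with h | h | h
  · exact h.2.2.ge
  · exact h.2.1.ge
  · exact (hS h.1).elim

/-- Absorbing a circuit of nodes.
HINT: `trk_of_cyc`, `quo_cyc_node`, `trk_pass` with `J = ∅`, `run_abs`, `bs_run` (all indices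
passed), `finc`.  A node that is not a box is absorbed completely (`NP`; use `Bx.pd`, `nd_cases`,
boxes have at least four vertices); a box contributes a terminal (`Pas0.cut`). -/
theorem trk_abs (hc : G.Cub) (hT : G.HT T) (hW : W ⊆ T) (hB : G.Bx G.AU W ∅ Bs)
    (hD : G.VD W ∅ Ds) (hP : ∀ B ∈ Bs, G.PS B) (hL : ∀ ρ ∈ Ds, ∀ e ∈ G.cut ρ, e ∈ G.cut W → e ∈ L)
    (hLW : L ⊆ G.cut W) (hp : (G.quo W (Bs ∪ Ds)).Cyc (G.quo W (Bs ∪ Ds)).A n w g)
    (σ : ℕ → ZMod 2)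
    (hC : ∀ Rs : ℕ → Rl, (∀ i ≤ n, G.Ncl L Bs Ds (w i) (σ i) (Rs i)) →
      Rl.Cl (fun i => G.n (es (g n) (g n) n g i)) Rs n) :
    ∃ X O K Ds', G.Abs0 X O L K ∧ X ⊆ bu n w ∧ X ⊆ W ∧ X.Nonempty ∧
      (∀ i ≤ n, w i ∉ Bs → w i ⊆ X) ∧ G.Fo G.AU W ∅ Bs Ds X K Ds' := by
  obtain ⟨hpd, hbd⟩ := hB.pd hD
  have hBW : ∀ B ∈ Bs, B ⊆ W := fun B h => (hB.1 B h).2.1
  have hDW : ∀ ρ ∈ Ds, ρ ⊆ W := fun ρ h => (hD.2 ρ h).1
  have hY : ∀ N ∈ Bs ∪ Ds, N ⊆ W := fun N hN => (mem_union.1 hN).elim (hBW N) (hDW N)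
  obtain ⟨ht, he0, -⟩ := trk_of_cyc hpd hY hp
  have he : ∀ i ≤ n + 1, es (g n) (g n) n g i ∈ G.ins W ∪ ∅ := by
    intro i _
    refine mem_union_left _ ?_
    have h1 : g n ∈ G.ins W := (mem_quo.1 hp.cm).1
    unfold es
    split_ifs with h2 h3
    · exact h1
    · exact (mem_quo.1 (hp.pth.mem (i - 1) (by omega))).1
    · exact h1
  obtain ⟨X, O, K, hX⟩ := trk_pass hc hT hW subset_rfl hB hD hP hL (disjoint_empty_right _) hLW ht
    (quo_cyc_node hp) he σ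
  have hXW : ∀ i ≤ n, X i ⊆ W := fun i hi => (hX i hi).1.trans (ht.1 i hi)
  have hd : ∀ i ≤ n, ∀ j ≤ n, i ≠ j → Disjoint (X i) (X j) := fun i hi j hj hij =>
    (ht.2.1 i hi j hj hij).mono (hX i hi).1 (hX j hj).1
  have hA := (run_abs hXW hd hLW (fun i hi => (hX i hi).2.2) hp.pos he0 hC).1
  have hbW : bu n X ⊆ W := KTrk_bu hXW
  have hS := bs_run (G := G) hpd hbd hDW (fun _ => True) ht.2.1
    (fun i hi _ => ⟨(hX i hi).1, (hX i hi).2.1⟩) (fun _ _ h => (h trivial).elim) hBW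
  rw [inter_eq_left.2 hbW] at hS
  obtain ⟨Ds', hF⟩ := finc hc hT hW subset_rfl hB hD hS fun B hB' e h =>
    Or.inl (by simpa using (hB.1 B hB').2.2 h)
  refine ⟨bu n X, bu n O, ku n K, Ds', hA,
    KTrk_bu fun i hi => (hX i hi).1.trans (Run_sub hi), hbW, ?_,
    fun i hi h => (KTrk_np (hX i hi).2.1 h).trans (Run_sub hi), hF⟩
  exact ⟨_, Run_sub (Nat.zero_le n) (ie_mem (cut_sub_tch (hX 0 (Nat.zero_le n)).2.2.cut.1))⟩

/-- Passing a path of nodes.  HINT: as `trk_abs`, with `trk_of_pth`, `J = {a, b}`, `L = ∅`,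
`Ds = ∅`, the data of `trk_pass` updated at `j`, and `run_pas`. -/
theorem trk_open (hc : G.Cub) (hT : G.HT T) (hW : W ⊆ T) (ha : a ∈ G.cut W) (hb : b ∈ G.cut W)
    (hab : a ≠ b) (hB : G.Bx G.AU W {a, b} Bs) (hP : ∀ B ∈ Bs, G.PS B)
    (hp : (G.quo W Bs).Pth (G.quo W Bs).A n w g) (h0 : w 0 = nd Bs (G.ie W a))
    (hn : w n = nd Bs (G.ie W b)) (σ : ℕ → ZMod 2) {j : ℕ} {Xj : Finset V} {Oj : Finset E}
    {Kj : Set (Finset E)} {Cj C0 : Rl → Prop}
    (hj : j ≤ n → Xj ⊆ w j ∧ G.NP W Bs ∅ (w j) (es a b n g j) (es a b n g (j + 1)) Xj Kj ∧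
      G.Pas0 Xj Oj (es a b n g j) (es a b n g (j + 1)) ∅ Kj Cj)
    (hC : ∀ Rs : ℕ → Rl, (∀ i ≤ n, i ≠ j → G.Ncl ∅ Bs ∅ (w i) (σ i) (Rs i)) → (j ≤ n → Cj (Rs j)) →
      C0 (Rl.chain (fun i => G.n (es a b n g i)) Rs n)) :
    ∃ X O K, G.Pas0 X O a b ∅ K C0 ∧ (∀ i ≤ n, w i ∉ Bs → w i ⊆ X) ∧ G.BS W Bs ∅ X K := by
  have hBW : ∀ B ∈ Bs, B ⊆ W := fun B h => (hB.1 B h).2.1
  have hD : G.VD W {a, b} ∅ := vd_empty
  obtain ⟨hpd, hbd⟩ := hB.pd hD
  obtain ⟨ht, he0, he1, -⟩ := trk_of_pth hB.2.1 hBW hp ha hb hab h0 hn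
  have he : ∀ i ≤ n + 1, es a b n g i ∈ G.ins W ∪ {a, b} := by
    intro i _
    unfold es
    split_ifs with h2 h3
    · exact mem_union_right _ (mem_insert_self _ _)
    · exact mem_union_left _ (mem_quo.1 (hp.mem (i - 1) (by omega))).1
    · exact mem_union_right _ (mem_insert_of_mem (mem_singleton_self _))
  have hN : ∀ i ≤ n, ∃ v ∈ W, w i = nd (Bs ∪ ∅) v := by
    rw [union_empty]
    exact quo_pth_node hp (ie_mem (cut_sub_tch ha)) h0
  obtain ⟨X, O, K, hX⟩ := trk_pass (L := ∅) hc hT hW subset_rfl hB hD hP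
    (fun ρ h => (notMem_empty ρ h).elim) (disjoint_empty_left _) (empty_subset _) ht hN he σ
  have hX' : ∀ i ≤ n, (if i = j then Xj else X i) ⊆ w i ∧
      G.NP W Bs ∅ (w i) (es a b n g i) (es a b n g (i + 1)) (if i = j then Xj else X i)
        (if i = j then Kj else K i) ∧
      G.Pas0 (if i = j then Xj else X i) (if i = j then Oj else O i) (es a b n g i)
        (es a b n g (i + 1)) ∅ (if i = j then Kj else K i)
        (if i = j then Cj else G.Ncl ∅ Bs ∅ (w i) (σ i)) := by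
    intro i hi
    by_cases h : i = j
    · subst h
      simpa only [if_true] using hj hi
    · simpa only [if_neg h] using hX i hi
  have hXW : ∀ i ≤ n, (if i = j then Xj else X i) ⊆ W := fun i hi => (hX' i hi).1.trans (ht.1 i hi)
  have hd : ∀ i ≤ n, ∀ k ≤ n, i ≠ k →
      Disjoint (if i = j then Xj else X i) (if k = j then Xj else X k) := fun i hi k hk hik =>
    (ht.2.1 i hi k hk hik).mono (hX' i hi).1 (hX' k hk).1
  have hA := (run_pas (X := fun i => if i = j then Xj else X i)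
    (O := fun i => if i = j then Oj else O i) (K := fun i => if i = j then Kj else K i)
    (C := fun i => if i = j then Cj else G.Ncl ∅ Bs ∅ (w i) (σ i)) (C0 := C0) (e := es a b n g)
    hXW hd (empty_subset _) (fun i hi => (hX' i hi).2.2) (he0.symm ▸ ha) (he1.symm ▸ hb)
    (by rw [he0, he1]; exact hab) (fun Rs hR => hC Rs
      (fun i hi h => by simpa only [if_neg h] using hR i hi)
      fun h => by simpa only [if_true] using hR j h)).1
  rw [he0, he1] at hA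
  have hbW : bu n (fun i => if i = j then Xj else X i) ⊆ W := KTrk_bu hXW
  have hS := bs_run (G := G) (Xs := fun i => if i = j then Xj else X i)
    (Ks := fun i => if i = j then Kj else K i) hpd hbd (fun ρ h => (notMem_empty ρ h).elim)
    (fun _ => True) ht.2.1 (fun i hi _ => ⟨(hX' i hi).1, (hX' i hi).2.1⟩)
    (fun _ _ h => (h trivial).elim) hBW
  rw [inter_eq_left.2 hbW] at hS
  exact ⟨_, _, _, hA, fun i hi h => (KTrk_np (hX' i hi).2.1 h).trans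
    (Run_sub (X := fun i => if i = j then Xj else X i) hi), hS⟩

/-- Completing an absorbed part by a clean solution of the rest.  HINT: `fina`, `Fo.cover`. -/
theorem fin_abs {O : Finset E} {K : Set (Finset E)} {Ds' : Finset (Finset V)} {ε : ZMod 2}
    (hB : G.Bx G.AU W ∅ Bs) (h : G.Abs0 X O L K) (hX : X ⊆ W) (hL : L ⊆ G.cut W)
    (hF : G.Fo G.AU W ∅ Bs Ds X K Ds') (h' : G.CSp (W \ X) Ds' ε) (d : E)
    (hd : ∀ e ∈ G.cut W, e ∈ G.tch (W \ X) → e ∈ L ∨ e = d) :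
    ∃ O', G.par O' = ε + G.par O ∧ G.Abs0 W O' L (G.Tg G.AU W Ds) := by
  obtain ⟨O', hO, h'⟩ := h'
  have hK := hF.cover (fun B hB' => (hB.1 B hB').2.1) hX (empty_subset _)
  obtain ⟨h1, h2⟩ := fina h hX hL h' d hd (K0 := G.Tg G.AU W Ds) fun t ht =>
    (hK t ht).imp id fun ⟨e, h1, h2, h3, h4, _⟩ => ⟨e, h1, h2, h3, h4⟩
  exact ⟨_, by rw [h2, hO], h1⟩

theorem Fo.vd0 {K : Set (Finset E)} {Ds' : Finset (Finset V)} {J : Finset E} {Fm : Set (Finset V)}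
    (hF : G.Fo Fm W J Bs Ds X K Ds') (hJ : J ⊆ G.tch X) : G.VD (W \ X) ∅ Ds' := by
  have h := hF.1
  rwa [sdiff_eq_empty_iff_subset.2 hJ] at h

/-- Completing a pass by a clean solution of the rest.
HINT: `finc` (an edge `a` or `b` touches `X` by `Pas0.cut`), `Fo.vd0`, `finp`, `Fo.cover`,
`tg_empty`. -/
theorem fin_open (hc : G.Cub) (hT : G.HT T) (hW : W ⊆ T) (ha : a ∈ G.cut W) (hb : b ∈ G.cut W)
    (hB : G.Bx G.AU W {a, b} Bs) {O : Finset E} {K : Set (Finset E)} {C : Rl → Prop}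
    (h : G.Pas0 X O a b ∅ K C) (hS : G.BS W Bs ∅ X K) (h' : G.CS (W \ X)) (d : E)
    (hd : ∀ e ∈ G.cut W, e ∈ G.tch (W \ X) → e = d) :
    ∃ O', G.Pas0 W O' a b ∅ (G.Kus W) C := by
  have hJ : ({a, b} : Finset E) ⊆ G.tch X :=
    insert_subset (cut_sub_tch h.cut.1) (singleton_subset_iff.2 (cut_sub_tch h.cut.2.1))
  obtain ⟨Ds', hF⟩ := finc hc hT hW subset_rfl hB vd_empty hS fun B hB' e he =>
    (mem_union.1 ((hB.1 B hB').2.2 he)).imp id fun h => hJ h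
  obtain ⟨ε, O', -, h1⟩ := h' Ds' (hF.vd0 hJ)
  have hK := hF.cover (fun B hB' => (hB.1 B hB').2.1) hS.1
    (insert_subset ha (singleton_subset_iff.2 hb))
  rw [tg_empty] at hK
  exact ⟨_, (finp h hS.1 ha hb (empty_subset _) h1 d (fun e h1 h2 => Or.inr (hd e h1 h2))
    fun t ht => (hK t ht).imp id fun ⟨e, h1, h2, h3, h4, h5⟩ =>
      ⟨e, h1, h2, h3, h4, fun h => h5 (h ▸ mem_insert_self _ _),
        fun h => h5 (h ▸ mem_insert_of_mem (mem_singleton_self _))⟩).1⟩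

/-- Completing a pass in a side without boxes by any solution of the rest.
HINT: `finp`, `Bx.free`. -/
theorem fin_free (ha : a ∈ G.cut W) (hb : b ∈ G.cut W) (hB : G.Bx G.AU W {a, b} ∅)
    {O O' : Finset E} {K K' : Set (Finset E)} {C : Rl → Prop} (h : G.Pas0 X O a b ∅ K C)
    (hX : X ⊆ W) (h' : G.Abs0 (W \ X) O' (G.cut (W \ X)) K') (d : E)
    (hd : ∀ e ∈ G.cut W, e ∈ G.tch (W \ X) → e = d) :
    G.Pas0 W (O' ∪ O) a b ∅ (G.Kus W) C ∧
      G.par ((O' ∪ O) ∩ G.ins W) = G.par O' + G.par (O ∩ G.ins X) := by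
  refine finp h hX ha hb (empty_subset _) h' d (fun e h1 h2 => Or.inr (hd e h1 h2)) fun t ht => ?_
  obtain ⟨e, h1, h2, h3⟩ := hB.free t ht
  exact Or.inr ⟨e, h1, cut_sub_tch h2, fun h => not_ins_of_cut h2 (ins_mono hX h),
    fun h => not_ins_of_cut h2 (ins_mono sdiff_subset h), fun h => h3 (h ▸ mem_insert_self _ _),
    fun h => h3 (h ▸ mem_insert_of_mem (mem_singleton_self _))⟩

/-- if `X` contains three of the four terminals only the fourth edge touches the rest -/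
theorem Q4.dead (hq : G.Q4 S a b c d) (ha : G.ie S a ∈ X) (hb : G.ie S b ∈ X)
    (hc : G.ie S c ∈ X) : ∀ e ∈ G.cut S, e ∈ G.tch (S \ X) → e = d := by
  intro e he he'
  have h1 : G.ie S e ∉ X := by
    rw [← (cut_of_sub sdiff_subset he he').2]
    exact (mem_sdiff.1 (ie_mem he')).2
  rw [hq.1] at he
  simp only [mem_insert, mem_singleton] at he
  rcases he with rfl | rfl | rfl | rfl
  · exact (h1 ha).elim
  · exact (h1 hb).elim
  · exact (h1 hc).elim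
  · rfl

end SG

end Pool.Agent.Work.MP_8c679b_co
end

-- merged part: Pool.Agent.Work.MP_8c679b_co.Six.KHole
section
/-!
Runs with a hole at a box.
-/

set_option autoImplicit false

namespace Pool.Agent.Work.MP_8c679b_co

open Finset

namespace SG

variable {V E : Type} [Fintype V] [DecidableEq V] [DecidableEq E] {G : SG V E}
  {T S W X : Finset V} {a b c d : E} {Bs Ds : Finset (Finset V)}
  {L : Finset E} {n j : ℕ} {w : ℕ → Finset V} {g : ℕ → E}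

/-- the data of a track with the node `j` left out -/
theorem KHole_core {N X : ℕ → Finset V} {e : ℕ → E} {O : ℕ → Finset E} {K : ℕ → Set (Finset E)}
    {C : ℕ → Rl → Prop} (hpd : PD (Bs ∪ Ds) ∧ Disjoint Bs Ds) (hD : ∀ ρ ∈ Ds, ρ ⊆ W)
    (hB : ∀ B ∈ Bs, B ⊆ W) (ht : G.Trk W n N e) (hj : j ≤ n)
    (h : ∀ i ≤ n, X i ⊆ N i ∧ G.NP W Bs Ds (N i) (e i) (e (i + 1)) (X i) (K i) ∧
      G.Pas0 (X i) (O i) (e i) (e (i + 1)) L (K i) (C i)) :
    ∃ (X : ℕ → Finset V) (O : ℕ → Finset E) (K : ℕ → Set (Finset E)),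
      (X j = ∅ ∧ O j = ∅ ∧ K j = ∅) ∧ (∀ i ≤ n, X i ⊆ W) ∧
      (∀ i ≤ n, ∀ k ≤ n, i ≠ k → Disjoint (X i) (X k)) ∧ (∀ i ≤ n, Disjoint (X i) (N j)) ∧
      (∀ i ≤ n, i ≠ j → G.Pas0 (X i) (O i) (e i) (e (i + 1)) L (K i) (C i)) ∧
      G.BS W Bs Ds (bu n X) (ku n K) ∧ Disjoint (N j) (bu n X) ∧
      (∀ i ≤ n, i ≠ j → N i ∉ Bs → N i ⊆ bu n X) ∧
      ∀ i ≤ n, i ≠ j → e i ∈ G.tch (bu n X) ∧ e (i + 1) ∈ G.tch (bu n X) := by
  obtain ⟨X', O', K', h0, h1⟩ : ∃ (X' : ℕ → Finset V) (O' : ℕ → Finset E)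
      (K' : ℕ → Set (Finset E)), (X' j = ∅ ∧ O' j = ∅ ∧ K' j = ∅) ∧
        ∀ i, i ≠ j → X' i = X i ∧ O' i = O i ∧ K' i = K i :=
    ⟨Function.update X j ∅, Function.update O j ∅, Function.update K j ∅, by simp,
      fun i hi => by simp [hi]⟩
  have h2 : ∀ i ≤ n, X' i ⊆ N i := fun i hi => by
    by_cases k : i = j
    · rw [k, h0.1]
      exact empty_subset _
    · rw [(h1 i k).1]
      exact (h i hi).1
  have h3 : ∀ i ≤ n, X' i ⊆ W := fun i hi => (h2 i hi).trans (ht.1 i hi)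
  have h4 : ∀ i ≤ n, Disjoint (X' i) (N j) := fun i hi => by
    by_cases k : i = j
    · rw [k, h0.1]
      exact disjoint_empty_left _
    · exact (ht.2.1 i hi j hj k).mono_left (h2 i hi)
  have h5 : ∀ i ≤ n, i ≠ j → G.Pas0 (X' i) (O' i) (e i) (e (i + 1)) L (K' i) (C i) :=
    fun i hi k => by
      rw [(h1 i k).1, (h1 i k).2.1, (h1 i k).2.2]
      exact (h i hi).2.2
  have h6 := bs_run (G := G) (e := e) (Xs := X') (Ks := K') hpd.1 hpd.2 hD (fun i => i ≠ j) ht.2.1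
    (fun i hi k => by
      rw [(h1 i k).1, (h1 i k).2.2]
      exact ⟨(h i hi).1, (h i hi).2.1⟩) (fun i _ k => by rw [not_not.1 k, h0.1]) hB
  rw [inter_eq_left.2 fun x hx => (Run_mem_bu.1 hx).elim fun i hi => h3 i hi.1 hi.2] at h6
  refine ⟨X', O', K', h0, h3, fun i hi k hk hik => (ht.2.1 i hi k hk hik).mono (h2 i hi) (h2 k hk),
    h4, h5, h6, disjoint_right.2 fun x hx => (Run_mem_bu.1 hx).elim fun i hi =>
      disjoint_left.1 (h4 i hi.1) hi.2, fun i hi k hb => ?_, fun i hi k =>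
      ⟨tch_mono (Run_sub hi) (cut_sub_tch (h5 i hi k).cut.1),
        tch_mono (Run_sub hi) (cut_sub_tch (h5 i hi k).cut.2.1)⟩⟩
  refine subset_trans ?_ (Run_sub hi)
  rw [(h1 i k).1]
  rcases (h i hi).2.1 with k1 | k1 | k1
  exacts [k1.2.2.ge, k1.2.1.ge, absurd k1.1 hb]

omit [Fintype V] [DecidableEq E] in
theorem KHole_es {Ns : Finset (Finset V)} (hp : (G.quo W Ns).Pth (G.quo W Ns).A n w g) (i : ℕ) :
    es a b n g i = a ∨ es a b n g i = b ∨ es a b n g i ∈ G.ins W := by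
  unfold es
  split_ifs with h1 h2
  exacts [Or.inl rfl, Or.inr (Or.inr (mem_filter.1 (hp.mem _ (by omega))).1), Or.inr (Or.inl rfl)]

/-- An open run with a hole.  HINT: `trk_of_pth`, `trk_pass` (`J = {a, b}`, `L = ∅`, all signs
zero), replace the data at `j` by empty ones, `hole_open` with `Rl.ch_px`, `bs_run` with
`I i := i ≠ j`. -/
theorem trk_hole (hc : G.Cub) (hT : G.HT T) (hW : W ⊆ T) (ha : a ∈ G.cut W) (hb : b ∈ G.cut W)
    (hab : a ≠ b) (hB : G.Bx G.AU W {a, b} Bs) (hP : ∀ B ∈ Bs, G.PS B)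
    (hp : (G.quo W Bs).Pth (G.quo W Bs).A n w g) (h0 : w 0 = nd Bs (G.ie W a))
    (hn : w n = nd Bs (G.ie W b)) (hj : j ≤ n) (hw : w j ∈ Bs) :
    ∃ XR OR KR δ, G.BS W Bs ∅ XR KR ∧ Disjoint (w j) XR ∧ (∀ i ≤ n, w i ∉ Bs → w i ⊆ XR) ∧
      es a b n g j ∈ G.cut (w j) ∧ es a b n g (j + 1) ∈ G.cut (w j) ∧
      es a b n g j ≠ es a b n g (j + 1) ∧
      (∀ e ∈ ({a, b} : Finset E), e ∈ G.tch XR ∨ e = es a b n g j ∨ e = es a b n g (j + 1)) ∧
      G.Hole (w j) XR OR {a, b} (insert a (insert b ∅)) KR (es a b n g j) (es a b n g (j + 1)) a b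
        Rl.PX δ := by
  have hBW : ∀ B ∈ Bs, B ⊆ W := fun B k => (hB.1 B k).2.1
  obtain ⟨t1, t2, t3, -⟩ := trk_of_pth hB.2.1 hBW hp ha hb hab h0 hn
  obtain ⟨X, O, K, h⟩ := trk_pass (L := ∅) hc hT hW subset_rfl hB vd_empty hP (by simp)
    (disjoint_empty_left _) (empty_subset _) t1
    (by
      rw [union_empty]
      exact quo_pth_node hp (ie_mem (cut_sub_tch ha)) h0)
    (fun i _ => by
      rcases KHole_es (a := a) (b := b) hp i with k | k | k <;> simp [k]) fun _ => 0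
  obtain ⟨X, O, K, k1, k2, k3, k4, k5, k6, k7, k8, k9⟩ :=
    KHole_core (hB.pd vd_empty) (by simp) hBW t1 hj h
  obtain ⟨δ, hδ⟩ := hole_open (C0 := Rl.PX) hj (t1.1 j hj) k1 k2 k3 k4 (empty_subset _)
    (t1.2.2 j hj).2.2 k5 (t2.symm ▸ ha) (t3.symm ▸ hb) fun Rs r1 r2 =>
      Rl.ch_px hj (fun i hi k => ⟨_, (r1 i hi k).tt.2 (notMem_empty _)⟩) r2
  rw [t2, t3] at hδ
  refine ⟨_, _, _, δ, k6, k7, fun i hi k => k8 i hi (fun k' => k (k' ▸ hw)) k, (t1.2.2 j hj).1,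
    (t1.2.2 j hj).2.1, (t1.2.2 j hj).2.2, fun e he => ?_, hδ⟩
  rcases mem_insert.1 he with rfl | he
  · by_cases k : 0 = j
    · exact Or.inr (Or.inl (k ▸ t2.symm))
    · exact Or.inl (t2 ▸ (k9 0 (Nat.zero_le _) k).1)
  · obtain rfl := mem_singleton.1 he
    by_cases k : n = j
    · exact Or.inr (Or.inr (k ▸ t3.symm))
    · exact Or.inl (t3 ▸ (k9 n le_rfl k).2)

/-- A closed run with a hole.  HINT: `trk_of_cyc`, `trk_pass` (`J = ∅`), `hole_closed`.  The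
entry edge of the hole is the exit edge of the previous node, so it touches `XR`
(`Pas0.cut`). -/
theorem trk_hole_c (hc : G.Cub) (hT : G.HT T) (hW : W ⊆ T) (hB : G.Bx G.AU W ∅ Bs)
    (hD : G.VD W ∅ Ds) (hP : ∀ B ∈ Bs, G.PS B)
    (hp : (G.quo W (Bs ∪ Ds)).Cyc (G.quo W (Bs ∪ Ds)).A n w g) (hj : j ≤ n) (hw : w j ∈ Bs)
    (hC : ∀ Rs : ℕ → Rl, (∀ i ≤ n, i ≠ j → G.Ncl (G.cut W) Bs Ds (w i) 0 (Rs i)) → (Rs j).PX →
      Rl.Cl (fun i => G.n (es (g n) (g n) n g i)) Rs n) :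
    ∃ XR OR KR δ a b, G.BS W Bs Ds XR KR ∧ Disjoint (w j) XR ∧ a ∈ G.cut (w j) ∧
      b ∈ G.cut (w j) ∧ a ≠ b ∧ a ∈ G.tch XR ∧
      G.Hole (w j) XR OR ∅ (G.cut W) KR a b a a Rl.Nv δ := by
  have hBW : ∀ B ∈ Bs, B ⊆ W := fun B k => (hB.1 B k).2.1
  have hDW : ∀ B ∈ Ds, B ⊆ W := fun B k => (hD.2 B k).1
  obtain ⟨t1, t2, -⟩ := trk_of_cyc (hB.pd hD).1
    (fun N k => (mem_union.1 k).elim (hBW N) (hDW N)) hp
  obtain ⟨X, O, K, h⟩ := trk_pass (L := G.cut W) hc hT hW subset_rfl hB hD hP (fun _ _ _ _ k => k)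
    (disjoint_empty_right _) subset_rfl t1 (quo_cyc_node hp)
    (fun i _ => by
      have k0 := (mem_quo.1 hp.cm).1
      rcases KHole_es (a := g n) (b := g n) hp.pth i with k | k | k <;> simp [k, k0]) fun _ => 0
  obtain ⟨X, O, K, k1, k2, k3, k4, k5, k6, k7, -, k9⟩ := KHole_core (hB.pd hD) hDW hBW t1 hj h
  obtain ⟨δ, hδ⟩ := hole_closed hj (t1.1 j hj) k1 k2 k3 k4 subset_rfl (t1.2.2 j hj).2.2 k5 hp.pos
    t2 hC
  refine ⟨_, _, _, δ, _, _, k6, k7, (t1.2.2 j hj).1, (t1.2.2 j hj).2.1, (t1.2.2 j hj).2.2, ?_, hδ⟩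
  have _ := hw
  have h1 := hp.pos
  rcases j with _ | i
  · exact t2 ▸ (k9 n le_rfl (by omega)).2
  · exact (k9 i (by omega) (by omega)).2

theorem KHole_disj {X1 X2 : Finset V} {L2 : Finset E} (hd : Disjoint X1 X2)
    (hF : ∀ e ∈ L2, e ∈ G.cut X2 → e ∉ G.tch X1) : Disjoint (G.fr X2 L2) (G.tch X1) := by
  refine disjoint_left.2 fun e he h1 => ?_
  rcases mem_union.1 he with h | h
  · exact Quo_ins h hd h1
  · exact hF e (mem_inter.1 h).2 (mem_inter.1 h).1 h1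

omit [Fintype V] in
theorem KHole_sub {X1 X2 : Finset V} {L1 L2 : Finset E} (hd : Disjoint X1 X2)
    (hL1 : ∀ e ∈ L1, e ∈ G.cut X1 → e ∈ G.tch X2 ∨ e ∈ L) (hL2 : ∀ e ∈ L2, e ∈ G.cut X2 → e ∈ L) :
    G.fr X1 L1 ∪ G.fr X2 L2 ⊆ G.fr (X1 ∪ X2) L := by
  intro e he
  have k1 : G.s e ∈ X1 → G.s e ∉ X2 := fun h => disjoint_left.1 hd h
  have k2 : G.t e ∈ X1 → G.t e ∉ X2 := fun h => disjoint_left.1 hd h
  have h1 := hL1 e
  have h2 := hL2 e
  simp only [fr, mem_inter, mem_union, mem_ins, mem_cut, mem_tch] at he h1 h2 ⊢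
  grind

/-- Closing a double pass: the frozen edges `u, v` get their values from a total pass of `X2`
that puts a zero on `u`.
HINT: `St.union`, `Pa.congrO`, `Pa.toAb`, `Ab.seqP` (first `X2`, then `X1`), `Pa.mono`. -/
theorem dbl_close {X1 X2 : Finset V} {O1 O2 J L1 L2 : Finset E} {K1 K2 : Set (Finset E)}
    {u v : E} {C C' : Rl → Prop} (h1 : G.PasG X1 O1 (J ∪ {u, v}) L1 K1 a b C)
    (h2 : G.Pas0 X2 O2 u v L2 K2 C') (hC : ∀ R, C' R → R.Tt) (hd : Disjoint X1 X2)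
    (hJ : ∀ e ∈ J, e ∉ G.tch X2) (ha : a ∈ G.A ∧ a ∉ G.tch X2) (hb : b ∈ G.A ∧ b ∉ G.tch X2)
    (hF : ∀ e ∈ L1, e ∈ G.cut X1 → e ∉ G.tch X2) (hL1 : ∀ e ∈ L1, e ∈ G.cut X1 → e ∈ L)
    (hL2 : ∀ e ∈ L2, e ∈ G.cut X2 → e ∈ G.tch X1 ∨ e ∈ L) :
    G.PasG (X2 ∪ X1) (O2 ∪ O1) J L (K2 ∪ {{u}} ∪ K1) a b C ∧
      G.par ((O2 ∪ O1) ∩ G.ins (X2 ∪ X1)) =
        G.par (O1 ∩ G.ins X1) + G.par (O2 ∩ G.ins X2) + (G.n u + G.n v) := by
  have hu := h2.cut.1
  have hv := h2.cut.2.1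
  obtain ⟨k1, k2, k3, k4⟩ := h2.2.1.union h1.1 hd.symm fun e he _ =>
    ⟨mem_union_right _, fun k => (mem_union.1 k).resolve_left fun k' => hJ e k' he⟩
  have e1 : {u, v} ∩ (J ∪ {u, v}) = {u, v} := inter_eq_left.2 subset_union_right
  have e2 : ({u, v} ∪ (J ∪ {u, v})) \ {u, v} = J := by
    have n1 : u ∉ J := fun k => hJ u k (cut_sub_tch hu)
    have n2 : v ∉ J := fun k => hJ v k (cut_sub_tch hv)
    ext e
    simp only [mem_sdiff, mem_union, mem_insert, mem_singleton]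
    (clear * - n1 n2; grind)
  rw [e1] at k1 k4
  rw [e2] at k1
  refine ⟨⟨k1, ((((h2.2.imp hC).2.congrO k2).toAb hu).seqP (h1.2.congrO k3)
    (KHole_disj hd.symm hF) ha hb).mono (KHole_sub hd.symm (fun e he k => ?_) hL1) fr_sub_tch⟩, ?_⟩
  · rcases mem_insert.1 he with rfl | he
    · exact Or.inl (cut_sub_tch (Run_J h1.1 (by simp)).2)
    rcases mem_insert.1 he with rfl | he
    · exact Or.inl (cut_sub_tch (Run_J h1.1 (by simp)).2)
    · exact hL2 e he k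
  · rw [k4, show G.par {u, v} = G.n u + G.n v from sum_pair h2.1]
    ring

/-- the form of `dbl_close` for a double pass of a split followed by the next piece -/
theorem Dbl.close {X1 P : Finset V} {O1 O2 : Finset E} {K : Set (Finset E)} {u v : E}
    {C' : Rl → Prop} (h1 : G.Dbl X1 O1 a b u v) (h2 : G.Pas0 P O2 u v ∅ K C')
    (hC : ∀ R, C' R → R.Tt) (hd : Disjoint X1 P) (hab : a ≠ b) (ha : a ∉ G.tch P)
    (hb : b ∉ G.tch P) :
    ∃ O, G.Pas0 (X1 ∪ P) O a b ∅ (K ∪ {{u}}) Rl.Xi ∧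
      G.par (O ∩ G.ins (X1 ∪ P)) =
        G.par (O1 ∩ G.ins X1) + G.par (O2 ∩ G.ins P) + (G.n u + G.n v) := by
  have hJ : ∀ e ∈ ({a, b} : Finset E), e ∉ G.tch P := by simp [ha, hb]
  have h3 : G.PasG X1 O1 ({a, b} ∪ {u, v}) {a, b} ∅ a b Rl.Xi := by
    rw [insert_union, singleton_union]
    exact h1
  obtain ⟨k1, k2⟩ := dbl_close (L := insert a (insert b ∅)) h3 h2 hC hd hJ
    ⟨(mem_cut.1 (Run_J h1.1 (by simp)).2).1, ha⟩ ⟨(mem_cut.1 (Run_J h1.1 (by simp)).2).1, hb⟩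
    (fun e he _ => hJ e he) (fun e he _ => by simpa using he) (by simp)
  rw [union_comm P X1] at k1 k2
  rw [Set.union_empty] at k1
  exact ⟨_, ⟨hab, k1⟩, k2⟩

theorem KHole_at {u v z : V} (ha : a ∈ G.cut {u, v}) (hb : b ∈ G.cut {u, v}) (h : G.Dv {u, v} a b)
    (hz : z ∈ ({u, v} : Finset V)) : G.At a z ∨ G.At b z := by
  have k1 := ie_mem (cut_sub_tch ha)
  have k2 := ie_mem (cut_sub_tch hb)
  have k3 : z = G.ie {u, v} a ∨ z = G.ie {u, v} b := by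
    unfold Dv at h
    simp only [mem_insert, mem_singleton] at k1 k2 hz
    grind
  rcases k3 with k | k
  · exact Or.inl (by rw [k]; exact ie_at)
  · exact Or.inr (by rw [k]; exact ie_at)

/-- A rung with live edges `a, b` closes with any total pass of the next piece.
HINT: `rung_cs` for the region `ρ ∪ P` (the rung is ready there with `J = ∅`, its end edges
are `x, y`), `Pas0.monoL`, `close_two`; the even set meets `ins ρ` in the rung edge. -/
theorem rung_close (hc : G.Cub) (hT : G.HT T) {ρ P : Finset V} (hρ : ρ ⊆ T) (hP : P ⊆ T)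
    (hd : Disjoint ρ P) {x y : E} (hq : G.Q4 ρ a b x y) (h2 : ρ.card ≤ 2) (hv : G.Dv ρ a b)
    (ha : a ∉ G.tch P) (hb : b ∉ G.tch P) {O2 : Finset E} {K : Set (Finset E)} {C' : Rl → Prop}
    (h : G.Pas0 P O2 x y ∅ K C') (hC : ∀ R, C' R → R.Tt) :
    ∃ O, G.Abs0 (ρ ∪ P) O {a, b} (K ∪ {{x, y}}) ∧
      G.par O = G.par (G.ins ρ) + G.par (O2 ∩ G.ins P) + (G.n x + G.n y) := by
  obtain ⟨ma, mb, mx, my⟩ := hq.mem
  have ca := Pure_cu ma ha
  have cb := Pure_cu mb hb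
  have tx : x ∈ G.tg (ρ ∪ P) ρ := mem_inter.2 ⟨mx, (ie_link hd mx h.cut.1).2⟩
  have ty : y ∈ G.tg (ρ ∪ P) ρ := mem_inter.2 ⟨my, (ie_link hd my h.cut.2.1).2⟩
  have hv' := hT.dv_flip hc hρ hq.flip hv
  have hR : G.Rdy (ρ ∪ P) ∅ ρ := by
    obtain ⟨u, v, m, huv, rfl, hm, hj⟩ := hT.rung hc hρ hq.card h2
    refine ⟨subset_union_left, ⟨u, v, huv, rfl, m, ins_sub_A (hm ▸ mem_singleton_self m), hj⟩,
      fun z hz => ⟨?_, ?_⟩⟩
    · exact (KHole_at ma mb hv hz).elim (fun k => ⟨a, ca, notMem_empty _, k⟩)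
        fun k => ⟨b, cb, notMem_empty _, k⟩
    · exact (KHole_at mx my hv' hz).elim (fun k => ⟨x, tx, k⟩) fun k => ⟨y, ty, k⟩
  have e1 : G.tg (ρ ∪ P) ρ = {x, y} := by
    refine Subset.antisymm (fun e he => ?_) (insert_subset tx (singleton_subset_iff.2 ty))
    obtain ⟨k1, k2⟩ := mem_inter.1 he
    simp only [hq.1, mem_insert, mem_singleton] at k1 ⊢
    rcases k1 with k | k | k
    exacts [absurd (k ▸ k2) (not_ins_of_cut ca), absurd (k ▸ k2) (not_ins_of_cut cb), k]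
  have h1 := rung_cs (L := {a, b}) hc hT (union_subset hρ hP) hR tx ty hq.2.2.2.2.2.2
    fun e k1 k2 => by
      simp only [hq.1, mem_insert, mem_singleton] at k1 ⊢
      rcases k1 with k | k | k | k
      exacts [Or.inl k, Or.inr k, absurd (k ▸ (mem_inter.1 tx).2) (not_ins_of_cut k2),
        absurd (k ▸ (mem_inter.1 ty).2) (not_ins_of_cut k2)]
  obtain ⟨k1, k2⟩ := close_two h1 ((h.symm (C' := Rl.Tt) fun R r => (hC R r).symm).monoL
    (L' := {a, b}) (by simp)) hd (insert_subset ca (singleton_subset_iff.2 cb)) subset_union_left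
    subset_union_right fun R1 R2 ⟨_, y0, r1⟩ r2 =>
      (r2.1 _).elim fun z hz => ⟨_, y0, z, r1 _ _ (Or.inr rfl), hz, rfl⟩
  rw [e1, Set.union_comm] at k1
  rw [insert_inter_of_notMem (not_ins_of_cut mx), insert_inter_of_notMem (not_ins_of_cut my),
    inter_self] at k2
  exact ⟨_, k1, k2⟩

end SG

end Pool.Agent.Work.MP_8c679b_co
end

-- merged part: Pool.Agent.Work.MP_8c679b_co.Six.KSw
section
/-!
The sweep along a chain.
-/

set_option autoImplicit false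

namespace Pool.Agent.Work.MP_8c679b_co

open Finset

namespace SG

variable {V E : Type} [Fintype V] [DecidableEq V] [DecidableEq E] {G : SG V E}
  {T S W X : Finset V} {a b c d : E} {Bs Ds : Finset (Finset V)}

/-- every piece has a complete total pass -/
theorem piece_pass (hB : G.BP S) (hN : G.PSN S) (hq : G.Q4 S a b c d) (hv : G.Dv S a b)
    (hn : G.NC S a b) : ∃ O σ, G.Pas0 S O a b ∅ (G.Kus S) (Rl.P σ) := by
  by_cases h : G.Bal (G.ins S)
  · obtain ⟨p, hp⟩ := h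
    obtain ⟨O, -, hO⟩ := hB a b c d hq hv p hp
    exact ⟨O, _, (kus_bal ⟨p, hp⟩).symm ▸ hO⟩
  · obtain ⟨O, hO⟩ := hN ⟨hq.card, h⟩ a b c d hq hn 0
    exact ⟨O, 0, hO⟩

/-- The coverage after the first split `P` is treated completely and the rest is swept.
HINT: `Sp.f6`, `Sp.sub`; if `c, d ∈ t` then `P ∪ X' = S`. -/
theorem sw_cov (hc : G.Cub) (hT : G.HT T) (hS : S ⊆ T) (hq : G.Q4 S a b c d) {P X' : Finset V}
    {x y : E} (hP : G.Sp S a b P) (hx : G.Q4 P a b x y) (hr : G.Rg (S \ P) X' c d) {O : Finset E}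
    (hO : ∀ e ∈ G.cut (X' ∪ P), e ∈ O → e = a ∨ e = b) :
    G.Cvr (X' ∪ P) O ((G.Kp (S \ P) X' c d ∪ G.Lk (S \ P) x y) ∪ G.Kus P)
      (G.Kp S (X' ∪ P) c d) := by
  rintro t ⟨⟨S', hS', hu, rfl⟩, ht⟩
  rcases hP.f6 hc hT hS hq hS' hu with h | h | h | ⟨Y, hY, hs, h⟩
  · exact Or.inl ⟨_, Or.inr ⟨S', h, hu, rfl⟩, Subset.rfl⟩
  · refine Or.inl ⟨_, Or.inl (Or.inl ⟨⟨S', h, hu, rfl⟩, ht.imp_left fun k => ?_⟩), Subset.rfl⟩
    refine Subset.antisymm hr.sub fun v hv => ?_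
    have hv' := mem_sdiff.1 hv
    exact (mem_union.1 (k.symm ▸ hv'.1 : v ∈ X' ∪ P)).resolve_right hv'.2
  · have k : X' ∪ P = S := by
      rcases ht with k | k | k
      · exact k
      · exact absurd h.1 k
      · exact absurd h.2 k
    have hcS : c ∈ G.cut (X' ∪ P) := k.symm ▸ hq.mem.2.2.1
    refine Or.inr ⟨c, h.1, cut_sub_tch hcS, fun m => ?_⟩
    rcases hO c hcS m with m | m
    · exact hq.2.2.1 m.symm
    · exact hq.2.2.2.2.1 m.symm
  · obtain ⟨k1, k2⟩ := hP.sub hc hT hS hq hx hY hs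
    exact Or.inl ⟨_, Or.inl (Or.inr ⟨_, k1, rfl⟩), k2 ▸ h⟩

/-- The coverage of a split `X1` whose first split is `P`, followed by one piece. -/
theorem next_cov (hc : G.Cub) (hT : G.HT T) (hS : S ⊆ T) (hq : G.Q4 S a b c d) {P : Finset V}
    {x y : E} (hP : G.Sp S a b P) (hx : G.Q4 P a b x y) (hN : G.NC (S \ P) x y) :
    ∀ t ∈ G.Kus S, t ∈ G.Kus P ∨ t ∈ G.Kus (S \ P) ∨ (c ∈ t ∧ d ∈ t) := by
  rintro t ⟨S', hS', hu, rfl⟩
  rcases hP.f6 hc hT hS hq hS' hu with h | h | h | ⟨Y, hY, hs, -⟩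
  · exact Or.inl ⟨S', h, hu, rfl⟩
  · exact Or.inr (Or.inl ⟨S', h, hu, rfl⟩)
  · exact Or.inr (Or.inr h)
  · exact absurd (hP.sub hc hT hS hq hx hY hs).1 (hN _)

theorem KSw_ss {P : Finset V} (hP : G.Sp S a b P) : S \ P ⊂ S :=
  sdiff_ssubset hP.1 (Spl_nonempty hP.2.1)

theorem KSw_dj {P X' : Finset V} (h : X' ⊆ S \ P) : Disjoint X' P :=
  disjoint_left.2 fun _ hv => (mem_sdiff.1 (h hv)).2

/-- finishing the sweep once an initial part `P` is absorbed completely -/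
theorem KSw_fin (hc : G.Cub) (hT : G.HT T) (hS : S ⊆ T) (hq : G.Q4 S a b c d) {P : Finset V}
    (hP : P = S ∨ G.Sp S a b P) (ih : ∀ S' ⊂ S, G.SWp S') {O : Finset E} {K : Set (Finset E)}
    (hO : G.Abs0 P O {a, b} (G.Kus P ∪ K))
    (hm : ∀ Y, G.Sp S a b Y → P ⊆ Y ∨ G.cut Y \ {a, b} ∈ K) :
    ∃ X O, G.Rg S X c d ∧ G.Abs0 X O {a, b} (G.Kp S X c d ∪ G.Lk S a b) := by
  rcases hP with rfl | hP
  · refine ⟨P, O, Or.inl rfl, hO.cov ?_⟩
    rintro t (ht | ⟨Y, hY, rfl⟩)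
    · exact Or.inl ⟨t, Or.inl ht.1, Subset.rfl⟩
    · rcases hm Y hY with k | k
      · exact absurd (Subset.antisymm hY.1 k) (Spl_ne hY)
      · exact Or.inl ⟨_, Or.inr k, Subset.rfl⟩
  · obtain ⟨-, -, -, -, -, -, -, hv, ha, hb, -, -, x, y, hx, hq'⟩ := hP.str hc hT hS hq
    obtain ⟨X', O', hr, h'⟩ := ih _ (KSw_ss hP) x y c d hq' hv
    have hd : Disjoint X' P := KSw_dj hr.sub
    obtain ⟨k, -⟩ := h'.seq (L := {a, b}) hO hd
      (fun e he _ m => by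
        rcases mem_insert.1 he with rfl | he
        · exact ha (tch_mono hr.sub m)
        · rw [mem_singleton.1 he] at m
          exact hb (tch_mono hr.sub m))
      (fun e he _ => Or.inl (by
        rcases mem_insert.1 he with rfl | he
        · exact cut_sub_tch hx.mem.2.2.1
        · rw [mem_singleton.1 he]
          exact cut_sub_tch hx.mem.2.2.2))
      (fun e he _ => he)
    refine ⟨X' ∪ P, O' ∪ O, union_comm P X' ▸ Rg.add hc hT hS hq hP hr, k.cov ?_⟩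
    rintro t (ht | ⟨Y, hY, rfl⟩)
    · rcases sw_cov hc hT hS hq hP hx hr (O := O' ∪ O)
        (fun e he m => absurd m (k.not_mem (not_ins_of_cut he))) t ht with ⟨t', m, m'⟩ | m
      · exact Or.inl ⟨t', m.imp_right Or.inl, m'⟩
      · exact Or.inr m
    · rcases hm Y hY with m | m
      · rcases m.eq_or_ssubset with rfl | m
        · have hxP := hx.mem.2.2.1
          refine Or.inr ⟨x, Spl_diff hx ▸ mem_insert_self _ _,
            tch_mono subset_union_right (cut_sub_tch hxP), fun m => ?_⟩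
          rcases mem_union.1 m with m | m
          · refine h'.not_mem (fun i => ?_) m
            exact not_ins_of_cut (Ab_link hd (ins_sub_tch i) (cut_sub_tch hxP)).1 i
          · exact hO.not_mem (not_ins_of_cut hxP) m
        · obtain ⟨k1, k2⟩ := hP.sub hc hT hS hq hx hY m
          exact Or.inl ⟨_, Or.inl (Or.inr ⟨_, k1, rfl⟩), k2 ▸ Subset.rfl⟩
      · exact Or.inl ⟨_, Or.inr (Or.inr m), Subset.rfl⟩

/-- HINT: strong induction on `S.card`.  A rung is left over (`rg_rung`, `abs0_empty`).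
Otherwise take the first piece `P` (`exists_piece`).  `P = S`: `ABp`.  `P` a split with link
`x, y` and more than two vertices: sweep `S \ P`, then `ABp P` (`Abs0.seq`); `x, y` are off the
even set.  `P` a rung: next piece `X1 \ P` (`exists_next`), `piece_pass`, `rung_close`; if
`X1 ≠ S` sweep `S \ X1` first.  Coverage: `sw_cov`, `next_cov`, `Sp.sub`, minimality of `P`
and `X1`; `Rg.add`. -/
theorem swp (hc : G.Cub) (hT : G.HT T) (hS : S ⊆ T)
    (h : ∀ S' ⊆ S, G.ABp S' ∧ G.PSN S' ∧ G.BP S') : G.SWp S := by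
  induction S using Finset.strongInduction with
  | H S ih0 =>
  have ih : ∀ S' ⊂ S, G.SWp S' := fun S' k =>
    ih0 S' k (k.subset.trans hS) fun S'' k' => h S'' (k'.trans k.subset)
  intro a b c d hq hv
  by_cases h2 : S.card ≤ 2
  · obtain ⟨hr, k1, k2, -⟩ := rg_rung hc hT hS hq hv h2
    refine ⟨∅, ∅, hr, abs0_empty.cov ?_⟩
    rintro t (ht | ht)
    · exact absurd (k2 ▸ ht.1 : t ∈ (∅ : Set (Finset E))) (Set.notMem_empty _)
    · exact absurd (k1 ▸ ht : t ∈ (∅ : Set (Finset E))) (Set.notMem_empty _)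
  obtain ⟨P, hP, hN, hm⟩ := exists_piece hc hT hS hq
  have hPS : P ⊆ S := hP.elim (fun k => k ▸ Subset.rfl) fun k => k.1
  by_cases h3 : 2 < P.card
  · obtain ⟨x, y, hx⟩ : ∃ x y, G.Q4 P a b x y := by
      rcases hP with rfl | hP
      · exact ⟨c, d, hq⟩
      · obtain ⟨-, -, -, -, -, -, -, -, -, -, -, -, x, y, hx, -⟩ := hP.str hc hT hS hq
        exact ⟨x, y, hx⟩
    obtain ⟨O, hO⟩ := (h P hPS).1 h3 a b x y hx hN
    exact KSw_fin hc hT hS hq hP ih (K := ∅) (by rwa [Set.union_empty])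
      fun Y hY => Or.inl (hm Y hY)
  have hP' : G.Sp S a b P := hP.resolve_left fun k => h3 (k ▸ not_le.1 h2)
  obtain ⟨-, -, -, -, -, -, hab, -, -, -, -, -, x, y, hx, -⟩ := hP'.str hc hT hS hq
  obtain ⟨X1, u, w, h1, hs, hq1, hq2, hn, -, -, hm'⟩ := exists_next hc hT hS hq hP' hx
  have h1S : X1 ⊆ S := h1.elim (fun k => k ▸ Subset.rfl) fun k => k.1
  have h1T := h1S.trans hS
  obtain ⟨-, -, -, hxy, hxy', -, -⟩ := hs.link hc hT h1T hq1 hx
  obtain ⟨-, -, -, -, -, -, -, -, ha, hb, -⟩ := hs.str hc hT h1T hq1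
  have hsub : X1 \ P ⊆ S := sdiff_subset.trans h1S
  obtain ⟨O2, σ, hp⟩ := piece_pass (h _ hsub).2.2 (h _ hsub).2.1 hq2 hxy' hn
  obtain ⟨O, hO, -⟩ := rung_close hc hT (hPS.trans hS) (hsub.trans hS) disjoint_sdiff hx
    (not_lt.1 h3) hab ha hb hp fun _ k => k.tt
  rw [union_sdiff_of_subset hs.1] at hO
  have hK := (rg_rung hc hT (hPS.trans hS) hx hxy (not_lt.1 h3)).2.2.1
  refine KSw_fin hc hT hS hq h1 ih (K := {{x, y}}) (hO.cov ?_) fun Y hY => ?_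
  · rintro t (ht | ht)
    · rcases next_cov hc hT h1T hq1 hs hx hn t ht with k | k | k
      · exact absurd (hK ▸ k : t ∈ (∅ : Set (Finset E))) (Set.notMem_empty _)
      · exact Or.inl ⟨t, Or.inl k, Subset.rfl⟩
      · exact Or.inr ⟨u, k.1, cut_sub_tch hq1.mem.2.2.1,
          hO.not_mem (not_ins_of_cut hq1.mem.2.2.1)⟩
    · exact Or.inl ⟨t, Or.inr ht, Subset.rfl⟩
  · rcases (hm Y hY).eq_or_ssubset with rfl | k
    · exact Or.inr (Spl_diff hx)
    · exact Or.inl (hm' Y hY k)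

/-- HINT: `X1 = S`: `δ = 0`.  Otherwise sweep `S \ X1` with the link live, `Abs0.seqP`, `sw_cov`,
`Rg.add`. -/
theorem tlp (hc : G.Cub) (hT : G.HT T) (hS : S ⊆ T) (h : ∀ S' ⊂ S, G.SWp S') : G.TLp S := by
  rintro a b c d hq X1 (rfl | hP)
  · refine ⟨X1, 0, Or.inl rfl, fun O1 C h1 => ⟨O1, h1.cov ?_, (add_zero _).symm⟩⟩
    exact fun t ht => Or.inl ⟨t, ht.1, Subset.rfl⟩
  · obtain ⟨-, -, -, -, -, -, -, hv, ha, hb, -, -, x, y, hx, hq'⟩ := hP.str hc hT hS hq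
    obtain ⟨X', O', hr, h'⟩ := h _ (KSw_ss hP) x y c d hq' hv
    refine ⟨X' ∪ X1, G.par O', union_comm X1 X' ▸ Rg.add hc hT hS hq hP hr, fun O1 C h1 => ?_⟩
    obtain ⟨k, k'⟩ := h'.seqP (L := ∅) h1 (KSw_dj hr.sub) (fun m => ha (tch_mono hr.sub m))
      (fun m => hb (tch_mono hr.sub m)) (fun e he => absurd he (notMem_empty _))
      (fun e he _ => Or.inl (by
        rcases mem_insert.1 he with rfl | he
        · exact cut_sub_tch hx.mem.2.2.1
        · rw [mem_singleton.1 he]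
          exact cut_sub_tch hx.mem.2.2.2))
      (fun e he _ => he)
    exact ⟨O' ∪ O1, k.cov (sw_cov hc hT hS hq hP hx hr k.cut.2.2.2.2), k'.trans (add_comm _ _)⟩

end SG

end Pool.Agent.Work.MP_8c679b_co
end

-- merged part: Pool.Agent.Work.MP_8c679b_co.Six.KPs
section
/-!
Passes of both signs of an unbalanced side.
-/

set_option autoImplicit false

namespace Pool.Agent.Work.MP_8c679b_co

open Finset

namespace SG

variable {V E : Type} [Fintype V] [DecidableEq V] [DecidableEq E] {G : SG V E}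
  {T S W X : Finset V} {a b c d : E} {Bs Ds : Finset (Finset V)}

/-- HINT: `exists_bal`.  No balanced split: first piece (`exists_piece`), `PSN`, `TLp`.
Otherwise `X0` the largest balanced split, `X1` the next one (`exists_next`; it is unbalanced),
`P = X1 \ X0`.  `P` unbalanced: `PSN P` with a suitable sign, `HDp X1`, `Sp.cov1`, `TLp`.
`P` balanced: `HDp X1` with `BP P` has the sign `p ta + p tb + 1` (`sgn`); `BP X0` followed by
`TLp` for `X0` has the sign `p ta + p tb` (`kus_bal`). -/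
theorem ps_step (hc : G.Cub) (hT : G.HT T) (hS : S ⊆ T) (hu : G.US S)
    (h : ∀ S' ⊆ S, G.PSN S' ∧ G.BP S' ∧ G.HDp S') (hL : G.TLp S) : G.PS S := by
  intro a b c d hq σ
  have key : ∀ X1, (X1 = S ∨ G.Sp S a b X1) → ∀ O1, G.Pas0 X1 O1 a b ∅ (G.Kus X1) (Rl.P σ) →
      ∃ X O, G.Rg S X c d ∧ G.Pas0 X O a b ∅ (G.Kp S X c d) (Rl.P σ) := fun X1 h1 O1 h2 => by
    obtain ⟨X, δ, h3, h4⟩ := hL a b c d hq X1 h1
    obtain ⟨O, h5, -⟩ := h4 O1 _ h2
    exact ⟨X, O, h3, h5⟩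
  rcases exists_bal hc hT hS hq with hb | ⟨X0, s0, hB, hm⟩
  · obtain ⟨P, h1, h2, -⟩ := exists_piece hc hT hS hq
    rcases h1 with rfl | h1
    · obtain ⟨O, hO⟩ := (h P Subset.rfl).1 hu a b c d hq h2 σ
      exact key P (Or.inl rfl) O hO
    · obtain ⟨-, -, -, -, -, -, -, -, -, -, -, -, x, y, hx, -⟩ := h1.str hc hT hS hq
      obtain ⟨O, hO⟩ := (h P h1.1).1 ⟨hx.card, hb P h1⟩ a b x y hx h2 σ
      exact key P (Or.inr h1) O hO
  obtain ⟨-, -, -, -, -, -, hv, -, -, -, -, -, x, y, hx, -⟩ := s0.str hc hT hS hq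
  obtain ⟨X1, u, w, h1, h2, h3, h4, h5, -⟩ := exists_next hc hT hS hq s0 hx
  have hX : X1 ⊆ S := h1.elim (fun e => e.subset) fun e => e.1
  have hn : ¬ G.Bal (G.ins X1) := h1.elim (fun e => e ▸ hu.2) fun e => hm X1 e (Spl_ss h2)
  have key2 : ∀ O1, G.Pas0 X1 O1 a b ∅ (G.Kus (X1 \ X0)) (Rl.P σ) →
      ∃ X O, G.Rg S X c d ∧ G.Pas0 X O a b ∅ (G.Kp S X c d) (Rl.P σ) := fun O1 hO =>
    key X1 h1 O1 (hO.cov fun t ht => (h2.cov1 hc hT (hX.trans hS) h3 hx hB h5 t ht).imp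
      (fun k => ⟨t, k, Subset.rfl⟩) fun k => ⟨u, k.1, cut_sub_tch h3.mem.2.2.1, fun k' =>
        (hO.cut.2.2.2.2 u h3.mem.2.2.1 k').elim h3.2.2.1.symm h3.2.2.2.2.1.symm⟩)
  obtain ⟨p, hp⟩ := id hB
  have hD := (h X1 hX).2.2 h3.card a b X0 x y h2 hx p hp
  have hP := h _ (sdiff_subset.trans hX : X1 \ X0 ⊆ S)
  by_cases hB' : G.Bal (G.ins (X1 \ X0))
  · obtain ⟨q, hq'⟩ := id hB'
    obtain ⟨-, -, -, -, l1, -, l2⟩ := h2.link hc hT (hX.trans hS) h3 hx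
    have e : ∀ s t : ZMod 2, s = t ∨ s = t + 1 := by decide
    rcases e σ (p (G.ie X0 a) + p (G.ie X0 b)) with rfl | rfl
    · obtain ⟨O, -, hO⟩ := (h X0 s0.1).2.1 a b x y hx hv p hp
      exact key X0 (Or.inr s0) O (kus_bal hB ▸ hO)
    · obtain ⟨Om, -, hO⟩ := hP.2.1 x y u w h4 l1 q hq'
      obtain ⟨O, -, k, -⟩ := hD Om _ _ hO
      have k' := k _ fun _ r => r
      rw [add_assoc, add_assoc, ← add_assoc (p (G.ie X0 x) + p (G.ie X0 y)),
        sgn h2.1 l2 hn hp hq'] at k'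
      exact key2 O (kus_bal hB' ▸ k')
  · obtain ⟨Om, hO⟩ := hP.1 ⟨h4.card, hB'⟩ x y u w h4 h5 (σ - (p (G.ie X0 a) + p (G.ie X0 b) +
      (p (G.ie X0 x) + p (G.ie X0 y)) + (G.n x + G.n y)))
    obtain ⟨O, -, k, -⟩ := hD Om _ _ hO
    have k' := k _ fun _ r => r
    rw [add_sub_cancel] at k'
    exact key2 O k'

end SG

end Pool.Agent.Work.MP_8c679b_co
end

-- merged part: Pool.Agent.Work.MP_8c679b_co.Six.PRun
section
/-!
Runs along a given circuit through vertices and rungs; repairing the rungs.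
-/

set_option autoImplicit false

namespace Pool.Agent.Work.MP_8c679b_co

open Finset

namespace SG

variable {V E : Type} [Fintype V] [DecidableEq V] [DecidableEq E] {G : SG V E}
  {T S W X : Finset V} {a b c d : E} {Bs Ds : Finset (Finset V)}
  {L C O : Finset E} {ρ : Finset V} {φ : E → ZMod 3}

/-- a state without digons -/
theorem sps_plain (hT : G.HT T) (hW : W ⊆ T) (hD : G.VD W ∅ Ds) : G.SPS T W ∅ ∅ Ds :=
  ⟨hW, by simp, fun _ h => by simp at h, disjoint_empty_left _, by simpa [ends] using hD,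
    fun U hU hn => card_pos.1 (lt_of_lt_of_le (by norm_num)
      (hT.mono3 ((by simpa using hU : U ⊆ W).trans hW) hn))⟩

theorem PRun_node (hc : G.Cub) (hT : G.HT T) (hW : W ⊆ T) (hD : G.VD W ∅ Ds) (hC : C ⊆ G.ins W)
    (hE : G.Ev C) {N : Finset V} {v : V} (hv : v ∈ W) (hN : N = nd Ds v) (ha : a ∈ C) (hb : b ∈ C)
    (ha' : a ∈ G.cut N) (hb' : b ∈ G.cut N) (hab : a ≠ b)
    (h : ∀ f ∈ C, f ∈ G.cut N → f = a ∨ f = b)
    (hL : N ∈ Ds → ∀ e ∈ G.cut N, e ∈ G.cut W → e ∈ L) :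
    N ⊆ G.vs C ∧ G.Pas0 N (C ∩ G.tch N) a b L {t | N ∈ Ds ∧ t = G.tg W N} Rl.Tt := by
  have m1 : G.ie N a ∈ N := Spl_ie ha'
  have m2 : G.ie N a ∈ G.vs C := mem_vs.2 ⟨a, ha, ie_at⟩
  have key : G.ins N ⊆ C → C ∩ G.tch N = insert a (insert b (G.ins N)) := fun hs => by
    ext f
    rw [mem_inter, mem_insert, mem_insert, mem_tch_iff]
    constructor
    · rintro ⟨h1, h2 | h2⟩
      · exact Or.inr (Or.inr h2)
      · exact (h f h1 h2).imp_right Or.inl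
    · rintro (rfl | rfl | h1)
      · exact ⟨ha, Or.inr ha'⟩
      · exact ⟨hb, Or.inr hb'⟩
      · exact ⟨hs h1, Or.inl h1⟩
  rcases nd_cases hD.1 v with h1 | ⟨h1, h2⟩
  · rw [← hN] at h1
    obtain ⟨k1, k2, -⟩ := (hD.2 N h1).on_even hc hT hW hC hE (not_disjoint_iff.2 ⟨_, m1, m2⟩)
    rw [key k2]
    exact ⟨k1, ((rung_cs hc hT hW (hD.2 N h1) (mem_inter.2 ⟨ha', hC ha⟩) (mem_inter.2 ⟨hb', hC hb⟩)
      hab (hL h1)).cov fun t ht => Or.inl ⟨t, ht.2, Subset.rfl⟩).imp fun _ => Rl.Cs.tt⟩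
  · rw [h2] at hN
    subst hN
    obtain ⟨-, k1, -⟩ := hT.vtx hc (hW hv)
    obtain ⟨g, hg⟩ := hT.third hc (hW hv) ha' hb' hab
    rw [key (k1 ▸ empty_subset _), k1]
    rw [mem_singleton.1 m1] at m2
    exact ⟨singleton_subset_iff.2 m2, ((vtx_p k1 hg).cov fun t ht =>
      absurd (mem_singleton_self v) (h1 _ ht.1)).imp fun _ h => h.1.tt⟩

omit [Fintype V] in
theorem PRun_fix {U : Finset V} {e : E} (hU : U ⊆ W) (h : e ∈ G.tch (W \ U)) :
    e ∉ G.fr U (G.cut W) := by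
  have h1 := @hU (G.s e)
  have h2 := @hU (G.t e)
  simp only [fr, mem_union, mem_inter, mem_ins, mem_cut, mem_tch, mem_sdiff] at h ⊢
  (clear * - h h1 h2; grind)

/-- The run along a circuit with one rung removed.
HINT: `fc_exists` with `Fm = ∅`, `Bs = ∅`, `F = C`, start at `ρ` with exit `c`; the nodes are
rungs (`rung_cs`, `Rdy.on_even`) or single vertices (`vtx_p`); their union is `vs C` because `C`
is connected; `run_pas` for the shifted sequence inside `Y = W \ ρ` with the live set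
`L ∩ cut Y`, `Rl.ch_tt`, `Pas0.monoL`.  An even set at a node is determined by its leaving
edges. -/
theorem path_run (hc : G.Cub) (hT : G.HT T) (hW : W ⊆ T) (hD : G.VD W ∅ Ds) (hLW : L ⊆ G.cut W)
    (hL : ∀ ρ ∈ Ds, ∀ e ∈ G.cut ρ, e ∈ G.cut W → e ∈ L) (hC : C ⊆ G.ins W) (cC : G.Cc C)
    (hρ : ρ ∈ Ds) (hm : ¬ Disjoint ρ (G.vs C)) (hcd : G.tg W ρ = {c, d}) (hne : c ≠ d) :
    G.Pas0 (G.vs C \ ρ) (C \ G.ins ρ) c d L
      {t | ∃ ρ' ∈ Ds, ρ' ⊆ G.vs C \ ρ ∧ t = G.tg W ρ'} Rl.Tt := by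
  have hr := hD.2 ρ hρ
  obtain ⟨k1, k2, k3⟩ := hr.on_even hc hT hW hC cC.2.1 hm
  obtain ⟨v0, hv0, hv0'⟩ := not_disjoint_iff.1 hm
  have mc := mem_inter.1 (hcd ▸ mem_insert_self _ _ : c ∈ G.tg W ρ)
  have md := mem_inter.1 (hcd ▸ mem_insert_of_mem (mem_singleton_self _) : d ∈ G.tg W ρ)
  have e0 := nd_of_mem hD.1 hρ hv0
  obtain ⟨n, N, e, hF, n0, e1⟩ := fc_exists (Fm := ∅) (Bs := ∅) (F := C) (v := v0) (f := c) hc hT
    ⟨fun _ h => h.elim, fun _ h => h.elim⟩ (sps_plain hT hW hD)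
    ⟨fun _ h => by simp at h, fun _ h => by simp at h, fun _ h => h.elim⟩
    ⟨hC, fun v _ => by simpa [ends] using cC.2.1 v⟩ (fun _ h => h.elim)
    (mem_union_left _ (hr.1 hv0)) (mem_union_left _ (k3 (mem_inter.2 mc)))
    (by simpa [e0] using mc.1)
  simp only [Fc, ends, union_empty, empty_union, biUnion_empty, e0] at hF n0
  obtain ⟨⟨t1, t2, t3⟩, hn, el, f1, f2, f3⟩ := hF
  have ed : d = e 0 := (f2 0 (by omega) d (k3 (mem_inter.2 md)) (n0 ▸ md.1)).resolve_right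
    (e1 ▸ hne.symm)
  have f1' : ∀ i ≤ n, e (i + 1) ∈ C := fun i hi => by
    rcases hi.eq_or_lt with rfl | h
    · exact el ▸ f1 0 (by omega)
    · exact f1 _ h
  have node := fun (L' : Finset E) (i : ℕ) (hi : i ≤ n)
      (h : N i ∈ Ds → ∀ e ∈ G.cut (N i), e ∈ G.cut W → e ∈ L') =>
    PRun_node hc hT hW hD hC cC.2.1 (f3 i hi).choose_spec.1 (f3 i hi).choose_spec.2 (f1 i hi)
      (f1' i hi) (t3 i hi).1 (t3 i hi).2.1 (t3 i hi).2.2 (f2 i hi) h
  have lk : ∀ i ≤ n, e (i + 1) ∈ G.ins (bu n N) := fun i hi => by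
    rcases hi.eq_or_lt with rfl | h
    · exact ins_mono (union_subset (Run_sub le_rfl) (Run_sub (Nat.zero_le _)))
        (ie_link (t2 _ le_rfl 0 (by omega) (by omega)) (t3 _ le_rfl).2.1 (el ▸ (t3 0 (by omega)).1)).2
    · exact ins_mono (union_subset (Run_sub hi) (Run_sub h))
        (ie_link (t2 i hi _ h (by omega)) (t3 i hi).2.1 (t3 _ h).1).2
  have all : G.vs C ⊆ bu n N := by
    refine cC.2.2.sub_of_crs (eq_empty_of_forall_notMem fun f hf => ?_) hv0'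
      (Run_sub (Nat.zero_le _) (n0 ▸ hv0))
    obtain ⟨h1, h2⟩ := mem_crs.1 hf
    have h3 : f ∈ G.cut (bu n N) := mem_cut.2 ⟨ins_sub_A (hC h1), h2⟩
    obtain ⟨i, hi, h4⟩ := Run_tch_bu.1 (cut_sub_tch h3)
    refine not_ins_of_cut h3 ?_
    rcases f2 i hi f h1 (cut_of_sub (Run_sub hi) h3 h4).1 with rfl | rfl
    · rcases i with _ | i
      · exact el ▸ lk n le_rfl
      · exact lk i (by omega)
    · exact lk i hi
  obtain ⟨m, rfl⟩ : ∃ m, n = m + 1 := ⟨n - 1, by omega⟩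
  have hY : ∀ i ≤ m, N (i + 1) ⊆ W \ ρ := fun i hi =>
    subset_sdiff.2 ⟨t1 _ (by omega), n0 ▸ t2 _ (by omega) 0 (by omega) (by omega)⟩
  have cY : ∀ f ∈ G.cut ρ, f ∈ G.ins W → f ∈ G.cut (W \ ρ) := fun f h1 h2 =>
    (Spl_sd hr.1 f).2 fun h => not_ins_of_cut (h.2 h1) h2
  have nd' := fun i (hi : i ≤ m) => node (L ∩ G.cut (W \ ρ)) (i + 1) (by omega) fun h f h1 h2 =>
    mem_inter.2 ⟨hL _ h f h1 h2, (cut_of_sub sdiff_subset h2 (tch_mono (hY i hi) (cut_sub_tch h1))).1⟩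
  have run := (run_pas (X := fun i => N (i + 1)) (e := fun i => e (i + 1)) (C0 := Rl.Tt) hY
    (fun i hi j hj h => t2 _ (by omega) _ (by omega) (by omega)) inter_subset_right
    (fun i hi => (nd' i hi).2) (e1 ▸ cY c mc.1 mc.2) (by rw [el, ← ed]; exact cY d md.1 md.2)
    (by rw [el, ← ed, zero_add, e1]; exact hne) fun _ h => Rl.ch_tt h).1
  have q1 : bu m (fun i => N (i + 1)) = G.vs C \ ρ := by
    ext v
    rw [Run_mem_bu, mem_sdiff]
    constructor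
    · rintro ⟨i, hi, h⟩
      exact ⟨(nd' i hi).1 h, (mem_sdiff.1 (hY i hi h)).2⟩
    · rintro ⟨h1, h2⟩
      obtain ⟨_ | i, hi, h⟩ := Run_mem_bu.1 (all h1)
      · exact absurd (n0 ▸ h) h2
      · exact ⟨i, by omega, h⟩
  have q2 : bu m (fun i => C ∩ G.tch (N (i + 1))) = C \ G.ins ρ := by
    ext f
    have : f ∈ G.tch (G.vs C \ ρ) ↔ ∃ i ≤ m, f ∈ G.tch (N (i + 1)) := q1 ▸ Run_tch_bu
    rw [Run_mem_bu, mem_sdiff]
    constructor
    · rintro ⟨i, hi, h⟩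
      have h2 := this.2 ⟨i, hi, (mem_inter.1 h).2⟩
      refine ⟨(mem_inter.1 h).1, fun h3 => ?_⟩
      simp only [mem_tch, mem_ins, mem_sdiff] at h2 h3
      (clear * - h2 h3 mc md this; tauto)
    · rintro ⟨h1, h2⟩
      obtain ⟨i, hi, h⟩ := this.1 (by
        have a1 := s_mem_vs (G := G) h1
        have a2 := t_mem_vs (G := G) h1
        have a3 := ins_sub_A (hC h1)
        simp only [mem_tch, mem_ins, mem_sdiff] at h2 ⊢
        (clear * - a1 a2 a3 h2 mc md this; grind))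
      exact ⟨i, hi, mem_inter.2 ⟨h1, h⟩⟩
  rw [q1, q2, el, ← ed, zero_add, e1] at run
  refine (run.monoL fun _ _ h => (mem_inter.1 h).1).cov ?_
  rintro t ⟨ρ', h1, h2, rfl⟩
  obtain ⟨-, ⟨u, w, -, h3, -⟩, -⟩ := hD.2 ρ' h1
  have hu : u ∈ ρ' := h3 ▸ mem_insert_self _ _
  obtain ⟨i, hi, h4⟩ := Run_mem_bu.1 (q1.symm ▸ h2 hu)
  obtain ⟨z, -, hz⟩ := f3 (i + 1) (by omega)
  have : N (i + 1) = ρ' := by
    rw [hz, ← (nd_eq_iff hD.1).2 (hz ▸ h4), nd_of_mem hD.1 h1 hu]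
  exact Or.inl ⟨_, ⟨i, hi, this ▸ h1, congrArg _ this.symm⟩, Subset.rfl⟩

/-- HINT: `path_run`, `rung_cs`, `close_two`. -/
theorem cyc_run (hc : G.Cub) (hT : G.HT T) (hW : W ⊆ T) (hD : G.VD W ∅ Ds) (hLW : L ⊆ G.cut W)
    (hL : ∀ ρ ∈ Ds, ∀ e ∈ G.cut ρ, e ∈ G.cut W → e ∈ L) (hC : C ⊆ G.ins W) (cC : G.Cc C)
    (hρ : ρ ∈ Ds) (hm : ¬ Disjoint ρ (G.vs C)) :
    G.Abs0 (G.vs C) C L {t | ∃ ρ' ∈ Ds, ρ' ⊆ G.vs C ∧ t = G.tg W ρ'} := by
  have hr := hD.2 ρ hρ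
  obtain ⟨k1, k2, k3⟩ := hr.on_even hc hT hW hC cC.2.1 hm
  obtain ⟨-, -, -, a, b, c, d, -, -, -, -, hq, hab, -⟩ := hr.str hc hT hW
  have ma : a ∈ G.tg W ρ := hab ▸ mem_insert_self _ _
  have mb : b ∈ G.tg W ρ := hab ▸ mem_insert_of_mem (mem_singleton_self _)
  have h := (close_two (path_run hc hT hW hD hLW hL hC cC hρ hm hab hq.2.1)
    (rung_cs hc hT hW hr mb ma hq.2.1.symm (hL ρ hρ)) sdiff_disjoint hLW
    (sdiff_subset.trans (sub_ins_iff.1 hC).2) hr.1 fun R1 R2 h1 ⟨x0, y0, h2⟩ => by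
      obtain ⟨y, hy⟩ := h1.1 (-(chi (G.n a)) * y0)
      exact ⟨_, y, y0, hy, h2 _ _ (Or.inr rfl), rfl⟩).1
  rw [sdiff_union_of_subset k1, union_insert, union_insert, sdiff_union_of_subset k2,
    insert_eq_of_mem (k3 ma), insert_eq_of_mem (k3 mb)] at h
  refine h.cov ?_
  rintro t ⟨ρ', h1, h2, rfl⟩
  refine Or.inl ⟨_, ?_, Subset.rfl⟩
  by_cases e : ρ' = ρ
  · exact Or.inr (e ▸ rfl)
  · exact Or.inl ⟨ρ', h1, subset_sdiff.2 ⟨h2, hD.1 _ h1 _ hρ e⟩, rfl⟩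

/-- A solution can be changed so that it hits the end edges of all rungs.
HINT: induction on the number of rungs that are not hit.  An unhit rung lies on a component `C`
of `O` (`Ev.cc`); on `tch (vs C)` the sets `O` and `C` agree; apply `cyc_run` with
`L = cut W` to the given values `φ`.  The changed edges meet `W` only in `vs C`; a rung is
disjoint from `vs C` or inside it (`Rdy.on_even`). -/
theorem repair (hc : G.Cub) (hT : G.HT T) (hW : W ⊆ T) (hD : G.VD W ∅ Ds) (hS : G.St W O ∅)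
    (h : G.Sl W O ∅ φ) : ∃ φ', G.Sl W O {t | ∃ ρ ∈ Ds, t = G.tg W ρ} φ' := by
  suffices H : ∀ D : Finset (Finset V), D ⊆ Ds → ∃ φ', G.Sl W O {t | ∃ ρ ∈ D, t = G.tg W ρ} φ' from
    H Ds Subset.rfl
  intro D
  induction D using Finset.induction_on with
  | empty => exact fun _ => ⟨φ, h.1, h.2.1, fun _ ⟨_, h, _⟩ => absurd h (notMem_empty _)⟩
  | insert ρ D _ ih =>
    intro hs
    obtain ⟨ψ, h1, h2, h3⟩ := ih ((subset_insert _ _).trans hs)
    have hρ := hs (mem_insert_self _ _)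
    by_cases hit : G.Hit W O ψ (G.tg W ρ)
    · refine ⟨ψ, h1, h2, ?_⟩
      rintro t ⟨ρ', k, rfl⟩
      rcases mem_insert.1 k with rfl | k
      · exact hit
      · exact h3 _ ⟨ρ', k, rfl⟩
    obtain ⟨-, -, -, a, b, -, -, -, -, -, -, -, hab, -⟩ := (hD.2 ρ hρ).str hc hT hW
    have ma := mem_inter.1 (hab ▸ mem_insert_self _ _ : a ∈ G.tg W ρ)
    have aO : a ∈ O := by
      by_contra hn
      exact hit ⟨a, mem_inter.2 ma, ins_sub_tch ma.2, Or.inl hn⟩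
    obtain ⟨C, c1, c2, c3, c4, -⟩ := exists_cmp (G := G) O (G.s a)
    have aC : a ∈ C := (c2 a aO).2 (Rch.refl _ _)
    have cC : G.Cc C := ⟨⟨a, aC⟩, fun v => by rw [c3, hS.ev v, ite_self], cn_of_base c4⟩
    have hC := c1.trans hS.sub_ins
    have hU := (sub_ins_iff.1 hC).2
    have hm : ¬ Disjoint ρ (G.vs C) := not_disjoint_iff.2 ⟨_, Spl_ie ma.1, mem_vs.2 ⟨a, aC, ie_at⟩⟩
    have run := (cyc_run hc hT hW hD Subset.rfl (fun _ _ _ _ h => h) hC cC hρ hm).2.congrO (O' := O)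
      fun e he => ⟨fun h => (c2 e h).2 (((c4 _ (ie_mem he)).mono c1).trans
        (rch_at h ie_at (Or.inl rfl))), fun h => c1 h⟩
    obtain ⟨χ, r1, r2, r3, r4⟩ := run.2 ψ (fun e he _ h => h2 e (tch_mono hU he) h) trivial
    refine ⟨χ, fun v hv => ?_, fun e he hn => ?_, ?_⟩
    · by_cases k : v ∈ G.vs C
      · exact r2 v k
      · rw [← h1 v hv]
        exact bd_congr fun e he ha => r1 e (PRun_fix hU (Cut_tch he ha (mem_sdiff.2 ⟨hv, k⟩)))
    · by_cases k : e ∈ G.tch (G.vs C)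
      · exact r3 e k hn
      · rw [r1 e fun h => k (fr_sub_tch h)]
        exact h2 e he hn
    · rintro t ⟨ρ', k, rfl⟩
      have hr := hD.2 ρ' (hs k)
      by_cases dj : Disjoint ρ' (G.vs C)
      · obtain ⟨e, e1, e2, e3⟩ := h3 _ ⟨ρ', (mem_insert.1 k).resolve_left fun e => hm (e ▸ dj), rfl⟩
        refine ⟨e, e1, e2, ?_⟩
        rwa [r1 e (PRun_fix hU (tch_mono (subset_sdiff.2 ⟨hr.1, dj⟩)
          (cut_sub_tch (mem_inter.1 e1).1)))]
      · exact (r4 _ ⟨ρ', hs k, (hr.on_even hc hT hW hC cC.2.1 dj).1, rfl⟩).mono hU Subset.rfl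

/-- the form of `repair` for regions in which no unbalanced side has its cut inside -/
theorem csp_of_free (hc : G.Cub) (hT : G.HT T) (hW : W ⊆ T) (hD : G.VD W ∅ Ds)
    (hF : ∀ S ⊆ W, G.US S → ¬ G.cut S ⊆ G.ins W) {K : Set (Finset E)} (h : G.Abs0 W O L K) :
    G.CSp W Ds (G.par O) := by
  obtain ⟨φ, h1, h2, -⟩ := h.2.sl
  obtain ⟨ψ, h3⟩ := repair hc hT hW hD h.1 ⟨h1, h2, fun _ h => h.elim⟩
  refine ⟨O, rfl, abs0_of_sl h.1 (h3.cov ?_)⟩
  rintro t (⟨S, k1, k2, rfl⟩ | k)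
  · obtain ⟨e, e1, e2⟩ := not_subset.1 (hF S k2 k1)
    exact Or.inr ⟨e, e1, tch_mono k2 (cut_sub_tch e1), fun h' => e2 (h.1.sub_ins h')⟩
  · exact Or.inl ⟨t, k, Subset.rfl⟩

end SG

end Pool.Agent.Work.MP_8c679b_co
end
end

-- merged part: Pool.Agent.Work.MP_8c679b_co.Cubic
section
-- merged part: Pool.Agent.Work.MP_8c679b_co.TM
section
set_option autoImplicit false

namespace Pool.Agent.Work.MP_8c679b_co

open Finset

namespace SG

variable {V E : Type} [Fintype V] [DecidableEq V] [DecidableEq E] {G : SG V E}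

theorem tmain (hc : G.Cub) (hA : G.Adm) (W : Finset V) (h2 : G.Two W (G.ins W))
    (hU : ¬ G.Bal (G.ins W)) (hN : ∃ v ∈ W, G.deg (G.ins W) v = 3) (hS : G.S3 W) : G.Flex W := by
  induction W using Finset.strongInduction with
  | H W ih =>
  have hA1 := hA.adm1
  have hD : G.DecH W := by
    intro W' hW' Q hQ cQ pQ
    obtain ⟨L, l1, l2, l3, l4, δ, l5⟩ := reduce_two hA1 hQ cQ
    have hQA : Q ⊆ G.A := hQ.trans ins_sub_A
    have hQL : Q ⊆ G.ins L := sub_ins_iff.2 ⟨hQA, l1⟩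
    have fl : G.Flex L → G.Flex W' := fun h =>
      flex_of_ne (ε := δ) (by simpa using l5 0 h.1) (by simpa [add_comm] using l5 1 h.2)
    by_cases h3 : ∃ v ∈ L, G.deg (G.ins L) v = 3
    · exact Or.inl (fl (ih L (Finset.ssubset_of_subset_of_ssubset l2 hW') l3 (cQ.not_bal pQ hQL) h3
        fun X hX => hS X (hX.trans (l2.trans hW'.subset))))
    push Not at h3
    have k : ∀ e ∈ G.ins L, ∀ v ∈ G.vs Q, G.At e v → e ∈ Q := fun e he v hv h => by
      refine mem_of_deg_le hQL ?_ he h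
      have a1 := hc.le3 (ins_sub_A (W := L)) v
      have a2 := h3 v (l1 hv)
      have a3 := deg2_of_dg hc hQA hv (cQ.2.1 v)
      omega
    have e : G.vs Q = L := by
      by_contra h
      obtain ⟨v, -, -, ⟨hv, e, a1, a2, a3⟩, -⟩ := two_br hc l3 hQL cQ h
      exact a2 (k e a1 v hv a3)
    subst e
    by_cases h0 : G.Sol (G.vs Q) 0
    · refine Or.inl (fl ⟨h0, ?_⟩)
      simpa using abs_odd hQL cQ pQ (ε := 0) (by rw [sdiff_self]; exact sol_empty)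
    · refine Or.inr ⟨fun C hC hE e he v hv h => k e (l4 C hC hE e he (mem_tch.2
        ⟨ins_sub_A (hC he), ?_⟩)) v hv h, h0⟩
      exact Or.imp (fun a : G.s e = v => a ▸ hv) (fun a : G.t e = v => a ▸ hv) h
  by_cases h1 : (G.cut W).card = 1
  · exact flex_of_cut hA1 h1
  by_cases hK : G.K1 W
  swap
  · unfold K1 at hK
    push Not at hK
    obtain ⟨H, a1, Q, a2, a3, a4, a5, a6, a7⟩ := hK
    exact tk hc hA1 h2 hD a1 a3 a4 a2 a5 a6 a7
  constructor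
  · by_cases hno : ∀ H ⊆ G.ins W, G.Cc H → G.par H = 0 → ∀ y1 ∈ G.vs H, ∀ y2 ∈ G.vs H,
        G.Ex W y1 → G.Ex W y2 → y1 = y2
    · exact t2 hc hA1 h2 hK hU hN hS h1 (fun h z => hA.erase h hU z) hno
    · push Not at hno
      obtain ⟨H, a1, a2, a3, y1, a4, y2, a5, a6, a7, a8⟩ := hno
      exact t1 hc hA1 h2 hD hK a1 a2 a3 a8 a4 a5 a6 a7
  · obtain ⟨H, a1, a2, a3⟩ := exists_odd_cc hU
    have hB : G.Bal (G.ins (W \ G.vs H)) := by
      by_contra h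
      obtain ⟨Q, b1, b2, b3⟩ := exists_odd_cc h
      exact hK H a1 Q (b1.trans (ins_mono sdiff_subset)) a2 a3 b2 b3
        (disjoint_sdiff.mono_right (sub_ins_iff.1 b1).2)
    simpa using abs_odd a1 a2 a3 (sol_of_bal hA1 hB)

end SG

end Pool.Agent.Work.MP_8c679b_co
end

-- merged part: Pool.Agent.Work.MP_8c679b_co.Six.Loc
section
/-!
Local versions of `sol_exists` and `tmain`: only conditions on subsets of `W` are needed.

HINT for the localisation: given `G` and `W`, let `G'` live on `V ⊕ E` with edges `E ⊕ E`: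
`inl e` for `e ∈ G.tch W`, whose ends are `inl (G.s e)` if `G.s e ∈ W` and `inr e` otherwise
(the same for `G.t e`), sign `G.n e`; and `inr e` for `e ∈ G.cut W`, a loop at `inr e` with sign
`1`.  (`E` need not be a `Fintype`: use the subtype of `G.A`, or `Fin G.A.card`, or the vertex
type `V ⊕ G.A`.)  A vertex set of `G'` that contains some `inr e` with `e ∈ G.cut W` contains a
negative loop, so `G'.Adm1` follows from the local condition.  `G'` is cubic if `G` is.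
Solutions on `W.map inl` in `G'` restrict to solutions on `W` in `G`.
-/

set_option autoImplicit false

namespace Pool.Agent.Work.MP_8c679b_co

open Finset

namespace SG

variable {V E : Type} [Fintype V] [DecidableEq V] [DecidableEq E] {G : SG V E}
  {T W : Finset V}

/-- HINT: copy the proof of `tmain` in `TM.lean`; in the recursive call `L ⊂ W` is nonempty and
`W` is two-edge-connected, so `G.cut L ≠ ∅`. -/
theorem tmain1 (hc : G.Cub) (hA : G.Adm1) (W : Finset V) (h2 : G.Two W (G.ins W))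
    (hU : ¬ G.Bal (G.ins W)) (hN : ∃ v ∈ W, G.deg (G.ins W) v = 3) (hS : G.S3 W)
    (hz : G.cut W = ∅ → ∀ z, ¬ G.Bal ((G.ins W).erase z)) : G.Flex W := by
  induction W using Finset.strongInduction with
  | H W ih =>
  have hA1 := hA
  have hD : G.DecH W := by
    intro W' hW' Q hQ cQ pQ
    obtain ⟨L, l1, l2, l3, l4, δ, l5⟩ := reduce_two hA1 hQ cQ
    have hQA : Q ⊆ G.A := hQ.trans ins_sub_A
    have hQL : Q ⊆ G.ins L := sub_ins_iff.2 ⟨hQA, l1⟩
    have fl : G.Flex L → G.Flex W' := fun h =>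
      flex_of_ne (ε := δ) (by simpa using l5 0 h.1) (by simpa [add_comm] using l5 1 h.2)
    have hcL : G.cut L ≠ ∅ := by
      have k0 := Finset.ssubset_of_subset_of_ssubset l2 hW'
      have k1 := h2 L k0.subset ((Sol_vs_nonempty cQ).mono l1) k0.ne
      obtain ⟨e, he⟩ := card_pos.1 (show 0 < (G.crs (G.ins W) L).card by omega)
      exact ne_empty_of_mem (mem_cut.2 ⟨ins_sub_A (mem_crs.1 he).1, (mem_crs.1 he).2⟩)
    by_cases h3 : ∃ v ∈ L, G.deg (G.ins L) v = 3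
    · exact Or.inl (fl (ih L (Finset.ssubset_of_subset_of_ssubset l2 hW') l3 (cQ.not_bal pQ hQL) h3
        (fun X hX => hS X (hX.trans (l2.trans hW'.subset))) fun h0 => absurd h0 hcL))
    push Not at h3
    have k : ∀ e ∈ G.ins L, ∀ v ∈ G.vs Q, G.At e v → e ∈ Q := fun e he v hv h => by
      refine mem_of_deg_le hQL ?_ he h
      have a1 := hc.le3 (ins_sub_A (W := L)) v
      have a2 := h3 v (l1 hv)
      have a3 := deg2_of_dg hc hQA hv (cQ.2.1 v)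
      omega
    have e : G.vs Q = L := by
      by_contra h
      obtain ⟨v, -, -, ⟨hv, e, a1, a2, a3⟩, -⟩ := two_br hc l3 hQL cQ h
      exact a2 (k e a1 v hv a3)
    subst e
    by_cases h0 : G.Sol (G.vs Q) 0
    · refine Or.inl (fl ⟨h0, ?_⟩)
      simpa using abs_odd hQL cQ pQ (ε := 0) (by rw [sdiff_self]; exact sol_empty)
    · refine Or.inr ⟨fun C hC hE e he v hv h => k e (l4 C hC hE e he (mem_tch.2
        ⟨ins_sub_A (hC he), ?_⟩)) v hv h, h0⟩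
      exact Or.imp (fun a : G.s e = v => a ▸ hv) (fun a : G.t e = v => a ▸ hv) h
  by_cases h1 : (G.cut W).card = 1
  · exact flex_of_cut hA1 h1
  by_cases hK : G.K1 W
  swap
  · unfold K1 at hK
    push Not at hK
    obtain ⟨H, a1, Q, a2, a3, a4, a5, a6, a7⟩ := hK
    exact tk hc hA1 h2 hD a1 a3 a4 a2 a5 a6 a7
  constructor
  · by_cases hno : ∀ H ⊆ G.ins W, G.Cc H → G.par H = 0 → ∀ y1 ∈ G.vs H, ∀ y2 ∈ G.vs H,
        G.Ex W y1 → G.Ex W y2 → y1 = y2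
    · exact t2 hc hA1 h2 hK hU hN hS h1 hz hno
    · push Not at hno
      obtain ⟨H, a1, a2, a3, y1, a4, y2, a5, a6, a7, a8⟩ := hno
      exact t1 hc hA1 h2 hD hK a1 a2 a3 a8 a4 a5 a6 a7
  · obtain ⟨H, a1, a2, a3⟩ := exists_odd_cc hU
    have hB : G.Bal (G.ins (W \ G.vs H)) := by
      by_contra h
      obtain ⟨Q, b1, b2, b3⟩ := exists_odd_cc h
      exact hK H a1 Q (b1.trans (ins_mono sdiff_subset)) a2 a3 b2 b3
        (disjoint_sdiff.mono_right (sub_ins_iff.1 b1).2)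
    simpa using abs_odd a1 a2 a3 (sol_of_bal hA1 hB)

theorem sol_loc (h : ∀ X ⊆ W, (G.cut X).card = 1 → ¬ G.Bal (G.ins X)) : ∃ ε, G.Sol W ε := by
  have hA := h
  clear h
  induction W using Finset.strongInduction with
  | H W ih0 =>
    have ih : ∀ W' ⊂ W, ∃ ε, G.Sol W' ε := fun W' hW' =>
      ih0 W' hW' fun X hX => hA X (hX.trans hW'.subset)
    by_cases hb : G.Bal (G.ins W)
    swap
    · obtain ⟨C, h1, h2, h3⟩ := exists_odd_cc hb
      obtain ⟨ε, h4⟩ := ih _ (Sol_sdiff_ssub (sub_ins_iff.1 h1).2 (Sol_vs_nonempty h2))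
      exact ⟨_, abs_odd h1 h2 h3 h4⟩
    by_cases ht : G.Two W (G.ins W)
    swap
    · unfold Two at ht
      push Not at ht
      obtain ⟨X, h1, h2, h3, h4⟩ := ht
      obtain ⟨a, h5⟩ := ih X (Finset.ssubset_iff_subset_ne.2 ⟨h1, h3⟩)
      obtain ⟨b, h6⟩ := ih _ (Sol_sdiff_ssub h1 h2)
      exact ⟨_, Sol_join h1 (by omega) h5 h6⟩
    rcases W.eq_empty_or_nonempty with rfl | ⟨x, hx⟩
    · exact ⟨0, sol_empty⟩
    have hb' := hb
    obtain ⟨p, hp⟩ := hb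
    rcases Nat.lt_trichotomy (G.cut W).card 1 with h | h | h
    · obtain ⟨ε, h1⟩ := ih _ (Sol_sdiff_ssub (singleton_subset_iff.2 hx) (singleton_nonempty x))
      exact Sol_closed hp (card_eq_zero.1 (by omega)) hx h1
    · exact absurd hb' (hA W Subset.rfl h)
    · obtain ⟨e1, h1, e2, h2, hne⟩ := one_lt_card.1 h
      obtain ⟨x1, h3, h4⟩ := Sol_cut_end h1
      obtain ⟨x2, h5, h6⟩ := Sol_cut_end h2
      by_cases hx12 : x1 = x2
      · subst hx12
        have hU := singleton_subset_iff.2 h3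
        obtain ⟨ε, h7⟩ := ih _ (Sol_sdiff_ssub hU (singleton_nonempty x1))
        exact ⟨ε, abs_two (H := ∅) (p := p) hU (empty_subset _) ev_empty
          (fun a ha b hb => by
            rw [mem_singleton.1 ha, mem_singleton.1 hb]
            exact Rch.refl _ _) (fun e he => absurd he (notMem_empty e)) hne
          (fl_cut hU (empty_subset _) h1 (mem_singleton_self _) h4)
          (fl_cut hU (empty_subset _) h2 (mem_singleton_self _) h6) h7⟩
      · obtain ⟨C, h7, h8, h9, h10⟩ := ht.cc_through Subset.rfl h3 h5 hx12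
        have hU := (sub_ins_iff.1 h7).2
        have hH := sub_ins_vs (G := G) (h7.trans ins_sub_A)
        obtain ⟨ε, h11⟩ := ih _ (Sol_sdiff_ssub hU (Sol_vs_nonempty h8))
        exact ⟨ε, abs_two (p := p) hU hH h8.2.1 h8.2.2 (fun e he => hp e (h7 he)) hne
          (fl_cut hU hH h1 h9 h4) (fl_cut hU hH h2 h10 h6) h11⟩

/-- the image of an end of an edge in the localised graph -/
def Loc_f (G : SG V E) (W : Finset V) (e : E) (x : V) : V ⊕ G.A :=
  if h : e ∈ G.A ∧ x ∉ W then Sum.inr ⟨e, h.1⟩ else Sum.inl x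

/-- the localised graph -/
def Loc_G (G : SG V E) (W : Finset V) : SG (V ⊕ G.A) (E ⊕ G.A) where
  A := (G.tch W).disjSum (univ.filter fun a : G.A => a.1 ∈ G.cut W)
  s := Sum.elim (fun e => G.Loc_f W e (G.s e)) Sum.inr
  t := Sum.elim (fun e => G.Loc_f W e (G.t e)) Sum.inr
  n := Sum.elim G.n fun _ => 1

theorem Loc_in {e : E} {x : V} (hx : x ∈ W) : G.Loc_f W e x = Sum.inl x :=
  dif_neg fun h => h.2 hx

theorem Loc_out {e : E} {x : V} (he : e ∈ G.A) (hx : x ∉ W) :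
    G.Loc_f W e x = Sum.inr ⟨e, he⟩ := dif_pos ⟨he, hx⟩

theorem Loc_eq {e : E} {x v : V} (he : e ∈ G.A) (hv : v ∈ W) :
    G.Loc_f W e x = Sum.inl v ↔ x = v := by
  by_cases hx : x ∈ W
  · rw [Loc_in hx, Sum.inl.injEq]
  · rw [Loc_out he hx]
    exact ⟨fun h => (by cases h), fun h => absurd (h ▸ hv) hx⟩

theorem Loc_ne {e : E} {x v : V} (he : e ∈ G.A) (hv : v ∉ W) : G.Loc_f W e x ≠ Sum.inl v := by
  by_cases hx : x ∈ W
  · rw [Loc_in hx]
    exact fun h => hv (Sum.inl.inj h ▸ hx)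
  · rw [Loc_out he hx]
    exact fun h => by cases h

theorem Loc_inr {e : E} {x : V} (he : e ∈ G.A) (a : G.A) :
    G.Loc_f W e x = Sum.inr a ↔ e = a.1 ∧ x ∉ W := by
  by_cases hx : x ∈ W
  · rw [Loc_in hx]
    exact ⟨fun h => (by cases h), fun h => absurd hx h.2⟩
  · rw [Loc_out he hx, Sum.inr.injEq, Subtype.ext_iff]
    exact ⟨fun h => ⟨h, hx⟩, fun h => h.1⟩

theorem Loc_mem {X : Finset V} (hX : X ⊆ W) {e : E} {x : V} (he : e ∈ G.A) :
    G.Loc_f W e x ∈ X.map Function.Embedding.inl ↔ x ∈ X := by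
  by_cases hx : x ∈ W
  · rw [Loc_in hx]
    exact mem_map' Function.Embedding.inl
  · rw [Loc_out he hx]
    exact ⟨fun h => by simp at h, fun h => absurd (hX h) hx⟩

theorem Loc_s (e : E) : (G.Loc_G W).s (Sum.inl e) = G.Loc_f W e (G.s e) := rfl

theorem Loc_t (e : E) : (G.Loc_G W).t (Sum.inl e) = G.Loc_f W e (G.t e) := rfl

theorem Loc_A (e : E) : Sum.inl e ∈ (G.Loc_G W).A ↔ e ∈ G.tch W := inl_mem_disjSum

theorem Loc_ins {X : Finset V} (hX : X ⊆ W) :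
    (G.Loc_G W).ins (X.map Function.Embedding.inl) = (G.ins X).map Function.Embedding.inl := by
  ext e
  rcases e with e | a
  · rw [mem_ins, Loc_A, Loc_s, Loc_t]
    refine Iff.trans ?_ (mem_map' Function.Embedding.inl).symm
    rw [mem_ins]
    constructor
    · rintro ⟨h1, h2, h3⟩
      have he := (mem_tch.1 h1).1
      exact ⟨he, (Loc_mem hX he).1 h2, (Loc_mem hX he).1 h3⟩
    · rintro ⟨he, h2, h3⟩
      exact ⟨mem_tch.2 ⟨he, Or.inl (hX h2)⟩, (Loc_mem hX he).2 h2, (Loc_mem hX he).2 h3⟩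
  · rw [mem_ins]
    simp [Loc_G]

theorem Loc_crs {X : Finset V} (hX : X ⊆ W) {S : Finset E} (hS : S ⊆ G.A) :
    (G.Loc_G W).crs (S.map Function.Embedding.inl) (X.map Function.Embedding.inl) =
      (G.crs S X).map Function.Embedding.inl := by
  ext e
  rcases e with e | a
  · rw [mem_crs, Loc_s, Loc_t]
    refine Iff.trans ?_ (mem_map' Function.Embedding.inl).symm
    rw [mem_crs]
    refine and_congr (mem_map' Function.Embedding.inl) Iff.rfl |>.trans (and_congr_right fun h => ?_)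
    rw [Loc_mem hX (hS h), Loc_mem hX (hS h)]
  · rw [mem_crs]
    simp

theorem Loc_cut {X : Finset V} (hX : X ⊆ W) {X' : Finset (V ⊕ G.A)}
    (h : ∀ e ∈ G.tch W, ∀ x, G.At e x → (G.Loc_f W e x ∈ X' ↔ x ∈ X)) :
    (G.Loc_G W).cut X' = (G.cut X).map Function.Embedding.inl := by
  ext e
  rcases e with e | a
  · rw [mem_cut, Loc_A, Loc_s, Loc_t]
    refine Iff.trans ?_ (mem_map' Function.Embedding.inl).symm
    rw [mem_cut]
    constructor
    · rintro ⟨h1, h2⟩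
      rw [h e h1 _ (Or.inl rfl), h e h1 _ (Or.inr rfl)] at h2
      exact ⟨(mem_tch.1 h1).1, h2⟩
    · rintro ⟨he, h2⟩
      have h1 : e ∈ G.tch W := by
        refine mem_tch.2 ⟨he, ?_⟩
        by_contra k
        push Not at k
        exact h2 ⟨fun a => absurd (hX a) k.1, fun a => absurd (hX a) k.2⟩
      rw [h e h1 _ (Or.inl rfl), h e h1 _ (Or.inr rfl)]
      exact ⟨h1, h2⟩
  · rw [mem_cut]
    simp [Loc_G]

theorem Loc_deg {S : Finset E} (hS : S ⊆ G.A) {v : V} (hv : v ∈ W) :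
    (G.Loc_G W).deg (S.map Function.Embedding.inl) (Sum.inl v) = G.deg S v := by
  rw [deg, sum_map]
  refine sum_congr rfl fun e he => ?_
  show iv (G.Loc_f W e (G.s e) = _) + iv (G.Loc_f W e (G.t e) = _) = _
  rw [red_iv (Loc_eq (hS he) hv), red_iv (Loc_eq (hS he) hv)]
  rfl

theorem Loc_cub (hc : G.Cub) : (G.Loc_G W).Cub := by
  intro v
  have e0 : (G.Loc_G W).deg (G.Loc_G W).A v =
      ∑ e ∈ G.tch W, (iv (G.Loc_f W e (G.s e) = v) + iv (G.Loc_f W e (G.t e) = v)) +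
        ∑ a ∈ univ.filter fun a : G.A => a.1 ∈ G.cut W,
          (iv (Sum.inr a = v) + iv (Sum.inr a = v)) := sum_disjSum _ _ _
  rw [e0]
  rcases v with v | a
  · rw [sum_eq_zero (s := univ.filter _) fun a _ => by simp [iv], add_zero]
    by_cases hv : v ∈ W
    · have e1 : ∑ e ∈ G.tch W, (iv (G.Loc_f W e (G.s e) = Sum.inl v) +
          iv (G.Loc_f W e (G.t e) = Sum.inl v)) = G.deg G.A v := by
        rw [deg, ← sum_subset (s₁ := G.tch W) (filter_subset _ _) fun e he hn => ?_]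
        · refine sum_congr rfl fun e he => ?_
          rw [red_iv (Loc_eq (mem_tch.1 he).1 hv), red_iv (Loc_eq (mem_tch.1 he).1 hv)]
          rfl
        · by_contra k
          exact hn (sol1_at_tch he hv (inc_pos.1 (Nat.pos_of_ne_zero k)))
      rw [e1]
      exact hc v
    · left
      refine sum_eq_zero fun e he => ?_
      simp [iv, Loc_ne (mem_tch.1 he).1 hv]
  · rw [sum_congr rfl (g := fun e => if e = a.1 then iv (G.s e ∉ W) + iv (G.t e ∉ W) else 0)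
      fun e he => by
        rw [red_iv (Loc_inr (mem_tch.1 he).1 a), red_iv (Loc_inr (mem_tch.1 he).1 a)]
        by_cases k : e = a.1 <;> simp [iv, k],
      sum_congr rfl (s₁ := univ.filter _) (g := fun b => if b = a then 2 else 0) fun b _ => by
        by_cases k : b = a <;> simp [iv, k]]
    rw [sum_ite_eq', sum_ite_eq']
    simp only [mem_filter, mem_univ, true_and, mem_tch, mem_cut, a.2]
    by_cases k1 : G.s a.1 ∈ W <;> by_cases k2 : G.t a.1 ∈ W <;> simp [iv, k1, k2]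

theorem Loc_adm (h : ∀ X ⊆ W, X.Nonempty → 2 ≤ (G.cut X).card) : (G.Loc_G W).Adm1 := by
  intro X' h1 ⟨p, hp⟩
  by_cases k : ∃ a : G.A, a.1 ∈ G.cut W ∧ Sum.inr a ∈ X'
  · obtain ⟨a, k1, k2⟩ := k
    have k3 := hp (Sum.inr a) (mem_ins.2 ⟨inr_mem_disjSum.2 (mem_filter.2 ⟨mem_univ _, k1⟩), k2, k2⟩)
    have k4 : (1 : ZMod 2) + p (Sum.inr a) + p (Sum.inr a) = 0 := k3
    rw [add_assoc, z2_add_self] at k4
    exact absurd k4 (by decide)
  · have hX : W.filter (fun v => Sum.inl v ∈ X') ⊆ W := filter_subset _ _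
    rw [Loc_cut hX fun e he x hx => ?_, card_map] at h1
    · rcases (W.filter fun v => Sum.inl v ∈ X').eq_empty_or_nonempty with k0 | k0
      · rw [k0] at h1
        simp [cut, crs] at h1
      · have := h _ hX k0
        omega
    · by_cases hxW : x ∈ W
      · rw [Loc_in hxW, mem_filter]
        exact ⟨fun a => ⟨hxW, a⟩, fun a => a.2⟩
      · obtain ⟨he1, he2⟩ := mem_tch.1 he
        rw [Loc_out he1 hxW]
        refine ⟨fun a => absurd ⟨⟨e, he1⟩, mem_cut.2 ⟨he1, ?_⟩, a⟩ k, fun a => absurd (hX a) hxW⟩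
        rcases hx with rfl | rfl <;> tauto

theorem Loc_bal {S : Finset E} (hS : S ⊆ G.ins W)
    (h : (G.Loc_G W).Bal (S.map Function.Embedding.inl)) : G.Bal S := by
  obtain ⟨p, hp⟩ := h
  refine ⟨fun v => p (Sum.inl v), fun e he => ?_⟩
  have k := hp (Sum.inl e) (mem_map_of_mem _ he)
  rw [sw, Loc_s, Loc_t, Loc_in (mem_ins.1 (hS he)).2.1, Loc_in (mem_ins.1 (hS he)).2.2] at k
  exact k

theorem Loc_rch {S : Finset E} (hS : S ⊆ G.ins W) {a b : V ⊕ G.A}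
    (h : (G.Loc_G W).Rch (S.map Function.Embedding.inl) a b) :
    G.Rch S (Sum.elim id (fun x => G.s x.1) a) (Sum.elim id (fun x => G.s x.1) b) := by
  induction h with
  | refl => exact Rch.refl _ _
  | tail _ h2 ih =>
    obtain ⟨e', h3, h4⟩ := h2
    obtain ⟨e, he, rfl⟩ := mem_map.1 h3
    have k1 : (G.Loc_G W).s (Function.Embedding.inl e) = Sum.inl (G.s e) :=
      Loc_in (mem_ins.1 (hS he)).2.1
    have k2 : (G.Loc_G W).t (Function.Embedding.inl e) = Sum.inl (G.t e) :=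
      Loc_in (mem_ins.1 (hS he)).2.2
    rw [k1, k2] at h4
    rcases h4 with ⟨rfl, rfl⟩ | ⟨rfl, rfl⟩
    · exact ih.trans (rch_edge he)
    · exact ih.trans (rch_edge he).symm

theorem Loc_sol {ε : ZMod 2} (h : (G.Loc_G W).Sol (W.map Function.Embedding.inl) ε) :
    G.Sol W ε := by
  obtain ⟨O', h1, h2, h3, φ, h4, h5⟩ := h
  rw [Loc_ins Subset.rfl] at h1
  obtain ⟨O, hO, rfl⟩ := subset_map_iff.1 h1
  refine ⟨O, hO, fun v => ?_, ?_, fun e => φ (Sum.inl e), fun v hv => ?_, fun e he hn => ?_⟩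
  · by_cases hv : v ∈ W
    · rw [dg_eq, ← Loc_deg (hO.trans ins_sub_A) hv, ← dg_eq]
      exact h2 _
    · exact dg_of_not_mem fun k => hv ((sub_ins_iff.1 hO).2 k)
  · rw [← h3, par, par, sum_map]
    rfl
  · have e0 : (G.Loc_G W).bd φ (Sum.inl v) =
        ∑ e ∈ G.tch W, (iv (G.Loc_f W e (G.s e) = Sum.inl v) -
          iv (G.Loc_f W e (G.t e) = Sum.inl v) * chi (G.n e)) * φ (Sum.inl e) +
        ∑ a ∈ univ.filter fun a : G.A => a.1 ∈ G.cut W,
          (iv (Sum.inr a = (Sum.inl v : V ⊕ G.A)) - iv (Sum.inr a = (Sum.inl v : V ⊕ G.A)) * chi 1) *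
            φ (Sum.inr a) := sum_disjSum _ _ _
    rw [← h4 (Sum.inl v) (mem_map_of_mem _ hv), e0,
      sum_eq_zero (s := univ.filter _) fun a _ => by simp [iv], add_zero, bd,
      ← sum_subset (s₁ := G.tch W) (filter_subset _ _) fun e he hn => ?_]
    · refine sum_congr rfl fun e he => ?_
      rw [red_iv (Loc_eq (mem_tch.1 he).1 hv), red_iv (Loc_eq (mem_tch.1 he).1 hv)]
    · have k1 : G.s e ≠ v := fun k => hn (sol1_at_tch he hv (Or.inl k))
      have k2 : G.t e ≠ v := fun k => hn (sol1_at_tch he hv (Or.inr k))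
      simp [iv, k1, k2]
  · refine h5 (Sum.inl e) (mem_tch.2 ⟨(Loc_A e).2 he, ?_⟩)
      fun k => hn ((mem_map' Function.Embedding.inl).1 k)
    rw [Loc_s, Loc_t, Loc_mem Subset.rfl (mem_tch.1 he).1, Loc_mem Subset.rfl (mem_tch.1 he).1]
    exact (mem_tch.1 he).2

theorem tmain_loc (hc : G.Cub) (h : ∀ X ⊆ W, X.Nonempty → 2 ≤ (G.cut X).card)
    (h2 : G.Two W (G.ins W)) (hU : ¬ G.Bal (G.ins W)) (hN : ∃ v ∈ W, G.deg (G.ins W) v = 3)
    (hS : G.S3 W) : G.Flex W := by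
  have hcut : ∀ X ⊆ W, (G.Loc_G W).cut (X.map Function.Embedding.inl) =
      (G.cut X).map Function.Embedding.inl := fun X hX =>
    Loc_cut hX fun e he x _ => Loc_mem hX (mem_tch.1 he).1
  obtain ⟨v, hv, hd⟩ := hN
  have k := tmain1 (G := G.Loc_G W) (Loc_cub hc) (Loc_adm h) (W.map Function.Embedding.inl)
    (fun X' hX' hn hne => ?_) (fun hb => hU ?_) ⟨Sum.inl v, mem_map_of_mem _ hv, ?_⟩
    (fun X' hX' hcard hcn hb => ?_) fun h0 => ?_
  · exact ⟨Loc_sol k.1, Loc_sol k.2⟩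
  · obtain ⟨X, hX, rfl⟩ := subset_map_iff.1 hX'
    rw [Loc_ins Subset.rfl, Loc_crs hX ins_sub_A, card_map]
    exact h2 X hX (map_nonempty.1 hn) fun e => hne (by rw [e])
  · rw [Loc_ins Subset.rfl] at hb
    exact Loc_bal Subset.rfl hb
  · rw [Loc_ins Subset.rfl, Loc_deg ins_sub_A hv, hd]
  · obtain ⟨X, hX, rfl⟩ := subset_map_iff.1 hX'
    rw [Loc_ins hX] at hcn hb
    rw [hcut X hX, card_map]
    rw [card_map] at hcard
    exact hS X hX hcard (fun a ha b hb =>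
      Loc_rch (ins_mono hX) (hcn _ (mem_map_of_mem _ ha) _ (mem_map_of_mem _ hb)))
      (Loc_bal (ins_mono hX) hb)
  · have k1 := h W Subset.rfl ⟨v, hv⟩
    rw [hcut W Subset.rfl, map_eq_empty] at h0
    rw [h0] at k1
    simp at k1

theorem Sol.abs0 {ε : ZMod 2} (h : G.Sol W ε) : ∃ O, G.par O = ε ∧ G.Abs0 W O (G.cut W) ∅ := by
  obtain ⟨O, h1, h2, h3, φ, h4, h5⟩ := h
  have hfr : ∀ e, e ∈ G.fr W (G.cut W) ↔ e ∈ G.tch W := fun e => by
    simp only [fr, inter_self, mem_union, mem_ins, mem_cut, mem_tch]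
    tauto
  refine ⟨O, h3, ⟨fun e he => ?_, fun v _ => h2 v, eq_empty_of_forall_notMem fun e he => ?_⟩,
    fun e he => (hfr e).1 he, fun ψ _ _ => ⟨fun e => if e ∈ G.tch W then φ e else ψ e,
      fun e he => if_neg fun k => he ((hfr e).2 k), fun v hv => ?_, fun e he hn => ?_,
      fun t ht => ht.elim⟩⟩
  · exact mem_tch.2 ⟨(mem_ins.1 (h1 he)).1, Or.inl (mem_ins.1 (h1 he)).2.1⟩
  · obtain ⟨k1, k2⟩ := mem_inter.1 he
    have k3 := mem_ins.1 (h1 k1)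
    exact (mem_cut.1 k2).2 ⟨fun _ => k3.2.2, fun _ => k3.2.1⟩
  · rw [← h4 v hv]
    exact bd_congr fun e he ha => if_pos (sol1_at_tch he hv ha)
  · show (if e ∈ G.tch W then φ e else ψ e) ≠ 0
    rw [if_pos he]
    exact h5 e he hn

theorem abs_loc (h : ∀ X ⊆ W, (G.cut X).card ≠ 1) : ∃ O, G.Abs0 W O (G.cut W) ∅ := by
  obtain ⟨ε, k⟩ := sol_loc (G := G) (W := W) fun X hX h1 => absurd h1 (h X hX)
  obtain ⟨O, -, hO⟩ := k.abs0
  exact ⟨O, hO⟩

theorem Loc_ne_one (hT : G.HT T) (hW : W ⊆ T) : ∀ X ⊆ W, (G.cut X).card ≠ 1 := by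
  intro X hX h1
  rcases X.eq_empty_or_nonempty with rfl | hn
  · simp [cut, crs] at h1
  · have := (hT X (hX.trans hW) hn).1
    omega

/-- every subset of `T` can be absorbed when no targets are prescribed -/
theorem HT.abs_free (hT : G.HT T) (hW : W ⊆ T) : ∃ O, G.Abs0 W O (G.cut W) ∅ := by
  exact abs_loc (Loc_ne_one hT hW)

theorem HT.abs_bal (hT : G.HT T) (hW : W ⊆ T) (hB : G.Bal (G.ins W)) :
    ∃ O, G.par O = 0 ∧ G.Abs0 W O (G.cut W) ∅ := by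
  obtain ⟨ε, O, h1, h2, h3, h4⟩ := sol_loc (G := G) (W := W) fun X hX h1 =>
    absurd h1 (Loc_ne_one hT hW X hX)
  exact Sol.abs0 ⟨O, h1, h2, hB.par_zero h1 h2, h4⟩

/-- both parities on a two-edge-connected unbalanced subset which is not a circuit -/
theorem HT.flex (hc : G.Cub) (hT : G.HT T) (hW : W ⊆ T) (h2 : G.Two W (G.ins W))
    (hU : ¬ G.Bal (G.ins W)) (hN : ∃ v ∈ W, G.deg (G.ins W) v = 3) (ε : ZMod 2) :
    ∃ O, G.par O = ε ∧ G.Abs0 W O (G.cut W) ∅ := by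
  refine ((tmain_loc hc (fun X hX hn => ?_) h2 hU hN fun X hX h3 _ hb => ?_).all ε).abs0
  · have := (hT X (hX.trans hW) hn).1
    omega
  · obtain ⟨k1, k2⟩ := hT X (hX.trans hW) (card_pos.1 (by omega))
    by_contra k
    rcases k2 (by omega) with k3 | rfl
    · omega
    · exact hU (hb.mono (ins_mono hW))

end SG

end Pool.Agent.Work.MP_8c679b_co
end

-- merged part: Pool.Agent.Work.MP_8c679b_co.Six.KCs
section
/-!
Clean solutions.
-/

set_option autoImplicit false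

namespace Pool.Agent.Work.MP_8c679b_co

open Finset

namespace SG

variable {V E : Type} [Fintype V] [DecidableEq V] [DecidableEq E] {G : SG V E}
  {T S W X : Finset V} {a b c d : E} {Bs Ds : Finset (Finset V)}

theorem csp_empty (hD : G.VD ∅ ∅ Ds) : G.CSp ∅ Ds 0 := by
  refine ⟨∅, by simp [par], (abs0_empty (G := G)).cov fun t ht => ?_⟩
  rcases ht with ⟨S, h1, h2, -⟩ | ⟨ρ, h1, -⟩
  · have h3 : (G.cut S).card = 4 := h1.1
    rw [subset_empty.1 h2] at h3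
    simp [cut, crs] at h3
  · obtain ⟨h2, ⟨u, v, -, h3, -⟩, -⟩ := hD.2 ρ h1
    exact absurd (h2 (h3 ▸ mem_insert_self u {v})) (notMem_empty u)

/-- HINT: `split_cov`, `Abs0.join`, `Abs0.cov`. -/
theorem csp_split (hc : G.Cub) (hT : G.HT T) (hW : W ⊆ T) (hX : X ⊆ W)
    (h1 : (G.crs (G.ins W) X).card ≤ 1) (hD : G.VD W ∅ Ds) :
    ∃ D1 D2, G.VD X ∅ D1 ∧ G.VD (W \ X) ∅ D2 ∧
      ∀ ε1 ε2, G.CSp X D1 ε1 → G.CSp (W \ X) D2 ε2 → G.CSp W Ds (ε1 + ε2) := by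
  obtain ⟨D1, D2, k1, k2, k3⟩ := split_cov hc hT hW hX h1 hD
  refine ⟨D1, D2, k1, k2, ?_⟩
  rintro ε1 ε2 ⟨O1, rfl, a1⟩ ⟨O2, rfl, a2⟩
  obtain ⟨b1, b2⟩ := Abs0.join hX h1 a1 a2
  exact ⟨O1 ∪ O2, b2, b1.cov (k3 O1 O2 a1.1 a2.1)⟩

/-- HINT: empty; not two-edge-connected (`csp_split`); otherwise take the boxes for `J = ∅` and
`L = cut W`.  A rung: `quo_cyc` through it (a rung is not two-edge-connected, so it is not `W`),
`trk_abs` closed by `Rl.cl_cs`.  No rung but a box: `quo_cyc` through it (`Bx.ssub`),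
`Rl.cl_odd`.  Then `Fo.vd0`, the induction hypothesis and `fin_abs`.  Neither: `HT.abs_free`,
`Bx.free`, `tg_empty`. -/
theorem cs_step (hc : G.Cub) (hT : G.HT T) (hW : W ⊆ T) (hI : G.IHK W) : G.CS W := by
  intro Ds hD
  rcases W.eq_empty_or_nonempty with rfl | hn
  · exact ⟨0, csp_empty hD⟩
  by_cases h2 : G.Two W (G.ins W)
  swap
  · simp only [Two, not_forall, not_le] at h2
    obtain ⟨X, hX, hXn, hXW, h1⟩ := h2
    obtain ⟨D1, D2, k1, k2, k3⟩ := csp_split hc hT hW hX (by omega) hD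
    obtain ⟨ε1, a1⟩ := (hI X (ssubset_of_subset_of_ne hX hXW)).1 D1 k1
    obtain ⟨ε2, a2⟩ := (hI (W \ X) (sdiff_ssubset hX hXn)).1 D2 k2
    exact ⟨_, k3 ε1 ε2 a1 a2⟩
  obtain ⟨Bs, hB⟩ := hT.boxes hc hW (J := ∅) (by simp)
  obtain ⟨e0, he0⟩ : (G.cut W).Nonempty := card_pos.1 (by have := hT.mono3 hW hn; omega)
  have hss : ∀ B ∈ Bs, B ⊂ W := fun B h => hB.ssub h he0 (notMem_empty _)
  have hP : ∀ B ∈ Bs, G.PS B := fun B h => (hI B (hss B h)).2 (hB.1 B h).1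
  obtain ⟨hpd, -⟩ := hB.pd hD
  have hY : ∀ N ∈ Bs ∪ Ds, N ⊆ W := fun N h =>
    (mem_union.1 h).elim (fun k => (hB.1 N k).2.1) fun k => (hD.2 N k).1
  have key : ∀ {n : ℕ} {w : ℕ → Finset V} {g : ℕ → E},
      (G.quo W (Bs ∪ Ds)).Cyc (G.quo W (Bs ∪ Ds)).A n w g → ∀ σ : ℕ → ZMod 2,
      (∀ Rs : ℕ → Rl, (∀ i ≤ n, G.Ncl (G.cut W) Bs Ds (w i) (σ i) (Rs i)) →
        Rl.Cl (fun i => G.n (es (g n) (g n) n g i)) Rs n) → ∃ ε, G.CSp W Ds ε := by
    intro n w g hp σ hC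
    obtain ⟨X, O, K, Ds', a1, -, a3, a4, -, a6⟩ := trk_abs hc hT hW hB hD hP
      (fun _ _ _ _ h => h) Subset.rfl hp σ hC
    obtain ⟨ε, hε⟩ := (hI (W \ X) (sdiff_ssubset a3 a4)).1 Ds' (a6.vd0 (empty_subset _))
    exact ⟨_, fin_abs hB a1 a3 Subset.rfl a6 hε e0 fun e he _ => Or.inl he⟩
  rcases Ds.eq_empty_or_nonempty with rfl | ⟨ρ, hρ⟩
  swap
  · obtain ⟨k1, ⟨u, v, -, k2, -⟩, k3⟩ := hD.2 ρ hρ
    have hu : u ∈ ρ := k2 ▸ mem_insert_self u {v}
    have hnd : nd (Bs ∪ Ds) u = ρ := nd_of_mem hpd (mem_union_right _ hρ) hu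
    obtain ⟨-, e, k4, -⟩ := k3 u hu
    have hne : nd (Bs ∪ Ds) u ≠ W := by
      rw [hnd]
      rintro rfl
      exact not_ins_of_cut (mem_inter.1 k4).1 (mem_inter.1 k4).2
    obtain ⟨n, w, g, hp, h0⟩ := quo_cyc hpd hY h2 (k1 hu) hne
    exact key hp (fun _ => 0) fun Rs h =>
      Rl.cl_cs (fun i hi => (h i hi).tt.1) (Nat.zero_le n)
        ((h 0 (Nat.zero_le n)).1 (by rw [h0, hnd]; exact hρ))
  rcases Bs.eq_empty_or_nonempty with rfl | ⟨B, hBs⟩
  · obtain ⟨O, hO⟩ := hT.abs_free hW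
    refine ⟨_, O, rfl, hO.cov fun t ht => Or.inr ?_⟩
    rw [tg_empty] at ht
    obtain ⟨e, k1, k2, -⟩ := hB.free t ht
    exact ⟨e, k1, cut_sub_tch k2, hO.not_mem (not_ins_of_cut k2)⟩
  · obtain ⟨u, hu⟩ : B.Nonempty := card_pos.1 (by
      have := hT.us_card hc ((hB.1 B hBs).2.1.trans hW) (hB.1 B hBs).1
      omega)
    have hnd : nd (Bs ∪ ∅) u = B := nd_of_mem hpd (mem_union_left _ hBs) hu
    have hne : nd (Bs ∪ ∅) u ≠ W := by
      rw [hnd]
      exact (hss B hBs).ne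
    obtain ⟨n, w, g, hp, h0⟩ := quo_cyc hpd hY h2 ((hB.1 B hBs).2.1 hu) hne
    have hw : w 0 ∈ Bs := by rw [h0, hnd]; exact hBs
    refine key hp (fun i => if i = 0 then
      1 + ∑ k ∈ range (n + 1), G.n (es (g n) (g n) n g k) else 0) fun Rs h => ?_
    refine Rl.cl_odd (s := fun i => if i = 0 then
      1 + ∑ k ∈ range (n + 1), G.n (es (g n) (g n) n g k) else 0) (fun i hi => ?_) ?_
    · have k := (h i hi).tt.2 (notMem_empty _)
      by_cases h1 : i = 0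
      · subst h1
        simpa [hw] using k
      · simpa [h1] using k
    · rw [sum_add_distrib, sum_ite_eq', if_pos (mem_range.2 (Nat.succ_pos n)), add_assoc,
        CharTwo.add_self_eq_zero, add_zero]

end SG

end Pool.Agent.Work.MP_8c679b_co
end

-- merged part: Pool.Agent.Work.MP_8c679b_co.ND.C
section
/-!
Counting with cuts.  `c X` is the number of edges of `ins T` that leave `X`.  For `X ⊆ T` we have
`cut X = c X + τ X` and `cut (T \ X) = c X + 3 - τ X`, where `τ X` counts the edges of `cut T` at `X`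
(`cut_add`, `crs_ins`).  Tools: `Six/Cut.lean` (`HT.mono3`, `HT.f2'`, `HT.vtx`, `HT.simple`,
`deg_sum`), `T2a.lean` (`crs_split`, `crs_inter`, `deg_cut`, `cut_end`, the proofs of `Cx.deg_ex`,
`Cx.d3_or`).
-/

set_option autoImplicit false

namespace Pool.Agent.Work.MP_8c679b_co

open Finset

namespace SG

variable {V E : Type} [Fintype V] [DecidableEq V] [DecidableEq E] {G : SG V E}

variable {T X : Finset V} {e : E} {v c c' s s' r r' : V} {p : V → ZMod 2}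

namespace NCx

variable (h : G.NCx T)
include h

theorem two : G.Two T (G.ins T) := h.hT.f3' h.h3

theorem no_loop (he : e ∈ G.ins T) : G.s e ≠ G.t e := h.hT.noloop h.hc (ins_sub_tch he)

/-- HINT: `hF` gives an odd circuit, which has an edge that is not a loop. -/
theorem one_lt : 1 < T.card := by
  obtain ⟨z, -⟩ := card_pos.1 (show 0 < (G.cut T).card by rw [h.h3]; norm_num)
  by_contra k
  refine h.hF z ⟨fun _ => 0, fun e he => absurd ?_ k⟩
  have k1 := (mem_erase.1 he).2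
  exact one_lt_card.2 ⟨_, (mem_ins.1 k1).2.1, _, (mem_ins.1 k1).2.2, h.no_loop k1⟩

/-- HINT: `exists_q3`, `HT.f2'`, `eq_ie`. -/
theorem terms : ∃ t1 t2 t3, t1 ≠ t2 ∧ t1 ≠ t3 ∧ t2 ≠ t3 ∧
    ∀ v, G.Ex T v ↔ v = t1 ∨ v = t2 ∨ v = t3 := by
  obtain ⟨a, b, c, q, n1, n2, n3⟩ := exists_q3 h.h3
  have ma : a ∈ G.cut T := by simp [q]
  have mb : b ∈ G.cut T := by simp [q]
  have mc : c ∈ G.cut T := by simp [q]
  refine ⟨G.ie T a, G.ie T b, G.ie T c, h.hT.f2' h.hc h.h3 h.one_lt ma mb n1,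
    h.hT.f2' h.hc h.h3 h.one_lt ma mc n2, h.hT.f2' h.hc h.h3 h.one_lt mb mc n3, fun v => ⟨?_, ?_⟩⟩
  · rintro ⟨k1, e, k2, k3⟩
    have k4 := eq_ie k2 k1 k3
    simp only [q, mem_insert, mem_singleton] at k2
    rcases k2 with rfl | rfl | rfl
    exacts [Or.inl k4, Or.inr (Or.inl k4), Or.inr (Or.inr k4)]
  · rintro (rfl | rfl | rfl)
    exacts [⟨ie_mem (cut_sub_tch ma), a, ma, ie_at⟩, ⟨ie_mem (cut_sub_tch mb), b, mb, ie_at⟩,
      ⟨ie_mem (cut_sub_tch mc), c, mc, ie_at⟩]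

/-- two pairs of terminals meet -/
theorem pair_meet (hs : G.Ex T s) (hs' : G.Ex T s') (hr : G.Ex T r) (hr' : G.Ex T r')
    (h1 : s ≠ s') (h2 : r ≠ r') : r = s ∨ r = s' ∨ r' = s ∨ r' = s' := by
  obtain ⟨t1, t2, t3, -, -, -, k⟩ := h.terms
  have k1 := (k _).1 hs
  have k2 := (k _).1 hs'
  have k3 := (k _).1 hr
  have k4 := (k _).1 hr'
  grind

/-- the third terminal -/
theorem third (hs : G.Ex T s) (hs' : G.Ex T s') (h1 : s ≠ s') :
    ∃ t, G.Ex T t ∧ t ≠ s ∧ t ≠ s' ∧ ∀ v, G.Ex T v → v = s ∨ v = s' ∨ v = t := by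
  obtain ⟨t1, t2, t3, n1, n2, n3, k⟩ := h.terms
  simp only [k] at hs hs' ⊢
  rcases hs with rfl | rfl | rfl <;> rcases hs' with rfl | rfl | rfl
  · exact absurd rfl h1
  · exact ⟨t3, by simp, n2.symm, n3.symm, fun v hv => hv⟩
  · exact ⟨t2, by simp, n1.symm, n3, fun v hv => by tauto⟩
  · exact ⟨t3, by simp, n3.symm, n2.symm, fun v hv => by tauto⟩
  · exact absurd rfl h1
  · exact ⟨t1, by simp, n1, n2, fun v hv => by tauto⟩
  · exact ⟨t2, by simp, n3, n1.symm, fun v hv => by tauto⟩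
  · exact ⟨t1, by simp, n2, n1, fun v hv => by tauto⟩
  · exact absurd rfl h1

/-- a terminal has exactly one leaving edge -/
theorem cut_unique {e' : E} (hv : v ∈ T) (he : e ∈ G.cut T) (he' : e' ∈ G.cut T) (h1 : G.At e v)
    (h2 : G.At e' v) : e' = e := by
  by_contra k
  exact h.hT.f2' h.hc h.h3 h.one_lt he' he k ((eq_ie he' hv h2).symm.trans (eq_ie he hv h1))

theorem ndC_two_le (hv : v ∈ T) : 2 ≤ (G.crs (G.ins T) {v}).card :=
  h.two _ (singleton_subset_iff.2 hv) (singleton_nonempty _) fun k => by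
    have := h.one_lt
    rw [← k, card_singleton] at this
    exact lt_irrefl _ this

theorem deg_ex (hv : G.Ex T v) : G.deg (G.ins T) v = 2 := by
  obtain ⟨h1, e, h3, h4⟩ := hv
  exact le_antisymm (deg_cut h3 h4 h.hc) ((h.ndC_two_le h1).trans card_crs_le_deg)

theorem d3_or (hv : v ∈ T) : G.deg (G.ins T) v = 3 ∨ G.Ex T v := by
  have h3 := deg_sdiff (G := G) (v := v) (ins_sub_A (G := G) (W := T))
  have h4 := h.hc.deg3 (h.hT.act hv)
  by_cases k : 0 < G.deg (G.A \ G.ins T) v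
  · obtain ⟨e, h5, h6⟩ := mem_vs.1 (deg_pos.1 k)
    exact Or.inr ⟨hv, e, (mem_tch_iff.1 (Cut_tch (mem_sdiff.1 h5).1 h6 hv)).resolve_left
      (mem_sdiff.1 h5).2, h6⟩
  · left
    omega

theorem cut_eq (hX : X ⊆ T) :
    (G.cut X).card = (G.crs (G.ins T) X).card + (G.cut T ∩ G.cut X).card ∧
      (G.cut (T \ X)).card + (G.cut T ∩ G.cut X).card = (G.crs (G.ins T) X).card + 3 := by
  have h1 := cut_add (G := G) hX
  have h2 := card_sdiff_add_card_inter (G.cut X) (G.cut T)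
  have h3 := h.h3
  rw [← crs_ins hX, inter_comm] at h2
  omega

theorem ndC_one (hX : X ⊆ T) (hn : X.Nonempty) (hne : X ≠ T)
    (h2 : (G.crs (G.ins T) X).card ≤ 2) (h3 : (G.cut X).card = 3) : ∃ t, G.Ex T t ∧ X = {t} := by
  obtain ⟨t, rfl⟩ := card_eq_one.1 (((h.hT X hX hn).2 h3).resolve_right hne)
  have k1 := (h.cut_eq hX).1
  obtain ⟨e, he⟩ := card_pos.1 (show 0 < (G.cut T ∩ G.cut {t}).card by omega)
  obtain ⟨u, k2, k3⟩ := cut_end (mem_inter.1 he).2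
  exact ⟨t, ⟨hX (mem_singleton_self t), e, (mem_inter.1 he).1, mem_singleton.1 k2 ▸ k3⟩, rfl⟩

omit h in
theorem ndC_tau (hX : X ⊆ T) (hs : G.Ex T s) (hs' : G.Ex T s') (h1 : s ≠ s') (m : s ∈ X)
    (m' : s' ∈ X) : 2 ≤ (G.cut T ∩ G.cut X).card := by
  obtain ⟨a1, f, a2, a3⟩ := hs
  obtain ⟨b1, g, b2, b3⟩ := hs'
  refine one_lt_card.2
    ⟨f, mem_inter.2 ⟨a2, (cut_of_sub hX a2 (Cut_tch (mem_cut.1 a2).1 a3 m)).1⟩,
      g, mem_inter.2 ⟨b2, (cut_of_sub hX b2 (Cut_tch (mem_cut.1 b2).1 b3 m')).1⟩, ?_⟩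
  rintro rfl
  exact h1 ((eq_ie a2 a1 a3).trans (eq_ie b2 b1 b3).symm)

/-- two-cuts are single terminals -/
theorem c2 (hX : X ⊆ T) (hn : X.Nonempty) (hne : X ≠ T) (h2 : (G.crs (G.ins T) X).card ≤ 2) :
    (∃ t, G.Ex T t ∧ X = {t}) ∨ ∃ t, G.Ex T t ∧ T \ X = {t} := by
  obtain ⟨k1, k2⟩ := h.cut_eq hX
  have k3 : (T \ X).Nonempty := sdiff_nonempty.2 (hX.ssubset_of_ne hne).2
  have k4 := h.hT.mono3 hX hn
  have k5 := h.hT.mono3 (sdiff_subset (t := X)) k3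
  by_cases k6 : (G.cut X).card = 3
  · exact Or.inl (h.ndC_one hX hn hne h2 k6)
  · exact Or.inr (h.ndC_one sdiff_subset k3 (sdiff_ssubset hX hn).ne (by rwa [crs_sdiff hX])
      (by omega))

/-- Terminals are not adjacent.  HINT: otherwise `c {s e, t e} = 2`, so `T` has three vertices
(`c2`) and three inner edges (`deg_sum`); after erasing `e` every inner edge is at the third
vertex and there are no parallel edges, so the rest is balanced (an odd circuit in it would be an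
even set; or define the potential directly), against `hF e`. -/
theorem indep (he : e ∈ G.ins T) (h1 : G.Ex T (G.s e)) (h2 : G.Ex T (G.t e)) : False := by
  have n1 := h.no_loop he
  have hX : ({G.s e, G.t e} : Finset V) ⊆ T := Cut_pair h1.1 h2.1
  have k1 := (h.hT.rung' h.hc h1.1 h2.1 n1 ⟨e, ins_sub_A he, Or.inl ⟨rfl, rfl⟩⟩).1
  have k2 := (h.cut_eq hX).1
  have k3 := ndC_tau hX h1 h2 n1 (by simp) (by simp)
  have k4 := h.h3
  rcases h.c2 hX (insert_nonempty _ _) (fun k => by rw [k] at k1; omega) (by omega) with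
    ⟨t, -, k5⟩ | ⟨t, -, k5⟩
  · have k6 := card_pair n1
    rw [k5, card_singleton] at k6
    omega
  obtain ⟨C, c1, c2, -⟩ := exists_odd_cc (h.hF e)
  have c4 : C ⊆ G.ins T := c1.trans (erase_subset _ _)
  have c5 : ∀ y, G.Ex T y → G.At e y → y ∉ G.vs C := fun y p1 p2 p3 =>
    notMem_erase e _ (c1 (mem_of_deg_le c4 (by
      rw [h.deg_ex p1, deg2_of_dg h.hc (c4.trans ins_sub_A) p3 (c2.2.1 y)]) he p2))
  have c6 : ∀ y ∈ G.vs C, y = t := fun y hy => by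
    rw [← mem_singleton, ← k5, mem_sdiff, mem_insert, mem_singleton]
    refine ⟨(sub_ins_iff.1 c4).2 hy, ?_⟩
    rintro (rfl | rfl)
    exacts [c5 _ h1 (Or.inl rfl) hy, c5 _ h2 (Or.inr rfl) hy]
  obtain ⟨f, hf⟩ := c2.1
  exact h.no_loop (c4 hf) ((c6 _ (s_mem_vs hf)).trans (c6 _ (t_mem_vs hf)).symm)

theorem indep' {a b : V} (he : e ∈ G.ins T) (hj : G.Je e a b) (ha : G.Ex T a) (hb : G.Ex T b) :
    False := by
  rcases hj with ⟨rfl, rfl⟩ | ⟨rfl, rfl⟩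
  exacts [h.indep he ha hb, h.indep he hb ha]

/-- sets without terminals and with at most three leaving edges are single vertices -/
theorem c3 (hX : X ⊆ T) (hn : X.Nonempty) (ht : ∀ v ∈ X, ¬ G.Ex T v)
    (h3 : (G.crs (G.ins T) X).card ≤ 3) : X.card = 1 := by
  have k1 := (h.cut_eq hX).1
  have k2 : G.cut T ∩ G.cut X = ∅ := eq_empty_of_forall_notMem fun e he => by
    obtain ⟨u, p1, p2⟩ := cut_end (mem_inter.1 he).2
    exact ht u p1 ⟨hX p1, e, (mem_inter.1 he).1, p2⟩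
  rw [k2, card_empty] at k1
  obtain ⟨k3, k4⟩ := h.hT X hX hn
  refine (k4 (by omega)).resolve_right fun k5 => ?_
  obtain ⟨t, t2, t3, -, -, -, k6⟩ := h.terms
  have k7 := (k6 t).2 (Or.inl rfl)
  exact ht t (k5.symm ▸ k7.1) k7

/-- HINT: `T \ X` is a proper subset with at least two vertices, so `HT.four` applies. -/
theorem cge3 (hX : X ⊆ T) (h2 : 2 ≤ (T \ X).card) (hs : G.Ex T s) (hs' : G.Ex T s') (h1 : s ≠ s')
    (m : s ∈ X) (m' : s' ∈ X) : 3 ≤ (G.crs (G.ins T) X).card := by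
  have k1 := (h.cut_eq hX).2
  have k2 := ndC_tau hX hs hs' h1 m m'
  have k3 := h.hT.four Subset.rfl (sdiff_ssubset hX ⟨s, m⟩) h2
  omega

theorem cge4 (hX : X ⊆ T) (h2 : 2 ≤ (T \ X).card) (ht : ∀ v, G.Ex T v → v ∈ X) :
    4 ≤ (G.crs (G.ins T) X).card := by
  have k1 := (h.cut_eq hX).2
  have k2 : G.cut T ∩ G.cut X = G.cut T := inter_eq_left.2 fun e he => by
    obtain ⟨u, p1, p2⟩ := cut_end he
    exact (cut_of_sub hX he (Cut_tch (mem_cut.1 he).1 p2 (ht u ⟨p1, e, he, p2⟩))).1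
  obtain ⟨t, t2, t3, -, -, -, k6⟩ := h.terms
  have k3 := h.hT.four Subset.rfl (sdiff_ssubset hX ⟨t, ht t ((k6 t).2 (Or.inl rfl))⟩) h2
  rw [k2, h.h3] at k1
  omega

/-- HINT: a component and the rest would each have `c ≥ 2` (`two`). -/
theorem cn3 (hX : X ⊆ T) (hne : X ≠ T) (h3 : (G.crs (G.ins T) X).card ≤ 3) :
    G.Cn X (G.ins X) := by
  classical
  intro x hx y hy
  by_contra k
  obtain ⟨Y, hY⟩ : ∃ Y : Finset V, ∀ u, u ∈ Y ↔ u ∈ X ∧ G.Rch (G.ins X) x u :=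
    ⟨X.filter (G.Rch (G.ins X) x), fun u => mem_filter⟩
  have k1 : Y ⊆ X := fun u hu => ((hY u).1 hu).1
  have k2 : ∀ Z ⊆ X, Z.Nonempty → 2 ≤ (G.crs (G.ins T) Z).card := fun Z p1 p2 =>
    h.two Z (p1.trans hX) p2 fun p3 => hne (hX.antisymm (p3 ▸ p1))
  have k3 := k2 Y k1 ⟨x, (hY x).2 ⟨hx, Rch.refl _ _⟩⟩
  have k4 := k2 (X \ Y) sdiff_subset ⟨y, mem_sdiff.2 ⟨hy, fun p => k ((hY y).1 p).2⟩⟩
  have k5 : (G.crs (G.ins T) Y).card + (G.crs (G.ins T) (X \ Y)).card =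
      (G.crs (G.ins T) X).card := by
    simp only [crs, card_filter, ← sum_add_distrib, mem_sdiff]
    refine sum_congr rfl fun e he => ?_
    have q1 : G.s e ∈ X → G.t e ∈ X → (G.s e ∈ Y ↔ G.t e ∈ Y) := fun p1 p2 => by
      have p3 : G.Rch (G.ins X) (G.s e) (G.t e) := rch_edge (mem_ins.2 ⟨ins_sub_A he, p1, p2⟩)
      rw [hY, hY]
      exact ⟨fun p => ⟨p2, p.2.trans p3⟩, fun p => ⟨p1, p.2.trans p3.symm⟩⟩
    have q2 := @k1 (G.s e)
    have q3 := @k1 (G.t e)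
    clear hY k2 k3 k4 k1 k h3 he
    by_cases p1 : G.s e ∈ X <;> by_cases p2 : G.t e ∈ X <;> by_cases p3 : G.s e ∈ Y <;>
      by_cases p4 : G.t e ∈ Y <;> simp_all
  omega

/-- HINT: `c (X ∩ T) ≥ 3` by `c2` (a vertex of inner degree three is no terminal), `crs_split`,
`crs_inter`, `hm X`. -/
theorem sep (hm : G.Mn T p) (hc : G.deg (G.ins T) c = 3) (hc' : G.deg (G.ins T) c' = 3)
    (X : Finset V) (h1 : c ∈ X) (h1' : c' ∉ X) : 2 ≤ (G.crs (G.sg p 0 T) X).card := by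
  have m : ∀ c, G.deg (G.ins T) c = 3 → c ∈ T ∧ ¬ G.Ex T c := fun c hc =>
    ⟨(sub_ins_iff.1 Subset.rfl).2 (deg_pos.1 (hc ▸ three_pos)), fun k =>
      absurd ((h.deg_ex k).symm.trans hc) (by decide)⟩
  have k1 : c ∈ X ∩ T := mem_inter.2 ⟨h1, (m c hc).1⟩
  have k2 : c' ∈ T \ (X ∩ T) := mem_sdiff.2 ⟨(m c' hc').1, fun k => h1' (mem_inter.1 k).1⟩
  have k3 : ¬ (G.crs (G.ins T) (X ∩ T)).card ≤ 2 := fun k => by
    rcases h.c2 inter_subset_right ⟨c, k1⟩ (fun p => (mem_sdiff.1 k2).2 (p.symm ▸ (m c' hc').1)) k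
      with ⟨t, p1, p2⟩ | ⟨t, p1, p2⟩
    · rw [p2, mem_singleton] at k1
      exact (m c hc).2 (k1 ▸ p1)
    · rw [p2, mem_singleton] at k2
      exact (m c' hc').2 (k2 ▸ p1)
  have k4 := hm X
  rw [crs_inter Subset.rfl, crs_split p] at k3
  omega

/-- HINT: `hF`; if there is no negative edge use any edge (`one_lt`, `HT.act`). -/
theorem two_neg (p : V → ZMod 2) : 2 ≤ (G.sg p 1 T).card := by
  obtain ⟨z, -⟩ := card_pos.1 (show 0 < (G.cut T).card by rw [h.h3]; norm_num)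
  have : Nonempty E := ⟨z⟩
  by_contra k
  obtain ⟨y, hy⟩ := card_le_one_iff_subset_singleton.1 (show (G.sg p 1 T).card ≤ 1 by omega)
  exact h.hF y ⟨p, fun e he => (z2 _).resolve_right fun k1 =>
    (mem_erase.1 he).1 (mem_singleton.1 (hy (mem_sg.2 ⟨(mem_erase.1 he).2, k1⟩)))⟩

/-- the rest of an odd circuit is balanced -/
theorem rest_bal {C : Finset E} (hC : C ⊆ G.ins T) (cC : G.Cc C) (ho : G.par C = 1) :
    G.Bal (G.ins (T \ G.vs C)) := by
  by_contra k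
  obtain ⟨D, d1, d2, d3⟩ := exists_odd_cc k
  exact h.hK C hC D (d1.trans (ins_mono sdiff_subset)) cC ho d2 d3
    (disjoint_right.2 fun v hv => (mem_sdiff.1 ((sub_ins_iff.1 d1).2 hv)).2)

/-- an even set that misses an odd circuit has parity zero -/
theorem par_zero {C D : Finset E} (hC : C ⊆ G.ins T) (cC : G.Cc C) (ho : G.par C = 1)
    (hD : D ⊆ G.ins T) (eD : G.Ev D) (d : Disjoint (G.vs D) (G.vs C)) : G.par D = 0 := by
  refine (h.rest_bal hC cC ho).par_zero (sub_ins_iff.2 ⟨hD.trans ins_sub_A, fun v hv => ?_⟩) eD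
  exact mem_sdiff.2 ⟨(sub_ins_iff.1 hD).2 hv, disjoint_left.1 d hv⟩

end NCx

end SG

end Pool.Agent.Work.MP_8c679b_co
end

-- merged part: Pool.Agent.Work.MP_8c679b_co.ND.S
section
/-!
Solved regions and the closing of a ring.  Tools: `sol_of_bal`, `sol1_full`, `ext3`, `bd_congr`,
`bd_mul`, `Pure_two3`-like case checks by `decide`; compare `Sol.split`, `abs_gen`, `abs_two` in
`Sol1`.
-/

set_option autoImplicit false

namespace Pool.Agent.Work.MP_8c679b_co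

open Finset

namespace SG

variable {V E : Type} [Fintype V] [DecidableEq V] [DecidableEq E] {G : SG V E}

variable {T W X : Finset V} {y : E → ZMod 3} {ε δ : ZMod 2} {p : V → ZMod 2} {ρ : Finset E}
  {z z' : E}

theorem Cls.cmp {a : V} (ha : a ∈ W) : G.Cls W (G.cmp W a) :=
  ⟨(cmp_spec ha).2.1, (cmp_spec ha).2.2.1⟩

/-- an edge at a closed set stays in it or leaves `W` -/
theorem Cls.mem (h : G.Cls W X) {e : E} {u v : V} (he : e ∈ G.A) (h1 : G.At e u) (h2 : G.At e v)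
    (hu : u ∈ X) (hv : v ∈ W) : v ∈ X := by
  have k : e ∈ G.ins W → (G.s e ∈ X ↔ G.t e ∈ X) := fun k =>
    not_not.1 (filter_eq_empty_iff.1 h.2 k)
  have hu' := h.1 hu
  rcases h1 with rfl | rfl <;> rcases h2 with rfl | rfl
  · exact hu
  · exact (k (mem_ins.2 ⟨he, hu', hv⟩)).1 hu
  · exact (k (mem_ins.2 ⟨he, hv, hu'⟩)).2 hu
  · exact hu

theorem cls_of_mem (hX : X ⊆ W)
    (h : ∀ e ∈ G.A, ∀ u v, G.At e u → G.At e v → u ∈ X → v ∈ W → v ∈ X) : G.Cls W X := by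
  refine ⟨hX, filter_eq_empty_iff.2 fun e he => not_not.2 ?_⟩
  obtain ⟨h1, h2, h3⟩ := mem_ins.1 he
  exact ⟨fun k => h e h1 _ _ (Or.inl rfl) (Or.inr rfl) k h3,
    fun k => h e h1 _ _ (Or.inr rfl) (Or.inl rfl) k h2⟩

theorem Cls.rch (h : G.Cls W X) {u v : V} (hu : u ∈ X) (hr : G.Rch (G.ins W) u v) :
    v ∈ X ∧ G.Rch (G.ins X) u v := by
  induction hr with
  | refl => exact ⟨hu, Rch.refl _ _⟩
  | tail _ h2 ih =>
    obtain ⟨e, he, hj⟩ := h2
    obtain ⟨h1, h2, h3⟩ := mem_ins.1 he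
    rcases hj with ⟨rfl, rfl⟩ | ⟨rfl, rfl⟩
    · have k := h.mem h1 (Or.inl rfl) (Or.inr rfl) ih.1 h3
      exact ⟨k, ih.2.trans (rch_edge (mem_ins.2 ⟨h1, ih.1, k⟩))⟩
    · have k := h.mem h1 (Or.inr rfl) (Or.inl rfl) ih.1 h2
      exact ⟨k, ih.2.trans (rch_edge (mem_ins.2 ⟨h1, k, ih.1⟩)).symm⟩

/-- HINT: `φ e = if e ∈ tch X then φ1 e else φ2 e`; the two regions have no common edge. -/
theorem Sv.union (hX : G.Cls W X) (h1 : G.Sv T y X ε) (h2 : G.Sv T y (W \ X) δ) :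
    G.Sv T y W (ε + δ) := by
  obtain ⟨O1, φ1, a1, a2, a3, a4, a5, a6⟩ := h1
  obtain ⟨O2, φ2, b1, b2, b3, b4, b5, b6⟩ := h2
  have d : Disjoint O1 O2 := disjoint_left.2 fun e k1 k2 =>
    (mem_sdiff.1 (mem_ins.1 (b1 k2)).2.1).2 (mem_ins.1 (a1 k1)).2.1
  refine ⟨O1 ∪ O2, fun e => if e ∈ G.tch X then φ1 e else φ2 e,
    union_subset (a1.trans (ins_mono hX.1)) (b1.trans (ins_mono sdiff_subset)), a2.union b2 d,
    by rw [par_union d, a3, b3], fun v hv => ?_, fun e he => ?_, fun e he => ?_⟩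
  · by_cases k : v ∈ X
    · rw [← a4 v k]
      exact bd_congr fun e he h => if_pos (sol1_at_tch he k h)
    · rw [← b4 v (mem_sdiff.2 ⟨hv, k⟩)]
      refine bd_congr fun e he h => if_neg fun k1 => k ?_
      rcases (mem_tch.1 k1).2 with k2 | k2
      exacts [hX.mem he (Or.inl rfl) h k2 hv, hX.mem he (Or.inr rfl) h k2 hv]
  · dsimp only
    split_ifs
    exacts [a5 e fun k => he (mem_union_left _ k), b5 e fun k => he (mem_union_right _ k)]
  · dsimp only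
    split_ifs
    exacts [a6 e he, b6 e he]

/-- One dead edge is free.  HINT: `sol_of_bal`, `sol1_full`; multiply by `1` or `-1` so that the
value on the dead edge is right; put `y` on the other edges of `cut T` (they do not touch `W`). -/
theorem sv_one (hT : G.HT T) (hy : ∀ e ∈ G.cut T, y e ≠ 0) (hW : W ⊆ T) (hB : G.Bal (G.ins W))
    (h1 : ∀ e ∈ G.cut T, ∀ e' ∈ G.cut T, e ∈ G.tch W → e' ∈ G.tch W → e = e') :
    G.Sv T y W 0 := by
  have s0 : G.Sol W 0 := by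
    obtain ⟨ε, O, h1, h2, -, h4⟩ := sol_loc (G := G) (W := W) fun X hX k _ => by
      have k1 : X.Nonempty := by
        obtain ⟨e, he⟩ := card_pos.1 (show 0 < (G.cut X).card by omega)
        exact ⟨_, Spl_ie he⟩
      have := hT.mono3 (hX.trans hW) k1
      omega
    exact ⟨O, h1, h2, hB.par_zero h1 h2, h4⟩
  obtain ⟨O, a1, a2, a3, ψ, a4, a5⟩ := sol1_full s0
  have n1 : ∀ e ∈ G.cut T, e ∉ O := fun e he k =>
    (mem_cut.1 he).2 (iff_of_true (hW (mem_ins.1 (a1 k)).2.1) (hW (mem_ins.1 (a1 k)).2.2))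
  have k : ∃ c : ZMod 3, c ≠ 0 ∧ ∀ e ∈ G.cut T, e ∈ G.tch W → y e = c * ψ e := by
    by_cases k : ∃ e ∈ G.cut T, e ∈ G.tch W
    · obtain ⟨e0, k1, k2⟩ := k
      have k3 := a5 e0 (n1 e0 k1)
      refine ⟨y e0 * ψ e0, mul_ne_zero (hy e0 k1) k3, fun e k4 k5 => ?_⟩
      obtain rfl := h1 e k4 e0 k1 k5 k2
      rw [mul_assoc, sol1_z3 k3, mul_one]
    · exact ⟨1, one_ne_zero, fun e k1 k2 => absurd ⟨e, k1, k2⟩ k⟩
  obtain ⟨c, hc, k⟩ := k
  refine ⟨O, fun e => if e ∈ G.cut T then y e else c * ψ e, a1, a2, a3, fun v hv => ?_,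
    fun e he => ?_, fun e he => if_pos he⟩
  · rw [← mul_zero c, ← a4 v hv, ← bd_mul]
    refine bd_congr fun e he h => ?_
    split_ifs with k1
    exacts [k e k1 (sol1_at_tch he hv h), rfl]
  · dsimp only
    split_ifs with k1
    exacts [hy e k1, mul_ne_zero hc (a5 e he)]

/-- HINT: strong induction on `W`; split off the component of a terminal (`Cls.cmp`, `sv_one`,
`NCx.cut_unique`, `Sv.union`); without terminal use `sv_one`. -/
theorem sv_good (h : G.NCx T) (hy : ∀ e ∈ G.cut T, y e ≠ 0) (hW : W ⊆ T)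
    (hB : G.Bal (G.ins W)) (hg : G.Gd2 T W) : G.Sv T y W 0 := by
  induction W using Finset.strongInduction with
  | H W ih =>
    rcases W.eq_empty_or_nonempty with rfl | ⟨a, ha⟩
    · refine sv_one h.hT hy hW hB fun e _ e' _ k _ => ?_
      simp [mem_tch] at k
    have c : G.Cls W (G.cmp W a) := Cls.cmp ha
    obtain ⟨c1, c2, -, c4⟩ := cmp_spec (G := G) ha
    have k1 : G.Sv T y (G.cmp W a) 0 := by
      refine sv_one h.hT hy (c2.trans hW) (hB.mono (ins_mono c2)) fun e he e' he' k k' => ?_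
      have k0 : ∀ e ∈ G.tch (G.cmp W a), ∃ u ∈ G.cmp W a, G.At e u := fun e k =>
        (mem_tch.1 k).2.elim (fun k => ⟨_, k, Or.inl rfl⟩) fun k => ⟨_, k, Or.inr rfl⟩
      obtain ⟨u, u1, u2⟩ := k0 e k
      obtain ⟨u', u1', u2'⟩ := k0 e' k'
      obtain rfl := hg u u' ⟨hW (c2 u1), e, he, u2⟩ ⟨hW (c2 u1'), e', he', u2'⟩ (c2 u1) (c2 u1')
        ((c4 u u1 u' u1').mono (ins_mono c2))
      exact h.cut_unique (hW (c2 u1)) he' he u2' u2
    have k2 : G.Sv T y (W \ G.cmp W a) 0 :=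
      ih _ (sdiff_ssubset c2 ⟨a, c1⟩) (sdiff_subset.trans hW) (hB.mono (ins_mono sdiff_subset))
        fun s s' x1 x2 m1 m2 r => hg s s' x1 x2 (mem_sdiff.1 m1).1 (mem_sdiff.1 m2).1
          (r.mono (ins_mono sdiff_subset))
    simpa using Sv.union c k1 k2

theorem ndS_gen {O : Finset E} (hρ : ρ ⊆ G.ins T) (cρ : G.Cc ρ) (hO : O ⊆ G.ins (T \ G.vs ρ))
    (hE : G.Ev O) (ψ : E → ZMod 3) (h1 : ∀ v ∈ T \ G.vs ρ, G.bd ψ v = 0)
    (h2 : ∀ e, e ∉ O → ψ e ≠ 0) (h3 : ∀ e ∈ G.cut T, ψ e = y e)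
    (h : ¬ G.Bal ρ ∨ ∃ p, (∀ e ∈ ρ, G.sw p e = 0) ∧ ∑ e ∈ G.A, G.kap p (G.vs ρ) e * ψ e = 0) :
    G.Sv T y T (G.par O + G.par ρ) := by
  obtain ⟨ψ', a1, a2⟩ := ext3 (sub_ins_vs (hρ.trans ins_sub_A)) cρ.2.2 ψ h
  have d : Disjoint O ρ := disjoint_left.2 fun e k1 k2 =>
    (mem_sdiff.1 (mem_ins.1 (hO k1)).2.1).2 (s_mem_vs k2)
  refine ⟨O ∪ ρ, ψ', union_subset (hO.trans (ins_mono sdiff_subset)) hρ, hE.union cρ.2.1 d,
    par_union d, fun v hv => ?_, fun e k => ?_, fun e he => ?_⟩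
  · by_cases k : v ∈ G.vs ρ
    · exact a2 v k
    · rw [← h1 v (mem_sdiff.2 ⟨hv, k⟩)]
      exact bd_congr fun e _ k1 => a1 e fun k2 => k (mem_vs.2 ⟨e, k2, k1⟩)
  · rw [a1 e fun k1 => k (mem_union_right _ k1)]
    exact h2 e fun k2 => k (mem_union_left _ k2)
  · rw [a1 e fun k => (mem_cut.1 he).2
      (iff_of_true (mem_ins.1 (hρ k)).2.1 (mem_ins.1 (hρ k)).2.2), h3 e he]

/-- Two negative chords close an even ring.  HINT: update `φ` at `z`, `z'` by nonzero values such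
that `∑ e ∈ A, kap p (vs ρ) e * φ e = 0` (`kap_ins`), then `ext3` with `H = ρ`; `O ∪ ρ`;
`par ρ = 0` by `Ev.par_eq`. -/
theorem close2 (hρ : ρ ⊆ G.ins T) (cρ : G.Cc ρ) (hp : ∀ e ∈ ρ, G.sw p e = 0)
    (hz : z ∈ G.ins (G.vs ρ)) (hz' : z' ∈ G.ins (G.vs ρ)) (hne : z ≠ z') (h1 : G.sw p z = 1)
    (h1' : G.sw p z' = 1) (hs : G.Sv T y (T \ G.vs ρ) ε) : G.Sv T y T ε := by
  obtain ⟨O, φ, a1, a2, a3, a4, a5, a6⟩ := hs
  obtain ⟨b1, b2, -, b4⟩ := fl_chord (W := T) hz hp h1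
  obtain ⟨b1', b2', -, b4'⟩ := fl_chord (W := T) hz' hp h1'
  have hU : G.vs ρ ⊆ T := (sub_ins_iff.1 hρ).2
  have k : ∀ a b R : ZMod 3, a ≠ 0 → b ≠ 0 →
      ∃ x x' : ZMod 3, x ≠ 0 ∧ x' ≠ 0 ∧ a * x + (b * x' + R) = 0 := by decide
  obtain ⟨x, x', k1, k2, k3⟩ :=
    k _ _ (∑ e ∈ (G.A.erase z).erase z', G.kap p (G.vs ρ) e * φ e) b4 b4'
  have k4 : ∀ e, e ∉ G.ins (G.vs ρ) →
      Function.update (Function.update φ z' x') z x e = φ e := fun e he => by
    have k5 : e ≠ z := fun k => he (k ▸ hz)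
    have k6 : e ≠ z' := fun k => he (k ▸ hz')
    rw [Function.update_of_ne k5, Function.update_of_ne k6]
  have k5 := ndS_gen (y := y) hρ cρ a1 a2 (Function.update (Function.update φ z' x') z x)
    (fun v hv => by
      rw [← a4 v hv]
      refine bd_congr fun e _ h => k4 e fun k => (mem_sdiff.1 hv).2 ?_
      rcases h with rfl | rfl
      exacts [(mem_ins.1 k).2.1, (mem_ins.1 k).2.2])
    (fun e he => by
      by_cases k5 : e = z
      · rwa [k5, Function.update_self]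
      · rw [Function.update_of_ne k5]
        by_cases k6 : e = z'
        · rwa [k6, Function.update_self]
        · rw [Function.update_of_ne k6]
          exact a5 e he)
    (fun e he => by
      rw [k4 e fun k => (mem_cut.1 he).2
        (iff_of_true (hU (mem_ins.1 k).2.1) (hU (mem_ins.1 k).2.2)), a6 e he])
    (Or.inr ⟨p, hp, by
      rwa [← add_sum_erase _ _ b1, Function.update_self, sol1_upd,
        ← add_sum_erase _ _ (mem_erase.2 ⟨hne.symm, b1'⟩), Function.update_self, sol1_upd]⟩)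
  rwa [Bal.par_zero ⟨p, hp⟩ Subset.rfl cρ.2.1, add_zero, a3] at k5

/-- an odd ring closes -/
theorem close_odd (hρ : ρ ⊆ G.ins T) (cρ : G.Cc ρ) (ho : G.par ρ = 1)
    (hs : G.Sv T y (T \ G.vs ρ) ε) : G.Sv T y T (ε + 1) := by
  obtain ⟨O, φ, a1, a2, a3, a4, a5, a6⟩ := hs
  rw [← a3, ← ho]
  exact ndS_gen hρ cρ a1 a2 φ a4 a5 a6 (Or.inl (cρ.not_bal ho Subset.rfl))

theorem Sv.out (h : G.Sv T y T ε) : ∃ O φ, G.St T O ∅ ∧ G.par O = ε ∧ G.Sl T O ∅ φ ∧
    ∀ e ∈ G.cut T, φ e = y e := by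
  obtain ⟨O, φ, a1, a2, a3, a4, a5, a6⟩ := h
  refine ⟨O, φ, ⟨fun e he => ins_sub_tch (a1 he), fun v _ => a2 v, ?_⟩, a3,
    ⟨a4, fun e _ he => a5 e he, fun t ht => absurd ht (Set.notMem_empty t)⟩, a6⟩
  refine eq_empty_of_forall_notMem fun e he => ?_
  obtain ⟨k1, k2⟩ := mem_inter.1 he
  exact (mem_cut.1 k2).2 (iff_of_true (mem_ins.1 (a1 k1)).2.1 (mem_ins.1 (a1 k1)).2.2)

end SG

end Pool.Agent.Work.MP_8c679b_co
end

-- merged part: Pool.Agent.Work.MP_8c679b_co.ND.K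
section
/-!
Basic facts about `K4`.  Tools: `Circ.lean` (`Jn.union`, `Jn.cc`, `Cc.ends`, `Cc.deg_end`,
`third_unique`, `deg_third`, `deg2_of_dg`, `Cc.bal`), `Od.end_of_le` in `T2.lean`, `GMin_inner`,
`GUnit_const`-like statements (two potentials of a connected set differ by a constant,
`Rch.closed`).
-/

set_option autoImplicit false

namespace Pool.Agent.Work.MP_8c679b_co

open Finset

namespace SG

variable {V E : Type} [Fintype V] [DecidableEq V] [DecidableEq E] {G : SG V E}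

variable {T : Finset V} {ρ A1 A2 A3 A4 Z Z' : Finset E} {a a' b b' v : V} {e : E}
  {p : V → ZMod 2}

namespace K4

variable (k : G.K4 T ρ a a' b b' A1 A2 A3 A4 Z Z')
include k

theorem o4 : G.par A4 + G.par A1 + G.par Z' = 1 := by
  have h : ∀ x1 x2 x3 x4 y y' : ZMod 2, x1 + x2 + y = 1 → x2 + x3 + y' = 1 → x3 + x4 + y = 1 →
      x4 + x1 + y' = 1 := by decide
  exact h _ _ _ _ _ _ k.o1 k.o2 k.o3

/-- rotation -/
theorem rot : G.K4 T ρ a' b b' a A2 A3 A4 A1 Z' Z := by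
  refine ⟨?_, k.sub, k.j2, k.j3, k.j4, k.j1, k.d23, k.d24, k.d12.symm, k.d34, k.d13.symm,
    k.d14.symm, k.sz', k.sz, k.jz', k.jz.symm, k.dz', k.dz, k.dzz.symm, k.o2, k.o3, k.o4⟩
  rw [k.eq]
  ac_rfl

/-- the reflection that fixes `a` and `b` -/
theorem flip : G.K4 T ρ a b' b a' A4 A3 A2 A1 Z Z' := by
  refine ⟨?_, k.sub, k.j4.symm, k.j3.symm, k.j2.symm, k.j1.symm, k.d34.symm, k.d24.symm,
    k.d14.symm, k.d23.symm, k.d13.symm, k.d12.symm, k.sz, k.sz', k.jz, k.jz'.symm, k.dz, k.dz',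
    k.dzz, ?_, ?_, ?_⟩
  · rw [k.eq]
    ac_rfl
  · rw [add_comm (G.par A4)]
    exact k.o3
  · rw [add_comm (G.par A3)]
    exact k.o2
  · rw [add_comm (G.par A2)]
    exact k.o1

/-- the reflection that fixes the arcs `A1` and `A3` -/
theorem mir : G.K4 T ρ a' a b' b A1 A4 A3 A2 Z' Z := k.rot.flip

theorem s1 : A1 ⊆ ρ ∧ A2 ⊆ ρ ∧ A3 ⊆ ρ ∧ A4 ⊆ ρ := by
  rw [k.eq]
  exact ⟨subset_union_left.trans subset_union_left, subset_union_right.trans subset_union_left,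
    subset_union_left.trans subset_union_right, subset_union_right.trans subset_union_right⟩

theorem subA : ρ ⊆ G.A := k.sub.trans ins_sub_A

theorem ne : a ≠ a' ∧ a ≠ b ∧ a ≠ b' ∧ a' ≠ b ∧ a' ≠ b' ∧ b ≠ b' := by
  exact ⟨k.j1.1, k.jz.1, k.j4.1.symm, k.j2.1, k.jz'.1, k.j3.1⟩

theorem ndK_disj : Disjoint (A1 ∪ A2) (A3 ∪ A4) :=
  disjoint_union_left.2 ⟨disjoint_union_right.2 ⟨k.d13, k.d14⟩,
    disjoint_union_right.2 ⟨k.d23, k.d24⟩⟩

theorem j12 : G.Jn (A1 ∪ A2) a b ∧ ρ \ (A1 ∪ A2) = A3 ∪ A4 ∧ ρ \ A1 = A2 ∪ (A3 ∪ A4) := by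
  refine ⟨k.j1.union k.j2 k.d12 k.jz.1, ?_, ?_⟩
  · rw [k.eq, union_sdiff_cancel_left k.ndK_disj]
  · rw [k.eq, union_assoc, union_sdiff_cancel_left]
    exact disjoint_union_right.2 ⟨k.d12, disjoint_union_right.2 ⟨k.d13, k.d14⟩⟩

theorem cc : G.Cc ρ ∧ G.par ρ = 0 := by
  have h : ∀ x1 x2 x3 x4 y : ZMod 2, x1 + x2 + y = 1 → x3 + x4 + y = 1 →
      x1 + x2 + (x3 + x4) = 0 := by decide
  rw [k.eq]
  refine ⟨k.j12.1.cc (k.j3.union k.j4 k.d34 k.jz.1.symm).symm k.ndK_disj, ?_⟩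
  rw [par_union k.ndK_disj, par_union k.d12, par_union k.d34]
  exact h _ _ _ _ _ k.o1 k.o3

theorem mem_vs : v ∈ G.vs ρ ↔ v ∈ G.vs A1 ∨ v ∈ G.vs A2 ∨ v ∈ G.vs A3 ∨ v ∈ G.vs A4 := by
  rw [k.eq, vs_union, vs_union, vs_union, mem_union, mem_union, mem_union, or_assoc]

theorem vs_sub : G.vs ρ ⊆ T := (sub_ins_iff.1 k.sub).2

theorem two_le {Y : Finset V} (hY : Y ⊆ T \ G.vs ρ) : 2 ≤ (T \ Y).card := by
  have h : ∀ v ∈ G.vs A1, v ∈ T \ Y := fun v hv => by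
    have h1 := vs_mono k.s1.1 hv
    exact mem_sdiff.2 ⟨k.vs_sub h1, fun h2 => (mem_sdiff.1 (hY h2)).2 h1⟩
  exact one_lt_card.2 ⟨a, h _ k.j1.left_mem, a', h _ k.j1.right_mem, k.j1.1⟩

theorem ndK_end (hc : G.Cub) (h1 : v ∈ G.vs A1)
    (h2 : v ∈ G.vs A2 ∨ v ∈ G.vs A3 ∨ v ∈ G.vs A4) : v = a ∨ v = a' := by
  refine k.cc.1.ends hc k.subA k.s1.1 k.j1.2.1 h1 ?_
  rwa [k.j12.2.2, vs_union, vs_union, mem_union, mem_union]

/-- HINT: `Cc.ends` for `A1` and for `A2`. -/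
theorem adj (hc : G.Cub) (h1 : v ∈ G.vs A1) (h2 : v ∈ G.vs A2) : v = a' := by
  rcases k.ndK_end hc h1 (Or.inl h2) with h | h
  · rcases k.rot.ndK_end hc h2 (Or.inr (Or.inr h1)) with h' | h'
    · exact h'
    · exact absurd (h.symm.trans h') k.jz.1
  · exact h

theorem opp (hc : G.Cub) : Disjoint (G.vs A1) (G.vs A3) := by
  refine disjoint_left.2 fun v h1 h2 => ?_
  obtain ⟨-, n1, n2, n3, n4, -⟩ := k.ne
  rcases k.ndK_end hc h1 (Or.inr (Or.inl h2)) with h | h <;>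
    rcases k.rot.rot.ndK_end hc h2 (Or.inr (Or.inl h1)) with h' | h'
  · exact n1 (h.symm.trans h')
  · exact n2 (h.symm.trans h')
  · exact n3 (h.symm.trans h')
  · exact n4 (h.symm.trans h')

/-- the path `Z` meets the ring only in its ends -/
theorem zr (hc : G.Cub) (h1 : v ∈ G.vs Z) (h2 : v ∈ G.vs ρ) : v = a ∨ v = b := by
  refine k.jz.2.1.end_of_le ?_ h1
  rw [← deg_third hc k.subA h2 (k.cc.1.2.1 v)]
  exact deg_mono (subset_sdiff.2 ⟨k.sz.trans ins_sub_A, k.dz⟩)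

/-- all three edges at a branch vertex are used -/
theorem full (hc : G.Cub) (he : e ∈ G.A) (h : G.At e a) : e ∈ A1 ∨ e ∈ A4 ∨ e ∈ Z := by
  by_cases h1 : e ∈ ρ
  · have h2 := h1
    rw [k.eq, mem_union, mem_union, mem_union] at h2
    rcases h2 with (h2 | h2) | h2 | h2
    · exact Or.inl h2
    · exact absurd (k.adj hc k.j1.left_mem (SG.mem_vs.2 ⟨e, h2, h⟩)) k.j1.1
    · exact absurd (SG.mem_vs.2 ⟨e, h2, h⟩) (disjoint_left.1 (k.opp hc) k.j1.left_mem)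
    · exact Or.inr (Or.inl h2)
  · obtain ⟨f, f1, f2⟩ := SG.mem_vs.1 k.jz.left_mem
    rw [third_unique hc k.subA (vs_mono k.s1.1 k.j1.left_mem) (k.cc.1.2.1 a)
      (ins_sub_A (k.sz f1)) he (disjoint_left.1 k.dz f1) h1 f2 h]
    exact Or.inr (Or.inr f1)

theorem not_ex (hc : G.Cub) : ¬ G.Ex T a := by
  rintro ⟨-, e, h1, h2⟩
  have h3 : e ∈ G.ins T := by
    rcases k.full hc (mem_cut.1 h1).1 h2 with h | h | h
    · exact k.sub (k.s1.1 h)
    · exact k.sub (k.s1.2.2.2 h)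
    · exact k.sz h
  exact (mem_cut.1 h1).2 (iff_of_true (mem_ins.1 h3).2.1 (mem_ins.1 h3).2.2)

theorem ndK_free (hc : G.Cub) (he : e ∈ G.A) (h : G.At e v) (h1 : e ∉ ρ) (h2 : e ∉ Z) :
    v ≠ a := by
  rintro rfl
  rcases k.full hc he h with h | h | h
  · exact h1 (k.s1.1 h)
  · exact h1 (k.s1.2.2.2 h)
  · exact h2 h

/-- a vertex with an edge off the configuration is no branch vertex -/
theorem free (hc : G.Cub) (he : e ∈ G.A) (h : G.At e v) (h1 : e ∉ ρ) (h2 : e ∉ Z) (h3 : e ∉ Z') :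
    v ≠ a ∧ v ≠ a' ∧ v ≠ b ∧ v ≠ b' := by
  exact ⟨k.ndK_free hc he h h1 h2, k.rot.ndK_free hc he h h1 h3, k.rot.rot.ndK_free hc he h h1 h2,
    k.rot.rot.rot.ndK_free hc he h h1 h3⟩

theorem ndK_deg (hc : G.Cub) (h1 : v ∈ G.vs Z) (h2 : v ∉ G.vs ρ) : G.deg Z v = 2 := by
  refine deg2_of_dg hc (k.sz.trans ins_sub_A) h1 (k.jz.2.1.other ?_ ?_)
  · rintro rfl
    exact h2 (vs_mono k.s1.1 k.j1.left_mem)
  · rintro rfl
    exact h2 (vs_mono k.s1.2.1 k.j2.right_mem)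

/-- every vertex of the configuration has at most one further edge -/
theorem deg_out (hc : G.Cub) (hv : v ∈ G.vs (ρ ∪ (Z ∪ Z'))) :
    G.deg (G.A \ (ρ ∪ (Z ∪ Z'))) v ≤ 1 := by
  have h1 : ρ ∪ (Z ∪ Z') ⊆ G.A :=
    union_subset k.subA (union_subset (k.sz.trans ins_sub_A) (k.sz'.trans ins_sub_A))
  have h2 := deg_sdiff (G := G) (v := v) h1
  have h3 := hc.le3 (Subset.refl G.A) v
  have h4 : 2 ≤ G.deg (ρ ∪ (Z ∪ Z')) v := by
    by_cases h : v ∈ G.vs ρ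
    · rw [← deg2_of_dg hc k.subA h (k.cc.1.2.1 v)]
      exact deg_mono subset_union_left
    · rw [vs_union, vs_union, mem_union, mem_union, or_iff_right h] at hv
      rcases hv with hv | hv
      · rw [← k.ndK_deg hc hv h]
        exact deg_mono (subset_union_left.trans subset_union_right)
      · rw [← k.rot.ndK_deg hc hv h]
        exact deg_mono (subset_union_right.trans subset_union_right)
  omega

/-- an ear off the configuration meets it only in its ends -/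
theorem ear_meet (hc : G.Cub) {F : Finset E} {u w : V} (hF : F ⊆ G.A) (j : G.Jn F u w)
    (d : Disjoint F (ρ ∪ (Z ∪ Z'))) (h1 : v ∈ G.vs F) (h2 : v ∈ G.vs (ρ ∪ (Z ∪ Z'))) :
    v = u ∨ v = w := by
  exact j.2.1.end_of_le ((deg_mono (subset_sdiff.2 ⟨hF, d⟩)).trans (k.deg_out hc h2)) h1

/-- the odd triangle; `Z` is an arc of it, so `Cc.split` applies to `Z` -/
theorem odd : G.Cc (A1 ∪ A2 ∪ Z) ∧ G.par (A1 ∪ A2 ∪ Z) = 1 ∧ A1 ∪ A2 ∪ Z ⊆ G.ins T := by
  have d : Disjoint (A1 ∪ A2) Z := (k.dz.mono_right (union_subset k.s1.1 k.s1.2.1)).symm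
  refine ⟨k.j12.1.cc k.jz d, ?_,
    union_subset ((union_subset k.s1.1 k.s1.2.1).trans k.sub) k.sz⟩
  rw [par_union d, par_union k.d12, k.o1]

/-- the potential of the ring -/
theorem pot (hc : G.Cub) : ∃ p : V → ZMod 2, ∀ e ∈ ρ, G.sw p e = 0 := k.cc.1.bal hc k.subA k.cc.2

/-- the path `Z` is negative -/
theorem neg (hp : ∀ e ∈ ρ, G.sw p e = 0) : ∑ e ∈ Z, G.sw p e = 1 := by
  have h : ∀ x1 x2 y s t : ZMod 2, x1 + x2 + y = 1 → 0 = x1 + x2 + s + t → y + s + t = 1 := by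
    decide
  have h1 := k.j12.1.2.1.par_eq p
  rw [sum_eq_zero fun e he => hp e (union_subset k.s1.1 k.s1.2.1 he), par_union k.d12] at h1
  rw [k.jz.2.1.par_eq p]
  exact h _ _ _ _ _ k.o1 h1

end K4

variable {z z' : E}

omit [Fintype V] in
theorem ndK_edge (j : G.Jn {z} a b) (hv : v ∈ G.vs {z}) : v = a ∨ v = b := by
  have k : ∀ {u : V}, u ∈ G.vs {z} → G.s z = u ∨ G.t z = u := fun h => by
    obtain ⟨e, h1, h2⟩ := mem_vs.1 h
    rwa [mem_singleton.1 h1] at h2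
  have h1 := j.1
  rcases k j.left_mem with rfl | rfl <;> rcases k j.right_mem with h2 | h2 <;>
    rcases k hv with rfl | rfl <;> simp_all

theorem K4.ndK_chord (k : G.K4 T ρ a a' b b' A1 A2 A3 A4 {z} Z') : G.vs {z} ⊆ G.vs ρ := by
  intro v hv
  rcases ndK_edge k.jz hv with rfl | rfl
  · exact vs_mono k.s1.1 k.j1.left_mem
  · exact vs_mono k.s1.2.1 k.j2.right_mem

theorem K4.ndK_tri (k : G.K4 T ρ a a' b b' A1 A2 A3 A4 {z} Z') :
    G.vs (A1 ∪ A2 ∪ {z}) ⊆ G.vs ρ := by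
  rw [vs_union]
  exact union_subset (vs_mono (union_subset k.s1.1 k.s1.2.1)) k.ndK_chord

/-- the rest of a ring with chords is balanced -/
theorem K4.rest (h : G.NCx T) (k : G.K4 T ρ a a' b b' A1 A2 A3 A4 {z} {z'}) :
    G.Bal (G.ins (T \ G.vs ρ)) := by
  exact (h.rest_bal k.odd.2.2 k.odd.1 k.odd.2.1).mono
    (ins_mono (sdiff_subset_sdiff (Subset.refl T) k.ndK_tri))

/-- A ring with two chords and a good rest.  HINT: `close2`, `sv_good`, `K4.neg` for `k` and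
`k.rot`. -/
theorem Kch.fin (h : G.NCx T) {y : E → ZMod 3} (hy : ∀ e ∈ G.cut T, y e ≠ 0) (k : G.Kch T ρ)
    (hg : G.Gd2 T (T \ G.vs ρ)) : G.Sv T y T 0 := by
  obtain ⟨a, a', b, b', A1, A2, A3, A4, z, z', k⟩ := k
  obtain ⟨p, hp⟩ := k.pot h.hc
  have h1 := k.neg hp
  have h2 := k.rot.neg hp
  rw [sum_singleton] at h1 h2
  refine close2 k.sub k.cc.1 hp
    (sub_ins_iff.2 ⟨k.sz.trans ins_sub_A, k.ndK_chord⟩ (mem_singleton_self z))
    (sub_ins_iff.2 ⟨k.sz'.trans ins_sub_A, k.rot.ndK_chord⟩ (mem_singleton_self z')) ?_ h1 h2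
    (sv_good h hy sdiff_subset (k.rest h) hg)
  rintro rfl
  exact disjoint_left.1 k.dzz k.jz.left_mem k.jz.left_mem

omit [Fintype V] in
theorem ndK_const {H : Finset E} {q : V → ZMod 2} (hp : ∀ e ∈ H, G.sw p e = 0)
    (hq : ∀ e ∈ H, G.sw q e = 0) {x y : V} (h : G.Rch H x y) : p x + q x = p y + q y := by
  refine Rch.closed (P := fun w => p x + q x = p w + q w) h (fun e he => ?_) rfl
  have k : ∀ n a b c d t : ZMod 2, n + a + b = 0 → n + c + d = 0 → (t = a + c ↔ t = b + d) := by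
    decide
  exact k _ _ _ _ _ _ (hp e he) (hq e he)

/-- Edges from a connected set to two adjacent arcs have the same sign.
HINT: let `q` balance `ins (T \ vs (A3 ∪ A4 ∪ {z}))` (`NCx.rest_bal` for `k.rot.rot.odd`; the ends
of `z` are `a`, `b`).  `u`, `u'` are no branch vertices (`free`).  `p + q` is constant on the inner
vertices of `A1 ∪ A2` (`GMin_inner`) and along `S`; `Cut_sw`. -/
theorem K4.same (h : G.NCx T) (k : G.K4 T ρ a a' b b' A1 A2 A3 A4 {z} {z'})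
    (hp : ∀ e ∈ ρ, G.sw p e = 0) {S : Finset E} (hS : S ⊆ G.ins (T \ G.vs ρ))
    (hS' : ∀ e ∈ S, G.sw p e = 0) {g g' : E} {u u' m m' : V} (hg : g ∈ G.A) (hg' : g' ∈ G.A)
    (j : G.Je g u m) (j' : G.Je g' u' m') (hu : u ∈ G.vs A1 ∨ u ∈ G.vs A2)
    (hu' : u' ∈ G.vs A1 ∨ u' ∈ G.vs A2) (hm : m ∈ T \ G.vs ρ) (hm' : m' ∈ T \ G.vs ρ)
    (hr : G.Rch S m m') : G.sw p g = G.sw p g' := by
  have hc := h.hc
  have o := k.rot.rot.odd
  obtain ⟨q, hq⟩ := h.rest_bal o.2.2 o.1 o.2.1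
  have c0 : T \ G.vs ρ ⊆ T \ G.vs (A3 ∪ A4 ∪ {z}) :=
    sdiff_subset_sdiff (Subset.refl T) k.rot.rot.ndK_tri
  have c1 : A1 ∪ A2 ⊆ ρ := union_subset k.s1.1 k.s1.2.1
  have c2 : ∀ w ∈ G.vs (A1 ∪ A2), w ≠ a ∧ w ≠ b → w ∉ G.vs (A3 ∪ A4) := fun w h1 h2 h3 =>
    (k.cc.1.ends hc k.subA c1 k.j12.1.2.1 h1 (by rwa [k.j12.2.1])).elim h2.1 h2.2
  have c3 : ∀ w ∈ G.vs ρ, w ≠ a ∧ w ≠ b → w ∉ G.vs (A3 ∪ A4) →
      w ∈ T \ G.vs (A3 ∪ A4 ∪ {z}) := fun w h1 h2 h3 => by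
    refine mem_sdiff.2 ⟨k.vs_sub h1, fun h4 => ?_⟩
    rw [vs_union, mem_union] at h4
    exact h4.elim h3 fun h5 => (ndK_edge k.jz h5).elim h2.1 h2.2
  have c4 : ∀ {g : E} {u m : V}, g ∈ G.A → G.Je g u m → u ∈ G.vs A1 ∨ u ∈ G.vs A2 →
      m ∈ T \ G.vs ρ → u ∈ G.vs (A1 ∪ A2) ∧ (u ≠ a ∧ u ≠ b) ∧ G.sw q g = 0 := by
    intro g u m hg j hu hm
    have a1 : ∀ {B : Finset E}, G.vs B ⊆ G.vs ρ → g ∉ B := fun hB h1 =>
      (mem_sdiff.1 hm).2 (hB (SG.mem_vs.2 ⟨g, h1, j.at_iff.2 (Or.inr rfl)⟩))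
    obtain ⟨a2, -, a3, -⟩ := k.free hc hg (j.at_iff.2 (Or.inl rfl)) (a1 (Subset.refl _))
      (a1 k.ndK_chord) (a1 k.rot.ndK_chord)
    have a4 : u ∈ G.vs (A1 ∪ A2) := by rwa [vs_union, mem_union]
    have a5 := c3 u (vs_mono c1 a4) ⟨a2, a3⟩ (c2 u a4 ⟨a2, a3⟩)
    refine ⟨a4, ⟨a2, a3⟩, hq g (mem_ins.2 ⟨hg, ?_⟩)⟩
    rcases j with ⟨rfl, rfl⟩ | ⟨rfl, rfl⟩
    · exact ⟨a5, c0 hm⟩
    · exact ⟨c0 hm, a5⟩
  obtain ⟨u1, u2, u3⟩ := c4 hg j hu hm
  obtain ⟨w1, w2, w3⟩ := c4 hg' j' hu' hm'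
  have e1 : p m + q m = p m' + q m' :=
    ndK_const hS' (fun e he => hq e (ins_mono c0 (hS he))) hr
  have e2 : p u + q u = p u' + q u' := by
    by_cases huu : u = u'
    · rw [huu]
    obtain ⟨J, j1, j2, j3⟩ := GMin_inner hc k.subA k.cc.1 c1 k.j12.1 u1 w1 huu u2 w2
    refine ndK_const (fun e he => hp e (j1 he)) (fun e he => hq e (sub_ins_iff.2
      ⟨j1.trans k.subA, fun w hw => c3 w (vs_mono j1 hw) (j3 w hw) ?_⟩ he))
      (j2.2.2 u j2.left_mem u' j2.right_mem)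
    refine Rch.closed (P := fun w => w ∉ G.vs (A3 ∪ A4)) (j2.2.2 u j2.left_mem w hw)
      (fun f hf => ?_) (c2 u u1 u2)
    have f1 := j1 hf
    rw [k.eq, mem_union] at f1
    rcases f1 with f1 | f1
    · exact iff_of_true (c2 _ (s_mem_vs f1) (j3 _ (s_mem_vs hf)))
        (c2 _ (t_mem_vs f1) (j3 _ (t_mem_vs hf)))
    · exact iff_of_false (not_not.2 (s_mem_vs f1)) (not_not.2 (t_mem_vs f1))
  rw [Cut_sw j] at u3
  rw [Cut_sw j'] at w3
  rw [Cut_sw j, Cut_sw j']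
  have h2 : (2 : ZMod 2) = 0 := rfl
  linear_combination u3 - w3 + e1 + e2 + (q u' + q m' - q u - q m) * h2

end SG

end Pool.Agent.Work.MP_8c679b_co
end

-- merged part: Pool.Agent.Work.MP_8c679b_co.ND.K2
section
/-!
The three moves.  In every case a small circuit misses the odd triangle `A2 ∪ A3 ∪ Z'`
(`k.rot.odd`), so it is even (`NCx.par_zero`).  Use `K4.ear_meet`, `K4.adj`, `K4.opp`, `K4.zr`
(with `rot`, `flip`) for the vertex sets, `Jn.union` for the new arcs, `par_union`, `par_sdiff`,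
and close parity goals by generalising the parities and `decide`.
-/

set_option autoImplicit false

namespace Pool.Agent.Work.MP_8c679b_co

open Finset

namespace SG

variable {V E : Type} [Fintype V] [DecidableEq V] [DecidableEq E] {G : SG V E}

variable {T : Finset V} {ρ A1 A2 A3 A4 Z Z' F B Za Zb Aa : Finset E} {a a' b b' u w : V}

theorem ndK2_A1 {v : V} (hc : G.Cub) (k : G.K4 T ρ a a' b b' A1 A2 A3 A4 Z Z')
    (h1 : v ∈ G.vs A1) (h2 : v ∈ G.vs (A2 ∪ A3 ∪ Z')) : v = a' := by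
  rw [vs_union, vs_union, mem_union, mem_union] at h2
  rcases h2 with (m | m) | m
  · exact k.adj hc h1 m
  · exact absurd m (disjoint_left.1 (k.opp hc) h1)
  · refine (k.rot.zr hc m (vs_mono k.s1.1 h1)).resolve_right fun q => ?_
    exact disjoint_left.1 (k.opp hc) h1 (q ▸ k.j3.right_mem)

theorem ndK2_Z {v : V} (hc : G.Cub) (k : G.K4 T ρ a a' b b' A1 A2 A3 A4 Z Z')
    (h1 : v ∈ G.vs Z) (h2 : v ∈ G.vs (A2 ∪ A3 ∪ Z')) : v = b := by
  have h3 := h2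
  rw [vs_union, mem_union] at h3
  rcases h3 with m | m
  · refine (k.zr hc h1 (vs_mono (union_subset k.s1.2.1 k.s1.2.2.1) m)).resolve_left fun q => ?_
    exact k.ne.1 (ndK2_A1 hc k k.j1.left_mem (q ▸ h2))
  · exact absurd m (disjoint_left.1 k.dzz h1)

theorem ndK2_dA (k : G.K4 T ρ a a' b b' A1 A2 A3 A4 Z Z') : Disjoint A1 (A2 ∪ A3 ∪ Z') :=
  disjoint_union_right.2 ⟨disjoint_union_right.2 ⟨k.d12, k.d13⟩, k.dz'.symm.mono_left k.s1.1⟩

theorem ndK2_dZ (k : G.K4 T ρ a a' b b' A1 A2 A3 A4 Z Z') : Disjoint Z (A2 ∪ A3 ∪ Z') :=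
  disjoint_union_right.2 ⟨k.dz.mono_right (union_subset k.s1.2.1 k.s1.2.2.1), disjoint_of_vs k.dzz⟩

theorem ndK2_one {C S P : Finset E} {v : V} (hc : G.Cub) (hA : C ⊆ G.A) (hC : G.Ev C)
    (hS : S ⊆ G.A) (d : Disjoint S C) (hP : P ⊆ S) (hv : v ∈ G.vs C) (h1 : v ∈ G.vs P)
    (h2 : v ∈ G.vs (S \ P)) : False := by
  obtain ⟨e, he, ae⟩ := mem_vs.1 h1
  obtain ⟨e', he', ae'⟩ := mem_vs.1 h2
  obtain ⟨m, n⟩ := mem_sdiff.1 he'
  exact n (third_unique hc hA hv (hC v) (hS (hP he)) (hS m) (disjoint_left.1 d (hP he))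
    (disjoint_left.1 d m) ae ae' ▸ he)

/-- the pointwise form of the disjointness conditions -/
theorem ndK2_pt (k : G.K4 T ρ a a' b b' A1 A2 A3 A4 Z Z') (d : Disjoint F (ρ ∪ (Z ∪ Z'))) (e : E) :
    (e ∈ A1 → e ∉ A2 ∧ e ∉ A3 ∧ e ∉ A4) ∧ (e ∈ A2 → e ∉ A3 ∧ e ∉ A4) ∧ (e ∈ A3 → e ∉ A4) ∧
      (e ∈ Z → e ∉ A1 ∧ e ∉ A2 ∧ e ∉ A3 ∧ e ∉ A4 ∧ e ∉ Z') ∧
      (e ∈ Z' → e ∉ A1 ∧ e ∉ A2 ∧ e ∉ A3 ∧ e ∉ A4) ∧
      (e ∈ F → e ∉ A1 ∧ e ∉ A2 ∧ e ∉ A3 ∧ e ∉ A4 ∧ e ∉ Z ∧ e ∉ Z') := by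
  obtain ⟨s1, s2, s3, s4⟩ := k.s1
  have z : e ∈ Z → e ∉ ρ := fun m => disjoint_left.1 k.dz m
  have z' : e ∈ Z' → e ∉ ρ := fun m => disjoint_left.1 k.dz' m
  have f : e ∈ F → e ∉ ρ ∪ (Z ∪ Z') := fun m => disjoint_left.1 d m
  simp only [mem_union, not_or] at f
  exact ⟨fun m => ⟨disjoint_left.1 k.d12 m, disjoint_left.1 k.d13 m, disjoint_left.1 k.d14 m⟩,
    fun m => ⟨disjoint_left.1 k.d23 m, disjoint_left.1 k.d24 m⟩, fun m => disjoint_left.1 k.d34 m,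
    fun m => ⟨fun q => z m (s1 q), fun q => z m (s2 q), fun q => z m (s3 q), fun q => z m (s4 q),
      disjoint_left.1 (disjoint_of_vs k.dzz) m⟩,
    fun m => ⟨fun q => z' m (s1 q), fun q => z' m (s2 q), fun q => z' m (s3 q),
      fun q => z' m (s4 q)⟩,
    fun m => ⟨fun q => (f m).1 (s1 q), fun q => (f m).1 (s2 q), fun q => (f m).1 (s3 q),
      fun q => (f m).1 (s4 q), (f m).2.1, (f m).2.2⟩⟩

/-- Replacing the arc `A1`.  HINT: `symmDiff A1 B` is even; both sets contain the third edge at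
`a'` (`full`), so the symmetric difference misses `a'`; a vertex of `B` on the triangle has degree
at most one in `B`, so it is `a` or `a'`. -/
theorem K4.ear (h : G.NCx T) (k : G.K4 T ρ a a' b b' A1 A2 A3 A4 Z Z') (j : G.Jn B a a')
    (hB : B ⊆ G.ins T) (d : Disjoint B (ρ \ A1)) (dz : Disjoint B Z) (dz' : Disjoint B Z') :
    G.K4 T (ρ \ A1 ∪ B) a a' b b' B A2 A3 A4 Z Z' := by
  have hc := h.hc
  obtain ⟨cD, oD, sD⟩ := k.rot.odd
  have sA := sD.trans ins_sub_A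
  have e1 := k.j12.2.2
  rw [e1] at d
  obtain ⟨d2, d34⟩ := disjoint_union_right.1 d
  obtain ⟨d3, d4⟩ := disjoint_union_right.1 d34
  have dB : Disjoint B (A2 ∪ A3 ∪ Z') :=
    disjoint_union_right.2 ⟨disjoint_union_right.2 ⟨d2, d3⟩, dz'⟩
  have s1 : A1 ⊆ G.ins T := k.s1.1.trans k.sub
  have hp : G.par (symmDiff A1 B) = 0 := by
    refine h.par_zero sD cD oD (symmDiff_subset_union.trans (union_subset s1 hB))
      (od_self.1 (k.j1.2.1.symmDiff j.2.1.symm)) (disjoint_left.2 fun v h1 h2 => ?_)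
    have hv : v = a' := by
      rcases mem_union.1 (vs_union (G := G) ▸ vs_mono symmDiff_subset_union h1) with m | m
      · exact ndK2_A1 hc k m h2
      · by_contra n
        have n' : v ≠ a := fun q => n (ndK2_A1 hc k (q ▸ k.j1.left_mem) h2)
        have q1 := deg_third hc sA h2 (cD.2.1 v)
        have q2 := deg_mono (G := G) (v := v) (subset_sdiff.2 ⟨hB.trans ins_sub_A, dB⟩)
        have q3 := deg_pos.2 m
        obtain ⟨r, hr⟩ := dg_eq_zero.1 (j.2.1.other n' n)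
        omega
    subst hv
    obtain ⟨e, he, ae⟩ := SG.mem_vs.1 h1
    obtain ⟨e1, he1, ae1⟩ := SG.mem_vs.1 k.j1.right_mem
    obtain ⟨e2, he2, ae2⟩ := SG.mem_vs.1 j.right_mem
    have n1 := disjoint_left.1 (ndK2_dA k)
    have n2 := disjoint_left.1 dB
    have t := fun {x y : E} => third_unique (e := x) (e' := y) hc sA h2 (cD.2.1 v)
    rcases mem_symmDiff.1 he with ⟨m, n⟩ | ⟨m, n⟩
    · exact n (t (ins_sub_A (hB he2)) (ins_sub_A (s1 m)) (n2 he2) (n1 m) ae2 ae ▸ he2)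
    · exact n (t (ins_sub_A (s1 he1)) (ins_sub_A (hB m)) (n1 he1) (n2 m) ae1 ae ▸ he1)
  rw [par_symmDiff] at hp
  refine ⟨?_, union_subset (sdiff_subset.trans k.sub) hB, j, k.j2, k.j3, k.j4, d2, d3, d4, k.d23,
    k.d24, k.d34, k.sz, k.sz', k.jz, k.jz',
    disjoint_union_right.2 ⟨k.dz.mono_right sdiff_subset, dz.symm⟩,
    disjoint_union_right.2 ⟨k.dz'.mono_right sdiff_subset, dz'.symm⟩, k.dzz, ?_, k.o2, k.o3⟩
  · rw [e1, union_comm, union_assoc]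
  · rw [← z2_eq_of_add hp]
    exact k.o1

/-- An ear from an inner vertex `u` of `Z` to an inner vertex `w` of `A1`: the branch vertex `a`
moves to `u`.  HINT: the circuit `Za ∪ Aa ∪ F` is even. -/
theorem K4.m1 (h : G.NCx T) (k : G.K4 T ρ a a' b b' A1 A2 A3 A4 Z Z') (s : Za ⊆ Z)
    (j1 : G.Jn Za a u) (j2 : G.Jn (Z \ Za) u b) (s' : Aa ⊆ A1) (j3 : G.Jn Aa a w)
    (j4 : G.Jn (A1 \ Aa) w a') (hF : F ⊆ G.ins T) (j : G.Jn F u w)
    (d : Disjoint F (ρ ∪ (Z ∪ Z'))) :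
    G.K4 T (F ∪ (A1 \ Aa) ∪ A2 ∪ (A3 ∪ (A4 ∪ Za))) u a' b b' (F ∪ (A1 \ Aa)) A2 A3 (A4 ∪ Za)
      (Z \ Za) Z' ∧ G.par Za + G.par Aa + G.par F = 0 := by
  have hc := h.hc
  obtain ⟨cD, oD, sD⟩ := k.rot.odd
  have sA := sD.trans ins_sub_A
  obtain ⟨s1, s2, s3, s4⟩ := k.s1
  have pt := ndK2_pt k d
  have dd : Disjoint Za Aa ∧ Disjoint (Za ∪ Aa) F ∧ Disjoint F (A1 \ Aa) ∧ Disjoint A4 Za ∧
      Disjoint (F ∪ (A1 \ Aa)) A2 ∧ Disjoint (F ∪ (A1 \ Aa)) A3 ∧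
      Disjoint (F ∪ (A1 \ Aa)) (A4 ∪ Za) ∧ Disjoint A2 (A4 ∪ Za) ∧ Disjoint A3 (A4 ∪ Za) ∧
      Disjoint (Z \ Za) (F ∪ (A1 \ Aa) ∪ A2 ∪ (A3 ∪ (A4 ∪ Za))) ∧
      Disjoint Z' (F ∪ (A1 \ Aa) ∪ A2 ∪ (A3 ∪ (A4 ∪ Za))) := by
    refine ⟨?_, ?_, ?_, ?_, ?_, ?_, ?_, ?_, ?_, ?_, ?_⟩ <;>
    · refine disjoint_left.2 fun e m n => ?_
      have p := pt e
      have q := @s e
      have q' := @s' e
      clear * - p q q' m n
      grind
  obtain ⟨d1, d2, d3, d4, d5, d6, d7, d8, d9, d10, d11⟩ := dd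
  have mu : u ∈ G.vs Z := vs_mono s j1.right_mem
  have hZ : ∀ v ∈ G.vs Za, v ∉ G.vs (A2 ∪ A3 ∪ Z') := fun v m n =>
    ndK2_one hc sA cD.2.1 (k.sz.trans ins_sub_A) (ndK2_dZ k) s n m
      (ndK2_Z hc k (vs_mono s m) n ▸ j2.right_mem)
  have hA : ∀ v ∈ G.vs Aa, v ∉ G.vs (A2 ∪ A3 ∪ Z') := fun v m n =>
    ndK2_one hc sA cD.2.1 (s1.trans k.subA) (ndK2_dA k) s' n m
      (ndK2_A1 hc k (vs_mono s' m) n ▸ j4.right_mem)
  have hp : G.par (Za ∪ Aa ∪ F) = 0 := by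
    refine h.par_zero sD cD oD
      (union_subset (union_subset (s.trans k.sz) (s'.trans (s1.trans k.sub))) hF)
      (od_self.1 ((j1.2.1.symm.union j3.2.1 d1).union j.2.1.symm d2))
      (disjoint_left.2 fun v h1 h2 => ?_)
    rw [vs_union, vs_union, mem_union, mem_union] at h1
    rcases h1 with (m | m) | m
    · exact hZ v m h2
    · exact hA v m h2
    · rcases k.ear_meet hc (hF.trans ins_sub_A) j d m (vs_mono (union_subset_union
        (union_subset s2 s3) subset_union_right) h2) with rfl | rfl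
      exacts [hZ _ j1.right_mem h2, hA _ j3.right_mem h2]
  rw [par_union d2, par_union d1] at hp
  refine ⟨⟨rfl, ?_, j.union j4 d3 fun q => ?_, k.j2, k.j3, k.j4.union j1 d4 fun q => ?_, d5, d6, d7,
    k.d23, d8, d9, sdiff_subset.trans k.sz, k.sz', j2, k.jz', d10, d11,
    k.dzz.mono_left (vs_mono sdiff_subset), ?_, k.o2, ?_⟩, hp⟩
  · exact union_subset (union_subset (union_subset hF (sdiff_subset.trans (s1.trans k.sub)))
      (s2.trans k.sub)) (union_subset (s3.trans k.sub) (union_subset (s4.trans k.sub)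
        (s.trans k.sz)))
  · exact disjoint_left.1 k.dzz mu (q ▸ k.jz'.left_mem)
  · exact disjoint_left.1 k.dzz mu (q ▸ k.jz'.right_mem)
  · rw [par_union d3, par_sdiff s', par_sdiff s]
    linear_combination k.o1 + hp
  · rw [par_union d4, par_sdiff s]
    linear_combination k.o3 + z2_add_self (G.par Za)

/-- An ear between inner vertices of `Z` and `Z'` that forms an even circuit with `A1`. -/
theorem K4.m2 (h : G.NCx T) (k : G.K4 T ρ a a' b b' A1 A2 A3 A4 Z Z') (s : Za ⊆ Z)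
    (j1 : G.Jn Za a u) (j2 : G.Jn (Z \ Za) u b) (s' : Zb ⊆ Z') (j3 : G.Jn Zb a' w)
    (j4 : G.Jn (Z' \ Zb) w b') (hF : F ⊆ G.ins T) (j : G.Jn F u w)
    (d : Disjoint F (ρ ∪ (Z ∪ Z'))) (hp : G.par A1 + G.par Zb + G.par F + G.par Za = 0) :
    G.K4 T (F ∪ (Zb ∪ A2) ∪ (A3 ∪ (A4 ∪ Za))) u w b b' F (Zb ∪ A2) A3 (A4 ∪ Za)
      (Z \ Za) (Z' \ Zb) := by
  obtain ⟨s1, s2, s3, s4⟩ := k.s1
  have pt := ndK2_pt k d
  have dd : Disjoint Zb A2 ∧ Disjoint A4 Za ∧ Disjoint F (Zb ∪ A2) ∧ Disjoint F A3 ∧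
      Disjoint F (A4 ∪ Za) ∧ Disjoint (Zb ∪ A2) A3 ∧ Disjoint (Zb ∪ A2) (A4 ∪ Za) ∧
      Disjoint A3 (A4 ∪ Za) ∧ Disjoint (Z \ Za) (F ∪ (Zb ∪ A2) ∪ (A3 ∪ (A4 ∪ Za))) ∧
      Disjoint (Z' \ Zb) (F ∪ (Zb ∪ A2) ∪ (A3 ∪ (A4 ∪ Za))) := by
    refine ⟨?_, ?_, ?_, ?_, ?_, ?_, ?_, ?_, ?_, ?_⟩ <;>
    · refine disjoint_left.2 fun e m n => ?_
      have p := pt e
      have q := @s e
      have q' := @s' e
      clear * - p q q' m n
      grind
  obtain ⟨d1, d2, d3, d4, d5, d6, d7, d8, d9, d10⟩ := dd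
  have mu : u ∈ G.vs Z := vs_mono s j1.right_mem
  have mw : w ∈ G.vs Z' := vs_mono s' j3.right_mem
  refine ⟨rfl, ?_, j, j3.symm.union k.j2 d1 fun q => ?_, k.j3, k.j4.union j1 d2 fun q => ?_, d3, d4,
    d5, d6, d7, d8, sdiff_subset.trans k.sz, sdiff_subset.trans k.sz', j2, j4, d9, d10,
    k.dzz.mono (vs_mono sdiff_subset) (vs_mono sdiff_subset), ?_, ?_, ?_⟩
  · exact union_subset (union_subset hF (union_subset (s'.trans k.sz') (s2.trans k.sub)))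
      (union_subset (s3.trans k.sub) (union_subset (s4.trans k.sub) (s.trans k.sz)))
  · exact disjoint_left.1 k.dzz k.jz.right_mem (q ▸ mw)
  · exact disjoint_left.1 k.dzz mu (q ▸ k.jz'.right_mem)
  · rw [par_union d1, par_sdiff s]
    linear_combination k.o1 + hp - z2_add_self (G.par A1)
  · rw [par_union d1, par_sdiff s']
    linear_combination k.o2 + z2_add_self (G.par Zb)
  · rw [par_union d2, par_sdiff s]
    linear_combination k.o3 + z2_add_self (G.par Za)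

end SG

end Pool.Agent.Work.MP_8c679b_co
end

-- merged part: Pool.Agent.Work.MP_8c679b_co.Cubic
section
set_option autoImplicit false

namespace Pool.Agent.Work.MP_8c679b_co

open Finset

namespace SG

variable {V E : Type} [Fintype V] [DecidableEq V] [DecidableEq E] {G : SG V E}

omit [Fintype V] in
lemma Cubic_ins : G.ins (G.vs G.A) = G.A := Subset.antisymm ins_sub_A (sub_ins_vs Subset.rfl)

omit [Fintype V] in
lemma Cubic_cov (h : G.Sol (G.vs G.A) 0) : G.Cov := by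
  obtain ⟨O, h1, h2, h3, φ, h4, h5⟩ := h
  refine ⟨O, h1.trans ins_sub_A, h2, h3, φ, fun v => ?_,
    fun e he => h5 e (mem_tch.2 ⟨he, Or.inl (s_mem_vs he)⟩)⟩
  by_cases hv : v ∈ G.vs G.A
  · exact h4 v hv
  · rw [bd_congr (g := fun _ => 0) fun e he h => absurd (mem_vs.2 ⟨e, he, h⟩) hv]
    simp [bd]

omit [Fintype V] [DecidableEq E] in
lemma Cubic_at {X : Finset V} (h : G.cut X = ∅) {e : E} (he : e ∈ G.A)
    (h' : G.s e ∈ X ∨ G.t e ∈ X) : e ∈ G.ins X := by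
  have k : G.s e ∈ X ↔ G.t e ∈ X := by
    by_contra k
    exact notMem_empty e (h ▸ mem_filter.2 ⟨he, k⟩)
  exact mem_filter.2 ⟨he, by tauto⟩

omit [Fintype V] in
lemma Cubic_sol {X : Finset V} (h : G.cut X = ∅)
    (hv : ({ G with A := G.ins X } : SG V E).Cov) : G.Sol X 0 := by
  obtain ⟨O, h1, h2, h3, φ, h4, h5⟩ := hv
  refine ⟨O, h1, h2, h3, φ, fun v hv => ?_,
    fun e he => h5 e (Cubic_at h (mem_tch.1 he).1 (mem_tch.1 he).2)⟩
  refine Eq.trans (sum_subset ins_sub_A fun e he k => ?_).symm (h4 v)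
  have a1 : G.s e ≠ v := fun a => k (Cubic_at h he (Or.inl (a ▸ hv)))
  have a2 : G.t e ≠ v := fun a => k (Cubic_at h he (Or.inr (a ▸ hv)))
  simp [iv, a1, a2]

omit [Fintype V] in
lemma Cubic_cub (hc : G.Cub) {X : Finset V} (h : G.cut X = ∅) :
    ({ G with A := G.ins X } : SG V E).Cub := by
  intro v
  change G.deg (G.ins X) v = 0 ∨ G.deg (G.ins X) v = 3
  by_cases hv : v ∈ X
  · have : G.deg (G.ins X) v = G.deg G.A v := sum_subset ins_sub_A fun e he k =>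
      Nat.eq_zero_of_not_pos fun a => k (Cubic_at h he (Or.imp (fun a : G.s e = v => a ▸ hv)
        (fun a : G.t e = v => a ▸ hv) (inc_pos.1 a)))
    rw [this]; exact hc v
  · exact Or.inl (Nat.eq_zero_of_not_pos fun a =>
      hv ((sub_ins_iff.1 Subset.rfl).2 (deg_pos.1 a)))

omit [Fintype V] in
lemma Cubic_lt {X : Finset V} {v : V} (hv : v ∈ G.vs G.A) (h : v ∉ X) :
    (G.ins X).card < G.A.card :=
  card_lt_card (Finset.ssubset_iff_subset_ne.2 ⟨ins_sub_A, fun k =>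
    h ((sub_ins_iff.1 (k.ge : G.A ⊆ G.ins X)).2 hv)⟩)

theorem cov_cubic (G : SG V E) (hc : G.Cub) (hA : G.Adm) : G.Cov := by
  induction hn : G.A.card using Nat.strong_induction_on generalizing G with
  | _ n ih =>
  subst hn
  have hA1 := hA.adm1
  by_cases hB : G.Bal G.A
  · exact Cubic_cov (sol_of_bal hA1 (by rwa [Cubic_ins]))
  by_cases h2 : G.Two (G.vs G.A) G.A
  swap
  · unfold Two at h2
    push Not at h2
    obtain ⟨X, x1, ⟨v, hv⟩, x3, x4⟩ := h2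
    have sp : ∀ ε, G.Sol X ε → G.Sol (G.vs G.A \ X) ε → G.Cov := fun ε a b => by
      have := a.split b disjoint_sdiff (by rw [tch_inter x1, Cubic_ins]; omega)
      rw [union_sdiff_of_subset x1, z2_add_self] at this
      exact Cubic_cov this
    by_cases h1 : (G.cut X).card = 1
    · obtain ⟨ε, h⟩ := sol_exists hA1 (G.vs G.A \ X)
      exact sp ε ((flex_of_cut hA1 h1).all ε) h
    · have h0 : G.cut X = ∅ := card_eq_zero.1 (by unfold cut at h1 ⊢; omega)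
      have h0' : G.cut (G.vs G.A \ X) = ∅ := eq_empty_of_forall_notMem fun e he => by
        obtain ⟨a1, a2⟩ := mem_cut.1 he
        refine notMem_empty e (h0 ▸ mem_cut.2 ⟨a1, fun k => a2 ?_⟩)
        simp only [mem_sdiff, s_mem_vs a1, t_mem_vs a1, true_and, k]
      obtain ⟨u, u1, u2⟩ := exists_of_ssubset (Finset.ssubset_iff_subset_ne.2 ⟨x1, x3⟩)
      exact sp 0 (Cubic_sol h0 (ih _ (Cubic_lt u1 u2) _ (Cubic_cub hc h0) (hA.restrict h0) rfl))
        (Cubic_sol h0' (ih _ (Cubic_lt (x1 hv) fun k => (mem_sdiff.1 k).2 hv) _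
          (Cubic_cub hc h0') (hA.restrict h0') rfl))
  by_cases hS : G.S3 (G.vs G.A)
  · obtain ⟨C, c1, ⟨⟨e, he⟩, -⟩, -⟩ := exists_odd_cc hB
    exact Cubic_cov (tmain hc hA _ (by rwa [Cubic_ins]) (by rwa [Cubic_ins])
      ⟨_, s_mem_vs (c1 he), by rw [Cubic_ins]; exact hc.deg3 (s_mem_vs (c1 he))⟩ hS).1
  · unfold S3 at hS
    push Not at hS
    obtain ⟨X, x1, x2, x3, x4, x5⟩ := hS
    have hne : X.Nonempty := card_pos.1 (by omega)
    have x6 : 2 ≤ (G.cut X).card := h2 X x1 hne fun k => hB (by rwa [k, Cubic_ins] at x4)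
    obtain ⟨Y, y1, y2, y3, y4⟩ : ∃ Y : Finset V, 2 ≤ Y.card ∧ G.Cn Y (G.ins Y) ∧
        G.Bal (G.ins Y) ∧ (G.cut Y).card = 3 := by
      by_cases h : (G.cut X).card = 2
      exacts [red2 hc h2 hne x3 x4 h, ⟨X, x2, x3, x4, by omega⟩]
    obtain ⟨G', g1, g2, g3, g4⟩ := red3 hc hA y1 y2 y3 y4
    exact g4 (ih _ g3 G' g1 g2 rfl)

end SG

end Pool.Agent.Work.MP_8c679b_co
end
end
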