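import Pool.Agent.Work.MP_8c679b_co.EJ

set_option autoImplicit false

namespace Pool.Agent.Work.MP_8c679b_co

open Finset

namespace SG

variable {V E : Type} [Fintype V] [DecidableEq V] [DecidableEq E] {G : SG V E}

lemma Lift_sum_prod {M : Type} [AddCommMonoid M] (S : Finset E) (S' : Finset (E × Bool))
    (h : ∀ q ∈ S', q.1 ∈ S) (f : E × Bool → M) :
    ∑ q ∈ S', f q = ∑ e ∈ S, ((if (e, false) ∈ S' then f (e, false) else 0) +
      (if (e, true) ∈ S' then f (e, true) else 0)) := by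
  have h1 : S' = (S ×ˢ (univ : Finset Bool)).filter (· ∈ S') := by
    ext q
    simp only [mem_filter, mem_product, mem_univ, and_true]
    exact ⟨fun k => ⟨h q k, k⟩, fun k => k.2⟩
  conv_lhs => rw [h1]
  rw [sum_filter, sum_product]
  refine sum_congr rfl fun e _ => ?_
  rw [Fintype.sum_bool, add_comm]

lemma Lift_sum_bd (f : E → ℤ) (K : Finset V) :
    ∑ v ∈ K, G.bd f v = ∑ e ∈ G.A, G.kap (fun _ => 0) K e * f e := by
  rw [← sum_bd]
  simp

lemma Lift_par (f : E → ℤ) (K : Finset V) :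
    Even (∑ v ∈ K, G.bd f v - ∑ e ∈ G.cut K, f e) := by
  rw [Lift_sum_bd, cut, crs, sum_filter, ← sum_sub_distrib]
  refine even_sum _ fun e _ => ?_
  rcases z2 (G.n e) with h | h <;> by_cases h1 : G.s e ∈ K <;> by_cases h2 : G.t e ∈ K <;>
    simp [kap, iv, h, h1, h2, ← two_mul, parity_simps]

lemma Lift_bd_cast (f : E → ℤ) (v : V) : G.bd (fun e => (f e : ℚ)) v = (G.bd f v : ℤ) := by
  simp only [bd, iv, chi]
  push_cast
  rfl

variable (G) in
/-- the graph with one copy of an edge for each unit of its box -/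
def LiftG (l u : E → ℤ) : SG V (E × Bool) where
  A := (G.A ×ˢ (univ : Finset Bool)).filter fun q => l q.1 + (if q.2 then 2 else 1) ≤ u q.1
  s q := G.s q.1
  t q := G.t q.1
  n q := G.n q.1

lemma Lift_mem {l u : E → ℤ} {e : E} {c : Bool} :
    (e, c) ∈ (G.LiftG l u).A ↔ e ∈ G.A ∧ l e + (if c then 2 else 1) ≤ u e := by
  simp [LiftG]

lemma Lift_mem_cut {l u : E → ℤ} {e : E} {c : Bool} {K : Finset V} :
    (e, c) ∈ (G.LiftG l u).cut K ↔ e ∈ G.cut K ∧ l e + (if c then 2 else 1) ≤ u e := by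
  rw [mem_cut, mem_cut, Lift_mem]
  simp only [LiftG]
  tauto

lemma Lift_bb {R : Type} [CommRing R] (l u : E → ℤ) (z : E × Bool → R) (v : V) :
    (G.LiftG l u).bb (fun _ => 1) (fun q => -chi (G.n q.1)) z v =
      G.bd (fun e => (if l e + 1 ≤ u e then z (e, false) else 0) +
        (if l e + 2 ≤ u e then z (e, true) else 0)) v := by
  rw [bb, Lift_sum_prod G.A _ fun q hq => (Lift_mem.1 hq).1, bd]
  refine sum_congr rfl fun e he => ?_
  have hc : ((chi (G.n e) : ℤ) : R) = chi (G.n e) := by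
    simp only [chi]
    split_ifs <;> simp
  simp only [Lift_mem, he, true_and]
  simp only [LiftG, Int.cast_neg, hc, Int.cast_one, Bool.false_eq_true, if_false, if_true, iv]
  split_ifs <;> ring

theorem lift_box (G : SG V E) (W : Finset V) (l u : E → ℤ) (b : V → ℤ) (y : E → ℚ)
    (h0 : ∀ e ∈ G.A, (l e : ℚ) ≤ y e ∧ y e ≤ u e ∧ u e ≤ l e + 2)
    (hB : ∀ v ∈ W, G.bd y v = b v)
    (hodd : ∀ K ⊆ W, ∀ F ⊆ G.cut K, Odd (∑ v ∈ K, b v + ∑ e ∈ F, u e + ∑ e ∈ G.cut K \ F, l e) →
      1 ≤ ∑ e ∈ G.cut K \ F, (y e - l e) + ∑ e ∈ F, (u e - y e))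
    (e0 : E) (d : Bool) (hd : e0 ∈ G.A → (l e0 : ℚ) < y e0 ∧ y e0 < u e0) :
    ∃ x : E → ℤ, (∀ e ∈ G.A, l e ≤ x e ∧ x e ≤ u e) ∧ (∀ v ∈ W, G.bd x v = b v) ∧
      (e0 ∈ G.A → if d then l e0 < x e0 else x e0 < u e0) := by
  have hu : ∀ e ∈ G.A, u e = l e ∨ u e = l e + 1 ∨ u e = l e + 2 := fun e he => by
    obtain ⟨h1, h2, h3⟩ := h0 e he
    have h4 : l e ≤ u e := by exact_mod_cast h1.trans h2
    omega
  set r : E → ℚ := fun e => (y e - l e) / (u e - l e) with hr
  have hr0 : ∀ e ∈ G.A, 0 ≤ r e ∧ r e ≤ 1 := fun e he => by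
    obtain ⟨h1, h2, -⟩ := h0 e he
    exact ⟨div_nonneg (by linarith) (by linarith),
      div_le_one_of_le₀ (by linarith) (by linarith)⟩
  have hr1 : ∀ e ∈ G.A, (u e - l e) * r e = y e - l e := fun e he => by
    obtain ⟨h1, h2, -⟩ := h0 e he
    by_cases k : (u e : ℚ) - l e = 0
    · rw [k, zero_mul]
      linarith
    · exact mul_div_cancel₀ _ k
  obtain ⟨x, hx1, hx2, hx3⟩ := ej (G.LiftG l u) (fun _ => 1) (fun q => -chi (G.n q.1))
    (fun _ => Or.inl rfl) (fun q => by rcases z2 (G.n q.1) with h | h <;> simp [h]) W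
    (fun v => b v - G.bd l v) (fun q => r q.1) (fun q hq => hr0 q.1 (Lift_mem.1 hq).1)
    (fun v hv => by
      rw [Lift_bb, Int.cast_sub, ← hB v hv, ← Lift_bd_cast, eq_sub_iff_add_eq, ← bd_add]
      refine bd_congr fun e he _ => ?_
      have h1 := hr1 e he
      rcases hu e he with h | h | h <;> rw [h] at h1 ⊢ <;> push_cast at h1 <;> simp <;> linarith)
    (fun K hK F' hF' ho => by
      have hp : ∀ q ∈ F', q.1 ∈ G.cut K := fun q hq => (Lift_mem_cut.1 (hF' hq)).1
      have hA : ∀ e ∈ G.cut K, e ∈ G.A := fun e he => (mem_cut.1 he).1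
      have hf : ∀ e c, (e, c) ∈ F' → l e + (if c then 2 else 1) ≤ u e := fun e c k =>
        (Lift_mem_cut.1 (hF' k)).2
      rw [Lift_sum_prod (G.cut K) F' hp, Lift_sum_prod (G.cut K) _
        fun q hq => (Lift_mem_cut.1 (mem_sdiff.1 hq).1).1, ← sum_add_distrib]
      by_cases hs : ∃ e ∈ G.cut K, u e = l e + 2 ∧ ¬ ((e, false) ∈ F' ↔ (e, true) ∈ F')
      · obtain ⟨e, he, h1, h2⟩ := hs
        refine le_trans (le_of_eq ?_) (single_le_sum (fun e' he' => ?_) he)
        · by_cases k1 : (e, false) ∈ F' <;> by_cases k2 : (e, true) ∈ F' <;>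
            simp [Lift_mem_cut, he, h1, k1, k2] at h2 ⊢
        · obtain ⟨k1, k2⟩ := hr0 e' (hA e' he')
          have k3 : 0 ≤ 1 - r e' := by linarith
          positivity
      · push Not at hs
        have h3 := hodd K hK ((G.cut K).filter fun e => (e, false) ∈ F') (filter_subset _ _) (by
          have h4 : (F'.card : ℤ) = ∑ e ∈ (G.cut K).filter fun e => (e, false) ∈ F',
              (u e - l e) := by
            rw [card_eq_sum_ones, Nat.cast_sum, Lift_sum_prod (G.cut K) F' hp, sum_filter]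
            refine sum_congr rfl fun e he => ?_
            have k1 := hf e false
            have k2 := hf e true
            have k3 := hs e he
            have k4 := hu e (hA e he)
            by_cases k5 : (e, false) ∈ F' <;> by_cases k6 : (e, true) ∈ F' <;>
              simp [k5, k6] at k1 k2 k3 ⊢ <;> omega
          have h5 := Lift_par (G := G) l K
          rw [← sum_sdiff (filter_subset (fun e => (e, false) ∈ F') (G.cut K))] at h5
          rw [h4, sum_sub_distrib, sum_sub_distrib] at ho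
          simp only [Int.odd_iff, Int.even_iff] at ho h5 ⊢
          omega)
        refine h3.trans (le_of_eq ?_)
        rw [sdiff_eq_filter, sum_filter, sum_filter, ← sum_add_distrib]
        refine sum_congr rfl fun e he => ?_
        have k1 := hf e false
        have k2 := hf e true
        have k3 := hs e he
        have k7 := hr1 e (hA e he)
        rcases hu e (hA e he) with h | h | h <;> rw [h] at k7 <;> push_cast at k7 <;>
          by_cases k5 : (e, false) ∈ F' <;> by_cases k6 : (e, true) ∈ F' <;>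
          simp [k5, k6, h, he, Lift_mem_cut] at k1 k2 k3 ⊢ <;> linarith)
    (e0, false) (if d then 1 else 0) (fun h => by
      obtain ⟨h1, h2⟩ := hd (Lift_mem.1 h).1
      cases d
      · exact Or.inl ⟨rfl, (div_lt_one (by linarith)).2 (by linarith)⟩
      · exact Or.inr ⟨rfl, div_pos (by linarith) (by linarith)⟩)
  have hx4 : ∀ e ∈ G.A, (l e + 1 ≤ u e → x (e, false) = 0 ∨ x (e, false) = 1) ∧
      (l e + 2 ≤ u e → x (e, true) = 0 ∨ x (e, true) = 1) := fun e he =>
    ⟨fun k => hx1 _ (Lift_mem.2 ⟨he, k⟩), fun k => hx1 _ (Lift_mem.2 ⟨he, k⟩)⟩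
  refine ⟨fun e => l e + ((if l e + 1 ≤ u e then x (e, false) else 0) +
    (if l e + 2 ≤ u e then x (e, true) else 0)), fun e he => ?_, fun v hv => ?_, fun he => ?_⟩
  · have k1 := hx4 e he
    have k2 := hu e he
    dsimp only
    split_ifs <;> omega
  · rw [bd_add, ← Lift_bb, hx2 v hv]
    ring
  · obtain ⟨h1, h2⟩ := hd he
    have h3 : l e0 < u e0 := by exact_mod_cast h1.trans h2
    have h4 := hx3 (Lift_mem.2 ⟨he, h3⟩)
    have k1 := hx4 e0 he
    have k2 := hu e0 he
    cases d <;> simp only [Bool.false_eq_true, if_false, if_true] at h4 ⊢ <;>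
      split_ifs <;> omega

/-- lifting an even set to an integer flow with values at most two -/
theorem lift2 (G : SG V E) (W : Finset V) {O : Finset E} (hO : O ⊆ G.ins W) (hE : G.Ev O)
    (hp : ∀ K ⊆ W, G.cut K = ∅ → G.par (O ∩ G.ins K) = 0) :
    ∃ ψ : E → ℤ, (∀ v ∈ W, G.bd ψ v = 0) ∧ ∀ e ∈ G.A, |ψ e| ≤ 2 ∧ (Odd (ψ e) ↔ e ∈ O) := by
  rcases isEmpty_or_nonempty E with hE0 | ⟨⟨e0⟩⟩
  · exact ⟨fun _ => 0, fun v _ => by simp [bd], fun e _ => isEmptyElim e⟩
  have hA : O ⊆ G.A := hO.trans ins_sub_A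
  set g : E → ℤ := fun e => if e ∈ O then 1 else 0 with hg
  have h2 : ∀ v, 2 ∣ G.bd g v := fun v => by
    have h3 := hE v
    refine (ZMod.intCast_zmod_eq_zero_iff_dvd _ 2).1 ?_
    rw [← h3, dg, bd, Int.cast_sum, ← sum_subset hA fun e _ he => by simp [hg, he]]
    refine sum_congr rfl fun e he => ?_
    rcases z2 (G.n e) with h | h <;> by_cases h1 : G.s e = v <;> by_cases h2 : G.t e = v <;>
      simp [iv, hg, he, h, h1, h2] <;> decide
  choose b hb using h2
  obtain ⟨x, hx1, hx2, -⟩ := lift_box G W (fun _ => -1) (fun e => 1 - g e) (fun v => -b v)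
    (fun e => (-1 / 2 : ℚ) * (g e : ℚ))
    (fun e _ => by by_cases h : e ∈ O <;> simp [hg, h] <;> norm_num)
    (fun v _ => by
      rw [bd_mul, Lift_bd_cast, hb v]
      push_cast
      ring)
    (fun K hK F hF ho => by
      have h3 : ∑ e ∈ G.cut K \ F, ((-1 / 2 : ℚ) * (g e : ℚ) - ((-1 : ℤ) : ℚ)) +
          ∑ e ∈ F, (((1 - g e : ℤ) : ℚ) - (-1 / 2 : ℚ) * (g e : ℚ)) =
          ∑ e ∈ G.cut K, (1 - (g e : ℚ) / 2) := by
        rw [← sum_sdiff hF]
        congr 1 <;> refine sum_congr rfl fun e _ => ?_ <;> push_cast <;> ring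
      rw [h3]
      have h4 : ∀ e ∈ G.cut K, (1 / 2 : ℚ) ≤ 1 - (g e : ℚ) / 2 := fun e _ => by
        by_cases h : e ∈ O <;> simp [hg, h] <;> norm_num
      by_cases h5 : G.cut K ⊆ O
      · have h6 : G.crs O K = G.cut K := by
          ext e
          rw [mem_crs, mem_cut]
          exact ⟨fun k => ⟨hA k.1, k.2⟩, fun k => ⟨h5 (mem_cut.2 k), k.2⟩⟩
        have h7 := hE.even_crs K
        rw [h6] at h7
        by_cases h8 : G.cut K = ∅
        · exfalso
          have h9 := hp K hK h8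
          rw [h8, subset_empty] at hF
          rw [h8, hF] at ho
          simp only [sum_empty, add_zero, sdiff_self, bot_eq_empty, sum_neg_distrib, odd_neg,
            neg_zero] at ho
          have k1 : 2 * ∑ v ∈ K, b v = 2 * ∑ e ∈ O ∩ G.ins K, ((G.n e).val : ℤ) := by
            rw [mul_sum, mul_sum, sum_congr rfl fun v _ => (hb v).symm, Lift_sum_bd,
              ← sum_subset (inter_subset_left.trans hA : O ∩ G.ins K ⊆ G.A) fun e he k => ?_]
            · refine sum_congr rfl fun e he => ?_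
              obtain ⟨k2, k3⟩ := mem_inter.1 he
              obtain ⟨-, k4, k5⟩ := mem_ins.1 k3
              rcases z2 (G.n e) with h | h <;> simp [kap, iv, hg, k2, k4, k5, h, ZMod.val_one]
            · by_cases k2 : e ∈ O
              · have k3 : e ∉ G.cut K := by simp [h8]
                rw [mem_cut] at k3
                rw [mem_inter, mem_ins] at k
                rw [kap_out (by tauto) (by tauto), zero_mul]
              · simp [hg, k2]
          have k2 : ((∑ v ∈ K, b v : ℤ) : ZMod 2) = 0 := by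
            rw [mul_left_cancel₀ two_ne_zero k1, ← h9, par]
            simp
          rw [ZMod.intCast_zmod_eq_zero_iff_dvd] at k2
          exact (Int.not_even_iff_odd.2 ho) (even_iff_two_dvd.2 k2)
        · have k1 : 2 ≤ (G.cut K).card := by
            have k2 := card_pos.2 (nonempty_iff_ne_empty.2 h8)
            obtain ⟨m, hm⟩ := h7
            omega
          have k2 := card_nsmul_le_sum _ _ _ h4
          have k3 : (2 : ℚ) ≤ (G.cut K).card := by exact_mod_cast k1
          rw [nsmul_eq_mul] at k2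
          linarith
      · obtain ⟨e, he, k⟩ := not_subset.1 h5
        refine le_trans (le_of_eq ?_) (single_le_sum (f := fun e => 1 - (g e : ℚ) / 2)
          (fun e' he' => le_trans (by norm_num) (h4 e' he')) he)
        simp [hg, k])
    e0 true (fun _ => by by_cases h : e0 ∈ O <;> simp [hg, h] <;> norm_num)
  refine ⟨fun e => g e + 2 * x e, fun v hv => ?_, fun e he => ?_⟩
  · rw [bd_add, bd_mul, hx2 v hv, hb v]
    ring
  · have k := hx1 e he
    rw [abs_le, Int.odd_iff]
    by_cases h : e ∈ O <;> simp [hg, h] at k ⊢ <;> omega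

/-- lifting a flow modulo three into boxes around zero -/
theorem lift3 (G : SG V E) (W : Finset V) (lo hi : E → ℤ)
    (h0 : ∀ e ∈ G.A, lo e ≤ -1 ∧ 1 ≤ hi e ∧ (hi e = lo e + 3 ∨ hi e = lo e + 6))
    (hB : ∀ v ∈ W, 3 ∣ G.bd lo v)
    (hc : ∀ K ⊆ W, ∀ e, G.cut K = {e} → lo e ≠ -1 ∧ hi e ≠ 1) (e0 : E) (d : Bool) :
    ∃ a : E → ℤ, (∀ e ∈ G.A, lo e ≤ a e ∧ a e ≤ hi e ∧ 3 ∣ a e - lo e) ∧
      (∀ v ∈ W, G.bd a v = 0) ∧ (e0 ∈ G.A → if d then lo e0 < a e0 else a e0 < hi e0) := by
  have hu : ∀ e ∈ G.A, 3 * ((hi e - lo e) / 3) = hi e - lo e := fun e he => by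
    have := h0 e he
    omega
  have hq : ∀ e ∈ G.A, (((hi e - lo e) / 3 : ℤ) : ℚ) = (hi e - lo e) / 3 := fun e he => by
    have h1 : ((3 * ((hi e - lo e) / 3) : ℤ) : ℚ) = (hi e - lo e : ℤ) := by rw [hu e he]
    rw [Int.cast_mul, Int.cast_sub] at h1
    norm_num at h1
    linarith
  have hb : ∀ v ∈ W, 3 * -(G.bd lo v / 3) = -G.bd lo v := fun v hv => by
    have := hB v hv
    omega
  have hs : ∀ e ∈ G.A, ((0 : ℤ) : ℚ) < (-1 / 3 : ℚ) * (lo e : ℚ) ∧
      (-1 / 3 : ℚ) * (lo e : ℚ) < (((hi e - lo e) / 3 : ℤ) : ℚ) := fun e he => by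
    obtain ⟨h1, h2, -⟩ := h0 e he
    have h3 : (lo e : ℚ) ≤ -1 := by exact_mod_cast h1
    have h4 : (1 : ℚ) ≤ hi e := by exact_mod_cast h2
    rw [hq e he, Int.cast_zero]
    constructor <;> linarith
  obtain ⟨x, hx1, hx2, hx3⟩ := lift_box G W (fun _ => 0) (fun e => (hi e - lo e) / 3)
    (fun v => -(G.bd lo v / 3)) (fun e => (-1 / 3 : ℚ) * (lo e : ℚ))
    (fun e he => ⟨(hs e he).1.le, (hs e he).2.le, by
      have := h0 e he
      omega⟩)
    (fun v hv => by
      have h1 : ((3 * -(G.bd lo v / 3) : ℤ) : ℚ) = (-G.bd lo v : ℤ) := by rw [hb v hv]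
      rw [Int.cast_mul, Int.cast_neg (G.bd lo v)] at h1
      rw [bd_mul, Lift_bd_cast]
      norm_num at h1 ⊢
      linarith)
    (fun K hK F hF ho => by
      have hA : ∀ e ∈ G.cut K, e ∈ G.A := fun e he => (mem_cut.1 he).1
      have h1 : ∑ e ∈ G.cut K \ F, ((-1 / 3 : ℚ) * (lo e : ℚ) - ((0 : ℤ) : ℚ)) +
          ∑ e ∈ F, ((((hi e - lo e) / 3 : ℤ) : ℚ) - (-1 / 3 : ℚ) * (lo e : ℚ)) =
          ((∑ e ∈ G.cut K \ F, -lo e + ∑ e ∈ F, hi e : ℤ) : ℚ) / 3 := by
        rw [Int.cast_add, Int.cast_sum, Int.cast_sum, add_div, sum_div, sum_div]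
        congr 1 <;> refine sum_congr rfl fun e he => ?_
        · push_cast
          ring
        · rw [hq e (hA e (hF he))]
          ring
      rw [h1, le_div_iff₀ (by norm_num), one_mul]
      have h2 : 3 * ∑ v ∈ K, -(G.bd lo v / 3) = -∑ v ∈ K, G.bd lo v := by
        rw [mul_sum, ← sum_neg_distrib]
        exact sum_congr rfl fun v hv => hb v (hK hv)
      have h3 : 3 * ∑ e ∈ F, (hi e - lo e) / 3 = ∑ e ∈ F, hi e - ∑ e ∈ F, lo e := by
        rw [mul_sum, ← sum_sub_distrib]
        exact sum_congr rfl fun e he => hu e (hA e (hF he))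
      have h4 := Lift_par (G := G) lo K
      rw [← sum_sdiff hF] at h4
      have h5 := card_nsmul_le_sum (G.cut K \ F) (fun e => -lo e) 1 fun e he => by
        have := h0 e (hA e (mem_sdiff.1 he).1)
        omega
      have h6 : F.card • (1 : ℤ) ≤ ∑ e ∈ F, hi e :=
        card_nsmul_le_sum F hi 1 fun e he => (h0 e (hA e (hF he))).2.1
      have h7 := card_sdiff_add_card_eq_card hF
      have h8 : ∑ e ∈ G.cut K \ F, -lo e + ∑ e ∈ F, hi e ≠ 1 := fun k => by
        simp only [nsmul_eq_mul, mul_one] at h5 h6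
        have k1 : (G.cut K).card = 0 ∨ (G.cut K).card = 1 := by omega
        rcases k1 with k1 | k1
        · rw [card_eq_zero] at k1
          rw [k1, subset_empty] at hF
          simp [k1, hF] at k
        · obtain ⟨e, he⟩ := card_eq_one.1 k1
          have k2 := hc K hK e he
          rw [he, subset_singleton_iff] at hF
          rcases hF with rfl | rfl <;> simp [he] at k <;> omega
      have h9 : (3 : ℤ) ≤ ∑ e ∈ G.cut K \ F, -lo e + ∑ e ∈ F, hi e := by
        simp only [nsmul_eq_mul, mul_one, sum_const_zero, add_zero, Int.odd_iff, Int.even_iff,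
          sum_neg_distrib] at h5 h6 ho h4 h8 h2 ⊢
        omega
      exact_mod_cast h9)
    e0 d (hs e0)
  refine ⟨fun e => lo e + 3 * x e, fun e he => ?_, fun v hv => ?_, fun he => ?_⟩
  · have k1 := hx1 e he
    have k2 := hu e he
    dsimp only at k1 ⊢
    omega
  · rw [bd_add, bd_mul, hx2 v hv, hb v hv]
    ring
  · have k1 := hx3 he
    have k2 := hu e0 he
    cases d <;> simp only [Bool.false_eq_true, if_false, if_true] at k1 ⊢ <;> omega

end SG

end Pool.Agent.Work.MP_8c679b_co
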