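import Pool.Agent.Work.MP_8c679b_co.Blow
import Pool.Agent.Work.MP_8c679b_co.Lift

set_option autoImplicit false

namespace Pool.Agent.Work.MP_8c679b_co

open Finset

namespace SG

variable {V E : Type} [Fintype V] [DecidableEq V] [DecidableEq E] {G : SG V E}

variable (G) in
/-- flows conserved on `X` with small values and one prescribed leaving edge -/
def Nn (X : Finset V) (e0 : E) (k : ℤ) : Prop :=
  ∃ f : E → ℤ, (∀ v ∈ X, G.bd f v = 0) ∧ (∀ e ∈ G.ins X, f e ≠ 0 ∧ |f e| ≤ 8) ∧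
    (∀ e ∈ G.cut X, |f e| = 2 ∨ |f e| = 4) ∧ (e0 ∈ G.cut X → |f e0| = k)

variable (G) in
/-- the same graph with fewer active edges -/
def nineRes (B : Finset E) : SG V E := { G with A := B }

/-- lower end of the box of a residue -/
def nineLo (r : ZMod 3) : ℤ := if r = 0 then -3 else if r = 1 then -2 else -1

/-- upper end of the box of a residue -/
def nineHi (r : ZMod 3) : ℤ := if r = 0 then 3 else if r = 1 then 1 else 2

lemma nine_z3 (r : ZMod 3) : r = 0 ∨ r = 1 ∨ r = 2 := by revert r; decide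

lemma nine_lo_cast (r : ZMod 3) : ((nineLo r : ℤ) : ZMod 3) = r := by revert r; decide

lemma nine_box (r : ZMod 3) : nineLo r ≤ -1 ∧ 1 ≤ nineHi r ∧
    (nineHi r = nineLo r + 3 ∨ nineHi r = nineLo r + 6) := by revert r; decide

lemma nine_box3 (r : ZMod 3) : -3 ≤ nineLo r ∧ nineHi r ≤ 3 := by revert r; decide

lemma nine_bd_res {R : Type} [Ring R] {B : Finset E} (hB : B ⊆ G.A) (f : E → R) (v : V) :
    G.bd (fun e => if e ∈ B then f e else 0) v = (G.nineRes B).bd f v := by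
  unfold bd
  change _ = ∑ e ∈ B, (iv (G.s e = v) - iv (G.t e = v) * chi (G.n e)) * f e
  rw [← sum_subset hB fun e _ he => by simp [he]]
  exact sum_congr rfl fun e he => by simp [he]

lemma nine_bd_cast (f : E → ℤ) (v : V) :
    ((G.bd f v : ℤ) : ZMod 3) = G.bd (fun e => (f e : ZMod 3)) v := by
  unfold bd
  push_cast
  refine sum_congr rfl fun e _ => ?_
  unfold iv chi
  split_ifs <;> simp

lemma nine_bd_sub {R : Type} [Ring R] (f g : E → R) (v : V) :
    G.bd (fun e => f e - g e) v = G.bd f v - G.bd g v := by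
  simp only [bd, mul_sub, sum_sub_distrib]

lemma nine_ins_tch {X : Finset V} : G.ins X ⊆ G.tch X := fun e he =>
  mem_tch.2 ⟨(mem_ins.1 he).1, Or.inl (mem_ins.1 he).2.1⟩

lemma nine_at {X : Finset V} {e : E} {v : V} (he : e ∈ G.A) (ha : G.At e v) (hv : v ∈ X) :
    e ∈ G.tch X := by
  rcases ha with rfl | rfl
  exacts [mem_tch.2 ⟨he, Or.inl hv⟩, mem_tch.2 ⟨he, Or.inr hv⟩]

lemma nine_cut_tch {X : Finset V} : G.cut X ⊆ G.tch X := fun e he => by
  rw [mem_cut] at he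
  rw [mem_tch]
  tauto

lemma nine_cut_not_ins {X : Finset V} {e : E} (h : e ∈ G.cut X) : e ∉ G.ins X := fun k => by
  rw [mem_cut] at h
  rw [mem_ins] at k
  tauto

lemma nine_small {X K : Finset V} (h2 : G.Two X (G.ins X)) {B : Finset E} (hB : G.ins X ⊆ B)
    (hK : K ⊆ X) (h : ((G.nineRes B).cut K).card ≤ 1) : K = ∅ ∨ K = X := by
  by_contra k
  push Not at k
  have h1 := h2 K hK k.1 k.2
  have h3 : G.crs (G.ins X) K ⊆ (G.nineRes B).cut K := fun e he =>
    mem_cut.2 ⟨hB (mem_crs.1 he).1, (mem_crs.1 he).2⟩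
  have := card_le_card h3
  omega

/-- lifting modulo two inside a subgraph -/
lemma nine_lift2 {X : Finset V} (h2 : G.Two X (G.ins X)) {B : Finset E} (hB : G.ins X ⊆ B)
    (hA : B ⊆ G.A) {O : Finset E} (hO : O ⊆ G.ins X) (hE : G.Ev O)
    (hp : (∃ e ∈ B, e ∈ G.cut X) ∨ G.par O = 0) :
    ∃ ψ : E → ℤ, (∀ v ∈ X, G.bd ψ v = 0) ∧ (∀ e, |ψ e| ≤ 2 ∧ (Odd (ψ e) ↔ e ∈ O)) ∧
      ∀ e, e ∉ B → ψ e = 0 := by
  have hO' : O ⊆ (G.nineRes B).ins X := fun e he =>
    mem_ins.2 ⟨hB (hO he), (mem_ins.1 (hO he)).2⟩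
  obtain ⟨ψ, h3, h4⟩ := lift2 (G.nineRes B) X hO' hE fun K hK hc => by
    rcases nine_small h2 hB hK (by rw [hc]; simp) with rfl | rfl
    · have : O ∩ (G.nineRes B).ins ∅ = ∅ := by
        ext e
        simp [mem_ins]
      rw [this]
      simp [par]
    · rw [inter_eq_left.2 hO']
      rcases hp with ⟨e, h5, h6⟩ | hp
      · have : e ∈ (G.nineRes B).cut K := mem_cut.2 ⟨h5, (mem_cut.1 h6).2⟩
        rw [hc] at this
        simp at this
      · exact hp
  refine ⟨fun e => if e ∈ B then ψ e else 0, fun v hv => ?_, fun e => ?_, fun e he => by simp [he]⟩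
  · rw [nine_bd_res hA, h3 v hv]
  · by_cases he : e ∈ B
    · simpa [he] using h4 e he
    · have : e ∉ O := fun k => he (hB (hO k))
      simp [he, this]

/-- lifting modulo three inside a subgraph -/
lemma nine_lift3 {X : Finset V} (h2 : G.Two X (G.ins X)) {B : Finset E} (hB : G.ins X ⊆ B)
    (hA : B ⊆ G.A) (ρ : E → ZMod 3) (hρ : ∀ v ∈ X, G.bd ρ v = 0)
    (h0 : ∀ e ∈ G.A, e ∉ B → ρ e = 0) (lo hi : E → ℤ) (hl : ∀ e, (lo e : ZMod 3) = ρ e)
    (hb : ∀ e, lo e ≤ -1 ∧ 1 ≤ hi e ∧ (hi e = lo e + 3 ∨ hi e = lo e + 6))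
    (hc : ∀ e, (G.nineRes B).cut X = {e} → lo e ≠ -1 ∧ hi e ≠ 1) (e0 : E) (d : Bool) :
    ∃ a : E → ℤ, (∀ e ∈ B, lo e ≤ a e ∧ a e ≤ hi e ∧ (a e : ZMod 3) = ρ e) ∧
      (∀ v ∈ X, G.bd a v = 0) ∧ (e0 ∈ B → if d then lo e0 < a e0 else a e0 < hi e0) ∧
      ∀ e, e ∉ B → a e = 0 := by
  obtain ⟨a, h3, h4, h5⟩ := lift3 (G.nineRes B) X lo hi (fun e _ => hb e) (fun v hv => by
    have h6 := (ZMod.intCast_zmod_eq_zero_iff_dvd ((G.nineRes B).bd lo v) 3).1 (by
      rw [nine_bd_cast, ← nine_bd_res hA]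
      refine Eq.trans (bd_congr fun e he _ => ?_) (hρ v hv)
      split_ifs with k
      exacts [hl e, (h0 e he k).symm])
    exact_mod_cast h6) (fun K hK e he => by
    rcases nine_small h2 hB hK (by rw [he]; simp) with rfl | rfl
    · have : e ∈ (G.nineRes B).cut ∅ := by
        rw [he]
        simp
      simp [mem_cut] at this
    · exact hc e he) e0 d
  refine ⟨fun e => if e ∈ B then a e else 0, fun e he => ?_, fun v hv => ?_, fun he => ?_,
    fun e he => by simp [he]⟩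
  · obtain ⟨k1, k2, k3⟩ := h3 e he
    simp only [he, if_true]
    refine ⟨k1, k2, ?_⟩
    have k4 := (ZMod.intCast_zmod_eq_zero_iff_dvd (a e - lo e) 3).2 (by exact_mod_cast k3)
    push_cast at k4
    rw [← hl e]
    exact sub_eq_zero.1 k4
  · rw [nine_bd_res hA, h4 v hv]
  · simpa only [he, if_true] using h5 he

/-- the combination of the two lifts -/
lemma nine_core {X : Finset V} {O : Finset E} {φ : E → ZMod 3} {ψ a : E → ℤ}
    (hnz : ∀ e ∈ G.tch X, e ∉ O → φ e ≠ 0) (h1 : ∀ v ∈ X, G.bd ψ v = 0)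
    (h2 : ∀ e, |ψ e| ≤ 2 ∧ (Odd (ψ e) ↔ e ∈ O)) (h3 : ∀ v ∈ X, G.bd a v = 0)
    (h4 : ∀ e ∈ G.ins X, -3 ≤ a e ∧ a e ≤ 3 ∧ (a e : ZMod 3) = ψ e - φ e) {e0 : E} {k : ℤ}
    (h5 : ∀ e ∈ G.cut X, |ψ e + 2 * a e| = 2 ∨ |ψ e + 2 * a e| = 4)
    (h6 : e0 ∈ G.cut X → |ψ e0 + 2 * a e0| = k) : G.Nn X e0 k := by
  refine ⟨fun e => ψ e + 2 * a e, fun v hv => ?_, fun e he => ⟨fun k0 => ?_, ?_⟩, h5, h6⟩
  · rw [bd_add, bd_mul, h1 v hv, h3 v hv]
    simp
  · have k0' : ψ e + 2 * a e = 0 := k0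
    by_cases ho : e ∈ O
    · obtain ⟨m, hm⟩ := (h2 e).2.2 ho
      omega
    · refine hnz e (nine_ins_tch he) ho ?_
      have k1 : ((ψ e + 2 * a e : ℤ) : ZMod 3) = 0 := by rw [k0']; simp
      push_cast at k1
      rw [(h4 e he).2.2] at k1
      have k2 : (3 : ZMod 3) = 0 := rfl
      linear_combination k1 - (ψ e - φ e) * k2
  · have k1 := abs_le.1 (h2 e).1
    have k2 := h4 e he
    show |ψ e + 2 * a e| ≤ 8
    exact abs_le.2 ⟨by omega, by omega⟩

/-- the value on the only leaving edge -/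
lemma nine_one {X : Finset V} {e : E} (hc : G.cut X = {e}) {f : E → ℤ}
    (hf : ∀ v ∈ X, G.bd f v = 0) :
    |f e| = |2 * ∑ x ∈ (G.ins X).filter (fun x => G.n x = 1), f x| := by
  have h1 := sum_bd (G := G) (R := ℤ) (fun _ => 0) X f
  rw [sum_eq_zero fun v hv => by rw [hf v hv, mul_zero]] at h1
  have he : e ∈ G.cut X := by rw [hc]; simp
  have heA := (mem_cut.1 he).1
  rw [← add_sum_erase _ _ heA] at h1
  have h2 : ∑ x ∈ G.A.erase e, G.kap (fun _ => 0) X x * f x =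
      2 * ∑ x ∈ (G.ins X).filter (fun x => G.n x = 1), f x := by
    rw [mul_sum]
    symm
    refine sum_subset_zero_on_sdiff (fun x hx => ?_) (fun x hx => ?_) fun x hx => ?_
    · have := (mem_filter.1 hx).1
      exact mem_erase.2 ⟨fun k => nine_cut_not_ins he (k ▸ this), ins_sub_A this⟩
    · obtain ⟨k1, k2⟩ := mem_sdiff.1 hx
      obtain ⟨k3, k4⟩ := mem_erase.1 k1
      have k5 : x ∉ G.cut X := by rw [hc]; simpa using k3
      rw [mem_cut] at k5
      by_cases k6 : G.s x ∈ X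
      · have k7 : G.t x ∈ X := by tauto
        have k8 : G.n x = 0 := (z2 _).resolve_right fun k =>
          k2 (mem_filter.2 ⟨mem_ins.2 ⟨k4, k6, k7⟩, k⟩)
        rw [kap_ins k6 k7]
        simp [sw, k8]
      · rw [kap_out k6 (by tauto), zero_mul]
    · obtain ⟨k1, k2⟩ := mem_filter.1 hx
      rw [kap_ins (mem_ins.1 k1).2.1 (mem_ins.1 k1).2.2]
      simp [sw, k2]
  rw [h2] at h1
  have h3 : (G.kap (fun _ => 0) X e : ℤ) = 1 ∨ (G.kap (fun _ => 0) X e : ℤ) = -1 := by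
    have k := (mem_cut.1 he).2
    by_cases k6 : G.s e ∈ X
    · have k7 : G.t e ∉ X := by tauto
      simp [kap, iv, k6, k7]
    · have k7 : G.t e ∈ X := by tauto
      rcases z2 (G.n e) with k8 | k8 <;> simp [kap, iv, k6, k7, k8]
  rcases h3 with h3 | h3 <;> rw [h3] at h1
  · rw [← abs_neg (f e)]
    congr 1
    linarith
  · congr 1
    linarith

lemma nine_par {X : Finset V} {O : Finset E} (hO : O ⊆ G.ins X) {ψ : E → ℤ}
    (h2 : ∀ e, Odd (ψ e) ↔ e ∈ O) :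
    ((∑ x ∈ (G.ins X).filter (fun x => G.n x = 1), ψ x : ℤ) : ZMod 2) = G.par O := by
  push_cast
  rw [par, sum_filter, ← sum_subset hO fun e _ he => ?_]
  · refine sum_congr rfl fun e he => ?_
    have : (ψ e : ZMod 2) = 1 := (ZMod.intCast_eq_one_iff_odd).2 ((h2 e).2 he)
    rcases z2 (G.n e) with k | k <;> simp [k, this]
  · have : (ψ e : ZMod 2) = 0 :=
      (ZMod.intCast_eq_zero_iff_even).2 (Int.not_odd_iff_even.1 fun k => he ((h2 e).1 k))
    simp [this]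

/-- changing the sign of a flow modulo three -/
lemma nine_neg {X : Finset V} {O : Finset E} {φ : E → ZMod 3} (h1 : ∀ v ∈ X, G.bd φ v = 0)
    (h2 : ∀ e ∈ G.tch X, e ∉ O → φ e ≠ 0) {e : E} (he : φ e ≠ 0) {r : ZMod 3} (hr : r ≠ 0) :
    ∃ φ' : E → ZMod 3, (∀ v ∈ X, G.bd φ' v = 0) ∧ (∀ e ∈ G.tch X, e ∉ O → φ' e ≠ 0) ∧
      φ' e = r := by
  by_cases k : φ e = r
  · exact ⟨φ, h1, h2, k⟩
  · refine ⟨fun x => -1 * φ x, fun v hv => by rw [bd_mul, h1 v hv, mul_zero],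
      fun x hx ho => by simpa using h2 x hx ho, ?_⟩
    have : ∀ a b : ZMod 3, a ≠ 0 → b ≠ 0 → a ≠ b → -1 * a = b := by decide
    exact this _ _ he hr k

lemma nine_rho {X : Finset V} {φ : E → ZMod 3} {ψ : E → ℤ} (h1 : ∀ v ∈ X, G.bd φ v = 0)
    (h2 : ∀ v ∈ X, G.bd ψ v = 0) : ∀ v ∈ X, G.bd (fun e => (ψ e : ZMod 3) - φ e) v = 0 := by
  intro v hv
  rw [nine_bd_sub, ← nine_bd_cast, h1 v hv, h2 v hv]
  simp

lemma nine_in {X : Finset V} {B : Finset E} (hB : G.ins X ⊆ B) {ρ : E → ZMod 3} {a lo hi : E → ℤ}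
    (h : ∀ e ∈ B, lo e ≤ a e ∧ a e ≤ hi e ∧ (a e : ZMod 3) = ρ e)
    (h1 : ∀ e ∈ G.ins X, lo e = nineLo (ρ e) ∧ hi e = nineHi (ρ e)) :
    ∀ e ∈ G.ins X, -3 ≤ a e ∧ a e ≤ 3 ∧ (a e : ZMod 3) = ρ e := by
  intro e he
  obtain ⟨k1, k2, k3⟩ := h e (hB he)
  have k4 := nine_box3 (ρ e)
  have k5 := h1 e he
  exact ⟨by omega, by omega, k3⟩

/-- the values in a box with nonzero residue -/
lemma nine_val {r : ZMod 3} {a : ℤ} (h1 : nineLo r ≤ a) (h2 : a ≤ nineHi r)
    (h3 : (a : ZMod 3) = r) (hr : r ≠ 0) :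
    (r = 1 ∧ nineLo r = -2 ∧ nineHi r = 1 ∧ (a = -2 ∨ a = 1)) ∨
      (r = 2 ∧ nineLo r = -1 ∧ nineHi r = 2 ∧ (a = -1 ∨ a = 2)) := by
  rcases nine_z3 r with rfl | rfl | rfl
  · exact absurd rfl hr
  · have k1 : nineLo 1 = -2 := by decide
    have k2 : nineHi 1 = 1 := by decide
    rw [k1] at h1
    rw [k2] at h2
    refine Or.inl ⟨rfl, k1, k2, ?_⟩
    interval_cases a <;> revert h3 <;> decide
  · have k1 : nineLo 2 = -1 := by decide
    have k2 : nineHi 2 = 2 := by decide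
    rw [k1] at h1
    rw [k2] at h2
    refine Or.inr ⟨rfl, k1, k2, ?_⟩
    interval_cases a <;> revert h3 <;> decide

lemma nine_zero [Fintype E] (hA : G.Adm) {X : Finset V} (h2 : G.Two X (G.ins X)) (e0 : E) (k : ℤ)
    (hc : G.cut X = ∅) : G.Nn X e0 k := by
  obtain ⟨O, hO, hE, hp, φ, h3, h4⟩ := cov_of_adm _ (hA.restrict hc)
  have hO' : O ⊆ G.ins X := hO
  obtain ⟨ψ, h5, h6, -⟩ := nine_lift2 h2 ins_sub_A Subset.rfl hO' hE (Or.inr hp)
  have hT : ∀ e ∈ G.tch X, e ∈ G.ins X := fun e he => by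
    have k1 : e ∉ G.cut X := by rw [hc]; simp
    rw [mem_cut] at k1
    rw [mem_tch] at he
    rw [mem_ins]
    tauto
  have h7 : ∀ v ∈ X, G.bd φ v = 0 := fun v hv => by
    rw [← h3 v]
    refine Eq.trans ?_ (nine_bd_res (B := G.ins X) ins_sub_A φ v)
    refine bd_congr fun e he ha => ?_
    rw [if_pos (hT e (nine_at he ha hv))]
  obtain ⟨a, h8, h9, -, -⟩ := nine_lift3 h2 ins_sub_A Subset.rfl _ (nine_rho h7 h5)
    (fun e he k => absurd he k) _ _ (fun e => nine_lo_cast _) (fun e => nine_box _)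
    (fun e he => by
      have : G.cut X = {e} := he
      rw [hc] at this
      exact absurd this.symm (singleton_ne_empty e)) e0 true
  exact nine_core (fun e he ho => h4 e (hT e he) ho) h5 h6 h9
    (nine_in ins_sub_A h8 fun e _ => ⟨rfl, rfl⟩) (by rw [hc]; simp) (by rw [hc]; simp)

lemma nine_single (hA : G.Adm) {X : Finset V} (h2 : G.Two X (G.ins X)) {e : E}
    (hc : G.cut X = {e}) {k : ℤ} (hk : k = 2 ∨ k = 4) : G.Nn X e k := by
  have hF := flex_of_cut hA.adm1 (W := X) (by rw [hc]; simp)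
  have he : e ∈ G.cut X := by rw [hc]; simp
  have hn := nine_cut_not_ins he
  have hB : G.ins X ⊆ G.A.erase e := fun x hx => mem_erase.2 ⟨fun k => hn (k ▸ hx), ins_sub_A hx⟩
  have fin : ∀ {f : E → ℤ}, |f e| = k → ∀ x ∈ G.cut X, |f x| = 2 ∨ |f x| = 4 := by
    intro f hf x hx
    rw [hc, mem_singleton] at hx
    rw [hx, hf]
    exact hk
  rcases hk with rfl | rfl
  · obtain ⟨O, hO, hE, hp, φ, h3, h4⟩ := hF.2
    have ho : e ∉ O := fun k => hn (hO k)
    obtain ⟨ψ, h5, h6, -⟩ := nine_lift2 h2 ins_sub_A Subset.rfl hO hE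
      (Or.inl ⟨e, (mem_cut.1 he).1, he⟩)
    have h7 : |ψ e| = 2 := by
      have k1 := nine_one hc h5
      have k2 := nine_par hO fun x => (h6 x).2
      rw [hp] at k2
      obtain ⟨m, hm⟩ := (ZMod.intCast_eq_one_iff_odd).1 k2
      have k3 := (h6 e).1
      rw [k1, hm] at k3
      rw [k1, hm]
      rcases abs_cases (2 * (2 * m + 1)) with k4 | k4 <;> omega
    obtain ⟨φ, h3, h4, h8⟩ := nine_neg h3 h4 (h4 e (nine_cut_tch he) ho) (r := (ψ e : ZMod 3)) (by
      rcases abs_eq (by norm_num : (0 : ℤ) ≤ 2) |>.1 h7 with k | k <;> rw [k] <;> decide)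
    obtain ⟨a, h9, h10, -, h11⟩ := nine_lift3 h2 hB (erase_subset _ _) _ (nine_rho h3 h5)
      (fun x hx k => by
        have : x = e := by simpa [hx] using k
        rw [this, h8, sub_self]) _ _ (fun e => nine_lo_cast _) (fun e => nine_box _)
      (fun x hx => by
        have k1 : x ∈ (G.nineRes (G.A.erase e)).cut X := by rw [hx]; simp
        obtain ⟨k2, k3⟩ := mem_cut.1 k1
        have k4 : x ∈ G.cut X := mem_cut.2 ⟨(mem_erase.1 k2).2, k3⟩
        rw [hc, mem_singleton] at k4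
        exact absurd k4 (mem_erase.1 k2).1) e true
    have h12 : |ψ e + 2 * a e| = 2 := by
      rw [h11 e (notMem_erase _ _)]
      simpa using h7
    exact nine_core h4 h5 h6 h10 (nine_in hB h9 fun e _ => ⟨rfl, rfl⟩)
      (fin (f := fun x => ψ x + 2 * a x) h12) fun _ => h12
  · obtain ⟨O, hO, hE, hp, φ, h3, h4⟩ := hF.1
    have ho : e ∉ O := fun k => hn (hO k)
    obtain ⟨ψ, h5, h6, h7⟩ := nine_lift2 h2 hB (erase_subset _ _) hO hE (Or.inr hp)
    have h7' := h7 e (notMem_erase _ _)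
    obtain ⟨φ, h3, h4, h8⟩ := nine_neg h3 h4 (h4 e (nine_cut_tch he) ho) (r := 2) (by decide)
    obtain ⟨a, h9, h10, h11, -⟩ := nine_lift3 h2 ins_sub_A Subset.rfl _ (nine_rho h3 h5)
      (fun e he k => absurd he k)
      (fun x => if x = e then -2 else nineLo ((ψ x : ZMod 3) - φ x))
      (fun x => if x = e then 4 else nineHi ((ψ x : ZMod 3) - φ x))
      (fun x => by
        split_ifs with k
        · rw [k, h7', h8]
          decide
        · exact nine_lo_cast _)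
      (fun x => by
        split_ifs with k
        · norm_num
        · exact nine_box _)
      (fun x hx => by
        have : G.cut X = {x} := hx
        rw [hc, singleton_inj] at this
        simp [this]) e false
    have heA := (mem_cut.1 he).1
    have h12 : |ψ e + 2 * a e| = 4 := by
      obtain ⟨k1, -, k2⟩ := h9 e heA
      have k3 := h11 heA
      have k4 := nine_one hc h10
      simp only [if_true, Bool.false_eq_true, if_false] at k1 k3
      rw [h7', h8] at k2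
      have k5 : a e = -2 ∨ a e = 1 := by
        generalize a e = z at k1 k2 k3
        interval_cases z <;> revert k2 <;> decide
      rw [h7']
      rcases k5 with k5 | k5 <;> rw [k5] at k4 ⊢
      · norm_num
      · exfalso
        rw [_root_.abs_one] at k4
        rcases abs_cases (2 * ∑ x ∈ (G.ins X).filter (fun x => G.n x = 1), a x) with k6 | k6 <;>
          omega
    exact nine_core h4 h5 h6 h10 (nine_in ins_sub_A h9 fun x hx => by
      have : x ≠ e := fun k => hn (k ▸ hx)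
      simp [this]) (fin (f := fun x => ψ x + 2 * a x) h12) fun _ => h12

lemma nine_many (hA : G.Adm) {X : Finset V} (h2 : G.Two X (G.ins X)) (e0 : E) {k : ℤ}
    (hk : k = 2 ∨ k = 4) (hc : 1 < (G.cut X).card) : G.Nn X e0 k := by
  obtain ⟨e1, he, hne⟩ := exists_mem_ne hc e0
  obtain ⟨ε, O, hO, hE, -, φ, h3, h4⟩ := sol_exists hA.adm1 X
  have hoc : ∀ x ∈ G.cut X, x ∉ O := fun x hx k => nine_cut_not_ins hx (hO k)
  obtain ⟨ψ, h5, h6, h7⟩ := nine_lift2 (B := insert e1 (G.ins X)) h2 (subset_insert _ _)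
    (insert_subset (mem_cut.1 he).1 ins_sub_A) hO hE (Or.inl ⟨e1, mem_insert_self _ _, he⟩)
  have h8 : ∀ x ∈ G.cut X, x ≠ e1 → ψ x = 0 := fun x hx hx1 =>
    h7 x fun k => (mem_insert.1 k).elim hx1 (nine_cut_not_ins hx)
  obtain ⟨φ, h3, h4, h9⟩ := nine_neg h3 h4 (h4 e1 (nine_cut_tch he) (hoc e1 he))
    (r := if ψ e1 = 2 then 1 else 2) (by split_ifs <;> decide)
  obtain ⟨a, h10, h11, h12, -⟩ := nine_lift3 h2 ins_sub_A Subset.rfl _ (nine_rho h3 h5)
    (fun e he k => absurd he k) _ _ (fun e => nine_lo_cast _) (fun e => nine_box _)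
    (fun e he => by
      have : G.cut X = {e} := he
      rw [this] at hc
      simp at hc) e0 (decide (k = 2 ↔ (ψ e0 : ZMod 3) - φ e0 = 1))
  have h13 : ∀ x ∈ G.cut X, x ≠ e1 → (ψ x : ZMod 3) - φ x ≠ 0 := fun x hx hx1 => by
    rw [h8 x hx hx1]
    simpa using h4 x (nine_cut_tch hx) (hoc x hx)
  refine nine_core h4 h5 h6 h11 (nine_in ins_sub_A h10 fun e _ => ⟨rfl, rfl⟩) (fun x hx => ?_)
    fun hx => ?_
  · obtain ⟨k1, k2, k3⟩ := h10 x (mem_cut.1 hx).1
    by_cases hx1 : x = e1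
    · subst hx1
      have k4 : ψ x = -2 ∨ ψ x = 0 ∨ ψ x = 2 := by
        have k5 := abs_le.1 (h6 x).1
        obtain ⟨m, hm⟩ := Int.not_odd_iff_even.1 fun k => hoc x hx ((h6 x).2.1 k)
        omega
      rw [h9] at k1 k2 k3
      rcases k4 with k4 | k4 | k4 <;> rw [k4] at k1 k2 k3 ⊢
      · rcases nine_val k1 k2 k3 (by decide) with ⟨k5, -, -, k6⟩ | ⟨k5, -, -, k6 | k6⟩
        · exact absurd k5 (by decide)
        all_goals rw [k6]; norm_num
      · rcases nine_val k1 k2 k3 (by decide) with ⟨k5, -, -, k6 | k6⟩ | ⟨k5, -, -, k6 | k6⟩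
        all_goals rw [k6]; norm_num
      · rcases nine_val k1 k2 k3 (by decide) with ⟨k5, -, -, k6 | k6⟩ | ⟨k5, -, -, k6⟩
        · rw [k6]; norm_num
        · rw [k6]; norm_num
        · exact absurd k5 (by decide)
    · rw [h8 x hx hx1]
      rcases nine_val k1 k2 k3 (h13 x hx hx1) with ⟨-, -, -, k6 | k6⟩ | ⟨-, -, -, k6 | k6⟩
      all_goals rw [k6]; norm_num
  · obtain ⟨k1, k2, k3⟩ := h10 e0 (mem_cut.1 hx).1
    have k4 := h12 (mem_cut.1 hx).1
    have k7 : (1 : ZMod 3) ≠ 2 := by decide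
    rcases nine_val k1 k2 k3 (h13 e0 hx hne.symm) with ⟨k5, k8, k9, k6⟩ | ⟨k5, k8, k9, k6⟩ <;>
      rw [k8, k9, k5] at k4 <;> rw [h8 e0 hx hne.symm] <;> rcases hk with rfl | rfl <;>
      rcases k6 with k6 | k6 <;> rw [k6] at k4 ⊢ <;> simp [k7.symm] at k4 ⊢

theorem nn_two [Fintype E] (hA : G.Adm) {X : Finset V} (h2 : G.Two X (G.ins X)) (e0 : E) {k : ℤ}
    (hk : k = 2 ∨ k = 4) : G.Nn X e0 k := by
  rcases Nat.lt_trichotomy (G.cut X).card 1 with h | h | h
  · exact nine_zero hA h2 e0 k (card_eq_zero.1 (by omega))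
  · obtain ⟨e, he⟩ := card_eq_one.1 h
    obtain ⟨f, h3, h4, h5, h6⟩ := nine_single hA h2 he hk
    refine ⟨f, h3, h4, h5, fun h7 => ?_⟩
    have h8 := h7
    rw [he, mem_singleton] at h8
    subst h8
    exact h6 h7
  · exact nine_many hA h2 e0 hk h

lemma nine_glue {X1 X2 : Finset V} (hd : Disjoint X1 X2) (hb : (G.tch X1 ∩ G.tch X2).card ≤ 1)
    {e0 : E} {k : ℤ} (h1 : G.Nn X1 e0 k) (h2 : ∀ e1, ∀ k1 : ℤ, k1 = 2 ∨ k1 = 4 → G.Nn X2 e1 k1)
    (h0 : e0 ∈ G.cut (X1 ∪ X2) → e0 ∈ G.tch X1) : G.Nn (X1 ∪ X2) e0 k := by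
  obtain ⟨f1, a1, a2, a3, a4⟩ := h1
  have hdd : ∀ v, v ∈ X1 → v ∉ X2 := fun v hv => disjoint_left.1 hd hv
  have key : ∃ f2 : E → ℤ, (∀ v ∈ X2, G.bd f2 v = 0) ∧ (∀ e ∈ G.ins X2, f2 e ≠ 0 ∧ |f2 e| ≤ 8) ∧
      (∀ e ∈ G.cut X2, |f2 e| = 2 ∨ |f2 e| = 4) ∧
      ∀ e ∈ G.tch X1 ∩ G.tch X2, f1 e = f2 e := by
    rcases (G.tch X1 ∩ G.tch X2).eq_empty_or_nonempty with h | ⟨e1, h⟩
    · obtain ⟨f2, b1, b2, b3, -⟩ := h2 e0 2 (Or.inl rfl)
      exact ⟨f2, b1, b2, b3, by rw [h]; simp⟩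
    · have hc : e1 ∈ G.cut X1 ∧ e1 ∈ G.cut X2 := by
        have k1 := hdd (G.s e1)
        have k2 := hdd (G.t e1)
        rw [mem_inter, mem_tch, mem_tch] at h
        rw [mem_cut, mem_cut]
        tauto
      obtain ⟨f2, b1, b2, b3, b4⟩ := h2 e1 _ (a3 e1 hc.1)
      have hu : ∀ e ∈ G.tch X1 ∩ G.tch X2, e = e1 := fun e he => card_le_one.1 hb e he e1 h
      rcases abs_eq_abs.1 (b4 hc.2) with k | k
      · exact ⟨f2, b1, b2, b3, fun e he => by rw [hu e he, k]⟩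
      · refine ⟨fun e => -1 * f2 e, fun v hv => by rw [bd_mul, b1 v hv, mul_zero],
          fun e he => by simpa using b2 e he, fun e he => by simpa using b3 e he, fun e he => ?_⟩
        show f1 e = -1 * f2 e
        rw [hu e he, k]
        ring
  obtain ⟨f2, b1, b2, b3, b4⟩ := key
  have hcut : ∀ e ∈ G.cut (X1 ∪ X2), (e ∈ G.tch X1 → e ∈ G.cut X1) ∧
      (e ∉ G.tch X1 → e ∈ G.cut X2) := by
    intro e he
    simp only [mem_cut, mem_tch, mem_union] at he ⊢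
    tauto
  refine ⟨fun e => if e ∈ G.tch X1 then f1 e else f2 e, fun v hv => ?_, fun e he => ?_,
    fun e he => ?_, fun he => ?_⟩
  · rcases mem_union.1 hv with hv | hv
    · rw [← a1 v hv]
      refine bd_congr fun e he ha => ?_
      rw [if_pos (nine_at he ha hv)]
    · rw [← b1 v hv]
      refine bd_congr fun e he ha => ?_
      split_ifs with k1
      · exact b4 e (mem_inter.2 ⟨k1, nine_at he ha hv⟩)
      · rfl
  · beta_reduce
    split_ifs with k1
    · by_cases k2 : e ∈ G.ins X1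
      · exact a2 e k2
      · have k3 : e ∈ G.cut X1 := by
          rw [mem_tch] at k1
          rw [mem_ins] at k2
          rw [mem_cut]
          tauto
        rcases a3 e k3 with k4 | k4 <;> refine ⟨fun k5 => ?_, by omega⟩ <;> simp [k5] at k4
    · refine b2 e ?_
      simp only [mem_ins, mem_tch, mem_union] at he k1 ⊢
      tauto
  · beta_reduce
    split_ifs with k1
    exacts [a3 e ((hcut e he).1 k1), b3 e ((hcut e he).2 k1)]
  · beta_reduce
    rw [if_pos (h0 he)]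
    exact a4 ((hcut e0 he).1 (h0 he))

theorem nn_all [Fintype E] (hA : G.Adm) (X : Finset V) (e0 : E) {k : ℤ} (hk : k = 2 ∨ k = 4) :
    G.Nn X e0 k := by
  induction X using Finset.strongInduction generalizing e0 k with
  | H X ih =>
    by_cases h2 : G.Two X (G.ins X)
    · exact nn_two hA h2 e0 hk
    unfold Two at h2
    push Not at h2
    obtain ⟨Y, hY, hn, hne, hc⟩ := h2
    have s1 : Y ⊂ X := Finset.ssubset_iff_subset_ne.2 ⟨hY, hne⟩
    have s2 : X \ Y ⊂ X := sdiff_ssubset hY hn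
    have hb : (G.tch Y ∩ G.tch (X \ Y)).card ≤ 1 := by
      rw [tch_inter hY]
      omega
    by_cases h0 : e0 ∈ G.tch Y
    · have := nine_glue disjoint_sdiff hb (ih Y s1 e0 hk) (fun e1 k1 h => ih _ s2 e1 h)
        fun _ => h0
      rwa [union_sdiff_of_subset hY] at this
    · have := nine_glue disjoint_sdiff.symm (by rwa [inter_comm]) (ih _ s2 e0 hk)
        (fun e1 k1 h => ih Y s1 e1 h) fun h => by
          simp only [mem_cut, mem_tch, mem_union] at h h0 ⊢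
          tauto
      rwa [sdiff_union_of_subset hY] at this

theorem nine [Fintype E] (hA : G.Adm) :
    ∃ f : E → ℤ, (∀ v, G.bd f v = 0) ∧ ∀ e ∈ G.A, f e ≠ 0 ∧ |f e| ≤ 8 := by
  rcases G.A.eq_empty_or_nonempty with h | ⟨e0, -⟩
  · exact ⟨fun _ => 0, fun v => by simp [bd], by rw [h]; simp⟩
  · obtain ⟨f, h1, h2, -⟩ := nn_all hA univ e0 (Or.inl rfl)
    exact ⟨f, fun v => h1 v (mem_univ v), fun e he => h2 e (mem_ins.2 ⟨he, mem_univ _, mem_univ _⟩)⟩

end SG

end Pool.Agent.Work.MP_8c679b_co
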